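import Pool.Agent.SPH4.Targets

set_option autoImplicit false
set_option linter.unusedSimpArgs false

/-!
# SPH4: positivity of the quadratic form, `m = 4`
-/

noncomputable section

open MeasureTheory Set Filter
open scoped ENNReal RealInnerProductSpace Topology

namespace Pool.Agent.SPH4

/-- the inner product of the projections to the complement of `u, v, w` -/
def ALG_Z {n : ℕ} (u v w x y : V n) : ℝ :=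
  ⟪x, y⟫ - ⟪u, x⟫ * ⟪u, y⟫ / ‖u‖ ^ 2 - ⟪v, x⟫ * ⟪v, y⟫ / ‖v‖ ^ 2 - ⟪w, x⟫ * ⟪w, y⟫ / ‖w‖ ^ 2

/-- the pairing of a vector with the image of the skew matrix -/
lemma ALG_skw {n : ℕ} (y δ w x : V n) :
    ⟪y, skw δ w x⟫ = ⟪w, x⟫ * ⟪δ, y⟫ - ⟪δ, x⟫ * ⟪w, y⟫ := by
  unfold skw
  rw [inner_sub_right, inner_smul_right, inner_smul_right, real_inner_comm y δ,
    real_inner_comm y w]

/-- the pairing of a vector with the image of the second matrix, `x = -2 w` -/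
lemma ALG_Bm {n : ℕ} (s w δ x y z : V n) (hw : w ≠ 0) (hx : x = (-2 : ℝ) • w) :
    ⟪y, Bm 0 δ s x z⟫ = (⟪s, z⟫ * ⟪δ, y⟫ - ⟪δ, z⟫ * ⟪s, y⟫) -
      (⟪s, z⟫ * ⟪w, δ⟫ - ⟪δ, z⟫ * ⟪w, s⟫) * ⟪w, y⟫ / ‖w‖ ^ 2 -
      ⟪w, z⟫ * (⟪w, s⟫ * ⟪δ, y⟫ - ⟪w, δ⟫ * ⟪s, y⟫) / ‖w‖ ^ 2 := by
  have hw' : ‖w‖ ^ 2 ≠ 0 := by
    simpa using hw
  have hn : ‖x‖ ^ 2 = 4 * ‖w‖ ^ 2 := by
    rw [hx, norm_smul, mul_pow]
    norm_num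
  unfold Bm
  rw [inner_smul_right, inner_sub_right, inner_sub_right, inner_smul_right, inner_smul_right,
    inner_smul_right, ALG_skw, ALG_skw, ALG_skw, hn, hx, inner_smul_left, inner_smul_right,
    inner_smul_right, inner_smul_right, real_inner_comm w δ,
    real_inner_comm w s, real_inner_comm w y]
  simp only [conj_trivial, add_zero]
  field_simp
  ring

/-- the claim for one pair -/
lemma ALG_pair {n : ℕ} (u v w δ y a b : V n) (huv : ⟪u, v⟫ = 0) (huw : ⟪u, w⟫ = 0)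
    (hvw : ⟪v, w⟫ = 0) (hu : u ≠ 0) (hv : v ≠ 0) (hw : w ≠ 0) (hδ : ⟪u + v + w, δ⟫ = 0)
    (hy : ⟪u - v - w, y⟫ = 0) (ha : a = (-2 : ℝ) • w) (hb : b = (-2 : ℝ) • v) :
    ⟪y, skw δ (u + v + w) (u - v - w) - (1 : ℝ) • (Bm 0 δ (u + v + w) a (u - v - w) +
      Bm 0 δ (u + v + w) b (u - v - w))⟫ = -(‖u‖ ^ 2 * ALG_Z u v w δ y +
        (‖w‖ ^ 2 * ⟪v, δ⟫ - ‖v‖ ^ 2 * ⟪w, δ⟫) * (‖w‖ ^ 2 * ⟪v, y⟫ - ‖v‖ ^ 2 * ⟪w, y⟫) *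
          (‖v‖ ^ 2 * ‖w‖ ^ 2)⁻¹) := by
  have hu' : ‖u‖ ^ 2 ≠ 0 := by simpa using hu
  have hv' : ‖v‖ ^ 2 ≠ 0 := by simpa using hv
  have hw' : ‖w‖ ^ 2 ≠ 0 := by simpa using hw
  rw [inner_sub_right, one_smul, inner_add_right, ALG_skw, ALG_Bm _ w _ _ _ _ hw ha,
    ALG_Bm _ v _ _ _ _ hv hb]
  have e1 : ⟪u + v + w, u - v - w⟫ = ‖u‖ ^ 2 - ‖v‖ ^ 2 - ‖w‖ ^ 2 := by
    simp only [inner_add_left, inner_sub_right, real_inner_self_eq_norm_sq, huv, huw, hvw,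
      real_inner_comm u v, real_inner_comm u w, real_inner_comm v w]
    ring
  have e2 : ⟪w, u + v + w⟫ = ‖w‖ ^ 2 := by
    simp only [inner_add_right, real_inner_self_eq_norm_sq, real_inner_comm u w,
      real_inner_comm v w, huw, hvw]
    ring
  have e3 : ⟪v, u + v + w⟫ = ‖v‖ ^ 2 := by
    simp only [inner_add_right, real_inner_self_eq_norm_sq, real_inner_comm u v, huv, hvw]
    ring
  have e4 : ⟪w, u - v - w⟫ = -‖w‖ ^ 2 := by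
    simp only [inner_sub_right, real_inner_self_eq_norm_sq, real_inner_comm u w,
      real_inner_comm v w, huw, hvw]
    ring
  have e5 : ⟪v, u - v - w⟫ = -‖v‖ ^ 2 := by
    simp only [inner_sub_right, real_inner_self_eq_norm_sq, real_inner_comm u v, huv, hvw]
    ring
  have e6 : ⟪δ, u - v - w⟫ = 2 * ⟪u, δ⟫ := by
    rw [inner_add_left, inner_add_left] at hδ
    rw [inner_sub_right, inner_sub_right, real_inner_comm u δ, real_inner_comm v δ,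
      real_inner_comm w δ]
    linarith
  have e7 : ⟪u + v + w, y⟫ = 2 * ⟪u, y⟫ := by
    rw [inner_sub_left, inner_sub_left] at hy
    rw [inner_add_left, inner_add_left]
    linarith
  have e8 : ⟪u, δ⟫ = -⟪v, δ⟫ - ⟪w, δ⟫ := by
    rw [inner_add_left, inner_add_left] at hδ
    linarith
  have e9 : ⟪u, y⟫ = ⟪v, y⟫ + ⟪w, y⟫ := by
    rw [inner_sub_left, inner_sub_left] at hy
    linarith
  rw [e1, e2, e3, e4, e5, e6, e7]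
  unfold ALG_Z
  rw [e8, e9]
  field_simp
  ring

/-- the claim for one pair, with the definition of the matrix -/
lemma ALG_gen {n : ℕ} (ω : Fin 4 → V n) (i j k l : Fin 4) (u v w δ y : V n)
    (hf : Finset.univ.filter (fun m => m ≠ i ∧ m ≠ j) = {k, l}) (hkl : k ≠ l)
    (hi : ω i = u + v + w) (hj : ω j = u - v - w) (hk : ω j + ω k = (-2 : ℝ) • w)
    (hl : ω j + ω l = (-2 : ℝ) • v) (huv : ⟪u, v⟫ = 0) (huw : ⟪u, w⟫ = 0)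
    (hvw : ⟪v, w⟫ = 0) (hu : u ≠ 0) (hv : v ≠ 0) (hw : w ≠ 0) (hδ : ⟪ω i, δ⟫ = 0)
    (hy : ⟪ω j, y⟫ = 0) :
    ⟪y, Cm 1 0 i j ω δ⟫ = -(‖u‖ ^ 2 * ALG_Z u v w δ y +
        (‖w‖ ^ 2 * ⟪v, δ⟫ - ‖v‖ ^ 2 * ⟪w, δ⟫) * (‖w‖ ^ 2 * ⟪v, y⟫ - ‖v‖ ^ 2 * ⟪w, y⟫) *
          (‖v‖ ^ 2 * ‖w‖ ^ 2)⁻¹) := by
  unfold Cm
  rw [hf, Finset.sum_pair hkl, hk, hl, hi, hj]
  rw [hi] at hδ
  rw [hj] at hy
  exact ALG_pair u v w δ y _ _ huv huw hvw hu hv hw hδ hy rfl rfl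

/-- the form is positive -/
lemma ALG_nonneg {n : ℕ} (u v w x : V n) (huv : ⟪u, v⟫ = 0) (huw : ⟪u, w⟫ = 0)
    (hvw : ⟪v, w⟫ = 0) (hu : u ≠ 0) (hv : v ≠ 0) (hw : w ≠ 0) : 0 ≤ ALG_Z u v w x x := by
  have hu' : ‖u‖ ^ 2 ≠ 0 := by simpa using hu
  have hv' : ‖v‖ ^ 2 ≠ 0 := by simpa using hv
  have hw' : ‖w‖ ^ 2 ≠ 0 := by simpa using hw
  have h : ALG_Z u v w x x = ‖x - (⟪u, x⟫ / ‖u‖ ^ 2) • u - (⟪v, x⟫ / ‖v‖ ^ 2) • v -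
      (⟪w, x⟫ / ‖w‖ ^ 2) • w‖ ^ 2 := by
    unfold ALG_Z
    rw [← real_inner_self_eq_norm_sq (x - (⟪u, x⟫ / ‖u‖ ^ 2) • u - (⟪v, x⟫ / ‖v‖ ^ 2) • v -
      (⟪w, x⟫ / ‖w‖ ^ 2) • w)]
    simp only [inner_sub_left, inner_sub_right, inner_smul_left, inner_smul_right,
      real_inner_self_eq_norm_sq, real_inner_comm u v, real_inner_comm u w, real_inner_comm v w,
      huv, huw, hvw, real_inner_comm u x, real_inner_comm v x, real_inner_comm w x, conj_trivial]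
    field_simp
    ring
  rw [h]
  positivity

/-- the form is symmetric and bilinear -/
lemma ALG_add {n : ℕ} (u v w x y : V n) :
    ALG_Z u v w (x + y) (x + y) = ALG_Z u v w x x + 2 * ALG_Z u v w x y + ALG_Z u v w y y := by
  unfold ALG_Z
  simp only [inner_add_left, inner_add_right, real_inner_comm x y]
  ring

/-- Lagrange identity -/
lemma ALG_lag (P Q R a b c : ℝ) (hP : P ≠ 0) (hQ : Q ≠ 0) (hR : R ≠ 0) (h : P + Q + R = 1)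
    (h0 : a + b + c = 0) : a * a / P + b * b / Q + c * c / R = (R * b - Q * c) ^ 2 * (Q * R)⁻¹ +
      (R * a - P * c) ^ 2 * (P * R)⁻¹ + (Q * a - P * b) ^ 2 * (P * Q)⁻¹ := by
  have h1 : a * a / P + b * b / Q + c * c / R = (a * a / P + b * b / Q + c * c / R) *
      (P + Q + R) - (a + b + c) ^ 2 := by rw [h, h0]; ring
  rw [h1]
  field_simp
  ring

/-- ALG: positivity on the zero sum configurations -/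
theorem p_ALG : T_ALG := by
  intro n ω x h1 hs hne ht
  have hs' : ω 3 = -(ω 0 + ω 1 + ω 2) := by
    rw [Fin.sum_univ_four] at hs
    rw [eq_neg_iff_add_eq_zero, ← hs]
    abel
  obtain ⟨u, hu⟩ : ∃ u, u = (1 / 2 : ℝ) • (ω 0 + ω 1) := ⟨_, rfl⟩
  obtain ⟨v, hv⟩ : ∃ v, v = (1 / 2 : ℝ) • (ω 0 + ω 2) := ⟨_, rfl⟩
  obtain ⟨w, hw⟩ : ∃ w, w = (1 / 2 : ℝ) • (ω 0 + ω 3) := ⟨_, rfl⟩
  have w0 : ω 0 = u + v + w := by rw [hu, hv, hw, hs']; module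
  have w1 : ω 1 = u - v - w := by rw [hu, hv, hw, hs']; module
  have w2 : ω 2 = -u + v - w := by rw [hu, hv, hw, hs']; module
  have w3 : ω 3 = -u - v + w := by rw [hu, hv, hw, hs']; module
  have hu0 : u ≠ 0 := by
    rw [hu]
    exact smul_ne_zero (by norm_num) (hne 0 1 (by decide))
  have hv0 : v ≠ 0 := by
    rw [hv]
    exact smul_ne_zero (by norm_num) (hne 0 2 (by decide))
  have hw0 : w ≠ 0 := by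
    rw [hw]
    exact smul_ne_zero (by norm_num) (hne 0 3 (by decide))
  clear hu hv hw hs'
  have n0 : ⟪ω 0, ω 0⟫ = 1 := by rw [real_inner_self_eq_norm_sq, h1]; norm_num
  have n1 : ⟪ω 1, ω 1⟫ = 1 := by rw [real_inner_self_eq_norm_sq, h1]; norm_num
  have n2 : ⟪ω 2, ω 2⟫ = 1 := by rw [real_inner_self_eq_norm_sq, h1]; norm_num
  have n3 : ⟪ω 3, ω 3⟫ = 1 := by rw [real_inner_self_eq_norm_sq, h1]; norm_num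
  rw [w0] at n0
  rw [w1] at n1
  rw [w2] at n2
  rw [w3] at n3
  simp only [inner_add_left, inner_add_right, inner_sub_left, inner_sub_right, inner_neg_left,
    inner_neg_right, real_inner_comm u v, real_inner_comm u w, real_inner_comm v w] at n0 n1 n2 n3
  have huv : ⟪u, v⟫ = 0 := by linarith
  have huw : ⟪u, w⟫ = 0 := by linarith
  have hvw : ⟪v, w⟫ = 0 := by linarith
  have hvu : ⟪v, u⟫ = 0 := by rw [real_inner_comm, huv]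
  have hwu : ⟪w, u⟫ = 0 := by rw [real_inner_comm, huw]
  have hwv : ⟪w, v⟫ = 0 := by rw [real_inner_comm, hvw]
  have hsum : ‖u‖ ^ 2 + ‖v‖ ^ 2 + ‖w‖ ^ 2 = 1 := by
    rw [← real_inner_self_eq_norm_sq, ← real_inner_self_eq_norm_sq, ← real_inner_self_eq_norm_sq]
    linarith
  have hu' : 0 < ‖u‖ ^ 2 := by positivity
  have hv' : 0 < ‖v‖ ^ 2 := by positivity
  have hw' : 0 < ‖w‖ ^ 2 := by positivity
  have B : ∀ i j, 0 ≤ ALG_Z u v w (x i) (x i) + 2 * ALG_Z u v w (x i) (x j) +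
      ALG_Z u v w (x j) (x j) := by
    intro i j
    rw [← ALG_add]
    exact ALG_nonneg u v w _ huv huw hvw hu0 hv0 hw0
  have e01 : ⟪x 1, Cm 1 0 0 1 ω (x 0)⟫ = -(‖u‖ ^ 2 * ALG_Z u v w (x 0) (x 1) +
      (‖w‖ ^ 2 * ⟪v, x 0⟫ - ‖v‖ ^ 2 * ⟪w, x 0⟫) * (‖w‖ ^ 2 * ⟪v, x 1⟫ - ‖v‖ ^ 2 * ⟪w, x 1⟫) *
        (‖v‖ ^ 2 * ‖w‖ ^ 2)⁻¹) := by
    refine (ALG_gen ω 0 1 2 3 u v w (x 0) (x 1) (by decide) (by decide)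
      (by rw [w0] <;> module) (by rw [w1] <;> module) (by rw [w1, w2]; module)
      (by rw [w1, w3]; module)
      (by simp [huv, huw, hvw, hvu, hwu, hwv])
      (by simp [huv, huw, hvw, hvu, hwu, hwv])
      (by simp [huv, huw, hvw, hvu, hwu, hwv])
      (by simpa using hu0) (by simpa using hv0)
      (by simpa using hw0) (ht 0) (ht 1)).trans ?_
    rfl
  have e10 : ⟪x 0, Cm 1 0 1 0 ω (x 1)⟫ = -(‖u‖ ^ 2 * ALG_Z u v w (x 0) (x 1) +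
      (‖w‖ ^ 2 * ⟪v, x 1⟫ - ‖v‖ ^ 2 * ⟪w, x 1⟫) * (‖w‖ ^ 2 * ⟪v, x 0⟫ - ‖v‖ ^ 2 * ⟪w, x 0⟫) *
        (‖v‖ ^ 2 * ‖w‖ ^ 2)⁻¹) := by
    refine (ALG_gen ω 1 0 3 2 u (-v) (-w) (x 1) (x 0) (by decide) (by decide)
      (by rw [w1] <;> module) (by rw [w0] <;> module) (by rw [w0, w3]; module)
      (by rw [w0, w2]; module)
      (by simp [huv, huw, hvw, hvu, hwu, hwv])
      (by simp [huv, huw, hvw, hvu, hwu, hwv])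
      (by simp [huv, huw, hvw, hvu, hwu, hwv])
      (by simpa using hu0) (by simpa using hv0)
      (by simpa using hw0) (ht 1) (ht 0)).trans ?_
    unfold ALG_Z
    simp only [norm_neg, inner_neg_left]
    rw [real_inner_comm (x 0) (x 1)]
    ring
  have e02 : ⟪x 2, Cm 1 0 0 2 ω (x 0)⟫ = -(‖v‖ ^ 2 * ALG_Z u v w (x 0) (x 2) +
      (‖w‖ ^ 2 * ⟪u, x 0⟫ - ‖u‖ ^ 2 * ⟪w, x 0⟫) * (‖w‖ ^ 2 * ⟪u, x 2⟫ - ‖u‖ ^ 2 * ⟪w, x 2⟫) *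
        (‖u‖ ^ 2 * ‖w‖ ^ 2)⁻¹) := by
    refine (ALG_gen ω 0 2 1 3 v u w (x 0) (x 2) (by decide) (by decide)
      (by rw [w0] <;> module) (by rw [w2] <;> module) (by rw [w2, w1]; module)
      (by rw [w2, w3]; module)
      (by simp [huv, huw, hvw, hvu, hwu, hwv])
      (by simp [huv, huw, hvw, hvu, hwu, hwv])
      (by simp [huv, huw, hvw, hvu, hwu, hwv])
      (by simpa using hv0) (by simpa using hu0)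
      (by simpa using hw0) (ht 0) (ht 2)).trans ?_
    unfold ALG_Z
    try simp only [norm_neg, inner_neg_left]
    ring
  have e20 : ⟪x 0, Cm 1 0 2 0 ω (x 2)⟫ = -(‖v‖ ^ 2 * ALG_Z u v w (x 0) (x 2) +
      (‖w‖ ^ 2 * ⟪u, x 2⟫ - ‖u‖ ^ 2 * ⟪w, x 2⟫) * (‖w‖ ^ 2 * ⟪u, x 0⟫ - ‖u‖ ^ 2 * ⟪w, x 0⟫) *
        (‖u‖ ^ 2 * ‖w‖ ^ 2)⁻¹) := by
    refine (ALG_gen ω 2 0 3 1 v (-u) (-w) (x 2) (x 0) (by decide) (by decide)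
      (by rw [w2] <;> module) (by rw [w0] <;> module) (by rw [w0, w3]; module)
      (by rw [w0, w1]; module)
      (by simp [huv, huw, hvw, hvu, hwu, hwv])
      (by simp [huv, huw, hvw, hvu, hwu, hwv])
      (by simp [huv, huw, hvw, hvu, hwu, hwv])
      (by simpa using hv0) (by simpa using hu0)
      (by simpa using hw0) (ht 2) (ht 0)).trans ?_
    unfold ALG_Z
    simp only [norm_neg, inner_neg_left]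
    rw [real_inner_comm (x 0) (x 2)]
    ring
  have e03 : ⟪x 3, Cm 1 0 0 3 ω (x 0)⟫ = -(‖w‖ ^ 2 * ALG_Z u v w (x 0) (x 3) +
      (‖v‖ ^ 2 * ⟪u, x 0⟫ - ‖u‖ ^ 2 * ⟪v, x 0⟫) * (‖v‖ ^ 2 * ⟪u, x 3⟫ - ‖u‖ ^ 2 * ⟪v, x 3⟫) *
        (‖u‖ ^ 2 * ‖v‖ ^ 2)⁻¹) := by
    refine (ALG_gen ω 0 3 1 2 w u v (x 0) (x 3) (by decide) (by decide)
      (by rw [w0] <;> module) (by rw [w3] <;> module) (by rw [w3, w1]; module)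
      (by rw [w3, w2]; module)
      (by simp [huv, huw, hvw, hvu, hwu, hwv])
      (by simp [huv, huw, hvw, hvu, hwu, hwv])
      (by simp [huv, huw, hvw, hvu, hwu, hwv])
      (by simpa using hw0) (by simpa using hu0)
      (by simpa using hv0) (ht 0) (ht 3)).trans ?_
    unfold ALG_Z
    try simp only [norm_neg, inner_neg_left]
    ring
  have e30 : ⟪x 0, Cm 1 0 3 0 ω (x 3)⟫ = -(‖w‖ ^ 2 * ALG_Z u v w (x 0) (x 3) +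
      (‖v‖ ^ 2 * ⟪u, x 3⟫ - ‖u‖ ^ 2 * ⟪v, x 3⟫) * (‖v‖ ^ 2 * ⟪u, x 0⟫ - ‖u‖ ^ 2 * ⟪v, x 0⟫) *
        (‖u‖ ^ 2 * ‖v‖ ^ 2)⁻¹) := by
    refine (ALG_gen ω 3 0 2 1 w (-u) (-v) (x 3) (x 0) (by decide) (by decide)
      (by rw [w3] <;> module) (by rw [w0] <;> module) (by rw [w0, w2]; module)
      (by rw [w0, w1]; module)
      (by simp [huv, huw, hvw, hvu, hwu, hwv])
      (by simp [huv, huw, hvw, hvu, hwu, hwv])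
      (by simp [huv, huw, hvw, hvu, hwu, hwv])
      (by simpa using hw0) (by simpa using hu0)
      (by simpa using hv0) (ht 3) (ht 0)).trans ?_
    unfold ALG_Z
    simp only [norm_neg, inner_neg_left]
    rw [real_inner_comm (x 0) (x 3)]
    ring
  have e12 : ⟪x 2, Cm 1 0 1 2 ω (x 1)⟫ = -(‖w‖ ^ 2 * ALG_Z u v w (x 1) (x 2) +
      (‖v‖ ^ 2 * ⟪u, x 1⟫ + ‖u‖ ^ 2 * ⟪v, x 1⟫) * (‖v‖ ^ 2 * ⟪u, x 2⟫ + ‖u‖ ^ 2 * ⟪v, x 2⟫) *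
        (‖u‖ ^ 2 * ‖v‖ ^ 2)⁻¹) := by
    refine (ALG_gen ω 1 2 0 3 (-w) u (-v) (x 1) (x 2) (by decide) (by decide)
      (by rw [w1] <;> module) (by rw [w2] <;> module) (by rw [w2, w0]; module)
      (by rw [w2, w3]; module)
      (by simp [huv, huw, hvw, hvu, hwu, hwv])
      (by simp [huv, huw, hvw, hvu, hwu, hwv])
      (by simp [huv, huw, hvw, hvu, hwu, hwv])
      (by simpa using hw0) (by simpa using hu0)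
      (by simpa using hv0) (ht 1) (ht 2)).trans ?_
    unfold ALG_Z
    simp only [norm_neg, inner_neg_left]
    ring
  have e21 : ⟪x 1, Cm 1 0 2 1 ω (x 2)⟫ = -(‖w‖ ^ 2 * ALG_Z u v w (x 1) (x 2) +
      (‖v‖ ^ 2 * ⟪u, x 2⟫ + ‖u‖ ^ 2 * ⟪v, x 2⟫) * (‖v‖ ^ 2 * ⟪u, x 1⟫ + ‖u‖ ^ 2 * ⟪v, x 1⟫) *
        (‖u‖ ^ 2 * ‖v‖ ^ 2)⁻¹) := by
    refine (ALG_gen ω 2 1 3 0 (-w) (-u) v (x 2) (x 1) (by decide) (by decide)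
      (by rw [w2] <;> module) (by rw [w1] <;> module) (by rw [w1, w3]; module)
      (by rw [w1, w0]; module)
      (by simp [huv, huw, hvw, hvu, hwu, hwv])
      (by simp [huv, huw, hvw, hvu, hwu, hwv])
      (by simp [huv, huw, hvw, hvu, hwu, hwv])
      (by simpa using hw0) (by simpa using hu0)
      (by simpa using hv0) (ht 2) (ht 1)).trans ?_
    unfold ALG_Z
    simp only [norm_neg, inner_neg_left]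
    rw [real_inner_comm (x 1) (x 2)]
    ring
  have e13 : ⟪x 3, Cm 1 0 1 3 ω (x 1)⟫ = -(‖v‖ ^ 2 * ALG_Z u v w (x 1) (x 3) +
      (‖w‖ ^ 2 * ⟪u, x 1⟫ + ‖u‖ ^ 2 * ⟪w, x 1⟫) * (‖w‖ ^ 2 * ⟪u, x 3⟫ + ‖u‖ ^ 2 * ⟪w, x 3⟫) *
        (‖u‖ ^ 2 * ‖w‖ ^ 2)⁻¹) := by
    refine (ALG_gen ω 1 3 0 2 (-v) u (-w) (x 1) (x 3) (by decide) (by decide)
      (by rw [w1] <;> module) (by rw [w3] <;> module) (by rw [w3, w0]; module)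
      (by rw [w3, w2]; module)
      (by simp [huv, huw, hvw, hvu, hwu, hwv])
      (by simp [huv, huw, hvw, hvu, hwu, hwv])
      (by simp [huv, huw, hvw, hvu, hwu, hwv])
      (by simpa using hv0) (by simpa using hu0)
      (by simpa using hw0) (ht 1) (ht 3)).trans ?_
    unfold ALG_Z
    simp only [norm_neg, inner_neg_left]
    ring
  have e31 : ⟪x 1, Cm 1 0 3 1 ω (x 3)⟫ = -(‖v‖ ^ 2 * ALG_Z u v w (x 1) (x 3) +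
      (‖w‖ ^ 2 * ⟪u, x 3⟫ + ‖u‖ ^ 2 * ⟪w, x 3⟫) * (‖w‖ ^ 2 * ⟪u, x 1⟫ + ‖u‖ ^ 2 * ⟪w, x 1⟫) *
        (‖u‖ ^ 2 * ‖w‖ ^ 2)⁻¹) := by
    refine (ALG_gen ω 3 1 2 0 (-v) (-u) w (x 3) (x 1) (by decide) (by decide)
      (by rw [w3] <;> module) (by rw [w1] <;> module) (by rw [w1, w2]; module)
      (by rw [w1, w0]; module)
      (by simp [huv, huw, hvw, hvu, hwu, hwv])
      (by simp [huv, huw, hvw, hvu, hwu, hwv])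
      (by simp [huv, huw, hvw, hvu, hwu, hwv])
      (by simpa using hv0) (by simpa using hu0)
      (by simpa using hw0) (ht 3) (ht 1)).trans ?_
    unfold ALG_Z
    simp only [norm_neg, inner_neg_left]
    rw [real_inner_comm (x 1) (x 3)]
    ring
  have e23 : ⟪x 3, Cm 1 0 2 3 ω (x 2)⟫ = -(‖u‖ ^ 2 * ALG_Z u v w (x 2) (x 3) +
      (‖w‖ ^ 2 * ⟪v, x 2⟫ + ‖v‖ ^ 2 * ⟪w, x 2⟫) * (‖w‖ ^ 2 * ⟪v, x 3⟫ + ‖v‖ ^ 2 * ⟪w, x 3⟫) *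
        (‖v‖ ^ 2 * ‖w‖ ^ 2)⁻¹) := by
    refine (ALG_gen ω 2 3 0 1 (-u) v (-w) (x 2) (x 3) (by decide) (by decide)
      (by rw [w2] <;> module) (by rw [w3] <;> module) (by rw [w3, w0]; module)
      (by rw [w3, w1]; module)
      (by simp [huv, huw, hvw, hvu, hwu, hwv])
      (by simp [huv, huw, hvw, hvu, hwu, hwv])
      (by simp [huv, huw, hvw, hvu, hwu, hwv])
      (by simpa using hu0) (by simpa using hv0)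
      (by simpa using hw0) (ht 2) (ht 3)).trans ?_
    unfold ALG_Z
    simp only [norm_neg, inner_neg_left]
    ring
  have e32 : ⟪x 2, Cm 1 0 3 2 ω (x 3)⟫ = -(‖u‖ ^ 2 * ALG_Z u v w (x 2) (x 3) +
      (‖w‖ ^ 2 * ⟪v, x 3⟫ + ‖v‖ ^ 2 * ⟪w, x 3⟫) * (‖w‖ ^ 2 * ⟪v, x 2⟫ + ‖v‖ ^ 2 * ⟪w, x 2⟫) *
        (‖v‖ ^ 2 * ‖w‖ ^ 2)⁻¹) := by
    refine (ALG_gen ω 3 2 1 0 (-u) (-v) w (x 3) (x 2) (by decide) (by decide)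
      (by rw [w3] <;> module) (by rw [w2] <;> module) (by rw [w2, w1]; module)
      (by rw [w2, w0]; module)
      (by simp [huv, huw, hvw, hvu, hwu, hwv])
      (by simp [huv, huw, hvw, hvu, hwu, hwv])
      (by simp [huv, huw, hvw, hvu, hwu, hwv])
      (by simpa using hu0) (by simpa using hv0)
      (by simpa using hw0) (ht 3) (ht 2)).trans ?_
    unfold ALG_Z
    simp only [norm_neg, inner_neg_left]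
    rw [real_inner_comm (x 2) (x 3)]
    ring
  have m0 : ‖x 0‖ ^ 2 = (‖u‖ ^ 2 + ‖v‖ ^ 2 + ‖w‖ ^ 2) * ALG_Z u v w (x 0) (x 0) +
      ((‖w‖ ^ 2 * ⟪v, x 0⟫ - ‖v‖ ^ 2 * ⟪w, x 0⟫) ^ 2 * (‖v‖ ^ 2 * ‖w‖ ^ 2)⁻¹ +
      (‖w‖ ^ 2 * ⟪u, x 0⟫ - ‖u‖ ^ 2 * ⟪w, x 0⟫) ^ 2 * (‖u‖ ^ 2 * ‖w‖ ^ 2)⁻¹ +
      (‖v‖ ^ 2 * ⟪u, x 0⟫ - ‖u‖ ^ 2 * ⟪v, x 0⟫) ^ 2 * (‖u‖ ^ 2 * ‖v‖ ^ 2)⁻¹) := by
    have g := ALG_lag (‖u‖ ^ 2) (‖v‖ ^ 2) (‖w‖ ^ 2) (⟪u, x 0⟫) (⟪v, x 0⟫) (⟪w, x 0⟫)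
      hu'.ne' hv'.ne' hw'.ne' hsum (by
        have := ht 0
        rw [w0] at this
        simp only [inner_add_left, inner_sub_left, inner_neg_left] at this
        linarith)
    rw [hsum]
    unfold ALG_Z
    rw [real_inner_self_eq_norm_sq (x 0)]
    linear_combination g
  have m1 : ‖x 1‖ ^ 2 = (‖u‖ ^ 2 + ‖v‖ ^ 2 + ‖w‖ ^ 2) * ALG_Z u v w (x 1) (x 1) +
      ((‖w‖ ^ 2 * ⟪v, x 1⟫ - ‖v‖ ^ 2 * ⟪w, x 1⟫) ^ 2 * (‖v‖ ^ 2 * ‖w‖ ^ 2)⁻¹ +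
      (‖v‖ ^ 2 * ⟪u, x 1⟫ + ‖u‖ ^ 2 * ⟪v, x 1⟫) ^ 2 * (‖u‖ ^ 2 * ‖v‖ ^ 2)⁻¹ +
      (‖w‖ ^ 2 * ⟪u, x 1⟫ + ‖u‖ ^ 2 * ⟪w, x 1⟫) ^ 2 * (‖u‖ ^ 2 * ‖w‖ ^ 2)⁻¹) := by
    have g := ALG_lag (‖u‖ ^ 2) (‖v‖ ^ 2) (‖w‖ ^ 2) (⟪u, x 1⟫) (-⟪v, x 1⟫) (-⟪w, x 1⟫)
      hu'.ne' hv'.ne' hw'.ne' hsum (by
        have := ht 1
        rw [w1] at this
        simp only [inner_add_left, inner_sub_left, inner_neg_left] at this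
        linarith)
    rw [hsum]
    unfold ALG_Z
    rw [real_inner_self_eq_norm_sq (x 1)]
    linear_combination g
  have m2 : ‖x 2‖ ^ 2 = (‖u‖ ^ 2 + ‖v‖ ^ 2 + ‖w‖ ^ 2) * ALG_Z u v w (x 2) (x 2) +
      ((‖w‖ ^ 2 * ⟪u, x 2⟫ - ‖u‖ ^ 2 * ⟪w, x 2⟫) ^ 2 * (‖u‖ ^ 2 * ‖w‖ ^ 2)⁻¹ +
      (‖v‖ ^ 2 * ⟪u, x 2⟫ + ‖u‖ ^ 2 * ⟪v, x 2⟫) ^ 2 * (‖u‖ ^ 2 * ‖v‖ ^ 2)⁻¹ +
      (‖w‖ ^ 2 * ⟪v, x 2⟫ + ‖v‖ ^ 2 * ⟪w, x 2⟫) ^ 2 * (‖v‖ ^ 2 * ‖w‖ ^ 2)⁻¹) := by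
    have g := ALG_lag (‖u‖ ^ 2) (‖v‖ ^ 2) (‖w‖ ^ 2) (-⟪u, x 2⟫) (⟪v, x 2⟫) (-⟪w, x 2⟫)
      hu'.ne' hv'.ne' hw'.ne' hsum (by
        have := ht 2
        rw [w2] at this
        simp only [inner_add_left, inner_sub_left, inner_neg_left] at this
        linarith)
    rw [hsum]
    unfold ALG_Z
    rw [real_inner_self_eq_norm_sq (x 2)]
    linear_combination g
  have m3 : ‖x 3‖ ^ 2 = (‖u‖ ^ 2 + ‖v‖ ^ 2 + ‖w‖ ^ 2) * ALG_Z u v w (x 3) (x 3) +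
      ((‖v‖ ^ 2 * ⟪u, x 3⟫ - ‖u‖ ^ 2 * ⟪v, x 3⟫) ^ 2 * (‖u‖ ^ 2 * ‖v‖ ^ 2)⁻¹ +
      (‖w‖ ^ 2 * ⟪u, x 3⟫ + ‖u‖ ^ 2 * ⟪w, x 3⟫) ^ 2 * (‖u‖ ^ 2 * ‖w‖ ^ 2)⁻¹ +
      (‖w‖ ^ 2 * ⟪v, x 3⟫ + ‖v‖ ^ 2 * ⟪w, x 3⟫) ^ 2 * (‖v‖ ^ 2 * ‖w‖ ^ 2)⁻¹) := by
    have g := ALG_lag (‖u‖ ^ 2) (‖v‖ ^ 2) (‖w‖ ^ 2) (-⟪u, x 3⟫) (-⟪v, x 3⟫) (⟪w, x 3⟫)
      hu'.ne' hv'.ne' hw'.ne' hsum (by
        have := ht 3
        rw [w3] at this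
        simp only [inner_add_left, inner_sub_left, inner_neg_left] at this
        linarith)
    rw [hsum]
    unfold ALG_Z
    rw [real_inner_self_eq_norm_sq (x 3)]
    linear_combination g
  have p01 : 0 ≤ ‖u‖ ^ 2 * (ALG_Z u v w (x 0) (x 0) + 2 * ALG_Z u v w (x 0) (x 1) +
      ALG_Z u v w (x 1) (x 1)) := mul_nonneg (by positivity) (B 0 1)
  have q01 : 0 ≤ ((‖w‖ ^ 2 * ⟪v, x 0⟫ - ‖v‖ ^ 2 * ⟪w, x 0⟫) +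
      (‖w‖ ^ 2 * ⟪v, x 1⟫ - ‖v‖ ^ 2 * ⟪w, x 1⟫)) ^ 2 * (‖v‖ ^ 2 * ‖w‖ ^ 2)⁻¹ := by positivity
  have p02 : 0 ≤ ‖v‖ ^ 2 * (ALG_Z u v w (x 0) (x 0) + 2 * ALG_Z u v w (x 0) (x 2) +
      ALG_Z u v w (x 2) (x 2)) := mul_nonneg (by positivity) (B 0 2)
  have q02 : 0 ≤ ((‖w‖ ^ 2 * ⟪u, x 0⟫ - ‖u‖ ^ 2 * ⟪w, x 0⟫) +
      (‖w‖ ^ 2 * ⟪u, x 2⟫ - ‖u‖ ^ 2 * ⟪w, x 2⟫)) ^ 2 * (‖u‖ ^ 2 * ‖w‖ ^ 2)⁻¹ := by positivity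
  have p03 : 0 ≤ ‖w‖ ^ 2 * (ALG_Z u v w (x 0) (x 0) + 2 * ALG_Z u v w (x 0) (x 3) +
      ALG_Z u v w (x 3) (x 3)) := mul_nonneg (by positivity) (B 0 3)
  have q03 : 0 ≤ ((‖v‖ ^ 2 * ⟪u, x 0⟫ - ‖u‖ ^ 2 * ⟪v, x 0⟫) +
      (‖v‖ ^ 2 * ⟪u, x 3⟫ - ‖u‖ ^ 2 * ⟪v, x 3⟫)) ^ 2 * (‖u‖ ^ 2 * ‖v‖ ^ 2)⁻¹ := by positivity
  have p12 : 0 ≤ ‖w‖ ^ 2 * (ALG_Z u v w (x 1) (x 1) + 2 * ALG_Z u v w (x 1) (x 2) +
      ALG_Z u v w (x 2) (x 2)) := mul_nonneg (by positivity) (B 1 2)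
  have q12 : 0 ≤ ((‖v‖ ^ 2 * ⟪u, x 1⟫ + ‖u‖ ^ 2 * ⟪v, x 1⟫) +
      (‖v‖ ^ 2 * ⟪u, x 2⟫ + ‖u‖ ^ 2 * ⟪v, x 2⟫)) ^ 2 * (‖u‖ ^ 2 * ‖v‖ ^ 2)⁻¹ := by positivity
  have p13 : 0 ≤ ‖v‖ ^ 2 * (ALG_Z u v w (x 1) (x 1) + 2 * ALG_Z u v w (x 1) (x 3) +
      ALG_Z u v w (x 3) (x 3)) := mul_nonneg (by positivity) (B 1 3)
  have q13 : 0 ≤ ((‖w‖ ^ 2 * ⟪u, x 1⟫ + ‖u‖ ^ 2 * ⟪w, x 1⟫) +
      (‖w‖ ^ 2 * ⟪u, x 3⟫ + ‖u‖ ^ 2 * ⟪w, x 3⟫)) ^ 2 * (‖u‖ ^ 2 * ‖w‖ ^ 2)⁻¹ := by positivity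
  have p23 : 0 ≤ ‖u‖ ^ 2 * (ALG_Z u v w (x 2) (x 2) + 2 * ALG_Z u v w (x 2) (x 3) +
      ALG_Z u v w (x 3) (x 3)) := mul_nonneg (by positivity) (B 2 3)
  have q23 : 0 ≤ ((‖w‖ ^ 2 * ⟪v, x 2⟫ + ‖v‖ ^ 2 * ⟪w, x 2⟫) +
      (‖w‖ ^ 2 * ⟪v, x 3⟫ + ‖v‖ ^ 2 * ⟪w, x 3⟫)) ^ 2 * (‖v‖ ^ 2 * ‖w‖ ^ 2)⁻¹ := by positivity
  unfold Qf
  simp only [Finset.sum_erase_eq_sub (Finset.mem_univ _), Fin.sum_univ_four]
  rw [e01, e02, e03, e10, e12, e13, e20, e21, e23, e30, e31, e32, m0, m1, m2, m3]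
  linarith

end Pool.Agent.SPH4
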