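import Pool.Agent.SPH4.Targets
import Pool.Agent.ExpMax.INV
import Pool.Agent.ExpMax.BASIC
import Pool.Agent.ExpMax.ROTD
import Pool.Agent.ExpMax.DECAY

set_option autoImplicit false

/-!
# BESS: the fourth power of the Fourier transform of the sphere measure is integrable
-/

noncomputable section

open MeasureTheory Set Filter
open scoped ENNReal RealInnerProductSpace Topology

namespace Pool.Agent.SPH4

open Pool.Agent.ExpMax

/-- the derivative of the energy -/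
theorem BESS_deriv (k : ℕ) {U U1 U2 : ℝ → ℝ} (hU : ∀ r, HasDerivAt U (U1 r) r)
    (hU1 : ∀ r, HasDerivAt U1 (U2 r) r)
    (hode : ∀ r, 0 < r → U2 r + ((k : ℝ) + 1) / r * U1 r + U r = 0) (r : ℝ) (hr : 0 < r) :
    HasDerivAt (fun x => x ^ (k + 1) * ((U1 x + ((k : ℝ) + 1) / 2 * (U x * x⁻¹)) ^ 2 + U x ^ 2))
      (r ^ (k + 1) * (2 * (((k : ℝ) + 1) * ((k : ℝ) - 1) / 4) *
        ((U1 r + ((k : ℝ) + 1) / 2 * (U r * r⁻¹)) * U r) / r ^ 2)) r := by
  have h1 : HasDerivAt (fun x : ℝ => x ^ (k + 1)) (((k + 1 : ℕ) : ℝ) * r ^ (k + 1 - 1)) r :=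
    hasDerivAt_pow (k + 1) r
  have h2 : HasDerivAt (fun x : ℝ => U x * x⁻¹) (U1 r * r⁻¹ + U r * (-(r ^ 2)⁻¹)) r :=
    (hU r).mul (hasDerivAt_inv hr.ne')
  have h3 : HasDerivAt (fun x => U1 x + ((k : ℝ) + 1) / 2 * (U x * x⁻¹))
      (U2 r + ((k : ℝ) + 1) / 2 * (U1 r * r⁻¹ + U r * (-(r ^ 2)⁻¹))) r :=
    (hU1 r).add (h2.const_mul _)
  have h4 := h1.mul ((h3.pow 2).add ((hU r).pow 2))
  refine h4.congr_deriv ?_
  have h5 : U2 r = -(((k : ℝ) + 1) / r * U1 r) - U r := by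
    have := hode r hr
    linarith
  rw [h5]
  simp only [Nat.cast_add, Nat.cast_one, Nat.cast_ofNat, pow_succ r k, Pi.add_apply,
    Pi.pow_apply, Nat.add_one_sub_one, pow_one]
  field_simp
  ring

/-- decay of the solutions of the Bessel equation -/
theorem BESS_decay (k : ℕ) {U U1 U2 : ℝ → ℝ} (hU : ∀ r, HasDerivAt U (U1 r) r)
    (hU1 : ∀ r, HasDerivAt U1 (U2 r) r)
    (hode : ∀ r, 0 < r → U2 r + ((k : ℝ) + 1) / r * U1 r + U r = 0) :
    ∃ C : ℝ, 0 < C ∧ ∀ r, 1 ≤ r → U r ^ 2 * r ^ (k + 1) ≤ C := by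
  set ν : ℝ := |((k : ℝ) + 1) * ((k : ℝ) - 1) / 4| with hν
  set P : ℝ → ℝ := fun x => U1 x + ((k : ℝ) + 1) / 2 * (U x * x⁻¹) with hP
  set H : ℝ → ℝ := fun x => x ^ (k + 1) * (P x ^ 2 + U x ^ 2) with hH
  have hHd : ∀ r, 0 < r → HasDerivAt H (r ^ (k + 1) * (2 * (((k : ℝ) + 1) * ((k : ℝ) - 1) / 4) *
      (P r * U r) / r ^ 2)) r := fun r hr => BESS_deriv k hU hU1 hode r hr
  have hed : ∀ r : ℝ, 0 < r → HasDerivAt (fun x => Real.exp (ν * x⁻¹))
      (Real.exp (ν * r⁻¹) * (ν * -(r ^ 2)⁻¹)) r := fun r hr =>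
    ((hasDerivAt_inv hr.ne').const_mul ν).exp
  have hanti : AntitoneOn (fun x => H x * Real.exp (ν * x⁻¹)) (Ici 1) := by
    refine antitoneOn_of_deriv_nonpos (convex_Ici 1) ?_ ?_ ?_
    · intro x hx
      have hx0 : 0 < x := lt_of_lt_of_le one_pos hx
      exact ((hHd x hx0).mul (hed x hx0)).continuousAt.continuousWithinAt
    · intro x hx
      rw [interior_Ici] at hx
      have hx0 : 0 < x := one_pos.trans hx
      exact ((hHd x hx0).mul (hed x hx0)).differentiableAt.differentiableWithinAt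
    · intro x hx
      rw [interior_Ici] at hx
      have hx0 : 0 < x := one_pos.trans hx
      have hd := ((hHd x hx0).mul (hed x hx0)).deriv
      change deriv (fun x => H x * Real.exp (ν * x⁻¹)) x = _ at hd
      rw [hd]
      have h1 : 2 * (((k : ℝ) + 1) * ((k : ℝ) - 1) / 4) * (P x * U x) ≤
          ν * (P x ^ 2 + U x ^ 2) := by
        have a1 : 2 * |P x * U x| ≤ P x ^ 2 + U x ^ 2 := by
          rw [abs_mul]
          nlinarith [sq_nonneg (|P x| - |U x|), sq_abs (P x), sq_abs (U x)]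
        calc 2 * (((k : ℝ) + 1) * ((k : ℝ) - 1) / 4) * (P x * U x)
            ≤ |2 * (((k : ℝ) + 1) * ((k : ℝ) - 1) / 4) * (P x * U x)| := le_abs_self _
          _ = ν * (2 * |P x * U x|) := by
              rw [abs_mul, abs_mul, abs_of_pos (by norm_num : (0 : ℝ) < 2)]
              ring
          _ ≤ ν * (P x ^ 2 + U x ^ 2) := mul_le_mul_of_nonneg_left a1 (abs_nonneg _)
      have h2 : x ^ (k + 1) * (2 * (((k : ℝ) + 1) * ((k : ℝ) - 1) / 4) * (P x * U x) / x ^ 2) ≤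
          H x * (ν * (x ^ 2)⁻¹) := by
        have a2 : x ^ (k + 1) * (2 * (((k : ℝ) + 1) * ((k : ℝ) - 1) / 4) * (P x * U x) / x ^ 2) =
          x ^ (k + 1) * (x ^ 2)⁻¹ * (2 * (((k : ℝ) + 1) * ((k : ℝ) - 1) / 4) * (P x * U x)) := by
          rw [div_eq_mul_inv]
          ring
        have a3 : H x * (ν * (x ^ 2)⁻¹) =
            x ^ (k + 1) * (x ^ 2)⁻¹ * (ν * (P x ^ 2 + U x ^ 2)) := by
          simp only [hH]
          ring
        rw [a2, a3]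
        exact mul_le_mul_of_nonneg_left h1 (by positivity)
      have h3 := mul_le_mul_of_nonneg_right h2 (Real.exp_pos (ν * x⁻¹)).le
      nlinarith
  refine ⟨H 1 * Real.exp (ν * 1⁻¹) + 1, ?_, fun r hr => ?_⟩
  · have : 0 ≤ H 1 := by simp only [hH]; positivity
    positivity
  · have h1 := hanti (mem_Ici.2 le_rfl) (mem_Ici.2 hr) hr
    simp only at h1
    have hr0 : 0 < r := lt_of_lt_of_le one_pos hr
    have h2 : 0 ≤ H r := by simp only [hH]; positivity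
    have h3 : H r ≤ H r * Real.exp (ν * r⁻¹) :=
      le_mul_of_one_le_right h2 (Real.one_le_exp (by positivity))
    have h4 : U r ^ 2 * r ^ (k + 1) ≤ H r := by
      simp only [hH]
      have : 0 ≤ r ^ (k + 1) * P r ^ 2 := by positivity
      nlinarith
    linarith

/-- the Bessel decay of `u0` -/
theorem BESS_bound (F : Type) [NormedAddCommGroup F] [InnerProductSpace ℝ F]
    [FiniteDimensional ℝ F] [MeasurableSpace F] [BorelSpace F] (k : ℕ)
    (hk : Module.finrank ℝ F = k + 2) :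
    ∃ C : ℝ, 0 < C ∧ ∀ y : F, 1 ≤ ‖y‖ → u0 y ^ 2 * ‖y‖ ^ (k + 1) ≤ C := by
  have hn : 2 ≤ Module.finrank ℝ F := by omega
  have hn1 : 1 ≤ Module.finrank ℝ F := by omega
  have hP : IsProbabilityMeasure (prb F) := (tINV F hn1).1
  obtain ⟨-, hcont, hrad, habs, -, -, hquad⟩ := tBASIC tINV F hn1
  set i₀ : Fin (Module.finrank ℝ F) := ⟨0, by omega⟩ with hi₀
  set e : F := stdOrthonormalBasis ℝ F i₀ with he
  have he1 : ‖e‖ = 1 := (stdOrthonormalBasis ℝ F).orthonormal.1 i₀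
  set U : ℝ → ℝ := fun r => ∫ ω, ⟪(ω : F), e⟫ ^ 0 * Real.cos (r * ⟪(ω : F), e⟫) ∂(prb F) with hU
  set U1 : ℝ → ℝ := fun r => -∫ ω, ⟪(ω : F), e⟫ ^ 1 * Real.sin (r * ⟪(ω : F), e⟫) ∂(prb F) with hU1
  set U2 : ℝ → ℝ := fun r => -∫ ω, ⟪(ω : F), e⟫ ^ 2 * Real.cos (r * ⟪(ω : F), e⟫) ∂(prb F) with hU2
  have hdU : ∀ r, HasDerivAt U (U1 r) r := fun r =>
    DECAY_derivCos (DECAY_meas e) (DECAY_le he1) 0 r
  have hdU1 : ∀ r, HasDerivAt U1 (U2 r) r := fun r =>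
    (DECAY_derivSin (DECAY_meas e) (DECAY_le he1) 1 r).neg
  have hUy : ∀ y : F, u0 y = U ‖y‖ := by
    intro y
    have h1 : u0 y = u0 (‖y‖ • e) := hrad _ _ (by rw [norm_smul, he1, mul_one, norm_norm])
    rw [h1]
    simp only [u0, hU, pow_zero, one_mul, real_inner_smul_right]
  obtain ⟨C, hC, hdec⟩ := BESS_decay k hdU hdU1 (fun r hr => by
    have h := DECAY_ode hP hn (tROTD tINV F hn1) i₀ r hr
    have h2 : (Module.finrank ℝ F : ℝ) - 1 = (k : ℝ) + 1 := by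
      rw [hk]
      push_cast
      ring
    rw [h2] at h
    exact h)
  exact ⟨C, hC, fun y hy => by rw [hUy]; exact hdec _ hy⟩

theorem p_BESS : T_BESS := by
  intro n hn
  obtain ⟨k, rfl⟩ : ∃ k, n = k + 2 := ⟨n - 2, by omega⟩
  have hfin : Module.finrank ℝ (V (k + 2)) = k + 2 := by simp
  have hn1 : 1 ≤ Module.finrank ℝ (V (k + 2)) := by omega
  obtain ⟨C, hC, hdec⟩ := BESS_bound (V (k + 2)) k hfin
  obtain ⟨-, hcont, -, habs, -⟩ := tBASIC tINV (V (k + 2)) hn1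
  set r : ℝ := 2 * ((k : ℝ) + 1) with hr
  have hint : Integrable (fun y : V (k + 2) => (1 + ‖y‖) ^ (-r)) := by
    refine integrable_one_add_norm ?_
    rw [hfin, hr]
    have : (1 : ℝ) ≤ k := by
      have : 1 ≤ k := by omega
      exact_mod_cast this
    push_cast
    linarith
  refine Integrable.mono' (hint.const_mul ((C + 1) ^ 2 * 4 ^ (k + 1)))
    ((hcont.pow 4).aestronglyMeasurable) (Eventually.of_forall fun y => ?_)
  have hpos : (0 : ℝ) < 1 + ‖y‖ := by positivity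
  have e1 : (1 + ‖y‖) ^ (-r) = ((1 + ‖y‖) ^ (2 * (k + 1)))⁻¹ := by
    rw [Real.rpow_neg hpos.le, hr]
    congr 1
    have : (2 * ((k : ℝ) + 1)) = ((2 * (k + 1) : ℕ) : ℝ) := by push_cast; ring
    rw [this, Real.rpow_natCast]
  have e2 : ‖u0 y ^ 4‖ = (u0 y ^ 2) ^ 2 := by
    rw [Real.norm_eq_abs, abs_of_nonneg (by positivity)]
    ring
  rw [e1, e2, ← div_eq_mul_inv, le_div_iff₀ (by positivity)]
  have e3 : (u0 y ^ 2) ^ 2 * (1 + ‖y‖) ^ (2 * (k + 1)) =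
      (u0 y ^ 2 * (1 + ‖y‖) ^ (k + 1)) ^ 2 := by
    rw [mul_pow, ← pow_mul (1 + ‖y‖) (k + 1) 2, mul_comm (k + 1) 2]
  have e4 : (C + 1) ^ 2 * (4 : ℝ) ^ (k + 1) = ((C + 1) * 2 ^ (k + 1)) ^ 2 := by
    rw [mul_pow, ← pow_mul (2 : ℝ) (k + 1) 2, mul_comm (k + 1) 2, pow_mul (2 : ℝ) 2 (k + 1)]
    norm_num
  rw [e3, e4]
  refine pow_le_pow_left₀ (by positivity) ?_ 2
  rcases le_total 1 ‖y‖ with h | h
  · have h1 := hdec y h
    have h2 : (1 + ‖y‖) ^ (k + 1) ≤ (2 * ‖y‖) ^ (k + 1) :=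
      pow_le_pow_left₀ hpos.le (by linarith) _
    calc u0 y ^ 2 * (1 + ‖y‖) ^ (k + 1) ≤ u0 y ^ 2 * (2 * ‖y‖) ^ (k + 1) :=
          mul_le_mul_of_nonneg_left h2 (sq_nonneg _)
      _ = u0 y ^ 2 * ‖y‖ ^ (k + 1) * 2 ^ (k + 1) := by rw [mul_pow]; ring
      _ ≤ (C + 1) * 2 ^ (k + 1) := mul_le_mul_of_nonneg_right (by linarith) (by positivity)
  · have h1 : u0 y ^ 2 ≤ 1 := by
      have := habs y
      rw [← sq_abs]
      exact pow_le_one₀ (abs_nonneg _) this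
    have h2 : (1 + ‖y‖) ^ (k + 1) ≤ 2 ^ (k + 1) := pow_le_pow_left₀ hpos.le (by linarith) _
    calc u0 y ^ 2 * (1 + ‖y‖) ^ (k + 1) ≤ 1 * 2 ^ (k + 1) :=
          mul_le_mul h1 h2 (by positivity) zero_le_one
      _ ≤ (C + 1) * 2 ^ (k + 1) := mul_le_mul_of_nonneg_right (by linarith) (by positivity)

end Pool.Agent.SPH4
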