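import Pool.Agent.SPH4.Targets
import Pool.Agent.ExpMax.INV

set_option autoImplicit false

/-!
# CONT: the multilinear inequality for continuous functions
-/

noncomputable section

open MeasureTheory Set Filter
open scoped ENNReal RealInnerProductSpace Topology

namespace Pool.Agent.SPH4

open Pool.Agent.ExpMax

/-- Coordinate functions on the sphere. -/
def CONT_coord (n : ℕ) (i : Fin n) : C(Sp n, ℝ) :=
  ⟨fun ω => (ω : V n) i, by fun_prop⟩

/-- The algebra map from polynomials to continuous functions on the sphere. -/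
def CONT_alg (n : ℕ) : MvPolynomial (Fin n) ℝ →ₐ[ℝ] C(Sp n, ℝ) :=
  MvPolynomial.aeval (CONT_coord n)

lemma CONT_alg_apply (n : ℕ) (p : MvPolynomial (Fin n) ℝ) (ω : Sp n) :
    CONT_alg n p ω = MvPolynomial.eval (fun i => (ω : V n) i) p := by
  have h : (ContinuousMap.evalAlgHom ℝ ℝ ω : C(Sp n, ℝ) →ₐ[ℝ] ℝ).comp (CONT_alg n) =
      MvPolynomial.aeval (fun i => (ω : V n) i) := by
    apply MvPolynomial.algHom_ext
    intro i
    simp [CONT_alg, CONT_coord]
  have h2 := congrArg (fun φ => φ p) h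
  simpa [MvPolynomial.coe_aeval_eq_eval] using h2

/-- Stone–Weierstrass on the sphere. -/
lemma CONT_sw (n : ℕ) (g : Sp n → ℝ) (hg : Continuous g) (η : ℝ) (hη : 0 < η) :
    ∃ p : MvPolynomial (Fin n) ℝ, ∀ ω : Sp n,
      g ω < MvPolynomial.eval (fun i => (ω : V n) i) p ∧
      MvPolynomial.eval (fun i => (ω : V n) i) p < g ω + η := by
  have hsep : (CONT_alg n).range.SeparatesPoints := by
    intro x y hxy
    have hne : (x : V n) ≠ y := fun h => hxy (Subtype.ext h)
    have : ∃ i, (x : V n) i ≠ (y : V n) i := by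
      by_contra hcon
      push Not at hcon
      exact hne (by ext i; exact hcon i)
    obtain ⟨i, hi⟩ := this
    refine ⟨CONT_coord n i, ⟨CONT_coord n i, ?_, rfl⟩, hi⟩
    refine ⟨MvPolynomial.X i, ?_⟩
    simp [CONT_alg]
  obtain ⟨⟨q, p, rfl⟩, hp⟩ :=
    ContinuousMap.exists_mem_subalgebra_near_continuous_of_separatesPoints (CONT_alg n).range hsep
      (fun ω => g ω + η / 2) (by fun_prop) (η / 2) (by positivity)
  refine ⟨p, fun ω => ?_⟩
  have h := hp ω
  rw [Real.norm_eq_abs, abs_lt] at h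
  have h1 : CONT_alg n p ω = MvPolynomial.eval (fun i => (ω : V n) i) p := CONT_alg_apply n p ω
  have h2 : ((CONT_alg n).toRingHom p) ω = CONT_alg n p ω := rfl
  constructor
  · have := h.1
    simp only at this
    rw [← h1]
    change -(η / 2) < CONT_alg n p ω - (g ω + η / 2) at this
    linarith
  · have := h.2
    rw [← h1]
    change CONT_alg n p ω - (g ω + η / 2) < η / 2 at this
    linarith

lemma CONT_prob (n : ℕ) (hn : 1 ≤ n) : IsProbabilityMeasure (prb (V n)) :=
  (tINV (V n) (by simpa using hn)).1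

/-- CONT -/
theorem p_CONT (hMULTI : T_MULTI) : T_CONT := by
  intro n hn f hfc hf0 δ hδ
  have : IsProbabilityMeasure (prb (V n)) := CONT_prob n (by omega)
  have : IsProbabilityMeasure (pm n 4) := by unfold pm; infer_instance
  -- choice of `η`
  obtain ⟨η, hη, hηle⟩ : ∃ η : ℝ, 0 < η ∧
      ∏ j, √(∫ ω : Sp n, f j ω ^ 2 ∂(prb (V n)) + η) ≤
        ∏ j, √(∫ ω : Sp n, f j ω ^ 2 ∂(prb (V n))) + δ / 2 := by
    have hc : Continuous (fun η : ℝ => ∏ j, √((∫ ω : Sp n, f j ω ^ 2 ∂(prb (V n))) + η)) := by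
      fun_prop
    have ht : Tendsto (fun η : ℝ => ∏ j, √((∫ ω : Sp n, f j ω ^ 2 ∂(prb (V n))) + η)) (𝓝[>] 0)
        (𝓝 (∏ j, √((∫ ω : Sp n, f j ω ^ 2 ∂(prb (V n))) + 0))) :=
      (hc.tendsto 0).mono_left nhdsWithin_le_nhds
    simp only [add_zero] at ht
    have he := ht.eventually_le_const
      (show ∏ j, √(∫ ω : Sp n, f j ω ^ 2 ∂(prb (V n))) <
        ∏ j, √(∫ ω : Sp n, f j ω ^ 2 ∂(prb (V n))) + δ / 2 by linarith)
    have he2 : ∀ᶠ η : ℝ in 𝓝[>] 0, 0 < η := eventually_mem_nhdsWithin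
    obtain ⟨η, h1, h2⟩ := (he.and he2).exists
    exact ⟨η, h2, h1⟩
  -- the polynomials
  have hP : ∀ j, ∃ p : MvPolynomial (Fin n) ℝ, ∀ ω : Sp n,
      f j ω ^ 2 < MvPolynomial.eval (fun i => (ω : V n) i) p ∧
      MvPolynomial.eval (fun i => (ω : V n) i) p < f j ω ^ 2 + η := fun j =>
    CONT_sw n (fun ω => f j ω ^ 2) ((hfc j).pow 2) η hη
  choose p hp using hP
  have hcp : ∀ j, Continuous (fun ω : Sp n => MvPolynomial.eval (fun i => (ω : V n) i) (p j)) := by
    intro j
    have : (fun ω : Sp n => MvPolynomial.eval (fun i => (ω : V n) i) (p j)) =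
        fun ω => CONT_alg n (p j) ω := by
      funext ω; rw [CONT_alg_apply]
    rw [this]
    exact (CONT_alg n (p j)).continuous
  obtain ⟨ε₀, hε₀, hmain⟩ := hMULTI n hn p (by
    intro j x hx
    have := (hp j ⟨x, by simpa using hx⟩).1
    exact lt_of_le_of_lt (sq_nonneg _) this) (δ / 2) (by positivity)
  refine ⟨ε₀, hε₀, fun ε hε hlt => ?_⟩
  have h1 := hmain ε hε hlt
  have hvec : Continuous (fun ω : Fin 4 → Sp n => ∑ i, vec ω i) := by
    unfold vec
    fun_prop
  have hwt : Continuous (fun ω : Fin 4 → Sp n => wt ε (∑ i, vec ω i)) := by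
    unfold wt
    exact Real.continuous_exp.comp (((hvec.norm.pow 2).div_const _).neg)
  have hint : ∀ g : (Fin 4 → Sp n) → ℝ, Continuous g → Integrable g (pm n 4) := fun g hg =>
    hg.integrable_of_hasCompactSupport (HasCompactSupport.of_compactSpace _)
  have hwpos : ∀ s : V n, 0 < wt ε s := fun s => Real.exp_pos _
  have hI1 : 0 < Ie (n := n) (m := 4) ε (fun _ => 1) := by
    unfold Ie
    simp only [one_mul]
    rw [integral_pos_iff_support_of_nonneg (fun ω => (hwpos _).le) (hint _ hwt)]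
    have : Function.support (fun ω : Fin 4 → Sp n => wt ε (∑ i, vec ω i)) = univ := by
      ext ω
      simp [(hwpos _).ne']
    rw [this]
    simp
  -- monotonicity
  have h2 : ∫ ω : Fin 4 → Sp n, (∏ j, f j (ω j)) * wt ε (∑ i, vec ω i) ∂(pm n 4) ≤
      Ie ε (fun ω : Fin 4 → V n => ∏ j, √(MvPolynomial.eval (fun i => ω j i) (p j))) := by
    unfold Ie
    apply integral_mono
    · apply hint
      exact (continuous_finsetProd _ fun j _ => (hfc j).comp (continuous_apply j)).mul hwt
    · apply hint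
      refine Continuous.mul ?_ hwt
      refine continuous_finsetProd _ fun j _ => ?_
      exact ((hcp j).comp (continuous_apply j)).sqrt
    · intro ω
      refine mul_le_mul_of_nonneg_right ?_ (hwpos _).le
      refine Finset.prod_le_prod (fun j _ => hf0 j _) fun j _ => ?_
      apply Real.le_sqrt_of_sq_le
      exact (hp j (ω j)).1.le
  have h3 : Ie ε (fun ω : Fin 4 → V n => ∏ j, √(MvPolynomial.eval (fun i => ω j i) (p j))) =
      Ee ε (fun ω : Fin 4 → V n => ∏ j, √(MvPolynomial.eval (fun i => ω j i) (p j))) *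
        Ie (n := n) (m := 4) ε (fun _ => 1) := by
    unfold Ee
    field_simp
  have h4 : ∏ j, √(∫ ω : Sp n, MvPolynomial.eval (fun i => (ω : V n) i) (p j) ∂(prb (V n))) ≤
      ∏ j, √(∫ ω : Sp n, f j ω ^ 2 ∂(prb (V n)) + η) := by
    refine Finset.prod_le_prod (fun j _ => Real.sqrt_nonneg _) fun j _ => ?_
    apply Real.sqrt_le_sqrt
    have hi1 : Integrable (fun ω : Sp n => MvPolynomial.eval (fun i => (ω : V n) i) (p j))
        (prb (V n)) :=
      (hcp j).integrable_of_hasCompactSupport (HasCompactSupport.of_compactSpace _)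
    have hi2 : Integrable (fun ω : Sp n => f j ω ^ 2) (prb (V n)) :=
      ((hfc j).pow 2).integrable_of_hasCompactSupport (HasCompactSupport.of_compactSpace _)
    calc ∫ ω : Sp n, MvPolynomial.eval (fun i => (ω : V n) i) (p j) ∂(prb (V n)) ≤
        ∫ ω : Sp n, (f j ω ^ 2 + η) ∂(prb (V n)) := by
          apply integral_mono hi1 (hi2.add (integrable_const η))
          intro ω
          exact (hp j ω).2.le
      _ = ∫ ω : Sp n, f j ω ^ 2 ∂(prb (V n)) + η := by
          rw [integral_add hi2 (integrable_const η)]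
          simp
  calc ∫ ω : Fin 4 → Sp n, (∏ j, f j (ω j)) * wt ε (∑ i, vec ω i) ∂(pm n 4) ≤ _ := h2
    _ = _ := h3
    _ ≤ (∏ j, √(∫ ω : Sp n, f j ω ^ 2 ∂(prb (V n))) + δ) *
          Ie (n := n) (m := 4) ε (fun _ => 1) := by
        refine mul_le_mul_of_nonneg_right ?_ hI1.le
        linarith

end Pool.Agent.SPH4
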