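import Pool.Agent.SPH4.Targets
import Pool.Agent.ExpMax.BASIC
import Pool.Agent.ExpMax.EXTC
import Pool.Agent.ExpMax.INV

set_option autoImplicit false
set_option linter.unusedSectionVars false

/-!
# CORE4: the extension inequality in `L ^ 2`, in all Euclidean spaces
-/

noncomputable section

open MeasureTheory Set Filter
open scoped ENNReal RealInnerProductSpace Topology Pointwise

namespace Pool.Agent.SPH4

open Pool.Agent.ExpMax

/-! ### Transport by a linear isometry -/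

section

variable {F H : Type} [NormedAddCommGroup F] [InnerProductSpace ℝ F] [FiniteDimensional ℝ F]
    [MeasurableSpace F] [BorelSpace F] [NormedAddCommGroup H] [InnerProductSpace ℝ H]
    [FiniteDimensional ℝ H] [MeasurableSpace H] [BorelSpace H]

omit [FiniteDimensional ℝ F] [MeasurableSpace F] [BorelSpace F] [FiniteDimensional ℝ H]
  [MeasurableSpace H] [BorelSpace H] in
theorem CORE4_mem (R : F ≃ₗᵢ[ℝ] H) (ω : Metric.sphere (0 : F) 1) :
    R (ω : F) ∈ Metric.sphere (0 : H) 1 := by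
  rw [mem_sphere_zero_iff_norm, R.norm_map]
  exact mem_sphere_zero_iff_norm.1 ω.2

/-- A linear isometry as a homeomorphism of the unit spheres. -/
def CORE4_sph (R : F ≃ₗᵢ[ℝ] H) : Metric.sphere (0 : F) 1 ≃ₜ Metric.sphere (0 : H) 1 where
  toFun := fun ω => ⟨R (ω : F), CORE4_mem R ω⟩
  invFun := fun ω => ⟨R.symm (ω : H), CORE4_mem R.symm ω⟩
  left_inv := by
    intro ω
    apply Subtype.ext
    exact R.symm_apply_apply _
  right_inv := by
    intro ω
    apply Subtype.ext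
    exact R.apply_symm_apply _
  continuous_toFun := by
    exact Continuous.subtype_mk (R.continuous.comp continuous_subtype_val) _
  continuous_invFun := by
    exact Continuous.subtype_mk (R.symm.continuous.comp continuous_subtype_val) _

theorem CORE4_sph_coe (R : F ≃ₗᵢ[ℝ] H) (ω : Metric.sphere (0 : F) 1) :
    ((CORE4_sph R ω : Metric.sphere (0 : H) 1) : H) = R ω := rfl

theorem CORE4_toSphere (R : F ≃ₗᵢ[ℝ] H) :
    MeasurePreserving (CORE4_sph R) (volume : Measure F).toSphere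
      (volume : Measure H).toSphere := by
  have hm : Measurable (CORE4_sph R) := (CORE4_sph R).continuous.measurable
  refine ⟨hm, ?_⟩
  refine Measure.ext fun s hs => ?_
  rw [Measure.map_apply hm hs, Measure.toSphere_apply' _ (hm hs), Measure.toSphere_apply' _ hs]
  have hd : Module.finrank ℝ F = Module.finrank ℝ H := R.toLinearEquiv.finrank_eq
  have h1 : Ioo (0 : ℝ) 1 • (Subtype.val '' (CORE4_sph R ⁻¹' s)) =
      R ⁻¹' (Ioo (0 : ℝ) 1 • (Subtype.val '' s)) := by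
    ext x
    simp only [Set.mem_smul, mem_preimage, mem_image]
    constructor
    · rintro ⟨a, ha, _, ⟨ω, hω, rfl⟩, rfl⟩
      refine ⟨a, ha, _, ⟨CORE4_sph R ω, hω, rfl⟩, ?_⟩
      rw [R.map_smul]
      rfl
    · rintro ⟨a, ha, _, ⟨ω, hω, rfl⟩, hx⟩
      refine ⟨a, ha, _, ⟨(CORE4_sph R).symm ω, ?_, rfl⟩, ?_⟩
      · rw [(CORE4_sph R).apply_symm_apply]
        exact hω
      · apply R.injective
        rw [← hx, R.map_smul]
        congr 1
        have h2 := CORE4_sph_coe R ((CORE4_sph R).symm ω)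
        rw [(CORE4_sph R).apply_symm_apply] at h2
        exact h2.symm
  rw [h1, hd]
  congr 1
  exact R.measurePreserving.measure_preimage_emb R.toHomeomorph.measurableEmbedding _

theorem CORE4_prb (R : F ≃ₗᵢ[ℝ] H) : MeasurePreserving (CORE4_sph R) (prb F) (prb H) := by
  unfold prb
  have h1 : (volume : Measure F).toSphere univ = (volume : Measure H).toSphere univ := by
    have := (CORE4_toSphere R).measure_preimage (s := univ) MeasurableSet.univ.nullMeasurableSet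
    rwa [preimage_univ] at this
  rw [h1]
  exact (CORE4_toSphere R).smul_measure _

theorem CORE4_Ext (R : F ≃ₗᵢ[ℝ] H) (f : Metric.sphere (0 : H) 1 → ℂ) (y : F) :
    ExpMax.Ext f (R y) = ExpMax.Ext (fun ω => f (CORE4_sph R ω)) y := by
  unfold ExpMax.Ext
  rw [← (CORE4_prb R).integral_comp (CORE4_sph R).measurableEmbedding]
  refine integral_congr_ae (ae_of_all _ fun ω => ?_)
  simp only [CORE4_sph_coe, R.inner_map_map]

theorem CORE4_u0 (R : F ≃ₗᵢ[ℝ] H) (y : F) : u0 (R y) = u0 y := by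
  unfold u0
  rw [← (CORE4_prb R).integral_comp (CORE4_sph R).measurableEmbedding]
  refine integral_congr_ae (ae_of_all _ fun ω => ?_)
  simp only [CORE4_sph_coe, R.inner_map_map]

end

/-! ### The inequality on `V n` for functions in `L ^ 2` -/

/-- The inequality for a continuous function, with `lintegral`. -/
theorem CORE4_cont (hEXT4 : T_EXT4) {n : ℕ} (hn : 3 ≤ n) (f : Sp n → ℂ) (hf : Continuous f) :
    ∫⁻ y : V n, ‖ExpMax.Ext f y‖ₑ ^ 4 ≤
      ENNReal.ofReal (∫ y : V n, u0 y ^ 4) * eLpNorm f 2 (prb (V n)) ^ 4 := by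
  have hprob : IsProbabilityMeasure (prb (V n)) :=
    (tINV (V n) (by rw [finrank_euclideanSpace_fin]; omega)).1
  obtain ⟨h1, h2⟩ := hEXT4 n hn f hf
  have hfL : MemLp f 2 (prb (V n)) := by
    obtain ⟨B, hB⟩ := (isCompact_range hf).isBounded.exists_norm_le
    exact MemLp.of_bound hf.aestronglyMeasurable B (ae_of_all _ fun ω => hB _ ⟨ω, rfl⟩)
  have h3 : ∫⁻ y : V n, ‖ExpMax.Ext f y‖ₑ ^ 4 = ENNReal.ofReal (∫ y : V n, ‖ExpMax.Ext f y‖ ^ 4) := by
    rw [ofReal_integral_eq_lintegral_ofReal h1 (ae_of_all _ fun y => by positivity)]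
    refine lintegral_congr fun y => ?_
    rw [ENNReal.ofReal_pow (norm_nonneg _), ofReal_norm]
  have h4 : eLpNorm f 2 (prb (V n)) ^ 4 =
      ENNReal.ofReal ((∫ ω : Sp n, ‖f ω‖ ^ 2 ∂(prb (V n))) ^ 2) := by
    rw [hfL.eLpNorm_eq_integral_rpow_norm (by norm_num) (by norm_num)]
    have e : ∀ ω : Sp n, ‖f ω‖ ^ (2 : ℝ≥0∞).toReal = ‖f ω‖ ^ 2 := by
      intro ω
      rw [ENNReal.toReal_ofNat]
      exact Real.rpow_natCast _ 2
    simp only [e]
    have h0 : 0 ≤ ∫ ω : Sp n, ‖f ω‖ ^ 2 ∂(prb (V n)) := integral_nonneg fun _ => by positivity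
    rw [← ENNReal.ofReal_pow (Real.rpow_nonneg h0 _)]
    congr 1
    rw [ENNReal.toReal_ofNat, ← Real.rpow_natCast, ← Real.rpow_mul h0, ← Real.rpow_natCast]
    norm_num
  rw [h3, h4, ← ENNReal.ofReal_mul (integral_nonneg fun y => by positivity)]
  exact ENNReal.ofReal_le_ofReal h2

/-- The inequality for a function in `L ^ 2`, with `lintegral`. -/
theorem CORE4_L2 (hEXT4 : T_EXT4) {n : ℕ} (hn : 3 ≤ n) (f : Sp n → ℂ)
    (hf : MemLp f 2 (prb (V n))) :
    ∫⁻ y : V n, ‖ExpMax.Ext f y‖ₑ ^ 4 ≤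
      ENNReal.ofReal (∫ y : V n, u0 y ^ 4) * eLpNorm f 2 (prb (V n)) ^ 4 := by
  have hfin : 1 ≤ Module.finrank ℝ (V n) := by rw [finrank_euclideanSpace_fin]; omega
  have hprob : IsProbabilityMeasure (prb (V n)) := (tINV (V n) hfin).1
  have hε : ∀ k : ℕ, ((k : ℝ≥0∞) + 1)⁻¹ ≠ 0 := fun k => by
    rw [ENNReal.inv_ne_zero]
    exact ENNReal.add_ne_top.2 ⟨ENNReal.natCast_ne_top k, ENNReal.one_ne_top⟩
  choose g hg hgL using fun k : ℕ =>
    hf.exists_boundedContinuous_eLpNorm_sub_le (by norm_num : (2 : ℝ≥0∞) ≠ ∞) (hε k)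
  have hlim : Tendsto (fun k : ℕ => ((k : ℝ≥0∞) + 1)⁻¹) atTop (𝓝 0) := by
    have := ENNReal.tendsto_inv_nat_nhds_zero.comp (tendsto_add_atTop_nat 1)
    refine this.congr fun k => ?_
    simp
  have hfi : Integrable f (prb (V n)) := hf.integrable (by norm_num)
  have hgi : ∀ k, Integrable (g k : Sp n → ℂ) (prb (V n)) := fun k =>
    (hgL k).integrable (by norm_num)
  -- pointwise convergence
  have hdiff : ∀ (k : ℕ) (y : V n), ‖ExpMax.Ext f y - ExpMax.Ext (⇑(g k)) y‖ₑ ≤ ((k : ℝ≥0∞) + 1)⁻¹ := by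
    intro k y
    have e1 : ExpMax.Ext f y - ExpMax.Ext (⇑(g k)) y = ExpMax.Ext (f - ⇑(g k)) y := by
      unfold ExpMax.Ext
      rw [← integral_sub (EXTC_int hfi y) (EXTC_int (hgi k) y)]
      refine integral_congr_ae (ae_of_all _ fun ω => ?_)
      simp only [Pi.sub_apply]
      ring
    rw [e1]
    have e2 : ‖ExpMax.Ext (f - ⇑(g k)) y‖ₑ ≤ eLpNorm (f - ⇑(g k)) 1 (prb (V n)) := by
      unfold ExpMax.Ext
      refine (enorm_integral_le_lintegral_enorm _).trans ?_
      rw [eLpNorm_one_eq_lintegral_enorm]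
      refine lintegral_mono fun ω => ?_
      rw [enorm_mul]
      have : ‖Complex.exp (-(Complex.I * ((⟪(ω : V n), y⟫ : ℝ) : ℂ)))‖ₑ = 1 := by
        rw [← ofReal_norm, EXTC_norm_exp, ENNReal.ofReal_one]
      rw [this, mul_one]
    refine e2.trans ((eLpNorm_le_eLpNorm_of_exponent_le (by norm_num) ?_).trans (hg k))
    exact hf.aestronglyMeasurable.sub (g k).continuous.aestronglyMeasurable
  have hpt : ∀ y : V n, Tendsto (fun k => ‖ExpMax.Ext (⇑(g k)) y‖ₑ ^ 4) atTop (𝓝 (‖ExpMax.Ext f y‖ₑ ^ 4)) := by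
    intro y
    have h1 : Tendsto (fun k => ExpMax.Ext (⇑(g k)) y) atTop (𝓝 (ExpMax.Ext f y)) := by
      rw [tendsto_iff_edist_tendsto_0]
      refine tendsto_of_tendsto_of_tendsto_of_le_of_le tendsto_const_nhds hlim
        (fun _ => bot_le) (fun k => ?_)
      rw [edist_comm, edist_eq_enorm_sub]
      exact hdiff k y
    exact ((ENNReal.continuous_pow 4).tendsto _).comp h1.enorm
  have hbd : ∀ k, ∫⁻ y : V n, ‖ExpMax.Ext (⇑(g k)) y‖ₑ ^ 4 ≤ ENNReal.ofReal (∫ y : V n, u0 y ^ 4) *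
      (eLpNorm f 2 (prb (V n)) + ((k : ℝ≥0∞) + 1)⁻¹) ^ 4 := by
    intro k
    refine (CORE4_cont hEXT4 hn (g k) (g k).continuous).trans ?_
    gcongr
    have e1 : (g k : Sp n → ℂ) = f - (f - ⇑(g k)) := by
      funext ω
      simp
    have e2 : eLpNorm (g k : Sp n → ℂ) 2 (prb (V n)) ≤
        eLpNorm f 2 (prb (V n)) + eLpNorm (f - ⇑(g k)) 2 (prb (V n)) := by
      conv_lhs => rw [e1]
      exact eLpNorm_sub_le hf.aestronglyMeasurable
        (hf.aestronglyMeasurable.sub (g k).continuous.aestronglyMeasurable) (by norm_num)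
    exact e2.trans (by gcongr; exact hg k)
  have hR : Tendsto (fun k : ℕ => ENNReal.ofReal (∫ y : V n, u0 y ^ 4) *
      (eLpNorm f 2 (prb (V n)) + ((k : ℝ≥0∞) + 1)⁻¹) ^ 4) atTop
      (𝓝 (ENNReal.ofReal (∫ y : V n, u0 y ^ 4) * eLpNorm f 2 (prb (V n)) ^ 4)) := by
    have h1 : Tendsto (fun k : ℕ => (eLpNorm f 2 (prb (V n)) + ((k : ℝ≥0∞) + 1)⁻¹) ^ 4) atTop
        (𝓝 (eLpNorm f 2 (prb (V n)) ^ 4)) := by
      have h2 := tendsto_const_nhds (x := eLpNorm f 2 (prb (V n))) (f := atTop (α := ℕ)) |>.add hlim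
      rw [add_zero] at h2
      exact ((ENNReal.continuous_pow 4).tendsto _).comp h2
    exact ENNReal.Tendsto.const_mul h1 (Or.inr ENNReal.ofReal_ne_top)
  calc ∫⁻ y : V n, ‖ExpMax.Ext f y‖ₑ ^ 4 = ∫⁻ y : V n, liminf (fun k => ‖ExpMax.Ext (⇑(g k)) y‖ₑ ^ 4) atTop :=
        lintegral_congr fun y => (hpt y).liminf_eq.symm
    _ ≤ liminf (fun k => ∫⁻ y : V n, ‖ExpMax.Ext (⇑(g k)) y‖ₑ ^ 4) atTop := by
        refine lintegral_liminf_le fun k => ?_
        exact (tEXTC tINV (V n) hfin _ (hgi k)).1.enorm.measurable.pow_const 4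
    _ ≤ liminf (fun k : ℕ => ENNReal.ofReal (∫ y : V n, u0 y ^ 4) *
          (eLpNorm f 2 (prb (V n)) + ((k : ℝ≥0∞) + 1)⁻¹) ^ 4) atTop :=
        liminf_le_liminf (Eventually.of_forall hbd)
    _ = _ := hR.liminf_eq

theorem p_CORE4 (hEXT4 : T_EXT4) (hBESS : T_BESS) : T_CORE4 := by
  intro F _ _ _ _ _ hF
  obtain ⟨n, hn⟩ : ∃ n, n = Module.finrank ℝ F := ⟨_, rfl⟩
  have h3 : 3 ≤ n := hn ▸ hF
  have R : V n ≃ₗᵢ[ℝ] F := by
    subst hn
    exact (stdOrthonormalBasis ℝ F).repr.symm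
  have hfinV : 1 ≤ Module.finrank ℝ (V n) := by rw [finrank_euclideanSpace_fin]; omega
  have hfinF : 1 ≤ Module.finrank ℝ F := by omega
  have hprobV : IsProbabilityMeasure (prb (V n)) := (tINV (V n) hfinV).1
  have hprobF : IsProbabilityMeasure (prb F) := (tINV F hfinF).1
  have hRm : MeasurePreserving R (volume : Measure (V n)) (volume : Measure F) :=
    R.measurePreserving
  have hRe : MeasurableEmbedding R := R.toHomeomorph.measurableEmbedding
  have hint : Integrable (fun y : F => u0 y ^ 4) := by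
    rw [← hRm.integrable_comp_emb hRe]
    have : ((fun y : F => u0 y ^ 4) ∘ R) = fun y : V n => u0 y ^ 4 := by
      funext y
      simp only [Function.comp_apply, CORE4_u0]
    rw [this]
    exact hBESS n h3
  have hu : ∫ y : F, u0 y ^ 4 = ∫ y : V n, u0 y ^ 4 := by
    rw [← hRm.integral_comp hRe]
    simp only [CORE4_u0]
  obtain ⟨-, hcont, -, -, hlow, -, -⟩ := tBASIC tINV F hfinF
  refine ⟨hint, ?_, ?_⟩
  · rw [integral_pos_iff_support_of_nonneg (fun y => by positivity) hint]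
    have ho : IsOpen (Function.support fun y : F => u0 y ^ 4) :=
      (hcont.pow 4).isOpen_support
    refine ho.measure_pos _ ⟨0, ?_⟩
    have h0 := hlow 0
    rw [norm_zero] at h0
    norm_num at h0
    rw [Function.mem_support]
    positivity
  · intro f hf
    have hfR : MemLp (fun ω => f (CORE4_sph R ω)) 2 (prb (V n)) :=
      hf.comp_measurePreserving (CORE4_prb R)
    have key := CORE4_L2 hEXT4 h3 _ hfR
    have hne : eLpNorm (fun ω => f (CORE4_sph R ω)) 2 (prb (V n)) ≠ ∞ := hfR.eLpNorm_ne_top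
    have hN : eLpNorm (fun ω => f (CORE4_sph R ω)) 2 (prb (V n)) ^ 4 =
        ENNReal.ofReal ((∫ ω, ‖f ω‖ ^ 2 ∂(prb F)) ^ 2) := by
      have e0 : eLpNorm (fun ω => f (CORE4_sph R ω)) 2 (prb (V n)) = eLpNorm f 2 (prb F) :=
        eLpNorm_comp_measurePreserving hf.aestronglyMeasurable (CORE4_prb R)
      rw [e0, hf.eLpNorm_eq_integral_rpow_norm (by norm_num) (by norm_num)]
      have e : ∀ ω : Metric.sphere (0 : F) 1, ‖f ω‖ ^ (2 : ℝ≥0∞).toReal = ‖f ω‖ ^ 2 := by
        intro ω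
        rw [ENNReal.toReal_ofNat]
        exact Real.rpow_natCast _ 2
      simp only [e]
      have h0 : 0 ≤ ∫ ω, ‖f ω‖ ^ 2 ∂(prb F) := integral_nonneg fun _ => by positivity
      rw [← ENNReal.ofReal_pow (Real.rpow_nonneg h0 _)]
      congr 1
      rw [ENNReal.toReal_ofNat, ← Real.rpow_natCast, ← Real.rpow_mul h0, ← Real.rpow_natCast]
      norm_num
    have hcE : Continuous (ExpMax.Ext f) := (tEXTC tINV F hfinF f (hf.integrable (by norm_num))).1
    have hL : ∫⁻ y : F, ‖ExpMax.Ext f y‖ₑ ^ 4 = ∫⁻ y : V n, ‖ExpMax.Ext (fun ω => f (CORE4_sph R ω)) y‖ₑ ^ 4 := by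
      rw [← hRm.lintegral_comp (hcE.enorm.measurable.pow_const 4)]
      simp only [CORE4_Ext]
    have hC0 : 0 ≤ ∫ y : V n, u0 y ^ 4 := integral_nonneg fun y => by positivity
    have hfinal : ∫⁻ y : F, ENNReal.ofReal (‖ExpMax.Ext f y‖ ^ 4) ≤
        ENNReal.ofReal ((∫ y : F, u0 y ^ 4) * (∫ ω, ‖f ω‖ ^ 2 ∂(prb F)) ^ 2) := by
      have e1 : ∀ y : F, ENNReal.ofReal (‖ExpMax.Ext f y‖ ^ 4) = ‖ExpMax.Ext f y‖ₑ ^ 4 := fun y => by
        rw [ENNReal.ofReal_pow (norm_nonneg _), ofReal_norm]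
      simp only [e1]
      rw [hL, hu, ENNReal.ofReal_mul hC0, ← hN]
      exact key
    have hmeas : AEStronglyMeasurable (fun y : F => ‖ExpMax.Ext f y‖ ^ 4) volume :=
      (hcE.norm.pow 4).aestronglyMeasurable
    have hI : Integrable (fun y : F => ‖ExpMax.Ext f y‖ ^ 4) := by
      refine ⟨hmeas, ?_⟩
      rw [hasFiniteIntegral_iff_ofReal (ae_of_all _ fun y => by positivity)]
      exact lt_of_le_of_lt hfinal ENNReal.ofReal_lt_top
    refine ⟨hI, ?_⟩
    rw [← ofReal_integral_eq_lintegral_ofReal hI (ae_of_all _ fun y => by positivity)] at hfinal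
    have hC : 0 ≤ (∫ y : F, u0 y ^ 4) * (∫ ω, ‖f ω‖ ^ 2 ∂(prb F)) ^ 2 :=
      mul_nonneg (hu ▸ hC0) (by positivity)
    exact (ENNReal.ofReal_le_ofReal_iff hC).1 hfinal

end Pool.Agent.SPH4
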