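import Pool.Agent.SPH4.Targets
import Pool.Agent.ExpMax.INV

set_option autoImplicit false

/-!
# DER: the derivative of the functional along the heat flow
-/

noncomputable section

open MeasureTheory Set Filter
open scoped ENNReal RealInnerProductSpace Topology

namespace Pool.Agent.SPH4

open Pool.Agent.ExpMax

/-! ### measure -/

lemma DER_prob (n m : ℕ) (hn : 1 ≤ n) : IsProbabilityMeasure (pm n m) := by
  have h : IsProbabilityMeasure (prb (V n)) := (tINV (V n) (by simpa using hn)).1
  unfold pm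
  infer_instance

lemma DER_vec (n m : ℕ) : Continuous (vec : (Fin m → Sp n) → Fin m → V n) := by
  unfold vec
  fun_prop

lemma DER_int {n m : ℕ} (hn : 1 ≤ n) {F : (Fin m → Sp n) → ℝ} (hF : Continuous F) :
    Integrable F (pm n m) := by
  have := DER_prob n m hn
  exact hF.integrable_of_hasCompactSupport (HasCompactSupport.of_compactSpace F)

lemma DER_wt {n m : ℕ} (ε : ℝ) : Continuous (fun ω : Fin m → Sp n => wt ε (∑ i, vec ω i)) := by
  unfold wt
  have := DER_vec n m
  fun_prop

/-! ### algebra -/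

lemma DER_skw_skew {n : ℕ} (δ w x y : V n) : ⟪y, skw δ w x⟫ = -⟪x, skw δ w y⟫ := by
  unfold skw
  simp only [inner_sub_right, inner_smul_right, real_inner_comm y, real_inner_comm x]
  rw [real_inner_comm w x, real_inner_comm δ x, real_inner_comm w y, real_inner_comm δ y]
  ring

lemma DER_skw_self {n : ℕ} (δ w x : V n) : ⟪x, skw δ w x⟫ = 0 := by
  have := DER_skw_skew δ w x x
  linarith

lemma DER_Bm_self {n : ℕ} (κ : ℝ) (δ w x y : V n) : ⟪y, Bm κ δ w x y⟫ = 0 := by
  unfold Bm
  simp only [inner_sub_right, inner_smul_right]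
  rw [DER_skw_self, DER_skw_skew δ w x y, real_inner_comm x y]
  ring

lemma DER_Cm_self {n m : ℕ} (c κ : ℝ) (i j : Fin m) (ω : Fin m → V n) (δ : V n) :
    ⟪ω j, Cm c κ i j ω δ⟫ = 0 := by
  unfold Cm
  rw [inner_sub_right, inner_smul_right, inner_sum, DER_skw_self]
  simp [DER_Bm_self]

lemma DER_skw_lin {n : ℕ} (a r : ℝ) (δ w x : V n) : skw (a • δ + r • w) w x = a • skw δ w x := by
  unfold skw
  rw [inner_add_left, inner_smul_left, inner_smul_left]
  simp only [RCLike.conj_to_real]
  module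

lemma DER_Bm_lin {n : ℕ} (κ a r : ℝ) (δ w x y : V n) :
    Bm κ (a • δ + r • w) w x y = a • Bm κ δ w x y := by
  unfold Bm
  simp only [DER_skw_lin, inner_smul_right]
  module

lemma DER_Cm_lin {n m : ℕ} (c κ a r : ℝ) (i j : Fin m) (ω : Fin m → V n) (δ : V n) :
    Cm c κ i j ω (a • δ + r • ω i) = a • Cm c κ i j ω δ := by
  unfold Cm
  simp only [DER_skw_lin, DER_Bm_lin]
  rw [← Finset.smul_sum]
  module

/-! ### continuity of the matrices -/

lemma DER_skw_cont {α : Type} [TopologicalSpace α] {n : ℕ} {δ w x : α → V n}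
    (hδ : Continuous δ) (hw : Continuous w) (hx : Continuous x) :
    Continuous (fun a => skw (δ a) (w a) (x a)) := by
  unfold skw
  fun_prop

lemma DER_Bm_cont {α : Type} [TopologicalSpace α] {n : ℕ} {κ : ℝ} (hκ : 0 < κ)
    {δ w x y : α → V n} (hδ : Continuous δ) (hw : Continuous w) (hx : Continuous x)
    (hy : Continuous y) : Continuous (fun a => Bm κ (δ a) (w a) (x a) (y a)) := by
  unfold Bm
  have h1 : Continuous (fun a => (‖x a‖ ^ 2 + κ)⁻¹) := by
    refine Continuous.inv₀ (by fun_prop) fun a => ?_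
    positivity
  have h2 := DER_skw_cont hδ hw hy
  have h3 := DER_skw_cont hδ hw hx
  fun_prop

lemma DER_Cm_cont {n m : ℕ} {c κ : ℝ} (hκ : 0 < κ) (i j : Fin m)
    {δ : (Fin m → Sp n) → V n} (hδ : Continuous δ) :
    Continuous (fun ω : Fin m → Sp n => Cm c κ i j (vec ω) (δ ω)) := by
  unfold Cm
  have hv := DER_vec n m
  have h1 : ∀ k : Fin m, Continuous (fun ω : Fin m → Sp n => vec ω k) := fun k =>
    (continuous_apply k).comp hv
  refine (DER_skw_cont hδ (h1 i) (h1 j)).sub ?_
  refine Continuous.const_smul ?_ c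
  exact continuous_finsetSum _ fun k _ =>
    DER_Bm_cont hκ hδ (h1 i) ((h1 j).add (h1 k)) (h1 j)

/-! ### the flow -/

/-- the time derivative -/
def DER_dt {n : ℕ} (G : ℝ → V n → ℝ) (z : ℝ × V n) : ℝ :=
  fderiv ℝ (fun z : ℝ × V n => G z.1 z.2) z (1, 0)

lemma DER_dt_cont {n : ℕ} {G : ℝ → V n → ℝ} (h : IsFlow G) : Continuous (DER_dt G) := by
  unfold DER_dt
  exact (h.smooth.continuous_fderiv (by norm_num)).clm_apply continuous_const

lemma DER_G_cont {n : ℕ} {G : ℝ → V n → ℝ} (h : IsFlow G) :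
    Continuous (fun z : ℝ × V n => G z.1 z.2) := h.smooth.continuous

lemma DER_dt_der {n : ℕ} {G : ℝ → V n → ℝ} (h : IsFlow G) (t : ℝ) (x : V n) :
    HasDerivAt (fun s => G s x) (DER_dt G (t, x)) t := by
  have h1 : HasFDerivAt (fun z : ℝ × V n => G z.1 z.2)
      (fderiv ℝ (fun z : ℝ × V n => G z.1 z.2) (t, x)) (t, x) :=
    (h.smooth.differentiable (by norm_num) _).hasFDerivAt
  have h2 : HasDerivAt (fun s : ℝ => (s, x)) ((1 : ℝ), (0 : V n)) t :=
    (hasDerivAt_id t).prodMk (hasDerivAt_const t x)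
  exact h1.comp_hasDerivAt t h2

lemma DER_LB {n : ℕ} {G : ℝ → V n → ℝ} (h : IsFlow G) {t : ℝ} (ht : 0 ≤ t) {x : V n}
    (hx : ‖x‖ = 1) : LB (G t) x = DER_dt G (t, x) :=
  (h.eqn t ht x hx).unique (DER_dt_der h t x)

lemma DER_slice {n : ℕ} {G : ℝ → V n → ℝ} (h : IsFlow G) (t : ℝ) : ContDiff ℝ 4 (G t) := by
  have h1 : ContDiff ℝ 4 (fun x : V n => ((t, x) : ℝ × V n)) := contDiff_const.prodMk contDiff_id
  exact h.smooth.comp h1

lemma DER_norm {n m : ℕ} (ω : Fin m → Sp n) (i : Fin m) : ‖((ω i : Sp n) : V n)‖ = 1 := by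
  simp

/-- the logarithmic derivative is continuous on the sphere -/
lemma DER_xg_cont {n : ℕ} {G : V n → ℝ} (hG : ContDiff ℝ 4 G) (hp : ∀ x : V n, ‖x‖ = 1 → 0 < G x) :
    Continuous (fun w : Sp n => xg G (w : V n)) := by
  unfold xg
  have h1 : Continuous (fun w : Sp n => gradient G (w : V n)) := by
    unfold gradient
    have h2 : Continuous (fderiv ℝ G) := hG.continuous_fderiv (by norm_num)
    exact (InnerProductSpace.toDual ℝ (V n)).symm.continuous.comp (h2.comp continuous_subtype_val)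
  have h3 : Continuous (fun w : Sp n => (2 * G (w : V n))⁻¹) := by
    refine Continuous.inv₀ (continuous_const.mul (hG.continuous.comp continuous_subtype_val))
      fun w => ?_
    have := hp w (by simp)
    positivity
  fun_prop

/-! ### derivative under the integral -/

/-- the integrand -/
def DER_P {n m : ℕ} (ε : ℝ) (G : Fin m → ℝ → V n → ℝ) (t : ℝ) (ω : Fin m → Sp n) : ℝ :=
  (∏ j, √(G j t (vec ω j))) * wt ε (∑ i, vec ω i)

/-- its derivative -/
def DER_P' {n m : ℕ} (ε : ℝ) (G : Fin m → ℝ → V n → ℝ) (t : ℝ) (ω : Fin m → Sp n) : ℝ :=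
  (∑ i, (∏ j ∈ Finset.univ.erase i, √(G j t (vec ω j))) *
    (DER_dt (G i) (t, vec ω i) / (2 * √(G i t (vec ω i))))) * wt ε (∑ i, vec ω i)

lemma DER_P_cont {n m : ℕ} (ε : ℝ) {G : Fin m → ℝ → V n → ℝ} (hG : ∀ j, IsFlow (G j)) :
    Continuous (Function.uncurry (DER_P ε G)) := by
  unfold DER_P Function.uncurry
  have hv := DER_vec n m
  have h1 : ∀ j, Continuous (fun p : ℝ × (Fin m → Sp n) => √(G j p.1 (vec p.2 j))) := by
    intro j
    have h2 : Continuous (fun p : ℝ × (Fin m → Sp n) => ((p.1, vec p.2 j) : ℝ × V n)) := by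
      have h3 : Continuous (fun p : ℝ × (Fin m → Sp n) => vec p.2 j) :=
        (continuous_apply j).comp (hv.comp continuous_snd)
      exact continuous_fst.prodMk h3
    exact Real.continuous_sqrt.comp ((DER_G_cont (hG j)).comp h2)
  exact (continuous_finsetProd _ fun j _ => h1 j).mul ((DER_wt ε).comp continuous_snd)

lemma DER_P'_cont {n m : ℕ} (ε : ℝ) {G : Fin m → ℝ → V n → ℝ} (hG : ∀ j, IsFlow (G j)) :
    ContinuousOn (Function.uncurry (DER_P' ε G)) (Ici 0 ×ˢ univ) := by
  unfold DER_P' Function.uncurry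
  have hv := DER_vec n m
  have h2 : ∀ j, Continuous (fun p : ℝ × (Fin m → Sp n) => ((p.1, vec p.2 j) : ℝ × V n)) := by
    intro j
    have h3 : Continuous (fun p : ℝ × (Fin m → Sp n) => vec p.2 j) :=
      (continuous_apply j).comp (hv.comp continuous_snd)
    exact continuous_fst.prodMk h3
  have h1 : ∀ j, Continuous (fun p : ℝ × (Fin m → Sp n) => √(G j p.1 (vec p.2 j))) := fun j =>
    Real.continuous_sqrt.comp ((DER_G_cont (hG j)).comp (h2 j))
  refine ContinuousOn.mul ?_ ((DER_wt ε).comp continuous_snd).continuousOn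
  refine continuousOn_finsetSum _ fun i _ => ?_
  refine ContinuousOn.mul (continuous_finsetProd _ fun j _ => h1 j).continuousOn ?_
  refine ContinuousOn.div ((DER_dt_cont (hG i)).comp (h2 i)).continuousOn
    (continuous_const.mul (h1 i)).continuousOn ?_
  rintro ⟨t, ω⟩ ⟨ht, _⟩
  have h3 := (hG i).pos t ht (vec ω i) (DER_norm ω i)
  have h4 := Real.sqrt_pos.2 h3
  exact (mul_pos two_pos h4).ne'

lemma DER_P_der {n m : ℕ} (ε : ℝ) {G : Fin m → ℝ → V n → ℝ} (hG : ∀ j, IsFlow (G j)) {t : ℝ}
    (ht : 0 ≤ t) (ω : Fin m → Sp n) :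
    HasDerivAt (fun s => DER_P ε G s ω) (DER_P' ε G t ω) t := by
  unfold DER_P DER_P'
  have h1 : ∀ i ∈ (Finset.univ : Finset (Fin m)), HasDerivAt (fun s => √(G i s (vec ω i)))
      (DER_dt (G i) (t, vec ω i) / (2 * √(G i t (vec ω i)))) t := fun i _ =>
    (DER_dt_der (hG i) t (vec ω i)).sqrt ((hG i).pos t ht _ (DER_norm ω i)).ne'
  have h2 := HasDerivAt.fun_finsetProd h1
  simp only [smul_eq_mul] at h2
  exact h2.mul_const _

lemma DER_integral {n m : ℕ} (hn : 1 ≤ n) (ε : ℝ) {G : Fin m → ℝ → V n → ℝ}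
    (hG : ∀ j, IsFlow (G j)) {t : ℝ} (ht : 0 < t) :
    HasDerivAt (fun s => ∫ ω, DER_P ε G s ω ∂(pm n m)) (∫ ω, DER_P' ε G t ω ∂(pm n m)) t := by
  have := DER_prob n m hn
  have hP := DER_P_cont ε hG
  have hP' := DER_P'_cont ε hG
  have hsl : ∀ s, Continuous (DER_P ε G s) := fun s =>
    hP.comp (continuous_const.prodMk continuous_id)
  have hsl' : Continuous (DER_P' ε G t) := by
    have h1 : ContinuousOn (fun ω : Fin m → Sp n => (t, ω)) univ :=
      (continuous_const.prodMk continuous_id).continuousOn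
    have h2 := hP'.comp h1 (fun ω _ => ⟨ht.le, mem_univ ω⟩)
    rw [← continuousOn_univ]
    exact h2
  obtain ⟨C, hC⟩ := (isCompact_Icc (a := t / 2) (b := 2 * t)).prod
    (isCompact_univ (X := Fin m → Sp n)) |>.exists_bound_of_continuousOn
      (hP'.mono (prod_mono (fun s hs => by
        have := hs.1
        simp only [mem_Ici]
        linarith) (subset_refl _)))
  refine (hasDerivAt_integral_of_dominated_loc_of_deriv_le (F := DER_P ε G) (F' := DER_P' ε G)
    (s := Icc (t / 2) (2 * t)) (bound := fun _ => C) ?_ ?_ ?_ ?_ ?_ ?_ ?_).2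
  · exact Icc_mem_nhds (by linarith) (by linarith)
  · exact Filter.Eventually.of_forall fun s => (hsl s).aestronglyMeasurable
  · exact DER_int hn (hsl t)
  · exact hsl'.aestronglyMeasurable
  · exact Filter.Eventually.of_forall fun ω s hs => hC (s, ω) ⟨hs, mem_univ ω⟩
  · exact integrable_const C
  · exact Filter.Eventually.of_forall fun ω s hs =>
      DER_P_der ε hG (by have := hs.1; linarith) ω

/-! ### the pointwise identity -/

lemma DER_grad {n : ℕ} (g : V n → ℝ) (w : V n) (hg : 0 < g w)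
    (h : gradient (fun x => √(g x)) w = (2 * √(g w))⁻¹ • gradient g w) :
    gradient (fun x => √(g x)) w = √(g w) • xg g w +
      ((2 * √(g w))⁻¹ * ⟪gradient g w, w⟫) • w := by
  rw [h]
  unfold xg
  have h1 := Real.sqrt_pos.2 hg
  have h2 : √(g w) * (2 * g w)⁻¹ = (2 * √(g w))⁻¹ := by
    have h3 : √(g w) * √(g w) = g w := Real.mul_self_sqrt hg.le
    have h4 : 2 * g w = 2 * (√(g w) * √(g w)) := by rw [h3]
    rw [h4]
    field_simp
  rw [smul_smul, h2]
  module

lemma DER_term {n m : ℕ} (c κ : ℝ) (g : Fin m → V n → ℝ) (ω : Fin m → V n)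
    (hg : ∀ i, 0 < g i (ω i))
    (h : ∀ i, gradient (fun x => √(g i x)) (ω i) = (2 * √(g i (ω i)))⁻¹ • gradient (g i) (ω i))
    (i j : Fin m) (hij : j ≠ i) :
    (∏ l ∈ (Finset.univ.erase i).erase j, √(g l (ω l))) *
      ⟪gradient (fun x => √(g j x)) (ω j),
        Cm c κ i j ω (gradient (fun x => √(g i x)) (ω i))⟫ =
    (∏ l, √(g l (ω l))) * ⟪xg (g j) (ω j), Cm c κ i j ω (xg (g i) (ω i))⟫ := by
  rw [DER_grad (g i) (ω i) (hg i) (h i), DER_grad (g j) (ω j) (hg j) (h j), DER_Cm_lin,
    inner_smul_right, inner_add_left, inner_smul_left, inner_smul_left, DER_Cm_self]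
  simp only [RCLike.conj_to_real, mul_zero, add_zero]
  rw [← Finset.mul_prod_erase Finset.univ _ (Finset.mem_univ i),
    ← Finset.mul_prod_erase (Finset.univ.erase i) _ (Finset.mem_erase.2 ⟨hij, Finset.mem_univ j⟩)]
  ring

theorem p_DER (hSQ : T_SQ) (hIBP : T_IBP) : T_DER := by
  intro n m hn c κ ε hκ hε G hG
  have hprob := DER_prob n m hn
  have hP := DER_P_cont ε hG
  refine ⟨?_, fun t ht => ?_⟩
  · have h1 : Continuous (fun s => ∫ ω in univ, DER_P ε G s ω ∂(pm n m)) :=
      continuous_parametric_integral_of_continuous hP isCompact_univ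
    simp only [Measure.restrict_univ] at h1
    exact h1.continuousOn
  · have hder := DER_integral hn ε hG ht
    have key : ∫ ω, DER_P' ε G t ω ∂(pm n m) =
        Ie ε (fun ω : Fin m → V n => (∏ j, √(G j t (ω j))) *
          Qf c κ ω (fun j => xg (G j t) (ω j))) := by
      -- data at time `t`
      have hg4 : ∀ j, ContDiff ℝ 4 (G j t) := fun j => DER_slice (hG j) t
      have hgp : ∀ j, ∀ x : V n, ‖x‖ = 1 → 0 < G j t x := fun j x hx => (hG j).pos t ht.le x hx
      have hsq := fun j => hSQ n hn (G j t) (hg4 j) (hgp j)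
      have hv := DER_vec n m
      have hvi : ∀ i, Continuous (fun ω : Fin m → Sp n => vec ω i) := fun i =>
        (continuous_apply i).comp hv
      have hcg : ∀ i, Continuous (fun ω : Fin m → Sp n => √(G i t (vec ω i))) := fun i =>
        Real.continuous_sqrt.comp ((hg4 i).continuous.comp (hvi i))
      have hcx : ∀ i, Continuous (fun ω : Fin m → Sp n => xg (G i t) (vec ω i)) := fun i =>
        (DER_xg_cont (hg4 i) (hgp i)).comp (continuous_apply i)
      have hcp : Continuous (fun ω : Fin m → Sp n => ∏ j, √(G j t (vec ω j))) :=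
        continuous_finsetProd _ fun j _ => hcg j
      have hLB : ∀ i (ω : Fin m → Sp n), DER_dt (G i) (t, vec ω i) / (2 * √(G i t (vec ω i))) =
          LB (fun x => √(G i t x)) (vec ω i) + √(G i t (vec ω i)) * ‖xg (G i t) (vec ω i)‖ ^ 2 := by
        intro i ω
        have h0 : LB (G i t) (vec ω i) = DER_dt (G i) (t, vec ω i) :=
          DER_LB (hG i) ht.le (DER_norm ω i)
        rw [← h0]
        exact ((hsq i).2 (vec ω i) (DER_norm ω i)).2
      have hcLB : ∀ i, Continuous (fun ω : Fin m → Sp n => LB (fun x => √(G i t x)) (vec ω i)) := by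
        intro i
        have h1 : (fun ω : Fin m → Sp n => LB (fun x => √(G i t x)) (vec ω i)) = fun ω =>
            DER_dt (G i) (t, vec ω i) / (2 * √(G i t (vec ω i))) -
              √(G i t (vec ω i)) * ‖xg (G i t) (vec ω i)‖ ^ 2 := by
          funext ω
          rw [hLB]
          ring
        rw [h1]
        refine Continuous.sub (Continuous.div ((DER_dt_cont (hG i)).comp
          (continuous_const.prodMk (hvi i))) (continuous_const.mul (hcg i)) fun ω => ?_)
          ((hcg i).mul ((hcx i).norm.pow 2))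
        have h3 := hgp i (vec ω i) (DER_norm ω i)
        exact (mul_pos two_pos (Real.sqrt_pos.2 h3)).ne'
      -- the three parts
      have hcw := DER_wt (n := n) (m := m) ε
      have hA : ∀ i, Continuous (fun ω : Fin m → Sp n => (LB (fun x => √(G i t x)) (vec ω i) *
          ∏ j ∈ Finset.univ.erase i, √(G j t (vec ω j))) * wt ε (∑ i, vec ω i)) := fun i =>
        ((hcLB i).mul (continuous_finsetProd _ fun j _ => hcg j)).mul hcw
      have hB : Continuous (fun ω : Fin m → Sp n => ((∏ j, √(G j t (vec ω j))) *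
          ∑ i, ‖xg (G i t) (vec ω i)‖ ^ 2) * wt ε (∑ i, vec ω i)) :=
        (hcp.mul (continuous_finsetSum _ fun i _ => (hcx i).norm.pow 2)).mul hcw
      have hC : ∀ i, Continuous (fun ω : Fin m → Sp n => ((∏ j, √(G j t (vec ω j))) *
          ∑ j ∈ Finset.univ.erase i, ⟪xg (G j t) (vec ω j),
            Cm c κ i j (vec ω) (xg (G i t) (vec ω i))⟫) * wt ε (∑ i, vec ω i)) := fun i =>
        (hcp.mul (continuous_finsetSum _ fun j _ =>
          (hcx j).inner (DER_Cm_cont hκ i j (hcx i)))).mul hcw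
      have hibp : ∀ i, ∫ ω : Fin m → Sp n, (LB (fun x => √(G i t x)) (vec ω i) *
          ∏ j ∈ Finset.univ.erase i, √(G j t (vec ω j))) * wt ε (∑ i, vec ω i) ∂(pm n m) =
          -∫ ω : Fin m → Sp n, ((∏ j, √(G j t (vec ω j))) *
            ∑ j ∈ Finset.univ.erase i, ⟪xg (G j t) (vec ω j),
              Cm c κ i j (vec ω) (xg (G i t) (vec ω i))⟫) * wt ε (∑ i, vec ω i) ∂(pm n m) := by
        intro i
        have h1 := hIBP n m hn c κ ε hκ hε (fun j x => √(G j t x)) (fun j => (hsq j).1) i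
        unfold Ie at h1
        rw [h1]
        congr 1
        refine integral_congr_ae (Filter.Eventually.of_forall fun ω => ?_)
        simp only
        congr 1
        rw [Finset.mul_sum]
        refine Finset.sum_congr rfl fun j hj => ?_
        exact DER_term c κ (fun j => G j t) (vec ω) (fun l => hgp l _ (DER_norm ω l))
          (fun l => ((hsq l).2 (vec ω l) (DER_norm ω l)).1) i j (Finset.ne_of_mem_erase hj)
      have hpt : ∀ ω : Fin m → Sp n, DER_P' ε G t ω =
          (∑ i, (LB (fun x => √(G i t x)) (vec ω i) *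
            ∏ j ∈ Finset.univ.erase i, √(G j t (vec ω j))) * wt ε (∑ i, vec ω i)) +
          ((∏ j, √(G j t (vec ω j))) *
            ∑ i, ‖xg (G i t) (vec ω i)‖ ^ 2) * wt ε (∑ i, vec ω i) := by
        intro ω
        unfold DER_P'
        rw [← Finset.sum_mul, ← add_mul]
        congr 1
        rw [Finset.mul_sum, ← Finset.sum_add_distrib]
        refine Finset.sum_congr rfl fun i _ => ?_
        rw [hLB, ← Finset.mul_prod_erase Finset.univ _ (Finset.mem_univ i)]
        ring
      have hpt2 : ∀ ω : Fin m → Sp n, ((∏ j, √(G j t (vec ω j))) *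
          Qf c κ (vec ω) (fun j => xg (G j t) (vec ω j))) * wt ε (∑ i, vec ω i) =
          ((∏ j, √(G j t (vec ω j))) *
            ∑ i, ‖xg (G i t) (vec ω i)‖ ^ 2) * wt ε (∑ i, vec ω i) -
          ∑ i, ((∏ j, √(G j t (vec ω j))) *
            ∑ j ∈ Finset.univ.erase i, ⟪xg (G j t) (vec ω j),
              Cm c κ i j (vec ω) (xg (G i t) (vec ω i))⟫) * wt ε (∑ i, vec ω i) := by
        intro ω
        unfold Qf
        rw [← Finset.sum_mul, ← Finset.mul_sum]
        ring
      unfold Ie
      simp only [hpt, hpt2]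
      rw [integral_add (integrable_finsetSum _ fun i _ => DER_int hn (hA i)) (DER_int hn hB),
        integral_sub (DER_int hn hB) (integrable_finsetSum _ fun i _ => DER_int hn (hC i)),
        integral_finsetSum _ fun i _ => DER_int hn (hA i),
        integral_finsetSum _ fun i _ => DER_int hn (hC i), Finset.sum_congr rfl fun i _ => hibp i,
        Finset.sum_neg_distrib]
      ring
    rw [key] at hder
    exact hder

end Pool.Agent.SPH4
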