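import Pool.Agent.SPH4.Targets
import Pool.Agent.ExpMax.INV
import Pool.Agent.ExpMax.BASIC

set_option autoImplicit false

/-!
# Concentration of the weight: the sum is small
-/

noncomputable section

open MeasureTheory Set Filter
open scoped ENNReal RealInnerProductSpace Topology

namespace Pool.Agent.SPH4

open Pool.Agent.ExpMax

theorem EST1_gauss (n : ℕ) {b : ℝ} (hb : 0 < b) :
    Integrable (fun y : V n => Real.exp (-(b * ‖y‖ ^ 2 / 2))) := by
  have h := (GaussianFourier.integrable_cexp_neg_mul_sq_norm_add (V := V n) (b := ((b / 2 : ℝ) : ℂ))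
    (by simpa using hb) 0 0).norm
  refine h.congr (Eventually.of_forall fun y => ?_)
  simp only [zero_mul, add_zero]
  rw [Complex.norm_exp]
  congr 1
  have : -((b / 2 : ℝ) : ℂ) * (‖y‖ : ℂ) ^ 2 = ((-(b * ‖y‖ ^ 2 / 2) : ℝ) : ℂ) := by
    push_cast; ring
  rw [this, Complex.ofReal_re]

/-- EST1 -/
theorem p_EST1 (hZN : T_ZN) : T_EST1 := by
  intro n hn η δ hη hδ
  have hfr : 1 ≤ Module.finrank ℝ (V n) := by simpa [V] using hn
  have hprob : IsProbabilityMeasure (prb (V n)) := (tINV (V n) hfr).1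
  have hpm : IsProbabilityMeasure (pm n 4) := by unfold pm; infer_instance
  obtain ⟨-, hu0c, -, hu0le, hu0ge, -, -⟩ := tBASIC tINV (V n) hfr
  have hint : ∀ b : ℝ, 0 < b →
      Integrable (fun y : V n => u0 y ^ 4 * Real.exp (-(b * ‖y‖ ^ 2 / 2))) := by
    intro b hb
    refine (EST1_gauss n hb).mono' ?_ (Eventually.of_forall fun y => ?_)
    · exact (by fun_prop : Continuous fun y : V n =>
        u0 y ^ 4 * Real.exp (-(b * ‖y‖ ^ 2 / 2))).aestronglyMeasurable
    · rw [norm_mul, norm_pow, Real.norm_eq_abs, Real.norm_eq_abs, abs_of_pos (Real.exp_pos _)]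
      have h1 : |u0 y| ^ 4 ≤ 1 := pow_le_one₀ (abs_nonneg _) (hu0le y)
      exact mul_le_of_le_one_left (Real.exp_pos _).le h1
  set c1 : ℝ := ∫ y : V n, u0 y ^ 4 * Real.exp (-(1 * ‖y‖ ^ 2 / 2)) with hc1def
  have hc1 : 0 < c1 := by
    have hcont : Continuous fun y : V n => u0 y ^ 4 * Real.exp (-(1 * ‖y‖ ^ 2 / 2)) := by
      fun_prop
    rw [hc1def, integral_pos_iff_support_of_nonneg _ (hint 1 one_pos)]
    · apply IsOpen.measure_pos _ hcont.isOpen_support
      refine ⟨0, ?_⟩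
      have h2 : (1 : ℝ) ≤ u0 (0 : V n) := by simpa using hu0ge 0
      have h3 : 0 < u0 (0 : V n) ^ 4 := by positivity
      exact (mul_pos h3 (Real.exp_pos _)).ne'
    · intro y
      have h2 : 0 ≤ u0 y ^ 4 := by positivity
      exact mul_nonneg h2 (Real.exp_pos _).le
  -- the limit
  have hlim : Tendsto (fun x : ℝ => x ^ ((n : ℝ) / 2) * Real.exp (-(η ^ 2 / 2) * x)) atTop (𝓝 0) :=
    tendsto_rpow_mul_exp_neg_mul_atTop_nhds_zero _ _ (by positivity)
  set K : ℝ := δ * c1 / (2 * Real.pi) ^ ((n : ℝ) / 2) with hK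
  have h2pi : (0 : ℝ) < 2 * Real.pi := by positivity
  have hKpos : 0 < K := div_pos (mul_pos hδ hc1) (Real.rpow_pos_of_pos h2pi _)
  obtain ⟨X, hX⟩ := eventually_atTop.1 (hlim.eventually (gt_mem_nhds hKpos))
  refine ⟨min 1 (1 / (|X| + 1)), lt_min one_pos (by positivity), ?_⟩
  intro ε hε hε₀
  have hε1 : ε < 1 := lt_of_lt_of_le hε₀ (min_le_left _ _)
  have hεX : X ≤ 1 / ε := by
    have h1 : ε < 1 / (|X| + 1) := lt_of_lt_of_le hε₀ (min_le_right _ _)
    have h2 : |X| + 1 < 1 / ε := by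
      rw [lt_div_iff₀ (by positivity)] at h1
      rw [lt_div_iff₀ hε]
      linarith
    have := le_abs_self X
    linarith
  have hkey := hX (1 / ε) hεX
  -- denominator
  have hden : (ε / (2 * Real.pi)) ^ ((n : ℝ) / 2) * c1 ≤ Ie (n := n) (m := 4) ε (fun _ => 1) := by
    rw [hZN n hn ε hε]
    apply mul_le_mul_of_nonneg_left _ (Real.rpow_nonneg (by positivity) _)
    apply integral_mono (hint 1 one_pos) (hint ε hε)
    intro y
    have h2 : 0 ≤ u0 y ^ 4 := by positivity
    apply mul_le_mul_of_nonneg_left _ h2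
    apply Real.exp_le_exp.2
    have h3 : 0 ≤ ‖y‖ ^ 2 := by positivity
    nlinarith
  have hdpos : 0 < (ε / (2 * Real.pi)) ^ ((n : ℝ) / 2) * c1 :=
    mul_pos (Real.rpow_pos_of_pos (by positivity) _) hc1
  have hIpos : 0 < Ie (n := n) (m := 4) ε (fun _ => 1) := lt_of_lt_of_le hdpos hden
  -- numerator
  have hnum : Ie ε (fun ω : Fin 4 → V n => if ‖∑ i, ω i‖ ≤ η then (0 : ℝ) else 1) ≤
      Real.exp (-(η ^ 2 / 2) * (1 / ε)) := by
    unfold Ie
    have hb : ∀ ω : Fin 4 → Sp n,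
        (if ‖∑ i, vec ω i‖ ≤ η then (0 : ℝ) else 1) * wt ε (∑ i, vec ω i) ≤
          Real.exp (-(η ^ 2 / 2) * (1 / ε)) := by
      intro ω
      split_ifs with h
      · rw [zero_mul]; exact (Real.exp_pos _).le
      · rw [one_mul]
        unfold wt
        apply Real.exp_le_exp.2
        push Not at h
        have h3 : η ^ 2 ≤ ‖∑ i, vec ω i‖ ^ 2 := by
          apply pow_le_pow_left₀ hη.le h.le
        have h4 : η ^ 2 / (2 * ε) ≤ ‖∑ i, vec ω i‖ ^ 2 / (2 * ε) := by
          apply div_le_div_of_nonneg_right h3 (by positivity)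
        have h5 : -(η ^ 2 / 2) * (1 / ε) = -(η ^ 2 / (2 * ε)) := by
          field_simp
        rw [h5]
        linarith
    calc _ ≤ ∫ _ω : Fin 4 → Sp n, Real.exp (-(η ^ 2 / 2) * (1 / ε)) ∂(pm n 4) := by
          apply integral_mono_of_nonneg
          · refine Eventually.of_forall fun ω => ?_
            apply mul_nonneg
            · show (0 : ℝ) ≤ if ‖∑ i, vec ω i‖ ≤ η then (0 : ℝ) else 1
              split_ifs <;> norm_num
            · exact (Real.exp_pos _).le
          · exact integrable_const _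
          · exact Eventually.of_forall hb
      _ = _ := by simp
  unfold Ee
  rw [div_le_iff₀ hIpos]
  refine hnum.trans ?_
  refine le_trans ?_ (mul_le_mul_of_nonneg_left hden hδ.le)
  -- final computation
  have h6 : (1 / ε) ^ ((n : ℝ) / 2) = (ε ^ ((n : ℝ) / 2))⁻¹ := by
    rw [one_div, Real.inv_rpow hε.le]
  have h7 : (ε / (2 * Real.pi)) ^ ((n : ℝ) / 2) =
      ε ^ ((n : ℝ) / 2) / (2 * Real.pi) ^ ((n : ℝ) / 2) := by
    rw [Real.div_rpow hε.le h2pi.le]
  have hp : 0 < ε ^ ((n : ℝ) / 2) := Real.rpow_pos_of_pos hε _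
  rw [h7]
  rw [h6, inv_mul_eq_div, div_lt_iff₀ hp] at hkey
  refine hkey.le.trans (le_of_eq ?_)
  rw [hK]
  ring

end Pool.Agent.SPH4
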