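import Pool.Agent.SPH4.Targets
import Pool.Agent.ExpMax.INV
import Pool.Agent.ExpMax.BASIC
import Pool.Agent.ExpMax.EXTC

set_option autoImplicit false

/-!
# The extension inequality for continuous functions
-/

noncomputable section

open MeasureTheory Set Filter
open scoped ENNReal RealInnerProductSpace Topology

namespace Pool.Agent.SPH4

open Pool.Agent.ExpMax

theorem EXT4_neg (n : ℕ) (hn : 1 ≤ n) (g : Sp n → ℝ) (hg : Continuous g) :
    ∫ ω : Sp n, g (-ω) ∂(prb (V n)) = ∫ ω : Sp n, g ω ∂(prb (V n)) := by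
  have h := (tINV (V n) (by simpa using hn)).2 (LinearIsometryEquiv.neg ℝ)
  have h2 := BASIC_inv h hg
  have e : ∀ ω : Sp n, rot (LinearIsometryEquiv.neg ℝ) ω = -ω := fun ω => by
    ext1
    simp [rot]
  simpa only [e] using h2

/-- the bound for a fixed small parameter -/
theorem EXT4_bound (hCONT : T_CONT) (hFOU4 : T_FOU4) (hZN : T_ZN) (hBESS : T_BESS)
    (n : ℕ) (hn : 3 ≤ n) (f : Sp n → ℂ) (hf : Continuous f) (δ : ℝ) (hδ : 0 < δ) :
    ∃ ε₀ : ℝ, 0 < ε₀ ∧ ∀ ε, 0 < ε → ε < ε₀ →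
      ∫ y : V n, ‖Ext f y‖ ^ 4 * Real.exp (-(ε * ‖y‖ ^ 2 / 2)) ≤
        ((∫ ω : Sp n, ‖f ω‖ ^ 2 ∂(prb (V n))) ^ 2 + δ) * ∫ y : V n, u0 y ^ 4 := by
  set g : Fin 4 → Sp n → ℝ := fun j ω => if j.val < 2 then ‖f ω‖ else ‖f (-ω)‖ with hg
  have hgc : ∀ j, Continuous (g j) := by
    intro j
    by_cases hj : j.val < 2
    · simp only [hg, hj, if_true]
      exact hf.norm
    · simp only [hg, hj, if_false]
      exact (hf.comp continuous_neg).norm
  have hgn : ∀ j ω, 0 ≤ g j ω := by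
    intro j ω
    by_cases hj : j.val < 2
    · simp only [hg, hj, if_true]
      exact norm_nonneg _
    · simp only [hg, hj, if_false]
      exact norm_nonneg _
  obtain ⟨ε₀, h0, h⟩ := hCONT n hn g hgc hgn δ hδ
  refine ⟨ε₀, h0, fun ε hε hε' => ?_⟩
  have h1 := h ε hε hε'
  have h2 := hFOU4 n (by omega) ε hε f hf
  have h3 := hZN n (by omega) ε hε
  set I : ℝ := ∫ ω : Sp n, ‖f ω‖ ^ 2 ∂(prb (V n)) with hI
  have hI0 : 0 ≤ I := integral_nonneg fun _ => by positivity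
  have hIn : ∫ ω : Sp n, ‖f (-ω)‖ ^ 2 ∂(prb (V n)) = I :=
    EXT4_neg n (by omega) (fun ω => ‖f ω‖ ^ 2) (by fun_prop)
  have hprod : ∏ j, √(∫ ω : Sp n, g j ω ^ 2 ∂(prb (V n))) = I ^ 2 := by
    have e0 : ∫ ω : Sp n, g 0 ω ^ 2 ∂(prb (V n)) = I := by simp [hg, hI]
    have e1 : ∫ ω : Sp n, g 1 ω ^ 2 ∂(prb (V n)) = I := by simp [hg, hI]
    have e2 : ∫ ω : Sp n, g 2 ω ^ 2 ∂(prb (V n)) = I := by simpa [hg] using hIn
    have e3 : ∫ ω : Sp n, g 3 ω ^ 2 ∂(prb (V n)) = I := by simpa [hg] using hIn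
    rw [Fin.prod_univ_four, e0, e1, e2, e3, Real.mul_self_sqrt hI0, mul_assoc,
      Real.mul_self_sqrt hI0]
    ring
  have hint : ∫ ω : Fin 4 → Sp n, (∏ j, g j (ω j)) * wt ε (∑ i, vec ω i) ∂(pm n 4) =
      ∫ ω : Fin 4 → Sp n,
      ‖f (ω 0)‖ * ‖f (ω 1)‖ * ‖f (-(ω 2))‖ * ‖f (-(ω 3))‖ *
        wt ε (∑ i, vec ω i) ∂(pm n 4) := by
    refine integral_congr_ae (Eventually.of_forall fun ω => ?_)
    simp only [Fin.prod_univ_four]
    simp [hg]
  rw [hprod, hint, h3] at h1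
  have hπ : 0 < 2 * Real.pi / ε := by positivity
  have hcan : (2 * Real.pi / ε) ^ ((n : ℝ) / 2) * (ε / (2 * Real.pi)) ^ ((n : ℝ) / 2) = 1 := by
    rw [← Real.mul_rpow hπ.le (by positivity)]
    have : 2 * Real.pi / ε * (ε / (2 * Real.pi)) = 1 := by
      have := Real.pi_pos
      field_simp
    rw [this, Real.one_rpow]
  have hle : ∫ y : V n, u0 y ^ 4 * Real.exp (-(ε * ‖y‖ ^ 2 / 2)) ≤ ∫ y : V n, u0 y ^ 4 := by
    refine integral_mono_of_nonneg (Eventually.of_forall fun y => ?_) (hBESS n hn)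
      (Eventually.of_forall fun y => ?_)
    · show (0 : ℝ) ≤ _
      positivity
    · show u0 y ^ 4 * Real.exp (-(ε * ‖y‖ ^ 2 / 2)) ≤ u0 y ^ 4
      refine mul_le_of_le_one_right (by positivity) (Real.exp_le_one_iff.mpr ?_)
      have : 0 ≤ ε * ‖y‖ ^ 2 / 2 := by positivity
      linarith
  calc ∫ y : V n, ‖Ext f y‖ ^ 4 * Real.exp (-(ε * ‖y‖ ^ 2 / 2))
      ≤ (2 * Real.pi / ε) ^ ((n : ℝ) / 2) * _ := h2
    _ ≤ (2 * Real.pi / ε) ^ ((n : ℝ) / 2) * ((I ^ 2 + δ) *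
          ((ε / (2 * Real.pi)) ^ ((n : ℝ) / 2) *
            ∫ y : V n, u0 y ^ 4 * Real.exp (-(ε * ‖y‖ ^ 2 / 2)))) :=
        mul_le_mul_of_nonneg_left h1 (by positivity)
    _ = (I ^ 2 + δ) * (((2 * Real.pi / ε) ^ ((n : ℝ) / 2) * (ε / (2 * Real.pi)) ^ ((n : ℝ) / 2)) *
            ∫ y : V n, u0 y ^ 4 * Real.exp (-(ε * ‖y‖ ^ 2 / 2))) := by ring
    _ = (I ^ 2 + δ) * ∫ y : V n, u0 y ^ 4 * Real.exp (-(ε * ‖y‖ ^ 2 / 2)) := by
        rw [hcan, one_mul]
    _ ≤ _ := mul_le_mul_of_nonneg_left hle (by positivity)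

/-- a Gaussian is integrable against a bounded continuous function -/
theorem EXT4_gint (n : ℕ) (F : V n → ℝ) (hF : Continuous F) (B : ℝ) (hB : ∀ y, |F y| ≤ B)
    (ε : ℝ) (hε : 0 < ε) :
    Integrable (fun y : V n => F y * Real.exp (-(ε * ‖y‖ ^ 2 / 2))) := by
  have h1 : Integrable (fun y : V n => Real.exp (-(ε / 2) * ‖y‖ ^ 2)) := by
    have := GaussianFourier.integrable_cexp_neg_mul_sq_norm_add (b := ((ε / 2 : ℝ) : ℂ))
      (by simpa using hε) 0 (0 : V n)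
    have h2 := this.norm
    refine h2.congr (Eventually.of_forall fun y => ?_)
    simp only [inner_zero_left, Complex.norm_exp]
    congr 1
    simp [← Complex.ofReal_pow]
  have h2 : Integrable (fun y : V n => Real.exp (-(ε * ‖y‖ ^ 2 / 2))) := by
    refine h1.congr (Eventually.of_forall fun y => ?_)
    show Real.exp _ = Real.exp _
    congr 1
    ring
  refine h2.bdd_mul (c := B) hF.aestronglyMeasurable (Eventually.of_forall fun y => ?_)
  rw [Real.norm_eq_abs]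
  exact hB y

theorem p_EXT4 (hCONT : T_CONT) (hFOU4 : T_FOU4) (hZN : T_ZN) (hBESS : T_BESS) : T_EXT4 := by
  intro n hn f hf
  have hdim : 1 ≤ Module.finrank ℝ (V n) := by
    simp
    omega
  have := (tINV (V n) hdim).1
  have hfi : Integrable f (prb (V n)) := BASIC_int hf
  obtain ⟨hEc, hEb, -⟩ := tEXTC tINV (V n) hdim f hfi
  set M : ℝ := ∫ ω, ‖f ω‖ ∂(prb (V n)) with hM
  set I : ℝ := ∫ ω : Sp n, ‖f ω‖ ^ 2 ∂(prb (V n)) with hI
  set U : ℝ := ∫ y : V n, u0 y ^ 4 with hU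
  have hU0 : 0 ≤ U := integral_nonneg fun _ => by positivity
  have hgc : Continuous (fun y : V n => ‖Ext f y‖ ^ 4) := by fun_prop
  have hgb : ∀ y : V n, |‖Ext f y‖ ^ 4| ≤ M ^ 4 := fun y => by
    rw [abs_of_nonneg (by positivity)]
    exact pow_le_pow_left₀ (norm_nonneg _) (hEb y) 4
  -- Fatou
  have hfat : ∀ δ : ℝ, 0 < δ →
      ∫⁻ y : V n, ENNReal.ofReal (‖Ext f y‖ ^ 4) ≤ ENNReal.ofReal ((I ^ 2 + δ) * U) := by
    intro δ hδ
    obtain ⟨ε₀, h0, h⟩ := EXT4_bound hCONT hFOU4 hZN hBESS n hn f hf δ hδ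
    set e : ℕ → ℝ := fun k => ε₀ / (k + 2) with he
    have he0 : ∀ k, 0 < e k := fun k => by positivity
    have he1 : ∀ k, e k < ε₀ := fun k => by
      rw [he]
      show ε₀ / ((k : ℝ) + 2) < ε₀
      rw [div_lt_iff₀ (by positivity)]
      have : (0 : ℝ) ≤ k := Nat.cast_nonneg k
      nlinarith
    have hel : Tendsto e atTop (𝓝 0) := by
      have := tendsto_const_div_atTop_nhds_zero_nat ε₀
      have h2 := (tendsto_add_atTop_iff_nat 2).mpr this
      refine h2.congr fun k => ?_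
      simp [he]
    have hpt : ∀ y : V n, Tendsto (fun k => ENNReal.ofReal
        (‖Ext f y‖ ^ 4 * Real.exp (-(e k * ‖y‖ ^ 2 / 2)))) atTop
        (𝓝 (ENNReal.ofReal (‖Ext f y‖ ^ 4))) := by
      intro y
      refine (ENNReal.continuous_ofReal.tendsto _).comp ?_
      have h1 : Tendsto (fun k => Real.exp (-(e k * ‖y‖ ^ 2 / 2))) atTop (𝓝 1) := by
        have h2 : Tendsto (fun k => -(e k * ‖y‖ ^ 2 / 2)) atTop (𝓝 0) := by
          have := ((hel.mul_const (‖y‖ ^ 2)).div_const 2).neg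
          simpa using this
        have := (Real.continuous_exp.tendsto 0).comp h2
        rw [Real.exp_zero] at this
        exact this
      have := h1.const_mul (‖Ext f y‖ ^ 4)
      rwa [mul_one] at this
    calc ∫⁻ y : V n, ENNReal.ofReal (‖Ext f y‖ ^ 4)
        = ∫⁻ y : V n, liminf (fun k => ENNReal.ofReal
            (‖Ext f y‖ ^ 4 * Real.exp (-(e k * ‖y‖ ^ 2 / 2)))) atTop := by
          refine lintegral_congr fun y => ?_
          rw [(hpt y).liminf_eq]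
      _ ≤ liminf (fun k => ∫⁻ y : V n, ENNReal.ofReal
            (‖Ext f y‖ ^ 4 * Real.exp (-(e k * ‖y‖ ^ 2 / 2)))) atTop := by
          refine lintegral_liminf_le fun k => ?_
          exact (Continuous.measurable (by fun_prop)).ennreal_ofReal
      _ ≤ ENNReal.ofReal ((I ^ 2 + δ) * U) := by
          refine liminf_le_of_le (by isBoundedDefault) fun b hb => ?_
          obtain ⟨k, hk⟩ := hb.exists
          refine hk.trans ?_
          rw [← ofReal_integral_eq_lintegral_ofReal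
            (EXT4_gint n _ hgc (M ^ 4) hgb (e k) (he0 k))
            (Eventually.of_forall fun y => by
              show (0 : ℝ) ≤ _
              positivity)]
          exact ENNReal.ofReal_le_ofReal (h (e k) (he0 k) (he1 k))
  have hint : Integrable (fun y : V n => ‖Ext f y‖ ^ 4) := by
    refine ⟨hgc.aestronglyMeasurable, ?_⟩
    rw [hasFiniteIntegral_iff_ofReal (Eventually.of_forall fun y => by
      show (0 : ℝ) ≤ _
      positivity)]
    exact lt_of_le_of_lt (hfat 1 one_pos) ENNReal.ofReal_lt_top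
  refine ⟨hint, ?_⟩
  have hle : ∀ δ : ℝ, 0 < δ → ∫ y : V n, ‖Ext f y‖ ^ 4 ≤ (I ^ 2 + δ) * U := by
    intro δ hδ
    have h1 := hfat δ hδ
    rw [← ofReal_integral_eq_lintegral_ofReal hint (Eventually.of_forall fun y => by
      show (0 : ℝ) ≤ _
      positivity)] at h1
    exact (ENNReal.ofReal_le_ofReal_iff (by positivity)).mp h1
  refine le_of_forall_pos_le_add fun δ hδ => ?_
  have h1 := hle (δ / (U + 1)) (by positivity)
  have h2 : δ / (U + 1) * U ≤ δ := by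
    rw [div_mul_eq_mul_div, div_le_iff₀ (by positivity)]
    nlinarith
  nlinarith [h1, h2]

end Pool.Agent.SPH4
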