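import Pool.Agent.SPH4.Targets
import Pool.Agent.ExpMax.INV
import Pool.Agent.ExpMax.BASIC
import Pool.Agent.ExpMax.SLICE
import Pool.Agent.ExpMax.ELL
import Pool.Agent.ExpMax.NORMS
import Pool.Agent.ExpMax.MAIN

/-!
# FIN4: `exp(-|τ|)` is a maximizer on the round sections for the exponent `4`
-/

set_option autoImplicit false

noncomputable section

open MeasureTheory Set Filter
open scoped ENNReal RealInnerProductSpace Topology

namespace Pool.Agent.SPH4

open Pool.Agent.ExpMax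

theorem FIN4_inj (α β γ s₀ κ R : ℝ) (d : ℕ) (hα : α ≠ 0) (hκ : 0 < κ) (hR : 0 < R) :
    Function.Injective (ellPt α β γ s₀ κ R : Metric.sphere (0 : Fd d) 1 → Pt d) := by
  intro ω ω' h
  unfold ellPt planePt at h
  simp only [Prod.mk.injEq] at h
  obtain ⟨-, h2, h3⟩ := h
  have hN : 0 < √(α ^ 2 + β ^ 2) := Real.sqrt_pos.2 (by positivity)
  have h4 : (s₀ + κ * R * (ω : Fd d).fst) * α / √(α ^ 2 + β ^ 2) =
      (s₀ + κ * R * (ω' : Fd d).fst) * α / √(α ^ 2 + β ^ 2) := by linarith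
  rw [div_left_inj' hN.ne'] at h4
  have h5 := mul_right_cancel₀ hα h4
  have h6 : κ * R * (ω : Fd d).fst = κ * R * (ω' : Fd d).fst := by linarith
  have h7 := mul_left_cancel₀ (by positivity : κ * R ≠ 0) h6
  have h8 : (ω : Fd d).snd = (ω' : Fd d).snd := smul_right_injective _ hR.ne' h3
  apply Subtype.ext
  apply (WithLp.equiv 2 (ℝ × Ed d)).injective
  exact Prod.ext h7 h8

theorem FIN4_emb (α β γ s₀ κ R : ℝ) (d : ℕ) (hα : α ≠ 0) (hκ : 0 < κ) (hR : 0 < R) :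
    MeasurableEmbedding (ellPt α β γ s₀ κ R : Metric.sphere (0 : Fd d) 1 → Pt d) :=
  ((MAIN_cont_ellPt α β γ s₀ κ R d).isClosedEmbedding
    (FIN4_inj α β γ s₀ κ R d hα hκ hR)).measurableEmbedding

/-- In the situation of `T_ELL`: a function which is almost everywhere a nonzero constant is a
maximizer, if the sharp inequality holds on the sphere. -/
theorem FIN4_ell (d : ℕ) (α β γ p : ℝ) (hp : 0 < p) (s₀ κ R c c₂ : ℝ)
    (hprob : IsProbabilityMeasure (prb (Fd d))) (hα : α ≠ 0) (hκ : 0 < κ) (hR : 0 < R)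
    (hc : 0 < c)
    (hσ : sectionMeasure α β γ d =
      ENNReal.ofReal c • Measure.map (ellPt α β γ s₀ κ R) (prb (Fd d)))
    (hc₂ : 0 < c₂)
    (hnorm : ∀ f : Pt d → ℂ,
      ∫⁻ y, ‖extension α β γ f y‖ₑ ^ p ∂(planeMeasure α β γ d) =
      ENNReal.ofReal c₂ * ∫⁻ z : Fd d, ‖Ext (fun ω => f (ellPt α β γ s₀ κ R ω)) z‖ₑ ^ p)
    (hcore1 : 0 < ∫ y : Fd d, |u0 y| ^ p)
    (hcore : ∀ f : Metric.sphere (0 : Fd d) 1 → ℂ, MemLp f 2 (prb (Fd d)) →
      Integrable (fun y => ‖Ext f y‖ ^ p) ∧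
      ∫ y, ‖Ext f y‖ ^ p ≤ (∫ y : Fd d, |u0 y| ^ p) *
        (∫ ω, ‖f ω‖ ^ 2 ∂(prb (Fd d))) ^ (p / 2))
    (hext1 : ∀ y : Fd d, Ext (fun _ => 1) y = ((u0 y : ℝ) : ℂ)) (f : Pt d → ℂ) (b : ℂ)
    (hb : b ≠ 0) (hfb : ∀ ω : Metric.sphere (0 : Fd d) 1, f (ellPt α β γ s₀ κ R ω) = b) :
    IsMaximizer α β γ p f := by
  have hcE : Continuous (ellPt α β γ s₀ κ R : Metric.sphere (0 : Fd d) 1 → Pt d) :=
    MAIN_cont_ellPt α β γ s₀ κ R d
  have hmE := hcE.measurable
  have hemb := FIN4_emb α β γ s₀ κ R d hα hκ hR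
  have hc' : ENNReal.ofReal c ≠ 0 := by simpa using hc
  set μ := Measure.map (ellPt α β γ s₀ κ R) (prb (Fd d)) with hμ
  have hμprob : IsProbabilityMeasure μ := Measure.isProbabilityMeasure_map hmE.aemeasurable
  have hσfin : IsFiniteMeasure (sectionMeasure α β γ d) := by
    rw [hσ]
    refine ⟨?_⟩
    rw [Measure.smul_apply, measure_univ, smul_eq_mul, mul_one]
    exact ENNReal.ofReal_lt_top
  have hae : ∀ P : Pt d → Prop, (∀ᵐ ζ ∂(sectionMeasure α β γ d), P ζ) ↔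
      ∀ᵐ ω ∂(prb (Fd d)), P (ellPt α β γ s₀ κ R ω) := by
    intro P
    rw [hσ, Measure.ae_ennreal_smul_measure_iff hc', hμ, hemb.ae_map_iff]
  -- membership in L²
  have hmem : ∀ f : Pt d → ℂ, MemLp f 2 (sectionMeasure α β γ d) →
      MemLp (fun ω => f (ellPt α β γ s₀ κ R ω)) 2 (prb (Fd d)) := by
    intro f hf
    have h1 : MemLp f 2 μ := by
      have h2 : sectionMeasure α β γ d = ENNReal.ofReal c • μ := hσ
      rw [h2] at hf
      have h3 : μ ≤ (ENNReal.ofReal c)⁻¹ • (ENNReal.ofReal c • μ) := by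
        rw [smul_smul, ENNReal.inv_mul_cancel hc' ENNReal.ofReal_ne_top, one_smul]
      exact (hf.smul_measure (ENNReal.inv_ne_top.2 hc')).mono_measure h3
    exact h1.comp_measurePreserving (μ := prb (Fd d)) (f := ellPt α β γ s₀ κ R) ⟨hmE, rfl⟩
  -- the norm
  have hL2 : ∀ f : Pt d → ℂ, MemLp f 2 (sectionMeasure α β γ d) →
      ∫⁻ ζ, ‖f ζ‖ₑ ^ (2 : ℝ) ∂(sectionMeasure α β γ d) =
        ENNReal.ofReal (c * ∫ ω, ‖f (ellPt α β γ s₀ κ R ω)‖ ^ 2 ∂(prb (Fd d))) := by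
    intro f hf
    have h1 := hmem f hf
    have h4 : AEStronglyMeasurable f μ := by
      have h2 : sectionMeasure α β γ d = ENNReal.ofReal c • μ := hσ
      have h3 : μ ≪ sectionMeasure α β γ d := by
        rw [h2]; exact Measure.absolutelyContinuous_smul hc'
      exact hf.1.mono_ac h3
    rw [hσ, lintegral_smul_measure, smul_eq_mul]
    rw [lintegral_map' (h4.enorm.pow_const 2) hmE.aemeasurable]
    rw [ENNReal.ofReal_mul hc.le, ofReal_integral_eq_lintegral_ofReal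
      (h1.integrable_norm_pow (by norm_num)) (Filter.Eventually.of_forall fun _ => by positivity)]
    congr 2
    ext ω
    rw [ENNReal.ofReal_pow (norm_nonneg _), ofReal_norm]
    norm_num
  have hLp : ∀ f : Pt d → ℂ, MemLp f 2 (sectionMeasure α β γ d) →
      ∫⁻ y, ‖extension α β γ f y‖ₑ ^ p ∂(planeMeasure α β γ d) =
        ENNReal.ofReal (c₂ * ∫ z : Fd d, ‖Ext (fun ω => f (ellPt α β γ s₀ κ R ω)) z‖ ^ p) := by
    intro f hf
    rw [hnorm f, ENNReal.ofReal_mul hc₂.le, ofReal_integral_eq_lintegral_ofReal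
      (hcore _ (hmem f hf)).1 (Filter.Eventually.of_forall fun _ => by positivity)]
    congr 2
    ext z
    rw [← ENNReal.ofReal_rpow_of_nonneg (norm_nonneg _) hp.le, ofReal_norm]
  -- the quotient
  set C : ℝ := c₂ * (∫ y : Fd d, |u0 y| ^ p) / c ^ (p / 2) with hC
  have hC0 : 0 < C := by positivity
  have hquot : ∀ f : Pt d → ℂ, MemLp f 2 (sectionMeasure α β γ d) →
      ¬ f =ᵐ[sectionMeasure α β γ d] 0 →
      0 < ∫ ω, ‖f (ellPt α β γ s₀ κ R ω)‖ ^ 2 ∂(prb (Fd d)) ∧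
      quotient α β γ p f = ENNReal.ofReal
        (c₂ * (∫ z : Fd d, ‖Ext (fun ω => f (ellPt α β γ s₀ κ R ω)) z‖ ^ p) /
          (c * ∫ ω, ‖f (ellPt α β γ s₀ κ R ω)‖ ^ 2 ∂(prb (Fd d))) ^ (p / 2)) := by
    intro f hf hf0
    have hn0 : 0 ≤ ∫ ω, ‖f (ellPt α β γ s₀ κ R ω)‖ ^ 2 ∂(prb (Fd d)) :=
      integral_nonneg fun _ => by positivity
    have hn : 0 < ∫ ω, ‖f (ellPt α β γ s₀ κ R ω)‖ ^ 2 ∂(prb (Fd d)) := by
      rcases hn0.eq_or_lt with h | h
      · exfalso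
        have h1 := hL2 f hf
        rw [← h, mul_zero, ENNReal.ofReal_zero, lintegral_eq_zero_iff' (hf.1.enorm.pow_const 2)] at h1
        apply hf0
        filter_upwards [h1] with ζ hζ
        simpa using hζ
      · exact h
    refine ⟨hn, ?_⟩
    unfold quotient
    rw [hL2 f hf, hLp f hf, ENNReal.ofReal_rpow_of_nonneg (by positivity) (by positivity),
      ENNReal.ofReal_div_of_pos (by positivity)]
  have hquot_le : ∀ f : Pt d → ℂ, MemLp f 2 (sectionMeasure α β γ d) →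
      ¬ f =ᵐ[sectionMeasure α β γ d] 0 → quotient α β γ p f ≤ ENNReal.ofReal C := by
    intro f hf hf0
    obtain ⟨hn, hq⟩ := hquot f hf hf0
    rw [hq]
    apply ENNReal.ofReal_le_ofReal
    have h1 := (hcore _ (hmem f hf)).2
    rw [hC, Real.mul_rpow hc.le hn.le, div_le_div_iff₀ (by positivity) (by positivity)]
    calc c₂ * (∫ z : Fd d, ‖Ext (fun ω => f (ellPt α β γ s₀ κ R ω)) z‖ ^ p) * c ^ (p / 2)
        ≤ c₂ * ((∫ y : Fd d, |u0 y| ^ p) *
          (∫ ω, ‖f (ellPt α β γ s₀ κ R ω)‖ ^ 2 ∂(prb (Fd d))) ^ (p / 2)) * c ^ (p / 2) := by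
          gcongr
      _ = _ := by ring
  have hσ0 : sectionMeasure α β γ d ≠ 0 := by
    rw [hσ]
    intro h
    have h1 := congrArg (fun ν : Measure (Pt d) => ν univ) h
    simp only [Measure.smul_apply, measure_univ, smul_eq_mul, mul_one, Measure.coe_zero,
      Pi.zero_apply] at h1
    exact hc' h1
  -- the function is almost everywhere constant
  have hfae : f =ᵐ[sectionMeasure α β γ d] fun _ => b := by
    show ∀ᵐ ζ ∂(sectionMeasure α β γ d), f ζ = b
    rw [hae]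
    exact Filter.Eventually.of_forall hfb
  have hfm : MemLp f 2 (sectionMeasure α β γ d) := (memLp_congr_ae hfae).2 (memLp_const b)
  have hf0 : ¬ f =ᵐ[sectionMeasure α β γ d] 0 := by
    intro h
    have h2 : ∀ᵐ ζ ∂(sectionMeasure α β γ d), False := by
      filter_upwards [hfae, h] with ζ h1 h2
      rw [h2, Pi.zero_apply] at h1
      exact hb h1.symm
    rw [ae_iff] at h2
    simp only [not_false_eq_true, Set.ofPred_true] at h2
    exact hσ0 (Measure.measure_univ_eq_zero.1 h2)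
  have hfint : Integrable f (sectionMeasure α β γ d) := hfm.integrable (by norm_num)
  have hfQ : quotient α β γ p f = ENNReal.ofReal C := by
    obtain ⟨hn, hq⟩ := hquot f hfm hf0
    have hb0 : 0 < ‖b‖ := norm_pos_iff.2 hb
    rw [hq]
    congr 1
    have e0 : (fun ω : Metric.sphere (0 : Fd d) 1 => f (ellPt α β γ s₀ κ R ω)) = fun _ => b :=
      funext hfb
    have hNn : ∫ ω, ‖f (ellPt α β γ s₀ κ R ω)‖ ^ 2 ∂(prb (Fd d)) = ‖b‖ ^ 2 := by
      simp [hfb]
    have hE : ∀ z : Fd d, ‖Ext (fun ω => f (ellPt α β γ s₀ κ R ω)) z‖ = ‖b‖ * |u0 z| := by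
      intro z
      have h1 : Ext (fun ω => f (ellPt α β γ s₀ κ R ω)) z = b * Ext (fun _ => 1) z := by
        rw [e0]
        unfold ExpMax.Ext
        rw [← integral_const_mul]
        congr 1
        ext ω
        rw [one_mul]
      rw [h1, norm_mul, hext1, Complex.norm_real, Real.norm_eq_abs]
    have hI : ∫ z : Fd d, ‖Ext (fun ω => f (ellPt α β γ s₀ κ R ω)) z‖ ^ p =
        ‖b‖ ^ p * ∫ z : Fd d, |u0 z| ^ p := by
      rw [← integral_const_mul]
      congr 1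
      ext z
      rw [hE z, Real.mul_rpow hb0.le (abs_nonneg _)]
    rw [hNn, hI, hC, Real.mul_rpow hc.le (by positivity)]
    have e5 : (‖b‖ ^ 2) ^ (p / 2) = ‖b‖ ^ p := by
      rw [← Real.rpow_natCast, ← Real.rpow_mul hb0.le]
      congr 1
      push_cast
      ring
    rw [e5]
    have : 0 < ‖b‖ ^ p := by positivity
    field_simp
  have hbest : bestConst α β γ d p = ENNReal.ofReal C := by
    apply le_antisymm
    · unfold bestConst
      refine iSup_le fun f => iSup_le fun hf => iSup_le fun _ => iSup_le fun hf0 => ?_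
      exact hquot_le f hf hf0
    · rw [← hfQ]
      unfold bestConst
      exact le_iSup_of_le f (le_iSup_of_le hfm (le_iSup_of_le hfint (le_iSup_of_le hf0 le_rfl)))
  exact ⟨hfm, hf0, by rw [hbest]; exact ENNReal.ofReal_lt_top, by rw [hbest, hfQ]⟩

theorem p_FIN4 (hCORE4 : T_CORE4) : T_FIN4 := by
  intro d hd α γ hα hγ
  have hfr : Module.finrank ℝ (Fd d) = d + 1 := MAIN_finrank d
  have hprob := (tINV (Fd d) (by rw [hfr]; omega)).1
  obtain ⟨s₀, κ, R, τ₀, τ₁, c, hκ, hR, hc, h0, -, hτ, hσ⟩ := tELL tSLICE d α 0 γ (by omega)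
    (by simpa using hα) hγ
  obtain ⟨c₂, hc₂, hnorm⟩ := tNORMS d α 0 γ s₀ κ R c 4 (by omega) hα hκ hR hc (by norm_num) hσ
  obtain ⟨hint, hpos, hcore⟩ := hCORE4 (Fd d) (by rw [hfr]; omega)
  have e4 : ∀ x : ℝ, x ^ (4 : ℝ) = x ^ 4 := fun x => by
    rw [← Real.rpow_natCast]
    norm_num
  have e4' : ∀ x : ℝ, |x| ^ (4 : ℝ) = x ^ 4 := fun x => by
    rw [e4, Even.pow_abs (by decide)]
  refine FIN4_ell d α 0 γ 4 (by norm_num) s₀ κ R c c₂ hprob hα hκ hR hc hσ hc₂ hnorm ?_ ?_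
    (tBASIC tINV (Fd d) (by rw [hfr]; omega)).1 expTau ((Real.exp (-τ₀) : ℝ) : ℂ)
    (by exact_mod_cast (Real.exp_pos _).ne') ?_
  · simp only [e4']
    exact hpos
  · intro f hf
    obtain ⟨i1, i2⟩ := hcore f hf
    simp only [e4, Even.pow_abs (show Even 4 by decide)]
    refine ⟨i1, i2.trans (le_of_eq ?_)⟩
    congr 1
    rw [← Real.rpow_natCast]
    norm_num
  · intro ω
    unfold expTau
    rw [hτ ω, h0 rfl, zero_mul, add_zero]

end Pool.Agent.SPH4
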