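import Pool.Agent.SPH4.Targets
import Pool.Agent.ExpMax.INV

set_option autoImplicit false

/-!
# The heat flow of a positive polynomial
-/

noncomputable section

open MeasureTheory Set Filter
open scoped ENNReal RealInnerProductSpace Topology

namespace Pool.Agent.SPH4

open Pool.Agent.ExpMax

/-- The polynomial function. -/
def FLOW_ev {n : ℕ} (p : MvPolynomial (Fin n) ℝ) (x : V n) : ℝ :=
  MvPolynomial.eval (fun i => x i) p

theorem FLOW_sum_proj {n : ℕ} (c : Fin n → ℝ) (v : V n) :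
    (∑ i, c i • (EuclideanSpace.proj i : V n →L[ℝ] ℝ)) v = ∑ i, c i * v i := by
  rw [sum_apply]
  refine Finset.sum_congr rfl fun i _ => ?_
  rw [smul_apply, smul_eq_mul]
  rfl

/-- The derivative of a polynomial function. -/
theorem FLOW_hasFDerivAt {n : ℕ} (p : MvPolynomial (Fin n) ℝ) (x : V n) :
    HasFDerivAt (FLOW_ev p) (∑ i, FLOW_ev (MvPolynomial.pderiv i p) x •
      (EuclideanSpace.proj i : V n →L[ℝ] ℝ)) x := by
  induction p using MvPolynomial.induction_on with
  | C a =>
    have h1 : FLOW_ev (n := n) (MvPolynomial.C a) = fun _ => a := by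
      funext x
      simp [FLOW_ev]
    have h2 : (∑ i, FLOW_ev (MvPolynomial.pderiv i (MvPolynomial.C a)) x •
      (EuclideanSpace.proj i : V n →L[ℝ] ℝ)) = 0 := by
      simp [FLOW_ev]
    rw [h1, h2]
    exact hasFDerivAt_const a x
  | add p q hp hq =>
    have h1 : FLOW_ev (p + q) = fun x => FLOW_ev p x + FLOW_ev q x := by
      funext x
      simp [FLOW_ev]
    have h2 : (∑ i, FLOW_ev (MvPolynomial.pderiv i (p + q)) x •
      (EuclideanSpace.proj i : V n →L[ℝ] ℝ)) =
      (∑ i, FLOW_ev (MvPolynomial.pderiv i p) x • (EuclideanSpace.proj i : V n →L[ℝ] ℝ)) +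
      (∑ i, FLOW_ev (MvPolynomial.pderiv i q) x • (EuclideanSpace.proj i : V n →L[ℝ] ℝ)) := by
      rw [← Finset.sum_add_distrib]
      refine Finset.sum_congr rfl fun i _ => ?_
      rw [← add_smul]
      congr 1
      simp [FLOW_ev]
    rw [h1, h2]
    exact hp.add hq
  | mul_X p j hp =>
    have h1 : FLOW_ev (p * MvPolynomial.X j) = fun x => FLOW_ev p x *
        (EuclideanSpace.proj j : V n →L[ℝ] ℝ) x := by
      funext x
      simp [FLOW_ev]
    rw [h1]
    have h3 := hp.mul ((EuclideanSpace.proj j : V n →L[ℝ] ℝ).hasFDerivAt (x := x))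
    refine h3.congr_fderiv ?_
    ext v
    rw [add_apply, smul_apply, smul_apply, FLOW_sum_proj, FLOW_sum_proj]
    have h5 : (EuclideanSpace.proj j : V n →L[ℝ] ℝ) v = v j := rfl
    have h6 : (EuclideanSpace.proj j : V n →L[ℝ] ℝ) x = x j := rfl
    rw [h5, h6, smul_eq_mul, smul_eq_mul, Finset.mul_sum]
    have h4 : ∀ i, FLOW_ev (MvPolynomial.pderiv i (p * MvPolynomial.X j)) x * v i =
        x j * (FLOW_ev (MvPolynomial.pderiv i p) x * v i) + (if i = j then FLOW_ev p x * v j else 0) := by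
      intro i
      by_cases hij : i = j
      · subst hij
        simp [FLOW_ev]
        ring
      · have hji : j ≠ i := fun h => hij h.symm
        simp [FLOW_ev, MvPolynomial.pderiv_X_of_ne hji, hij]
        ring
    simp only [h4, Finset.sum_add_distrib, Finset.sum_ite_eq', Finset.mem_univ, if_true]
    ring

/-- Polynomial functions are smooth. -/
theorem FLOW_contDiff {n : ℕ} (p : MvPolynomial (Fin n) ℝ) {k : WithTop ℕ∞} :
    ContDiff ℝ k (FLOW_ev p) := by
  induction p using MvPolynomial.induction_on with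
  | C a =>
    have h1 : FLOW_ev (n := n) (MvPolynomial.C a) = fun _ => a := by
      funext x
      simp [FLOW_ev]
    rw [h1]
    exact contDiff_const
  | add p q hp hq =>
    have h1 : FLOW_ev (p + q) = fun x => FLOW_ev p x + FLOW_ev q x := by
      funext x
      simp [FLOW_ev]
    rw [h1]
    exact hp.add hq
  | mul_X p j hp =>
    have h1 : FLOW_ev (p * MvPolynomial.X j) = fun x => FLOW_ev p x *
        (EuclideanSpace.proj j : V n →L[ℝ] ℝ) x := by
      funext x
      simp [FLOW_ev]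
    rw [h1]
    exact hp.mul (EuclideanSpace.proj j : V n →L[ℝ] ℝ).contDiff

/-- The derivative along a rotation, on polynomials. -/
def FLOW_D {n : ℕ} (a b : Fin n) : MvPolynomial (Fin n) ℝ →ₗ[ℝ] MvPolynomial (Fin n) ℝ :=
  (LinearMap.mulLeft ℝ (MvPolynomial.X b)) ∘ₗ (MvPolynomial.pderiv a).toLinearMap -
    (LinearMap.mulLeft ℝ (MvPolynomial.X a)) ∘ₗ (MvPolynomial.pderiv b).toLinearMap

/-- The Laplace operator, on polynomials. -/
def FLOW_L {n : ℕ} : MvPolynomial (Fin n) ℝ →ₗ[ℝ] MvPolynomial (Fin n) ℝ :=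
  ∑ a, ∑ b ∈ Finset.univ.filter (fun b => a < b), FLOW_D a b ∘ₗ FLOW_D a b

theorem FLOW_Dab {n : ℕ} (a b : Fin n) (p : MvPolynomial (Fin n) ℝ) :
    Dab a b (FLOW_ev p) = FLOW_ev (FLOW_D a b p) := by
  funext x
  unfold Dab
  rw [(FLOW_hasFDerivAt p x).fderiv, FLOW_sum_proj]
  have h1 : ∀ i, (rg a b x) i = (if i = a then x b else 0) - (if i = b then x a else 0) := by
    intro i
    simp [rg]
  simp only [h1, mul_sub, mul_ite, mul_zero, Finset.sum_sub_distrib, Finset.sum_ite_eq',
    Finset.mem_univ, if_true]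
  simp [FLOW_D, FLOW_ev]
  ring

theorem FLOW_ev_sum {n : ℕ} {ι : Type} (s : Finset ι) (f : ι → MvPolynomial (Fin n) ℝ) (x : V n) :
    FLOW_ev (∑ i ∈ s, f i) x = ∑ i ∈ s, FLOW_ev (f i) x := by
  simp [FLOW_ev]

theorem FLOW_ev_smul {n : ℕ} (c : ℝ) (f : MvPolynomial (Fin n) ℝ) (x : V n) :
    FLOW_ev (c • f) x = c * FLOW_ev f x := by
  simp [FLOW_ev, MvPolynomial.smul_eval]

theorem FLOW_LB {n : ℕ} (p : MvPolynomial (Fin n) ℝ) (x : V n) :
    LB (FLOW_ev p) x = FLOW_ev (FLOW_L p) x := by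
  unfold LB FLOW_L
  simp only [LinearMap.sum_apply, FLOW_ev_sum, FLOW_Dab, LinearMap.comp_apply]

/-- The rotation generator as a continuous linear map. -/
def FLOW_A {n : ℕ} (a b : Fin n) : V n →L[ℝ] V n :=
  (EuclideanSpace.proj b : V n →L[ℝ] ℝ).smulRight (EuclideanSpace.single a (1 : ℝ)) -
    (EuclideanSpace.proj a : V n →L[ℝ] ℝ).smulRight (EuclideanSpace.single b (1 : ℝ))

theorem FLOW_A_apply {n : ℕ} (a b : Fin n) (x : V n) : FLOW_A a b x = rg a b x := by
  simp [FLOW_A, rg]

theorem FLOW_A_skew {n : ℕ} (a b : Fin n) (x : V n) : ⟪FLOW_A a b x, x⟫ = 0 := by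
  rw [FLOW_A_apply, rg, inner_sub_left, real_inner_smul_left, real_inner_smul_left,
    EuclideanSpace.inner_single_left, EuclideanSpace.inner_single_left]
  simp
  ring

theorem FLOW_integrable {n : ℕ} [IsProbabilityMeasure (prb (V n))] (p : MvPolynomial (Fin n) ℝ) :
    Integrable (fun ω : Sp n => FLOW_ev p (ω : V n)) (prb (V n)) := by
  have : CompactSpace (Sp n) := Metric.sphere.compactSpace 0 1
  have hc : Continuous (fun ω : Sp n => FLOW_ev p (ω : V n)) :=
    (FLOW_contDiff (k := 0) p).continuous.comp continuous_subtype_val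
  exact hc.integrable_of_hasCompactSupport (HasCompactSupport.of_compactSpace _)

/-- The integral of a derivative along a rotation is zero. -/
theorem FLOW_int_D (hROT : T_ROT) {n : ℕ} (hn : 1 ≤ n) (a b : Fin n)
    (q : MvPolynomial (Fin n) ℝ) :
    ∫ ω : Sp n, FLOW_ev (FLOW_D a b q) (ω : V n) ∂(prb (V n)) = 0 := by
  have hprob : IsProbabilityMeasure (prb (V n)) := (tINV (V n) (by simpa using hn)).1
  let P0 : (Fin 1 → V n) →L[ℝ] V n := ContinuousLinearMap.proj 0
  have hcd : ContDiff ℝ 1 (fun v : Fin 1 → V n => FLOW_ev q (P0 v)) :=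
    (FLOW_contDiff q).comp P0.contDiff
  have h1 := hROT n 1 hn (FLOW_A a b) (FLOW_A_skew a b) Finset.univ
    (fun v : Fin 1 → V n => FLOW_ev q (P0 v)) ⟨univ, isOpen_univ, fun _ => mem_univ _,
      hcd.contDiffOn⟩
  have h2 : ∀ ω : Fin 1 → Sp n, fderiv ℝ (fun v : Fin 1 → V n => FLOW_ev q (P0 v)) (vec ω)
      (fun j => if j ∈ (Finset.univ : Finset (Fin 1)) then FLOW_A a b (ω j) else 0) =
      FLOW_ev (FLOW_D a b q) (ω 0 : V n) := by
    intro ω
    have h3 : HasFDerivAt (fun v : Fin 1 → V n => FLOW_ev q (P0 v))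
        ((fderiv ℝ (FLOW_ev q) (P0 (vec ω))).comp P0) (vec ω) := by
      exact HasFDerivAt.comp (g := FLOW_ev q) (vec ω)
        (FLOW_hasFDerivAt q (P0 (vec ω))).differentiableAt.hasFDerivAt P0.hasFDerivAt
    rw [h3.fderiv, ← FLOW_Dab]
    show fderiv ℝ (FLOW_ev q) (ω 0 : V n) (if (0 : Fin 1) ∈ (Finset.univ : Finset (Fin 1)) then
      FLOW_A a b (ω 0) else 0) = fderiv ℝ (FLOW_ev q) (ω 0 : V n) (rg a b (ω 0))
    rw [if_pos (Finset.mem_univ _), FLOW_A_apply]
  simp only [h2] at h1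
  have h4 : MeasurePreserving (Function.eval 0) (pm n 1) (prb (V n)) :=
    measurePreserving_eval (fun _ : Fin 1 => prb (V n)) 0
  have hc : Continuous (fun ω : Sp n => FLOW_ev (FLOW_D a b q) (ω : V n)) :=
    (FLOW_contDiff (k := 0) _).continuous.comp continuous_subtype_val
  rw [← h4.map_eq, integral_map h4.measurable.aemeasurable hc.aestronglyMeasurable]
  exact h1

/-- The integral of the Laplacian is zero. -/
theorem FLOW_int_LB (hROT : T_ROT) {n : ℕ} (hn : 1 ≤ n) (q : MvPolynomial (Fin n) ℝ) :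
    ∫ ω : Sp n, LB (FLOW_ev q) (ω : V n) ∂(prb (V n)) = 0 := by
  have hprob : IsProbabilityMeasure (prb (V n)) := (tINV (V n) (by simpa using hn)).1
  simp only [LB, FLOW_Dab]
  rw [integral_finsetSum _ fun a _ => integrable_finsetSum _ fun b _ => FLOW_integrable _]
  refine Finset.sum_eq_zero fun a _ => ?_
  rw [integral_finsetSum _ fun b _ => FLOW_integrable _]
  exact Finset.sum_eq_zero fun b _ => FLOW_int_D hROT hn a b _

theorem p_FLOW (hSPEC : T_SPEC) (hMAXP : T_MAXP) (hROT : T_ROT) : T_FLOW := by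
  intro n hn p hp
  have hn1 : 1 ≤ n := by omega
  have hprob : IsProbabilityMeasure (prb (V n)) := (tINV (V n) (by simpa using hn1)).1
  obtain ⟨N, q, lam, hlam, hsum, heig, hconst⟩ := hSPEC n hn p
  change ∀ x : V n, FLOW_ev p x = ∑ k, FLOW_ev (q k) x at hsum
  change ∀ k, ∀ x : V n, LB (FLOW_ev (q k)) x = -(lam k) * FLOW_ev (q k) x at heig
  change ∀ k, lam k = 0 → ∀ x y : V n, ‖x‖ = 1 → ‖y‖ = 1 → FLOW_ev (q k) x = FLOW_ev (q k) y
    at hconst
  change ∀ x : V n, ‖x‖ = 1 → 0 < FLOW_ev p x at hp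
  set G : ℝ → V n → ℝ := fun t x => ∑ k, Real.exp (-(lam k) * t) * FLOW_ev (q k) x with hG
  have hGpoly : ∀ t, G t = FLOW_ev (∑ k, Real.exp (-(lam k) * t) • q k) := by
    intro t
    funext x
    rw [FLOW_ev_sum]
    simp only [hG, FLOW_ev_smul]
  have hsmooth : ContDiff ℝ 4 (fun z : ℝ × V n => G z.1 z.2) := by
    simp only [hG]
    apply ContDiff.sum
    intro k _
    apply ContDiff.mul
    · exact Real.contDiff_exp.comp (contDiff_const.mul contDiff_fst)
    · exact (FLOW_contDiff (q k)).comp contDiff_snd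
  have heqn : ∀ t, 0 ≤ t → ∀ x : V n, ‖x‖ = 1 → HasDerivAt (fun s => G s x) (LB (G t) x) t := by
    intro t _ x _
    have h1 : LB (G t) x = ∑ k, (Real.exp (-(lam k) * t) * (-(lam k))) * FLOW_ev (q k) x := by
      rw [hGpoly, FLOW_LB, map_sum, FLOW_ev_sum]
      refine Finset.sum_congr rfl fun k _ => ?_
      rw [map_smul, FLOW_ev_smul, ← FLOW_LB, heig]
      ring
    rw [h1]
    simp only [hG]
    apply HasDerivAt.fun_sum
    intro k _
    apply HasDerivAt.mul_const
    have h2 : HasDerivAt (fun s : ℝ => -(lam k) * s) (-(lam k)) t := by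
      simpa using (hasDerivAt_id t).const_mul (-(lam k))
    exact h2.exp
  have hG0 : ∀ x, G 0 x = FLOW_ev p x := by
    intro x
    simp [hG, hsum]
  have hcomp : IsCompact (Metric.sphere (0 : V n) 1) := isCompact_sphere 0 1
  have hne : (Metric.sphere (0 : V n) 1).Nonempty := by
    refine ⟨EuclideanSpace.single ⟨0, by omega⟩ (1 : ℝ), ?_⟩
    simp
  refine ⟨G, ⟨hsmooth, heqn, ?_⟩, hG0, ?_⟩
  · obtain ⟨x₀, hx₀, hmin⟩ := hcomp.exists_isMinOn hne
      (FLOW_contDiff (k := 0) p).continuous.continuousOn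
    have hx₀' : ‖x₀‖ = 1 := by simpa using hx₀
    intro t ht x hx
    refine (hp x₀ hx₀').trans_le ?_
    refine hMAXP n hn1 G _ hsmooth heqn ?_ t ht x hx
    intro y hy
    rw [hG0]
    exact hmin (by simpa using hy)
  · intro δ hδ
    have hM : ∀ k, ∃ M : ℝ, ∀ x : V n, ‖x‖ = 1 → |FLOW_ev (q k) x| ≤ M := by
      intro k
      obtain ⟨M, hM⟩ := hcomp.exists_bound_of_continuousOn
        (FLOW_contDiff (k := 0) (q k)).continuous.continuousOn
      exact ⟨M, fun x hx => hM x (by simpa using hx)⟩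
    choose M hM using hM
    -- the integrals
    have hint : ∀ k, lam k ≠ 0 → ∫ ω : Sp n, FLOW_ev (q k) (ω : V n) ∂(prb (V n)) = 0 := by
      intro k hk
      have h1 := FLOW_int_LB hROT hn1 (q k)
      simp only [heig] at h1
      rw [integral_const_mul] at h1
      rcases mul_eq_zero.1 h1 with h2 | h2
      · exact absurd (neg_eq_zero.1 h2) hk
      · exact h2
    have hint0 : ∀ k, lam k = 0 → ∀ x : V n, ‖x‖ = 1 →
        ∫ ω : Sp n, FLOW_ev (q k) (ω : V n) ∂(prb (V n)) = FLOW_ev (q k) x := by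
      intro k hk x hx
      have h1 : ∀ ω : Sp n, FLOW_ev (q k) (ω : V n) = FLOW_ev (q k) x := fun ω =>
        hconst k hk _ _ (by simp) hx
      simp [h1]
    set B : ℝ → ℝ := fun t => ∑ k, (if lam k = 0 then 0 else Real.exp (-(lam k) * t) * M k) with hB
    have hBlim : Tendsto B atTop (𝓝 0) := by
      have h1 : Tendsto B atTop (𝓝 (∑ k : Fin N, (0 : ℝ))) := by
        simp only [hB]
        apply tendsto_finsetSum
        intro k _
        by_cases hk : lam k = 0
        · simp [hk]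
        · simp only [hk, if_false]
          have hpos : 0 < lam k := lt_of_le_of_ne (hlam k) (Ne.symm hk)
          have h2 : Tendsto (fun t : ℝ => Real.exp (-(lam k) * t)) atTop (𝓝 0) := by
            apply Real.tendsto_exp_atBot.comp
            exact Tendsto.const_mul_atTop_of_neg (by linarith) tendsto_id
          simpa using h2.mul_const (M k)
      simpa using h1
    obtain ⟨T, hT⟩ := (hBlim.eventually (gt_mem_nhds hδ)).exists_forall_of_atTop
    refine ⟨max T 0, le_max_right _ _, ?_⟩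
    intro t ht x hx
    have hBt : B t < δ := hT t ((le_max_left _ _).trans ht)
    have h1 : ∫ ω : Sp n, MvPolynomial.eval (fun i => (ω : V n) i) p ∂(prb (V n)) =
        ∑ k, ∫ ω : Sp n, FLOW_ev (q k) (ω : V n) ∂(prb (V n)) := by
      rw [← integral_finsetSum _ fun k _ => FLOW_integrable _]
      refine integral_congr_ae (Eventually.of_forall fun ω => ?_)
      exact hsum _
    rw [h1]
    simp only [hG]
    rw [← Finset.sum_sub_distrib]
    refine (Finset.abs_sum_le_sum_abs _ _).trans ((Finset.sum_le_sum fun k _ => ?_).trans hBt.le)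
    by_cases hk : lam k = 0
    · rw [if_pos hk, hint0 k hk x hx, hk]
      simp
    · rw [if_neg hk, hint k hk, sub_zero, abs_mul, Real.abs_exp]
      exact mul_le_mul_of_nonneg_left (hM k x hx) (Real.exp_pos _).le

end Pool.Agent.SPH4
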