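import Pool.Agent.SPH4.Targets
import Pool.Agent.ExpMax.INV

set_option autoImplicit false

/-!
# The Fourier formula for the fourth power of the extension of a continuous function
-/

noncomputable section

open MeasureTheory Set Filter
open scoped ENNReal RealInnerProductSpace Topology ComplexConjugate

namespace Pool.Agent.SPH4

open Pool.Agent.ExpMax

variable {n : ℕ}

lemma FOU4_neg_mp (hn : 1 ≤ n) :
    MeasurePreserving (fun ω : Sp n => -ω) (prb (V n)) (prb (V n)) := by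
  have h := (tINV (V n) (by simpa using hn)).2 (LinearIsometryEquiv.neg ℝ)
  have h2 : rot (LinearIsometryEquiv.neg ℝ : V n ≃ₗᵢ[ℝ] V n) = fun ω : Sp n => -ω := by
    funext ω
    apply Subtype.ext
    simp [rot]
  rwa [h2] at h

lemma FOU4_conj (hn : 1 ≤ n) (f : Sp n → ℂ) (y : V n) :
    conj (Ext f y) = Ext (fun ω => conj (f (-ω))) y := by
  have hm := FOU4_neg_mp hn
  unfold ExpMax.Ext
  rw [← integral_conj]
  rw [← hm.integral_comp (Homeomorph.neg (Sp n)).measurableEmbedding]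
  refine integral_congr_ae (Eventually.of_forall fun ω => ?_)
  simp [← Complex.exp_conj]

/-- The four factors. -/
def FOU4_g (f : Sp n → ℂ) : Fin 4 → Sp n → ℂ :=
  ![f, f, fun ω => conj (f (-ω)), fun ω => conj (f (-ω))]

lemma FOU4_g_cont (f : Sp n → ℂ) (hf : Continuous f) (i : Fin 4) : Continuous (FOU4_g f i) := by
  have h2 : Continuous (fun ω : Sp n => conj (f (-ω))) :=
    Complex.continuous_conj.comp (hf.comp continuous_neg)
  fin_cases i
  · exact hf
  · exact hf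
  · exact h2
  · exact h2

/-- The amplitude. -/
def FOU4_A (f : Sp n → ℂ) (ω : Fin 4 → Sp n) : ℂ := ∏ i, FOU4_g f i (ω i)

lemma FOU4_A_cont (f : Sp n → ℂ) (hf : Continuous f) : Continuous (FOU4_A f) := by
  unfold FOU4_A
  exact continuous_finsetProd _ fun i _ => (FOU4_g_cont f hf i).comp (continuous_apply i)

lemma FOU4_A_norm (f : Sp n → ℂ) (ω : Fin 4 → Sp n) :
    ‖FOU4_A f ω‖ = ‖f (ω 0)‖ * ‖f (ω 1)‖ * ‖f (-(ω 2))‖ * ‖f (-(ω 3))‖ := by
  simp [FOU4_A, Fin.prod_univ_four, FOU4_g]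

lemma FOU4_vec_cont (m : ℕ) : Continuous (fun ω : Fin m → Sp n => ∑ i, vec ω i) := by
  unfold vec
  exact continuous_finsetSum _ fun i _ => continuous_subtype_val.comp (continuous_apply i)

lemma FOU4_pow (hn : 1 ≤ n) (f : Sp n → ℂ) (y : V n) :
    ((‖Ext f y‖ ^ 4 : ℝ) : ℂ) = ∫ ω : Fin 4 → Sp n,
      FOU4_A f ω * Complex.exp (-(Complex.I * ((⟪∑ i, vec ω i, y⟫ : ℝ) : ℂ))) ∂(pm n 4) := by
  have hp : IsProbabilityMeasure (prb (V n)) := (tINV (V n) (by simpa using hn)).1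
  have h1 : ((‖Ext f y‖ ^ 4 : ℝ) : ℂ) = ∏ i, Ext (FOU4_g f i) y := by
    rw [Fin.prod_univ_four]
    have e2 : Ext (FOU4_g f 2) y = conj (Ext f y) := (FOU4_conj hn f y).symm
    have e3 : Ext (FOU4_g f 3) y = conj (Ext f y) := (FOU4_conj hn f y).symm
    have e0 : Ext (FOU4_g f 0) y = Ext f y := rfl
    have e1 : Ext (FOU4_g f 1) y = Ext f y := rfl
    rw [e0, e1, e2, e3]
    have h := Complex.mul_conj (Ext f y)
    rw [Complex.normSq_eq_norm_sq] at h
    calc ((‖Ext f y‖ ^ 4 : ℝ) : ℂ) = ((‖Ext f y‖ ^ 2 : ℝ) : ℂ) * ((‖Ext f y‖ ^ 2 : ℝ) : ℂ) := by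
          push_cast; ring
      _ = (Ext f y * conj (Ext f y)) * (Ext f y * conj (Ext f y)) := by rw [h]
      _ = _ := by ring
  rw [h1]
  unfold ExpMax.Ext pm
  rw [← integral_fintype_prod_eq_prod]
  refine integral_congr_ae (Eventually.of_forall fun ω => ?_)
  simp only [FOU4_A, Finset.prod_mul_distrib, ← Complex.exp_sum, sum_inner, vec,
    Finset.sum_neg_distrib, ← Finset.mul_sum]
  push_cast
  rfl

lemma FOU4_gauss (ε : ℝ) (hε : 0 < ε) (s : V n) :
    ∫ y : V n, Complex.exp (-(Complex.I * ((⟪s, y⟫ : ℝ) : ℂ))) *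
        ((Real.exp (-(ε * ‖y‖ ^ 2 / 2)) : ℝ) : ℂ) =
      (((2 * Real.pi / ε) ^ ((n : ℝ) / 2) * wt ε s : ℝ) : ℂ) := by
  have hb : 0 < ((ε / 2 : ℝ) : ℂ).re := by
    rw [Complex.ofReal_re]; positivity
  have h := GaussianFourier.integral_cexp_neg_mul_sq_norm_add (V := V n) hb (-Complex.I) s
  have h0 : ∀ y : V n, Complex.exp (-(Complex.I * ((⟪s, y⟫ : ℝ) : ℂ))) *
        ((Real.exp (-(ε * ‖y‖ ^ 2 / 2)) : ℝ) : ℂ) =
      Complex.exp (-((ε / 2 : ℝ) : ℂ) * ‖y‖ ^ 2 + -Complex.I * ((⟪s, y⟫ : ℝ) : ℂ)) := by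
    intro y
    rw [Complex.ofReal_exp, ← Complex.exp_add]
    congr 1
    push_cast
    ring
  simp_rw [h0]
  rw [h]
  rw [Complex.ofReal_mul, Complex.ofReal_cpow (by positivity)]
  congr 1
  · congr 1
    · push_cast
      have : (ε : ℂ) ≠ 0 := by exact_mod_cast hε.ne'
      field_simp
    · simp
  · unfold wt
    rw [Complex.ofReal_exp]
    congr 1
    have : (ε : ℂ) ≠ 0 := by exact_mod_cast hε.ne'
    push_cast
    rw [neg_sq, Complex.I_sq]
    field_simp
    ring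

theorem p_FOU4 : T_FOU4 := by
  intro n hn ε hε f hf
  have hp : IsProbabilityMeasure (prb (V n)) := (tINV (V n) (by simpa using hn)).1
  have hpm : IsProbabilityMeasure (pm n 4) := by unfold pm; infer_instance
  set K : V n → (Fin 4 → Sp n) → ℂ := fun y ω =>
    FOU4_A f ω * (Complex.exp (-(Complex.I * ((⟪∑ i, vec ω i, y⟫ : ℝ) : ℂ))) *
      ((Real.exp (-(ε * ‖y‖ ^ 2 / 2)) : ℝ) : ℂ)) with hK
  have hAc := FOU4_A_cont f hf
  have hvc := FOU4_vec_cont (n := n) 4
  -- integrability on the product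
  have hgi : Integrable (fun y : V n => Real.exp (-(ε * ‖y‖ ^ 2 / 2))) := by
    have h := (GaussianFourier.integrable_cexp_neg_mul_sq_norm_add (V := V n)
      (b := ((ε / 2 : ℝ) : ℂ)) (by rw [Complex.ofReal_re]; positivity) 0 0).norm
    refine h.congr (Eventually.of_forall fun y => ?_)
    simp only [zero_mul, add_zero, Complex.norm_exp]
    congr 1
    rw [← Complex.ofReal_neg, ← Complex.ofReal_pow, ← Complex.ofReal_mul, Complex.ofReal_re]
    ring
  have hAi : Integrable (fun ω : Fin 4 → Sp n => ‖FOU4_A f ω‖) (pm n 4) := by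
    have : CompactSpace (Sp n) := isCompact_iff_compactSpace.mp (isCompact_sphere _ _)
    exact hAc.norm.integrable_of_hasCompactSupport (HasCompactSupport.of_compactSpace _)
  have hKi : Integrable (Function.uncurry K) ((volume : Measure (V n)).prod (pm n 4)) := by
    have h1 := hgi.mul_prod hAi
    refine h1.mono ?_ (Eventually.of_forall fun z => ?_)
    · apply Continuous.aestronglyMeasurable
      simp only [hK, Function.uncurry_def]
      have c1 : Continuous fun z : V n × (Fin 4 → Sp n) => FOU4_A f z.2 := hAc.comp continuous_snd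
      have c2 : Continuous fun z : V n × (Fin 4 → Sp n) => (⟪∑ i, vec z.2 i, z.1⟫ : ℝ) :=
        (hvc.comp continuous_snd).inner continuous_fst
      fun_prop
    · simp only [hK, Function.uncurry_def, norm_mul, Complex.norm_exp, Complex.norm_real,
        Real.norm_eq_abs, Real.abs_exp, abs_norm]
      have : (-(Complex.I * ((⟪∑ i, vec z.2 i, z.1⟫ : ℝ) : ℂ))).re = 0 := by simp
      rw [this, Real.exp_zero, one_mul, mul_comm]
  -- the left side
  have hL : ((∫ y : V n, ‖Ext f y‖ ^ 4 * Real.exp (-(ε * ‖y‖ ^ 2 / 2)) : ℝ) : ℂ) =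
      ∫ ω : Fin 4 → Sp n, FOU4_A f ω *
        (((2 * Real.pi / ε) ^ ((n : ℝ) / 2) * wt ε (∑ i, vec ω i) : ℝ) : ℂ) ∂(pm n 4) := by
    rw [← integral_complex_ofReal]
    have e1 : ∀ y : V n, ((‖Ext f y‖ ^ 4 * Real.exp (-(ε * ‖y‖ ^ 2 / 2)) : ℝ) : ℂ) =
        ∫ ω, K y ω ∂(pm n 4) := by
      intro y
      rw [Complex.ofReal_mul, FOU4_pow hn f y, ← integral_mul_const]
      refine integral_congr_ae (Eventually.of_forall fun ω => ?_)
      simp only [hK]
      ring
    simp_rw [e1]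
    rw [integral_integral_swap hKi]
    refine integral_congr_ae (Eventually.of_forall fun ω => ?_)
    simp only [hK]
    rw [integral_const_mul, FOU4_gauss ε hε]
  have hnn : 0 ≤ ∫ y : V n, ‖Ext f y‖ ^ 4 * Real.exp (-(ε * ‖y‖ ^ 2 / 2)) :=
    integral_nonneg fun y => by positivity
  calc ∫ y : V n, ‖Ext f y‖ ^ 4 * Real.exp (-(ε * ‖y‖ ^ 2 / 2))
      = ‖((∫ y : V n, ‖Ext f y‖ ^ 4 * Real.exp (-(ε * ‖y‖ ^ 2 / 2)) : ℝ) : ℂ)‖ := by
        rw [Complex.norm_real, Real.norm_of_nonneg hnn]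
    _ ≤ ∫ ω : Fin 4 → Sp n, ‖FOU4_A f ω *
        (((2 * Real.pi / ε) ^ ((n : ℝ) / 2) * wt ε (∑ i, vec ω i) : ℝ) : ℂ)‖ ∂(pm n 4) := by
        rw [hL]; exact norm_integral_le_integral_norm _
    _ = (2 * Real.pi / ε) ^ ((n : ℝ) / 2) * ∫ ω : Fin 4 → Sp n,
      ‖f (ω 0)‖ * ‖f (ω 1)‖ * ‖f (-(ω 2))‖ * ‖f (-(ω 3))‖ *
        wt ε (∑ i, vec ω i) ∂(pm n 4) := by
        rw [← integral_const_mul]
        refine integral_congr_ae (Eventually.of_forall fun ω => ?_)
        simp only [norm_mul, Complex.norm_real]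
        rw [FOU4_A_norm, Real.norm_of_nonneg (show 0 ≤ (2 * Real.pi / ε) ^ ((n : ℝ) / 2) by
          positivity), Real.norm_of_nonneg (show 0 ≤ wt ε (∑ i, vec ω i) by
            unfold wt; positivity)]
        ring

end Pool.Agent.SPH4
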