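import Pool.Agent.SPH4.Targets
import Pool.Agent.ExpMax.INV

set_option autoImplicit false

/-!
# GLOB: integration by parts for global rotations
-/

noncomputable section

open MeasureTheory Set Filter
open scoped ENNReal RealInnerProductSpace Topology

namespace Pool.Agent.SPH4

open Pool.Agent.ExpMax

lemma GLOB_prob (n : ℕ) (hn : 1 ≤ n) : IsProbabilityMeasure (prb (V n)) :=
  (tINV (V n) (by simpa using hn)).1

/-- continuous functions are integrable -/
lemma GLOB_int (n m : ℕ) (hn : 1 ≤ n) (F : (Fin m → Sp n) → ℝ) (hF : Continuous F) :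
    Integrable F (pm n m) := by
  have := GLOB_prob n hn
  have : IsProbabilityMeasure (pm n m) := by
    unfold pm
    infer_instance
  exact hF.integrable_of_hasCompactSupport (HasCompactSupport.of_compactSpace F)

lemma GLOB_vec (n m : ℕ) : Continuous (vec : (Fin m → Sp n) → Fin m → V n) := by
  unfold vec
  fun_prop

/-- the elementary rotations as continuous linear maps -/
def GLOB_A {n : ℕ} (a b : Fin n) : V n →L[ℝ] V n :=
  (EuclideanSpace.proj (𝕜 := ℝ) b).smulRight (EuclideanSpace.single a (1 : ℝ)) -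
    (EuclideanSpace.proj (𝕜 := ℝ) a).smulRight (EuclideanSpace.single b (1 : ℝ))

lemma GLOB_A_apply {n : ℕ} (a b : Fin n) (x : V n) : GLOB_A a b x = rg a b x := by
  simp [GLOB_A, rg]

lemma GLOB_A_skew {n : ℕ} (a b : Fin n) (x : V n) : ⟪GLOB_A a b x, x⟫ = 0 := by
  rw [GLOB_A_apply]
  unfold rg
  rw [inner_sub_left, inner_smul_left, inner_smul_left, EuclideanSpace.inner_single_left,
    EuclideanSpace.inner_single_left]
  simp
  ring

/-- the sum of the elementary rotations -/
lemma GLOB_sum {n : ℕ} (g w y : V n) :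
    ∑ a, ∑ b ∈ Finset.univ.filter (fun b => a < b), ⟪g, rg a b w⟫ • rg a b y = skw g w y := by
  have h0 : ∀ a b : Fin n, ⟪g, rg a b w⟫ = g a * w b - g b * w a := by
    intro a b
    unfold rg
    rw [inner_sub_right, inner_smul_right, inner_smul_right, EuclideanSpace.inner_single_right,
      EuclideanSpace.inner_single_right]
    simp
    ring
  have h1 : ∑ a, ∑ b ∈ Finset.univ.filter (fun b => a < b), ⟪g, rg a b w⟫ • rg a b y =
      (1 / 2 : ℝ) • ∑ a, ∑ b, ⟪g, rg a b w⟫ • rg a b y := by
    have hs : ∀ a b : Fin n, ⟪g, rg a b w⟫ • rg a b y = ⟪g, rg b a w⟫ • rg b a y := by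
      intro a b
      have e1 : rg a b w = - rg b a w := by unfold rg; abel
      have e2 : rg a b y = - rg b a y := by unfold rg; abel
      rw [e1, e2, inner_neg_right, neg_smul_neg]
    have hd : ∀ a : Fin n, ⟪g, rg a a w⟫ • rg a a y = 0 := by
      intro a
      have e1 : rg a a w = 0 := by unfold rg; abel
      rw [e1, inner_zero_right, zero_smul]
    have hsplit : ∀ a : Fin n, ∑ b, ⟪g, rg a b w⟫ • rg a b y =
        ∑ b ∈ Finset.univ.filter (fun b => a < b), ⟪g, rg a b w⟫ • rg a b y +
        ∑ b ∈ Finset.univ.filter (fun b => b < a), ⟪g, rg a b w⟫ • rg a b y := by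
      intro a
      rw [Finset.sum_filter, Finset.sum_filter, ← Finset.sum_add_distrib]
      refine Finset.sum_congr rfl fun b _ => ?_
      rcases lt_trichotomy a b with h | h | h
      · rw [if_pos h, if_neg (not_lt.2 h.le), add_zero]
      · subst h
        rw [hd]
        simp
      · rw [if_neg (not_lt.2 h.le), if_pos h, zero_add]
    have hcomm : ∑ a : Fin n, ∑ b ∈ Finset.univ.filter (fun b => b < a), ⟪g, rg a b w⟫ • rg a b y =
        ∑ a : Fin n, ∑ b ∈ Finset.univ.filter (fun b => a < b), ⟪g, rg a b w⟫ • rg a b y := by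
      simp only [Finset.sum_filter]
      rw [Finset.sum_comm]
      refine Finset.sum_congr rfl fun a _ => Finset.sum_congr rfl fun b _ => ?_
      rw [hs]
    rw [Finset.sum_congr rfl fun a _ => hsplit a, Finset.sum_add_distrib, hcomm, ← two_smul ℝ,
      smul_smul]
    norm_num
  rw [h1]
  ext c
  simp only [PiLp.smul_apply, smul_eq_mul]
  have h2 : (∑ a, ∑ b, ⟪g, rg a b w⟫ • rg a b y) c =
      ∑ a, ∑ b, (g a * w b - g b * w a) * (y b * (if c = a then 1 else 0) -
        y a * (if c = b then 1 else 0)) := by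
    have e : ∀ v : V n, v c = EuclideanSpace.proj (𝕜 := ℝ) c v := fun v => rfl
    rw [e, map_sum]
    refine Finset.sum_congr rfl fun a _ => ?_
    rw [map_sum]
    refine Finset.sum_congr rfl fun b _ => ?_
    rw [h0, ← e]
    simp [rg]
  rw [h2]
  have h3 : ∀ a b : Fin n, (g a * w b - g b * w a) * (y b * (if c = a then 1 else 0) -
        y a * (if c = b then 1 else 0)) =
      (if c = a then g c * (w b * y b) - w c * (g b * y b) else 0) +
      (if c = b then g c * (w a * y a) - w c * (g a * y a) else 0) := by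
    intro a b
    by_cases h : c = a
    · subst h
      by_cases h' : c = b
      · subst h'
        simp
        ring
      · rw [if_pos rfl, if_neg h', if_pos rfl, if_neg h']
        ring
    · by_cases h' : c = b
      · subst h'
        rw [if_neg h, if_pos rfl, if_neg h, if_pos rfl]
        ring
      · rw [if_neg h, if_neg h', if_neg h, if_neg h']
        ring
  have h4 : ∑ a, ∑ b, (g a * w b - g b * w a) * (y b * (if c = a then 1 else 0) -
        y a * (if c = b then 1 else 0)) =
      2 * (g c * (∑ b, w b * y b) - w c * ∑ b, g b * y b) := by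
    rw [Finset.sum_congr rfl fun a _ => Finset.sum_congr rfl fun b _ => h3 a b]
    simp only [Finset.sum_add_distrib]
    have e1 : ∑ a : Fin n, ∑ b : Fin n,
        (if c = a then g c * (w b * y b) - w c * (g b * y b) else 0) =
        ∑ b, (g c * (w b * y b) - w c * (g b * y b)) := by
      rw [Finset.sum_comm]
      refine Finset.sum_congr rfl fun b _ => ?_
      rw [Finset.sum_ite_eq Finset.univ c]
      simp
    have e2 : ∑ a : Fin n, ∑ b : Fin n,
        (if c = b then g c * (w a * y a) - w c * (g a * y a) else 0) =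
        ∑ b, (g c * (w b * y b) - w c * (g b * y b)) := by
      refine Finset.sum_congr rfl fun b _ => ?_
      rw [Finset.sum_ite_eq Finset.univ c]
      simp
    rw [e1, e2, Finset.sum_sub_distrib, ← Finset.mul_sum, ← Finset.mul_sum]
    ring
  rw [h4]
  have e3 : ⟪w, y⟫ = ∑ b, w b * y b := by
    rw [PiLp.inner_apply]
    refine Finset.sum_congr rfl fun b _ => ?_
    simp [mul_comm]
  have e4 : ⟪g, y⟫ = ∑ b, g b * y b := by
    rw [PiLp.inner_apply]
    refine Finset.sum_congr rfl fun b _ => ?_
    simp [mul_comm]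
  unfold skw
  rw [PiLp.sub_apply, PiLp.smul_apply, PiLp.smul_apply, e3, e4]
  simp only [smul_eq_mul]
  ring

lemma GLOB_D {n : ℕ} {f : V n → ℝ} {U : Set (V n)} (hU : IsOpen U) (k : ℕ)
    (hf : ContDiffOn ℝ ((k + 1 : ℕ) : WithTop ℕ∞) f U) (a b : Fin n) :
    ContDiffOn ℝ (k : WithTop ℕ∞) (Dab a b f) U := by
  have h1 : ContDiffOn ℝ (k : WithTop ℕ∞) (fderiv ℝ f) U :=
    hf.fderiv_of_isOpen hU (by norm_cast)
  have h2 : ContDiffOn ℝ (k : WithTop ℕ∞) (fun x => fderiv ℝ f x (GLOB_A a b x)) U :=
    h1.clm_apply ((GLOB_A a b).contDiff.contDiffOn)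
  refine h2.congr fun x _ => ?_
  rw [GLOB_A_apply]
  rfl

lemma GLOB_grad {n : ℕ} (f : V n → ℝ) (w v : V n) : ⟪gradient f w, v⟫ = fderiv ℝ f w v := by
  unfold gradient
  exact InnerProductSpace.toDual_symm_apply

/-- GLOB: global rotations. -/
theorem p_GLOB (hROT : T_ROT) : T_GLOB := by
  intro n m hn i f ⟨U, hU, hSU, hf⟩ h ⟨W, hW, hSW, hh⟩
  have hmem : ∀ ω : Fin m → Sp n, (ω i : V n) ∈ U := fun ω => hSU (ω i).2
  have hvec := GLOB_vec n m
  have hci : Continuous fun ω : Fin m → Sp n => (ω i : V n) := by fun_prop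
  have hD1 : ∀ a b : Fin n, ContDiffOn ℝ ((1 : ℕ) : WithTop ℕ∞) (Dab a b f) U :=
    fun a b => GLOB_D hU 1 (by exact_mod_cast hf) a b
  have hD2 : ∀ a b : Fin n, ContDiffOn ℝ ((0 : ℕ) : WithTop ℕ∞) (Dab a b (Dab a b f)) U :=
    fun a b => GLOB_D hU 0 (by simpa using hD1 a b) a b
  -- continuity
  have c1 : ∀ a b : Fin n, Continuous fun ω : Fin m → Sp n => Dab a b f (ω i) := fun a b =>
    (hD1 a b).continuousOn.comp_continuous hci hmem
  have c2 : ∀ a b : Fin n, Continuous fun ω : Fin m → Sp n => Dab a b (Dab a b f) (ω i) :=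
    fun a b => (hD2 a b).continuousOn.comp_continuous hci hmem
  have c3 : Continuous fun ω : Fin m → Sp n => h (vec ω) :=
    hh.continuousOn.comp_continuous hvec hSW
  have c4 : Continuous fun ω : Fin m → Sp n => fderiv ℝ h (vec ω) :=
    (hh.continuousOn_fderiv_of_isOpen hW (by simp)).comp_continuous hvec hSW
  have c5 : ∀ a b : Fin n, Continuous fun ω : Fin m → Sp n =>
      fderiv ℝ h (vec ω) (fun l => rg a b (ω l : V n)) := by
    intro a b
    refine c4.clm_apply (continuous_pi fun l => ?_)
    have : Continuous fun ω : Fin m → Sp n => GLOB_A a b (ω l : V n) := by fun_prop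
    refine this.congr fun ω => ?_
    rw [GLOB_A_apply]
  have i1 : ∀ a b : Fin n, Integrable (fun ω : Fin m → Sp n =>
      Dab a b (Dab a b f) (ω i) * h (vec ω)) (pm n m) :=
    fun a b => GLOB_int n m hn _ ((c2 a b).mul c3)
  have i2 : ∀ a b : Fin n, Integrable (fun ω : Fin m → Sp n =>
      Dab a b f (ω i) * fderiv ℝ h (vec ω) (fun l => rg a b (ω l : V n))) (pm n m) :=
    fun a b => GLOB_int n m hn _ ((c1 a b).mul (c5 a b))
  -- the identity for one pair
  have key : ∀ a b : Fin n,
      ∫ ω : Fin m → Sp n, Dab a b (Dab a b f) (ω i) * h (vec ω) ∂(pm n m) =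
      - ∫ ω : Fin m → Sp n, Dab a b f (ω i) *
          fderiv ℝ h (vec ω) (fun l => rg a b (ω l : V n)) ∂(pm n m) := by
    intro a b
    have hCN : CNm 1 (fun ω : Fin m → V n => Dab a b f (ω i) * h ω) := by
      refine ⟨{ω | ω i ∈ U} ∩ W, (hU.preimage (continuous_apply i)).inter hW,
        fun ω => ⟨hmem ω, hSW ω⟩, ContDiffOn.mul ?_ (hh.mono inter_subset_right)⟩
      exact (hD1 a b).comp ((contDiff_apply ℝ (V n) i).contDiffOn) fun ω hω => hω.1
    have h1 := hROT n m hn (GLOB_A a b) (GLOB_A_skew a b) Finset.univ _ hCN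
    have h2 : ∀ ω : Fin m → Sp n, fderiv ℝ (fun ω : Fin m → V n => Dab a b f (ω i) * h ω) (vec ω)
        (fun j => if j ∈ (Finset.univ : Finset (Fin m)) then GLOB_A a b (ω j : V n) else 0) =
        Dab a b f (ω i) * fderiv ℝ h (vec ω) (fun l => rg a b (ω l : V n)) +
          Dab a b (Dab a b f) (ω i) * h (vec ω) := by
      intro ω
      have e1 : (fun j => if j ∈ (Finset.univ : Finset (Fin m)) then GLOB_A a b (ω j : V n)
          else 0) = fun l => rg a b (ω l : V n) := by
        funext l
        rw [if_pos (Finset.mem_univ l), GLOB_A_apply]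
      rw [e1]
      have d1 : HasFDerivAt (Dab a b f) (fderiv ℝ (Dab a b f) (ω i)) (ω i : V n) :=
        (((hD1 a b).contDiffAt (hU.mem_nhds (hmem ω))).differentiableAt (by simp)).hasFDerivAt
      have d2 : HasFDerivAt (fun ω : Fin m → V n => Dab a b f (ω i))
          ((fderiv ℝ (Dab a b f) (ω i)).comp (ContinuousLinearMap.proj i)) (vec ω) :=
        HasFDerivAt.comp (vec ω) (f := fun ω : Fin m → V n => ω i) d1
          (ContinuousLinearMap.proj (R := ℝ) (φ := fun _ : Fin m => V n) i).hasFDerivAt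
      have d3 : HasFDerivAt h (fderiv ℝ h (vec ω)) (vec ω) :=
        ((hh.contDiffAt (hW.mem_nhds (hSW ω))).differentiableAt (by simp)).hasFDerivAt
      have d4 : fderiv ℝ (fun ω : Fin m → V n => Dab a b f (ω i) * h ω) (vec ω) = _ :=
        (d2.mul d3).fderiv
      rw [d4]
      show Dab a b f (ω i) * fderiv ℝ h (vec ω) (fun l => rg a b (ω l : V n)) +
        h (vec ω) * (fderiv ℝ (Dab a b f) (ω i) (rg a b (ω i : V n))) = _
      rw [mul_comm (h (vec ω))]
      rfl
    rw [integral_congr_ae (Eventually.of_forall h2), integral_add] at h1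
    · linarith
    · exact i2 a b
    · exact i1 a b
  -- sum over all pairs
  have hL : ∀ ω : Fin m → Sp n, LB f (ω i) * h (vec ω) =
      ∑ a, ∑ b ∈ Finset.univ.filter (fun b => a < b),
        Dab a b (Dab a b f) (ω i) * h (vec ω) := by
    intro ω
    unfold LB
    rw [Finset.sum_mul]
    exact Finset.sum_congr rfl fun a _ => Finset.sum_mul _ _ _
  have hR : ∀ ω : Fin m → Sp n, fderiv ℝ h (vec ω)
      (fun l => skw (gradient f (ω i)) (ω i) (ω l)) =
      ∑ a, ∑ b ∈ Finset.univ.filter (fun b => a < b),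
        Dab a b f (ω i) * fderiv ℝ h (vec ω) (fun l => rg a b (ω l : V n)) := by
    intro ω
    have e1 : (fun l => skw (gradient f (ω i)) (ω i) (ω l)) =
        ∑ a, ∑ b ∈ Finset.univ.filter (fun b => a < b),
          Dab a b f (ω i) • fun l : Fin m => rg a b (ω l : V n) := by
      funext l
      rw [← GLOB_sum, Finset.sum_apply]
      refine Finset.sum_congr rfl fun a _ => ?_
      rw [Finset.sum_apply]
      refine Finset.sum_congr rfl fun b _ => ?_
      rw [GLOB_grad]
      rfl
    rw [e1, map_sum]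
    refine Finset.sum_congr rfl fun a _ => ?_
    rw [map_sum]
    refine Finset.sum_congr rfl fun b _ => ?_
    rw [map_smul, smul_eq_mul]
  rw [integral_congr_ae (Eventually.of_forall hL), integral_congr_ae (Eventually.of_forall hR),
    integral_finsetSum _ fun a _ => GLOB_int n m hn _ ?_,
    integral_finsetSum _ fun a _ => GLOB_int n m hn _ ?_, ← Finset.sum_neg_distrib]
  · refine Finset.sum_congr rfl fun a _ => ?_
    rw [integral_finsetSum _ fun b _ => i1 a b, integral_finsetSum _ fun b _ => i2 a b,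
      ← Finset.sum_neg_distrib]
    exact Finset.sum_congr rfl fun b _ => key a b
  · exact continuous_finsetSum _ fun b _ => (c1 a b).mul (c5 a b)
  · exact continuous_finsetSum _ fun b _ => (c2 a b).mul c3

end Pool.Agent.SPH4
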