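import Pool.Agent.ExpMax.Targets

set_option autoImplicit false

/-!
# The sharp `L ^ 2 → L ^ 4` extension inequality on all spheres: definitions and targets

See `Blueprint.lean.txt` for the proofs.
-/

noncomputable section

open MeasureTheory Set Filter
open scoped ENNReal RealInnerProductSpace Topology

namespace Pool.Agent.SPH4

open Pool.Agent.ExpMax

/-- Euclidean space. -/
abbrev V (n : ℕ) : Type := EuclideanSpace ℝ (Fin n)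

/-- Its unit sphere. -/
abbrev Sp (n : ℕ) : Type := Metric.sphere (0 : V n) 1

/-- The product of `m` copies of the normalised surface measure. -/
def pm (n m : ℕ) : Measure (Fin m → Sp n) := Measure.pi fun _ => prb (V n)

/-- The vectors underlying points of the sphere. -/
def vec {n m : ℕ} (ω : Fin m → Sp n) : Fin m → V n := fun i => (ω i : V n)

/-- The matrix `δ wᵀ - w δᵀ` applied to `x`. -/
def skw {n : ℕ} (δ w x : V n) : V n := ⟪w, x⟫ • δ - ⟪δ, x⟫ • w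

/-- The matrix `(|x|² A - x xᵀ A - A x xᵀ) / (|x|² + κ)` applied to `y`, where
`A = δ wᵀ - w δᵀ`. It is skew and kills `x`. -/
def Bm {n : ℕ} (κ : ℝ) (δ w x y : V n) : V n :=
  (‖x‖ ^ 2 + κ)⁻¹ • (‖x‖ ^ 2 • skw δ w y - ⟪x, skw δ w y⟫ • x - ⟪x, y⟫ • skw δ w x)

/-- The transport matrix `C_{ji}` applied to `δ`: global rotation minus `c` times the rotations of
the pairs `(j, k)`, `k ≠ i, j`, about their sums. -/
def Cm {n m : ℕ} (c κ : ℝ) (i j : Fin m) (ω : Fin m → V n) (δ : V n) : V n :=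
  skw δ (ω i) (ω j) -
    c • ∑ k ∈ Finset.univ.filter (fun k => k ≠ i ∧ k ≠ j), Bm κ δ (ω i) (ω j + ω k) (ω j)

/-- The elementary rotation generators. -/
def rg {n : ℕ} (a b : Fin n) (x : V n) : V n :=
  x b • EuclideanSpace.single a (1 : ℝ) - x a • EuclideanSpace.single b (1 : ℝ)

/-- Derivative along an elementary rotation. -/
def Dab {n : ℕ} (a b : Fin n) (f : V n → ℝ) (x : V n) : ℝ := fderiv ℝ f x (rg a b x)

/-- The Laplace operator of the spheres, as an operator on functions on the whole space. -/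
def LB {n : ℕ} (f : V n → ℝ) (x : V n) : ℝ :=
  ∑ a, ∑ b ∈ Finset.univ.filter (fun b => a < b), Dab a b (Dab a b f) x

/-- The Gaussian weight `exp(-|s|² / (2 ε))`. -/
def wt {n : ℕ} (ε : ℝ) (s : V n) : ℝ := Real.exp (-(‖s‖ ^ 2 / (2 * ε)))

/-- The unnormalised expectation of `h`. -/
def Ie {n m : ℕ} (ε : ℝ) (h : (Fin m → V n) → ℝ) : ℝ :=
  ∫ ω : Fin m → Sp n, h (vec ω) * wt ε (∑ i, vec ω i) ∂(pm n m)

/-- The normalised expectation of `h`. -/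
def Ee {n m : ℕ} (ε : ℝ) (h : (Fin m → V n) → ℝ) : ℝ :=
  Ie ε h / Ie (n := n) (m := m) ε (fun _ => 1)

/-- `f` is `k` times continuously differentiable near the unit sphere. -/
def CN {n : ℕ} (k : ℕ) {E : Type} [NormedAddCommGroup E] [NormedSpace ℝ E] (f : V n → E) : Prop :=
  ∃ U : Set (V n), IsOpen U ∧ Metric.sphere (0 : V n) 1 ⊆ U ∧ ContDiffOn ℝ k f U

/-- `h` is `k` times continuously differentiable near the product of `m` unit spheres. -/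
def CNm {n m : ℕ} (k : ℕ) (h : (Fin m → V n) → ℝ) : Prop :=
  ∃ U : Set (Fin m → V n), IsOpen U ∧ (∀ ω : Fin m → Sp n, vec ω ∈ U) ∧ ContDiffOn ℝ k h U

/-! ### Integration by parts -/

/-- ROT: rotation invariance, infinitesimal form. -/
def T_ROT : Prop := ∀ (n m : ℕ), 1 ≤ n → ∀ (A : V n →L[ℝ] V n), (∀ x, ⟪A x, x⟫ = 0) →
  ∀ (I : Finset (Fin m)) (h : (Fin m → V n) → ℝ), CNm 1 h →
    ∫ ω : Fin m → Sp n, fderiv ℝ h (vec ω) (fun j => if j ∈ I then A (ω j) else 0) ∂(pm n m) = 0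

/-- PAIR (deps ROT): rotation of a pair about its sum. -/
def T_PAIR : Prop := ∀ (n m : ℕ), 1 ≤ n → ∀ κ : ℝ, 0 < κ → ∀ i j k : Fin m,
  i ≠ j → i ≠ k → j ≠ k → ∀ a : V n → V n, CN 1 a → ∀ h : (Fin m → V n) → ℝ, CNm 1 h →
    ∫ ω : Fin m → Sp n, fderiv ℝ h (vec ω) (fun l => if l = j ∨ l = k then
      Bm κ (a (ω i)) (ω i) ((ω j : V n) + ω k) (ω l) else 0) ∂(pm n m) = 0

/-- GLOB (deps ROT): global rotations. -/
def T_GLOB : Prop := ∀ (n m : ℕ), 1 ≤ n → ∀ (i : Fin m) (f : V n → ℝ), CN 2 f →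
  ∀ h : (Fin m → V n) → ℝ, CNm 1 h →
    ∫ ω : Fin m → Sp n, LB f (ω i) * h (vec ω) ∂(pm n m) =
      - ∫ ω : Fin m → Sp n, fderiv ℝ h (vec ω)
          (fun l => skw (gradient f (ω i)) (ω i) (ω l)) ∂(pm n m)

/-- IBP (deps PAIR GLOB): the integration by parts identity. -/
def T_IBP : Prop := ∀ (n m : ℕ), 1 ≤ n → ∀ c κ ε : ℝ, 0 < κ → 0 < ε →
  ∀ f : Fin m → V n → ℝ, (∀ j, CN 2 (f j)) → ∀ i : Fin m,
    Ie ε (fun ω => LB (f i) (ω i) * ∏ j ∈ Finset.univ.erase i, f j (ω j)) =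
      - Ie ε (fun ω => ∑ j ∈ Finset.univ.erase i,
          (∏ l ∈ (Finset.univ.erase i).erase j, f l (ω l)) *
            ⟪gradient (f j) (ω j), Cm c κ i j ω (gradient (f i) (ω i))⟫)

/-! ### The heat flow of a positive polynomial -/

/-- A positive solution of the heat equation on the sphere, for times `≥ 0`. -/
structure IsFlow {n : ℕ} (G : ℝ → V n → ℝ) : Prop where
  smooth : ContDiff ℝ 4 (fun z : ℝ × V n => G z.1 z.2)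
  eqn : ∀ t, 0 ≤ t → ∀ x : V n, ‖x‖ = 1 → HasDerivAt (fun s => G s x) (LB (G t) x) t
  pos : ∀ t, 0 ≤ t → ∀ x : V n, ‖x‖ = 1 → 0 < G t x

/-- SPEC: decomposition of a polynomial in eigenfunctions. -/
def T_SPEC : Prop := ∀ (n : ℕ), 2 ≤ n → ∀ p : MvPolynomial (Fin n) ℝ,
  ∃ (N : ℕ) (q : Fin N → MvPolynomial (Fin n) ℝ) (lam : Fin N → ℝ),
    (∀ k, 0 ≤ lam k) ∧
    (∀ x : V n, MvPolynomial.eval (fun i => x i) p = ∑ k, MvPolynomial.eval (fun i => x i) (q k)) ∧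
    (∀ k, ∀ x : V n, LB (fun y : V n => MvPolynomial.eval (fun i => y i) (q k)) x =
      -(lam k) * MvPolynomial.eval (fun i => x i) (q k)) ∧
    (∀ k, lam k = 0 → ∀ x y : V n, ‖x‖ = 1 → ‖y‖ = 1 →
      MvPolynomial.eval (fun i => x i) (q k) = MvPolynomial.eval (fun i => y i) (q k))

/-- MAXP: the minimum principle. -/
def T_MAXP : Prop := ∀ (n : ℕ), 1 ≤ n → ∀ (G : ℝ → V n → ℝ) (c : ℝ),
  ContDiff ℝ 4 (fun z : ℝ × V n => G z.1 z.2) →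
  (∀ t, 0 ≤ t → ∀ x : V n, ‖x‖ = 1 → HasDerivAt (fun s => G s x) (LB (G t) x) t) →
  (∀ x : V n, ‖x‖ = 1 → c ≤ G 0 x) → ∀ t, 0 ≤ t → ∀ x : V n, ‖x‖ = 1 → c ≤ G t x

/-- FLOW (deps SPEC MAXP ROT). -/
def T_FLOW : Prop := ∀ (n : ℕ), 2 ≤ n → ∀ p : MvPolynomial (Fin n) ℝ,
  (∀ x : V n, ‖x‖ = 1 → 0 < MvPolynomial.eval (fun i => x i) p) →
  ∃ G : ℝ → V n → ℝ, IsFlow G ∧ (∀ x, G 0 x = MvPolynomial.eval (fun i => x i) p) ∧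
    ∀ δ : ℝ, 0 < δ → ∃ T : ℝ, 0 ≤ T ∧ ∀ t, T ≤ t → ∀ x : V n, ‖x‖ = 1 →
      |G t x - ∫ ω : Sp n, MvPolynomial.eval (fun i => (ω : V n) i) p ∂(prb (V n))| ≤ δ

/-- The tangential part of the logarithmic derivative of `√G`. -/
def xg {n : ℕ} (G : V n → ℝ) (w : V n) : V n :=
  (2 * G w)⁻¹ • (gradient G w - ⟪gradient G w, w⟫ • w)

/-- The quadratic form. -/
def Qf {n m : ℕ} (c κ : ℝ) (ω x : Fin m → V n) : ℝ :=
  ∑ i, ‖x i‖ ^ 2 - ∑ i, ∑ j ∈ Finset.univ.erase i, ⟪x j, Cm c κ i j ω (x i)⟫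

/-- SQ: the equation for the square root. -/
def T_SQ : Prop := ∀ (n : ℕ), 1 ≤ n → ∀ G : V n → ℝ, ContDiff ℝ 4 G →
  (∀ x : V n, ‖x‖ = 1 → 0 < G x) →
  CN 2 (fun x => √(G x)) ∧ ∀ w : V n, ‖w‖ = 1 →
    gradient (fun x => √(G x)) w = (2 * √(G w))⁻¹ • gradient G w ∧
    LB G w / (2 * √(G w)) = LB (fun x => √(G x)) w + √(G w) * ‖xg G w‖ ^ 2

/-- DER (deps SQ IBP): the derivative of the functional along the flow. -/
def T_DER : Prop := ∀ (n m : ℕ), 1 ≤ n → ∀ c κ ε : ℝ, 0 < κ → 0 < ε →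
  ∀ G : Fin m → ℝ → V n → ℝ, (∀ j, IsFlow (G j)) → 
    ContinuousOn (fun t => Ie ε (fun ω : Fin m → V n => ∏ j, √(G j t (ω j)))) (Ici 0) ∧
    ∀ t, 0 < t →
      HasDerivAt (fun t => Ie ε (fun ω : Fin m → V n => ∏ j, √(G j t (ω j))))
        (Ie ε (fun ω : Fin m → V n => (∏ j, √(G j t (ω j))) *
          Qf c κ ω (fun j => xg (G j t) (ω j)))) t

/-! ### The algebra for `m = 4` -/

/-- ALG: positivity on the zero sum configurations, `κ = 0`, no pair of antipodal points. -/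
def T_ALG : Prop := ∀ (n : ℕ) (ω x : Fin 4 → V n), (∀ i, ‖ω i‖ = 1) → ∑ i, ω i = 0 →
  (∀ i j, i ≠ j → ω i + ω j ≠ 0) → (∀ i, ⟪ω i, x i⟫ = 0) → 0 ≤ Qf 1 0 ω x

/-- QUAD (deps ALG). -/
def T_QUAD : Prop := ∀ (n : ℕ) (κ : ℝ), 0 < κ → ∀ (ω x : Fin 4 → V n), (∀ i, ‖ω i‖ = 1) →
  ∑ i, ω i = 0 → (∀ i, ⟪ω i, x i⟫ = 0) →
    -(5 * (∑ j, ∑ k ∈ Finset.univ.erase j, κ / (‖ω j + ω k‖ ^ 2 + κ)) * ∑ i, ‖x i‖ ^ 2) ≤
      Qf 1 κ ω x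

/-- NEAR (deps QUAD): the same near the zero sum configurations, by compactness. -/
def T_NEAR : Prop := ∀ (n : ℕ) (κ δ : ℝ), 0 < κ → 0 < δ → ∃ η : ℝ, 0 < η ∧
  ∀ (ω x : Fin 4 → V n), (∀ i, ‖ω i‖ = 1) → ‖∑ i, ω i‖ ≤ η → (∀ i, ⟪ω i, x i⟫ = 0) →
    -((5 * (∑ j, ∑ k ∈ Finset.univ.erase j, κ / (‖ω j + ω k‖ ^ 2 + κ)) + δ) *
      ∑ i, ‖x i‖ ^ 2) ≤ Qf 1 κ ω x

/-! ### Concentration of the weight -/

/-- BESS: the fourth power of the Fourier transform of the sphere measure is integrable. -/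
def T_BESS : Prop := ∀ n : ℕ, 3 ≤ n → Integrable (fun y : V n => u0 y ^ 4)

/-- FOU4: the Fourier formula for continuous functions. -/
def T_FOU4 : Prop := ∀ (n : ℕ), 1 ≤ n → ∀ ε : ℝ, 0 < ε → ∀ f : Sp n → ℂ, Continuous f →
  ∫ y : V n, ‖Ext f y‖ ^ 4 * Real.exp (-(ε * ‖y‖ ^ 2 / 2)) ≤
    (2 * Real.pi / ε) ^ ((n : ℝ) / 2) * ∫ ω : Fin 4 → Sp n,
      ‖f (ω 0)‖ * ‖f (ω 1)‖ * ‖f (-(ω 2))‖ * ‖f (-(ω 3))‖ *
        wt ε (∑ i, vec ω i) ∂(pm n 4)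

/-- ZN: the normalising constant. -/
def T_ZN : Prop := ∀ (n : ℕ), 1 ≤ n → ∀ ε : ℝ, 0 < ε →
  Ie (n := n) (m := 4) ε (fun _ => 1) = (ε / (2 * Real.pi)) ^ ((n : ℝ) / 2) *
    ∫ y : V n, u0 y ^ 4 * Real.exp (-(ε * ‖y‖ ^ 2 / 2))

/-- EST1 (deps ZN): the sum is small. -/
def T_EST1 : Prop := ∀ (n : ℕ), 1 ≤ n → ∀ η δ : ℝ, 0 < η → 0 < δ → ∃ ε₀ : ℝ, 0 < ε₀ ∧
  ∀ ε, 0 < ε → ε < ε₀ →
    Ee ε (fun ω : Fin 4 → V n => if ‖∑ i, ω i‖ ≤ η then 0 else 1) ≤ δ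

/-- EST2 (deps ZN BESS): no concentration near antipodal pairs. -/
def T_EST2 : Prop := ∀ (n : ℕ), 3 ≤ n → ∀ δ : ℝ, 0 < δ → ∃ κ₀ : ℝ, 0 < κ₀ ∧
  ∀ κ, 0 < κ → κ < κ₀ → ∀ ε, 0 < ε → ε ≤ 1 → ∀ j k : Fin 4, j ≠ k →
    Ee ε (fun ω : Fin 4 → V n => κ / (‖ω j + ω k‖ ^ 2 + κ)) ≤ δ

/-! ### Assembly -/

/-- MONO (deps DER NEAR EST1 EST2): almost monotonicity. -/
def T_MONO : Prop := ∀ (n : ℕ), 3 ≤ n → ∀ G : Fin 4 → ℝ → V n → ℝ, (∀ j, IsFlow (G j)) →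
  ∀ T δ : ℝ, 0 ≤ T → 0 < δ → ∃ ε₀ : ℝ, 0 < ε₀ ∧ ∀ ε, 0 < ε → ε < ε₀ →
    Ee ε (fun ω : Fin 4 → V n => ∏ j, √(G j 0 (ω j))) ≤
      Ee ε (fun ω : Fin 4 → V n => ∏ j, √(G j T (ω j))) + δ

/-- MULTI (deps FLOW MONO): the multilinear inequality for positive polynomials. -/
def T_MULTI : Prop := ∀ (n : ℕ), 3 ≤ n → ∀ p : Fin 4 → MvPolynomial (Fin n) ℝ,
  (∀ j, ∀ x : V n, ‖x‖ = 1 → 0 < MvPolynomial.eval (fun i => x i) (p j)) →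
  ∀ δ : ℝ, 0 < δ → ∃ ε₀ : ℝ, 0 < ε₀ ∧ ∀ ε, 0 < ε → ε < ε₀ →
    Ee ε (fun ω : Fin 4 → V n => ∏ j, √(MvPolynomial.eval (fun i => ω j i) (p j))) ≤
      ∏ j, √(∫ ω : Sp n, MvPolynomial.eval (fun i => (ω : V n) i) (p j) ∂(prb (V n))) + δ

/-- CONT (deps MULTI): the multilinear inequality for continuous functions. -/
def T_CONT : Prop := ∀ (n : ℕ), 3 ≤ n → ∀ f : Fin 4 → Sp n → ℝ, (∀ j, Continuous (f j)) →
  (∀ j ω, 0 ≤ f j ω) → ∀ δ : ℝ, 0 < δ → ∃ ε₀ : ℝ, 0 < ε₀ ∧ ∀ ε, 0 < ε → ε < ε₀ →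
    ∫ ω : Fin 4 → Sp n, (∏ j, f j (ω j)) * wt ε (∑ i, vec ω i) ∂(pm n 4) ≤
      (∏ j, √(∫ ω : Sp n, f j ω ^ 2 ∂(prb (V n))) + δ) * Ie (n := n) (m := 4) ε (fun _ => 1)

/-- EXT4 (deps CONT FOU4 ZN BESS): the extension inequality for continuous functions. -/
def T_EXT4 : Prop := ∀ (n : ℕ), 3 ≤ n → ∀ f : Sp n → ℂ, Continuous f →
  Integrable (fun y : V n => ‖Ext f y‖ ^ 4) ∧
    ∫ y : V n, ‖Ext f y‖ ^ 4 ≤
      (∫ y : V n, u0 y ^ 4) * (∫ ω : Sp n, ‖f ω‖ ^ 2 ∂(prb (V n))) ^ 2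

/-- CORE4 (deps EXT4 BESS): the sharp extension inequality, in any Euclidean space. -/
def T_CORE4 : Prop := ∀ (F : Type) [NormedAddCommGroup F] [InnerProductSpace ℝ F]
  [FiniteDimensional ℝ F] [MeasurableSpace F] [BorelSpace F], 3 ≤ Module.finrank ℝ F →
  Integrable (fun y : F => u0 y ^ 4) ∧ 0 < ∫ y : F, u0 y ^ 4 ∧
  ∀ f : Metric.sphere (0 : F) 1 → ℂ, MemLp f 2 (prb F) →
    Integrable (fun y => ‖Ext f y‖ ^ 4) ∧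
    ∫ y, ‖Ext f y‖ ^ 4 ≤ (∫ y : F, u0 y ^ 4) * (∫ ω, ‖f ω‖ ^ 2 ∂(prb F)) ^ 2

/-- FIN4 (deps CORE4; uses ExpMax `tBASIC`, `tELL`, `tNORMS`, and `tSLICE`, `tINV`). -/
def T_FIN4 : Prop := ∀ d : ℕ, 2 ≤ d → ∀ α γ : ℝ, α ≠ 0 → γ ≠ 0 →
  IsMaximizer α 0 γ 4 (expTau : Pt d → ℂ)

end Pool.Agent.SPH4
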