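import Mathlib
import Pool.Agent.SPH4.Targets
import Pool.Agent.ExpMax.INV

set_option autoImplicit false

/-!
# Integration by parts for the Gaussian weight on a product of spheres
-/

noncomputable section

open MeasureTheory Set Filter
open scoped ENNReal RealInnerProductSpace Topology

namespace Pool.Agent.SPH4

open Pool.Agent.ExpMax

section alg

variable {n : ℕ}

lemma IBP_skw_add (δ w x y : V n) : skw δ w (x + y) = skw δ w x + skw δ w y := by
  unfold skw
  rw [inner_add_right, inner_add_right, add_smul, add_smul]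
  abel

lemma IBP_skw_zero (δ w : V n) : skw δ w 0 = 0 := by
  unfold skw
  simp

lemma IBP_skw_sum {ι : Type} (δ w : V n) (s : Finset ι) (x : ι → V n) :
    ∑ l ∈ s, skw δ w (x l) = skw δ w (∑ l ∈ s, x l) := by
  classical
  induction s using Finset.induction_on with
  | empty => simp [IBP_skw_zero]
  | insert a s ha ih => rw [Finset.sum_insert ha, Finset.sum_insert ha, ih, IBP_skw_add]

lemma IBP_skw_inner (δ w x : V n) : ⟪x, skw δ w x⟫ = 0 := by
  unfold skw
  rw [inner_sub_right, inner_smul_right, inner_smul_right, real_inner_comm x δ,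
    real_inner_comm x w]
  ring

lemma IBP_Bm_add (κ : ℝ) (δ w x y z : V n) :
    Bm κ δ w x (y + z) = Bm κ δ w x y + Bm κ δ w x z := by
  unfold Bm
  rw [IBP_skw_add, inner_add_right, inner_add_right, ← smul_add]
  congr 1
  rw [smul_add, add_smul, add_smul]
  abel

lemma IBP_Bm_self (κ : ℝ) (δ w x : V n) : Bm κ δ w x x = 0 := by
  unfold Bm
  rw [IBP_skw_inner, real_inner_self_eq_norm_sq, zero_smul, sub_zero, sub_self, smul_zero]

end alg

lemma IBP_grad {n : ℕ} (f : V n → ℝ) (x v : V n) : fderiv ℝ f x v = ⟪gradient f x, v⟫ := by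
  unfold gradient
  rw [InnerProductSpace.toDual_symm_apply]

lemma IBP_wt_contDiff {n : ℕ} (ε : ℝ) : ContDiff ℝ 1 (wt (n := n) ε) := by
  unfold wt
  exact Real.contDiff_exp.comp ((contDiff_norm_sq ℝ).div_const _).neg

lemma IBP_wt_deriv {n : ℕ} (ε : ℝ) (s v : V n) (h : ⟪s, v⟫ = 0) :
    fderiv ℝ (wt (n := n) ε) s v = 0 := by
  have h1 : HasFDerivAt (fun s : V n => ‖s‖ ^ 2) (2 • innerSL ℝ s) s :=
    (hasStrictFDerivAt_norm_sq s).hasFDerivAt
  have h2 : HasFDerivAt (wt (n := n) ε)
      (Real.exp (-(‖s‖ ^ 2 / (2 * ε))) • -((2 * ε)⁻¹ • ((2 : ℕ) • innerSL ℝ s))) s := by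
    unfold wt
    have h3 := ((h1.const_mul (2 * ε)⁻¹).neg).exp
    have h4 : (fun s : V n => Real.exp (-(‖s‖ ^ 2 / (2 * ε)))) =
        (fun s : V n => Real.exp (-((2 * ε)⁻¹ * ‖s‖ ^ 2))) := by
      funext s
      congr 2
      ring
    have h5 : ‖s‖ ^ 2 / (2 * ε) = (2 * ε)⁻¹ * ‖s‖ ^ 2 := by ring
    rw [h4, h5]
    exact h3
  rw [h2.fderiv]
  simp [h]

/-- the function `P W` -/
def IBP_h {n m : ℕ} (ε : ℝ) (i : Fin m) (f : Fin m → V n → ℝ) (ω : Fin m → V n) : ℝ :=
  (∏ j ∈ Finset.univ.erase i, f j (ω j)) * wt ε (∑ l, ω l)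

lemma IBP_fderiv {n m : ℕ} (ε : ℝ) (i : Fin m) (f : Fin m → V n → ℝ) (x v : Fin m → V n)
    (hd : ∀ j, DifferentiableAt ℝ (f j) (x j)) (hv : ⟪∑ l, x l, ∑ l, v l⟫ = 0) :
    fderiv ℝ (IBP_h ε i f) x v =
      (∑ j ∈ Finset.univ.erase i, (∏ l ∈ (Finset.univ.erase i).erase j, f l (x l)) *
        ⟪gradient (f j) (x j), v j⟫) * wt ε (∑ l, x l) := by
  have h1 : ∀ j ∈ Finset.univ.erase i, HasFDerivAt (fun ω : Fin m → V n => f j (ω j))
      ((fderiv ℝ (f j) (x j)).comp (ContinuousLinearMap.proj (R := ℝ) j)) x := by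
    intro j _
    have h2 : HasFDerivAt (fun ω : Fin m → V n => ω j)
      (ContinuousLinearMap.proj (R := ℝ) (φ := fun _ : Fin m => V n) j) x :=
      (ContinuousLinearMap.proj (R := ℝ) (φ := fun _ : Fin m => V n) j).hasFDerivAt
    exact (hd j).hasFDerivAt.comp x h2
  have h2 := HasFDerivAt.finsetProd h1
  have h3 : HasFDerivAt (fun ω : Fin m → V n => ∑ l, ω l)
      (∑ l, ContinuousLinearMap.proj (R := ℝ) (φ := fun _ : Fin m => V n) l) x := by
    have h4 := HasFDerivAt.fun_sum (u := (Finset.univ : Finset (Fin m)))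
      (A := fun l (ω : Fin m → V n) => ω l)
      (A' := fun l => ContinuousLinearMap.proj (R := ℝ) (φ := fun _ : Fin m => V n) l) (x := x)
      (fun l _ => (ContinuousLinearMap.proj (R := ℝ) (φ := fun _ : Fin m => V n) l).hasFDerivAt)
    exact h4
  have h4 : HasFDerivAt (fun ω : Fin m → V n => wt ε (∑ l, ω l))
      ((fderiv ℝ (wt (n := n) ε) (∑ l, x l)).comp
        (∑ l, ContinuousLinearMap.proj (R := ℝ) (φ := fun _ : Fin m => V n) l)) x := by
    have h5 : DifferentiableAt ℝ (wt (n := n) ε) (∑ l, x l) :=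
      (IBP_wt_contDiff ε).differentiable (by norm_num) _
    exact h5.hasFDerivAt.comp x h3
  have h5 := h2.mul h4
  have h6 : fderiv ℝ (IBP_h ε i f) x = _ := h5.fderiv
  rw [h6]
  have h7 : fderiv ℝ (wt (n := n) ε) (∑ l, x l) (∑ l, v l) = 0 := IBP_wt_deriv ε _ _ hv
  simp only [ContinuousLinearMap.add_apply, ContinuousLinearMap.smul_apply,
    ContinuousLinearMap.comp_apply, ContinuousLinearMap.sum_apply,
    ContinuousLinearMap.proj_apply, h7, smul_eq_mul, mul_zero, zero_add, IBP_grad]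
  ring

lemma IBP_CNm {n m : ℕ} (ε : ℝ) (i : Fin m) (f : Fin m → V n → ℝ) (hf : ∀ j, CN 2 (f j)) :
    CNm 1 (IBP_h ε i f) := by
  choose U hU hS hC using hf
  refine ⟨Set.pi univ U, isOpen_set_pi finite_univ (fun j _ => hU j), ?_, ?_⟩
  · intro ω j _
    exact hS j (ω j).2
  · unfold IBP_h
    refine ContDiffOn.mul ?_ ?_
    · refine contDiffOn_prod ?_
      intro j _
      have h1 : ContDiffOn ℝ 1 (f j) (U j) := (hC j).of_le (by norm_num)
      exact h1.comp (contDiff_apply ℝ (V n) j).contDiffOn (fun x hx => hx j (mem_univ _))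
    · refine ContDiff.contDiffOn ?_
      refine (IBP_wt_contDiff ε).comp ?_
      exact ContDiff.sum (fun l _ => contDiff_apply ℝ (V n) l)

lemma IBP_CN_grad {n : ℕ} (f : V n → ℝ) (hf : CN 2 f) : CN 1 (gradient f) := by
  obtain ⟨U, hU, hS, hC⟩ := hf
  refine ⟨U, hU, hS, ?_⟩
  have h1 : ContDiffOn ℝ 1 (fderiv ℝ f) U := hC.fderiv_of_isOpen hU (by norm_num)
  exact ((InnerProductSpace.toDual ℝ (V n)).symm.contDiff (n := 1)).comp_contDiffOn h1

lemma IBP_CN_cont {n k : ℕ} {E : Type} [NormedAddCommGroup E] [NormedSpace ℝ E] (f : V n → E)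
    (hf : CN k f) : Continuous (fun w : Sp n => f (w : V n)) := by
  obtain ⟨U, hU, hS, hC⟩ := hf
  exact hC.continuousOn.comp_continuous continuous_subtype_val (fun w => hS w.2)

lemma IBP_CN_diff {n : ℕ} (f : V n → ℝ) (hf : CN 2 f) (w : Sp n) :
    DifferentiableAt ℝ f (w : V n) := by
  obtain ⟨U, hU, hS, hC⟩ := hf
  exact (hC.contDiffAt (hU.mem_nhds (hS w.2))).differentiableAt (by norm_num)

lemma IBP_int {n m : ℕ} (hn : 1 ≤ n) (h : (Fin m → Sp n) → ℝ) (hh : Continuous h) :
    Integrable h (pm n m) := by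
  haveI : IsProbabilityMeasure (prb (V n)) := (tINV (V n) (by simpa using hn)).1
  haveI : IsFiniteMeasure (pm n m) := by
    unfold pm
    infer_instance
  exact hh.integrable_of_hasCompactSupport (HasCompactSupport.of_compactSpace h)

lemma IBP_skw_cont {n m : ℕ} (a b c : (Fin m → Sp n) → V n) (ha : Continuous a)
    (hb : Continuous b) (hc : Continuous c) : Continuous (fun ω => skw (a ω) (b ω) (c ω)) := by
  unfold skw
  exact ((Continuous.inner (𝕜 := ℝ) hb hc).smul ha).sub ((Continuous.inner (𝕜 := ℝ) ha hc).smul hb)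

lemma IBP_Bm_cont {n m : ℕ} (κ : ℝ) (hκ : 0 < κ) (a b c d : (Fin m → Sp n) → V n)
    (ha : Continuous a) (hb : Continuous b) (hc : Continuous c) (hd : Continuous d) :
    Continuous (fun ω => Bm κ (a ω) (b ω) (c ω) (d ω)) := by
  unfold Bm
  have h1 := IBP_skw_cont a b d ha hb hd
  have h2 := IBP_skw_cont a b c ha hb hc
  have h3 : Continuous (fun ω => (‖c ω‖ ^ 2 + κ)⁻¹) := by
    refine Continuous.inv₀ ((hc.norm.pow 2).add continuous_const) ?_
    intro ω
    positivity
  refine h3.smul ?_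
  · exact (((hc.norm.pow 2).smul h1).sub ((Continuous.inner (𝕜 := ℝ) hc h1).smul hc)).sub
      ((Continuous.inner (𝕜 := ℝ) hc hd).smul h2)

/-- IBP -/
theorem p_IBP (hPAIR : T_PAIR) (hGLOB : T_GLOB) : T_IBP := by
  intro n m hn c κ ε hκ hε f hf i
  have hcoord : ∀ l : Fin m, Continuous (fun ω : Fin m → Sp n => (ω l : V n)) := fun l =>
    continuous_subtype_val.comp (continuous_apply l)
  have hcf : ∀ l : Fin m, Continuous (fun ω : Fin m → Sp n => f l (ω l : V n)) := fun l =>
    (IBP_CN_cont (f l) (hf l)).comp (continuous_apply l)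
  have hcg : ∀ l : Fin m, Continuous (fun ω : Fin m → Sp n => gradient (f l) (ω l : V n)) :=
    fun l => (IBP_CN_cont (gradient (f l)) (IBP_CN_grad (f l) (hf l))).comp (continuous_apply l)
  have hW : Continuous (fun ω : Fin m → Sp n => wt ε (∑ l, vec ω l)) := by
    refine (IBP_wt_contDiff ε).continuous.comp ?_
    exact continuous_finsetSum _ (fun l _ => hcoord l)
  have hPc : ∀ j : Fin m, Continuous (fun ω : Fin m → Sp n =>
      ∏ l ∈ (Finset.univ.erase i).erase j, f l (vec ω l)) := fun j =>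
    continuous_finsetProd _ (fun l _ => hcf l)
  set T : Fin m → Fin m → (Fin m → Sp n) → ℝ := fun j k ω =>
    ((∏ l ∈ (Finset.univ.erase i).erase j, f l (vec ω l)) *
      ⟪gradient (f j) (vec ω j), Bm κ (gradient (f i) (vec ω i)) (vec ω i)
        (vec ω j + vec ω k) (vec ω j)⟫) * wt ε (∑ l, vec ω l) with hT
  have hTc : ∀ j k, Continuous (T j k) := by
    intro j k
    refine ((hPc j).mul ((hcg j).inner ?_)).mul hW
    exact IBP_Bm_cont κ hκ _ _ _ _ (hcg i) (hcoord i) ((hcoord j).add (hcoord k)) (hcoord j)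
  have hTi : ∀ j k, Integrable (T j k) (pm n m) := fun j k => IBP_int hn _ (hTc j k)
  -- pairs
  have hpair : ∀ j k : Fin m, j ≠ i → k ≠ i → k ≠ j →
      ∫ ω, T j k ω ∂(pm n m) = - ∫ ω, T k j ω ∂(pm n m) := by
    intro j k hji hki hkj
    have h1 := hPAIR n m hn κ hκ i j k (Ne.symm hji) (Ne.symm hki) (Ne.symm hkj)
      (gradient (f i)) (IBP_CN_grad _ (hf i)) (IBP_h ε i f) (IBP_CNm ε i f hf)
    have h2 : ∀ ω : Fin m → Sp n, fderiv ℝ (IBP_h ε i f) (vec ω) (fun l => if l = j ∨ l = k then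
        Bm κ (gradient (f i) (ω i : V n)) (ω i) ((ω j : V n) + ω k) (ω l) else 0) =
        T j k ω + T k j ω := by
      intro ω
      rw [IBP_fderiv]
      · rw [← Finset.add_sum_erase (Finset.univ.erase i) _ (Finset.mem_erase.2 ⟨hji, Finset.mem_univ j⟩),
          ← Finset.add_sum_erase ((Finset.univ.erase i).erase j) _
            (Finset.mem_erase.2 ⟨hkj, Finset.mem_erase.2 ⟨hki, Finset.mem_univ k⟩⟩),
          Finset.sum_eq_zero (s := ((Finset.univ.erase i).erase j).erase k)]
        · simp only [hT, true_or, or_true, if_true, add_zero, add_mul]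
          rw [add_comm (vec ω k) (vec ω j)]
          rfl
        · intro l hl
          have hlk : l ≠ k := (Finset.mem_erase.1 hl).1
          have hlj : l ≠ j := (Finset.mem_erase.1 (Finset.mem_erase.1 hl).2).1
          rw [if_neg (by tauto), inner_zero_right, mul_zero]
      · intro l
        exact IBP_CN_diff (f l) (hf l) (ω l)
      · have h3 : ∑ l, (if l = j ∨ l = k then
            Bm κ (gradient (f i) (ω i : V n)) (ω i) ((ω j : V n) + ω k) (ω l) else 0) = 0 := by
          rw [← Finset.add_sum_erase Finset.univ _ (Finset.mem_univ j),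
            ← Finset.add_sum_erase (Finset.univ.erase j) _
              (Finset.mem_erase.2 ⟨hkj, Finset.mem_univ k⟩),
            Finset.sum_eq_zero (s := (Finset.univ.erase j).erase k)]
          · rw [if_pos (Or.inl rfl), if_pos (Or.inr rfl), add_zero, ← IBP_Bm_add, IBP_Bm_self]
          · intro l hl
            have hlk : l ≠ k := (Finset.mem_erase.1 hl).1
            have hlj : l ≠ j := (Finset.mem_erase.1 (Finset.mem_erase.1 hl).2).1
            rw [if_neg (by tauto)]
        rw [h3, inner_zero_right]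
    simp_rw [h2] at h1
    rw [integral_add (hTi j k) (hTi k j)] at h1
    linarith
  have hsum : ∑ j ∈ Finset.univ.erase i, ∑ k ∈ Finset.univ.filter (fun k => k ≠ i ∧ k ≠ j),
      ∫ ω, T j k ω ∂(pm n m) = 0 := by
    set A : Fin m → Fin m → ℝ := fun j k =>
      if j ≠ i ∧ k ≠ i ∧ k ≠ j then ∫ ω, T j k ω ∂(pm n m) else 0 with hA
    have h1 : ∑ j ∈ Finset.univ.erase i, ∑ k ∈ Finset.univ.filter (fun k => k ≠ i ∧ k ≠ j),
      ∫ ω, T j k ω ∂(pm n m) = ∑ j, ∑ k, A j k := by
      rw [← Finset.add_sum_erase Finset.univ (fun j => ∑ k, A j k) (Finset.mem_univ i)]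
      have h2 : ∑ k, A i k = 0 := by
        refine Finset.sum_eq_zero ?_
        intro k _
        simp [hA]
      rw [h2, zero_add]
      refine Finset.sum_congr rfl ?_
      intro j hj
      have hji : j ≠ i := (Finset.mem_erase.1 hj).1
      rw [Finset.sum_filter]
      refine Finset.sum_congr rfl ?_
      intro k _
      simp only [hA, hji, ne_eq, not_false_eq_true, true_and]
    rw [h1]
    have h3 : ∀ j k, A j k = - A k j := by
      intro j k
      simp only [hA]
      by_cases h : j ≠ i ∧ k ≠ i ∧ k ≠ j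
      · rw [if_pos h, if_pos ⟨h.2.1, h.1, Ne.symm h.2.2⟩, hpair j k h.1 h.2.1 h.2.2]
      · rw [if_neg h, if_neg (fun h' => h ⟨h'.2.1, h'.1, Ne.symm h'.2.2⟩), neg_zero]
    have h4 : ∑ j, ∑ k, A j k = - ∑ j, ∑ k, A j k := by
      conv_lhs => rw [Finset.sum_comm]
      rw [← Finset.sum_neg_distrib]
      refine Finset.sum_congr rfl ?_
      intro j _
      rw [← Finset.sum_neg_distrib]
      refine Finset.sum_congr rfl ?_
      intro k _
      exact h3 k j
    linarith
  -- global
  have hglob := hGLOB n m hn i (f i) (hf i) (IBP_h ε i f) (IBP_CNm ε i f hf)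
  have hg2 : ∀ ω : Fin m → Sp n, fderiv ℝ (IBP_h ε i f) (vec ω)
      (fun l => skw (gradient (f i) (ω i : V n)) (ω i) (ω l)) =
      (∑ j ∈ Finset.univ.erase i, (∏ l ∈ (Finset.univ.erase i).erase j, f l (vec ω l)) *
        ⟪gradient (f j) (vec ω j), skw (gradient (f i) (vec ω i)) (vec ω i) (vec ω j)⟫) *
        wt ε (∑ l, vec ω l) := by
    intro ω
    rw [IBP_fderiv]
    · rfl
    · intro l
      exact IBP_CN_diff (f l) (hf l) (ω l)
    · rw [IBP_skw_sum]
      exact IBP_skw_inner _ _ _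
  simp_rw [hg2] at hglob
  have hl : Ie ε (fun ω => LB (f i) (ω i) * ∏ j ∈ Finset.univ.erase i, f j (ω j)) =
      ∫ ω : Fin m → Sp n, LB (f i) (ω i) * IBP_h ε i f (vec ω) ∂(pm n m) := by
    unfold Ie
    refine integral_congr_ae (Filter.Eventually.of_forall ?_)
    intro ω
    simp only [IBP_h]
    rw [← mul_assoc]
    rfl
  rw [hl, hglob]
  congr 1
  unfold Ie
  have hr : ∀ ω : Fin m → Sp n, (∑ j ∈ Finset.univ.erase i,
          (∏ l ∈ (Finset.univ.erase i).erase j, f l (vec ω l)) *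
            ⟪gradient (f j) (vec ω j), Cm c κ i j (vec ω) (gradient (f i) (vec ω i))⟫) *
          wt ε (∑ l, vec ω l) =
      (∑ j ∈ Finset.univ.erase i, (∏ l ∈ (Finset.univ.erase i).erase j, f l (vec ω l)) *
        ⟪gradient (f j) (vec ω j), skw (gradient (f i) (vec ω i)) (vec ω i) (vec ω j)⟫) *
        wt ε (∑ l, vec ω l) - c * ∑ j ∈ Finset.univ.erase i,
          ∑ k ∈ Finset.univ.filter (fun k => k ≠ i ∧ k ≠ j), T j k ω := by
    intro ω
    rw [Finset.sum_mul, Finset.sum_mul, Finset.mul_sum, ← Finset.sum_sub_distrib]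
    refine Finset.sum_congr rfl ?_
    intro j _
    simp only [hT, Cm]
    rw [inner_sub_right, inner_smul_right, inner_sum, mul_sub, sub_mul]
    congr 1
    rw [← Finset.sum_mul, ← Finset.mul_sum]
    ring
  simp_rw [hr]
  rw [integral_sub, integral_const_mul, integral_finsetSum]
  · have h5 : ∑ j ∈ Finset.univ.erase i, ∫ ω, ∑ k ∈ Finset.univ.filter (fun k => k ≠ i ∧ k ≠ j),
        T j k ω ∂(pm n m) = 0 := by
      rw [← hsum]
      refine Finset.sum_congr rfl ?_
      intro j _
      rw [integral_finsetSum]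
      intro k _
      exact hTi j k
    rw [h5, mul_zero, sub_zero]
  · intro j _
    exact integrable_finsetSum _ (fun k _ => hTi j k)
  · refine IBP_int hn _ ?_
    refine Continuous.mul ?_ hW
    refine continuous_finsetSum _ ?_
    intro j _
    refine (hPc j).mul ((hcg j).inner ?_)
    exact IBP_skw_cont _ _ _ (hcg i) (hcoord i) (hcoord j)
  · refine Integrable.const_mul ?_ c
    exact integrable_finsetSum _ (fun j _ => integrable_finsetSum _ (fun k _ => hTi j k))

end Pool.Agent.SPH4
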