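import Pool.Agent.SPH4.Targets

set_option autoImplicit false

/-!
# MAXP: the minimum principle for the heat equation on the sphere
-/

noncomputable section

open MeasureTheory Set Filter
open scoped ENNReal RealInnerProductSpace Topology

namespace Pool.Agent.SPH4

open Pool.Agent.ExpMax

/-- second order condition at a minimum -/
theorem MAXP_second {φ ψ : ℝ → ℝ} {m : ℝ} (h1 : ∀ s, HasDerivAt φ (ψ s) s)
    (h2 : HasDerivAt ψ m 0) (hmin : ∀ s, φ 0 ≤ φ s) : 0 ≤ m := by
  by_contra hm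
  push Not at hm
  have hd : deriv φ = ψ := funext fun s => (h1 s).deriv
  have h0 : ψ 0 = 0 := by
    have : IsLocalMin φ 0 := Eventually.of_forall hmin
    exact this.hasDerivAt_eq_zero (h1 0)
  have hmax : IsLocalMax φ 0 := by
    apply isLocalMax_of_deriv_deriv_neg
    · rw [hd, h2.deriv]
      exact hm
    · rw [hd, h0]
    · exact (h1 0).continuousAt
  have hconst : φ =ᶠ[𝓝 0] fun _ => φ 0 := by
    filter_upwards [hmax] with s hs
    exact le_antisymm hs (hmin s)
  have hψ : ψ =ᶠ[𝓝 0] fun _ => 0 := by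
    have h3 := hconst.eventuallyEq_nhds
    filter_upwards [h3] with s hs
    rw [← hd, hs.deriv_eq, deriv_const]
  have h4 : HasDerivAt ψ 0 0 := (hasDerivAt_const (0 : ℝ) (0 : ℝ)).congr_of_eventuallyEq hψ
  have := h2.unique h4
  linarith

/-- the orbit of a point under the rotations in the plane `(a, b)` -/
def MAXP_cur {n : ℕ} (a b : Fin n) (x : V n) (s : ℝ) : V n :=
  x + (Real.cos s - 1) • (x a • EuclideanSpace.single a (1 : ℝ) +
    x b • EuclideanSpace.single b (1 : ℝ)) + Real.sin s • rg a b x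

theorem MAXP_cur_a {n : ℕ} {a b : Fin n} (hab : a ≠ b) (x : V n) (s : ℝ) :
    MAXP_cur a b x s a = Real.cos s * x a + Real.sin s * x b := by
  simp [MAXP_cur, rg, hab]
  ring

theorem MAXP_cur_b {n : ℕ} {a b : Fin n} (hab : a ≠ b) (x : V n) (s : ℝ) :
    MAXP_cur a b x s b = Real.cos s * x b - Real.sin s * x a := by
  simp [MAXP_cur, rg, hab.symm]
  ring

theorem MAXP_cur_zero {n : ℕ} (a b : Fin n) (x : V n) : MAXP_cur a b x 0 = x := by
  simp [MAXP_cur]

theorem MAXP_cur_deriv {n : ℕ} {a b : Fin n} (hab : a ≠ b) (x : V n) (s : ℝ) :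
    HasDerivAt (MAXP_cur a b x) (rg a b (MAXP_cur a b x s)) s := by
  have h1 : HasDerivAt (fun s : ℝ => (Real.cos s - 1) • (x a • EuclideanSpace.single a (1 : ℝ) +
      x b • EuclideanSpace.single b (1 : ℝ) : V n)) ((-Real.sin s) •
      (x a • EuclideanSpace.single a (1 : ℝ) + x b • EuclideanSpace.single b (1 : ℝ))) s :=
    ((Real.hasDerivAt_cos s).sub_const 1).smul_const _
  have h2 : HasDerivAt (fun s : ℝ => Real.sin s • rg a b x) (Real.cos s • rg a b x) s :=
    (Real.hasDerivAt_sin s).smul_const _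
  have h3 := (h1.const_add x).add h2
  have h4 : rg a b (MAXP_cur a b x s) = (-Real.sin s) •
      (x a • EuclideanSpace.single a (1 : ℝ) + x b • EuclideanSpace.single b (1 : ℝ)) +
      Real.cos s • rg a b x := by
    have h5 : rg a b (MAXP_cur a b x s) = MAXP_cur a b x s b • EuclideanSpace.single a (1 : ℝ) -
      MAXP_cur a b x s a • EuclideanSpace.single b (1 : ℝ) := rfl
    rw [h5, MAXP_cur_a hab, MAXP_cur_b hab, rg]
    module
  rw [h4]
  exact h3

theorem MAXP_rg_inner {n : ℕ} (a b : Fin n) (x : V n) : ⟪x, rg a b x⟫ = 0 := by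
  rw [rg, inner_sub_right, inner_smul_right, inner_smul_right, EuclideanSpace.inner_single_right,
    EuclideanSpace.inner_single_right]
  simp
  ring

theorem MAXP_cur_norm {n : ℕ} {a b : Fin n} (hab : a ≠ b) (x : V n) (s : ℝ) :
    ‖MAXP_cur a b x s‖ = ‖x‖ := by
  have h1 : ∀ s, HasDerivAt (fun s => ‖MAXP_cur a b x s‖ ^ 2) 0 s := by
    intro s
    have := (MAXP_cur_deriv hab x s).norm_sq
    rw [MAXP_rg_inner, mul_zero] at this
    exact this
  have h2 := is_const_of_deriv_eq_zero (fun s => (h1 s).differentiableAt)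
    (fun s => (h1 s).deriv) s 0
  rw [MAXP_cur_zero] at h2
  exact (pow_left_inj₀ (norm_nonneg _) (norm_nonneg _) two_ne_zero).1 h2

theorem MAXP_rg_contDiff {n : ℕ} (a b : Fin n) (k : WithTop ℕ∞) :
    ContDiff ℝ k (rg a b : V n → V n) := by
  have h : ∀ i : Fin n, ContDiff ℝ k fun x : V n => x i := fun i =>
    (EuclideanSpace.proj i : V n →L[ℝ] ℝ).contDiff
  unfold rg
  exact ((h b).smul contDiff_const).sub ((h a).smul contDiff_const)

theorem MAXP_Dab_contDiff {n : ℕ} (a b : Fin n) {f : V n → ℝ} (hf : ContDiff ℝ 4 f) :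
    ContDiff ℝ 3 (Dab a b f) := by
  have h1 : ContDiff ℝ 3 (fderiv ℝ f) := hf.fderiv_right (by norm_num)
  exact h1.clm_apply (MAXP_rg_contDiff a b 3)

/-- at a minimum on the sphere the second rotational derivatives are nonnegative -/
theorem MAXP_Dab_nonneg {n : ℕ} {a b : Fin n} (hab : a ≠ b) {f : V n → ℝ}
    (hf : ContDiff ℝ 4 f) {x : V n} (hx : ‖x‖ = 1) (hmin : ∀ y : V n, ‖y‖ = 1 → f x ≤ f y) :
    0 ≤ Dab a b (Dab a b f) x := by
  have hD := MAXP_Dab_contDiff a b hf
  refine MAXP_second (φ := fun s => f (MAXP_cur a b x s))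
    (ψ := fun s => Dab a b f (MAXP_cur a b x s)) ?_ ?_ ?_
  · intro s
    have h1 : HasFDerivAt f (fderiv ℝ f (MAXP_cur a b x s)) (MAXP_cur a b x s) :=
      (hf.differentiable (by norm_num) _).hasFDerivAt
    exact h1.comp_hasDerivAt s (MAXP_cur_deriv hab x s)
  · have h1 : HasFDerivAt (Dab a b f) (fderiv ℝ (Dab a b f) (MAXP_cur a b x 0))
        (MAXP_cur a b x 0) := (hD.differentiable (by norm_num) _).hasFDerivAt
    have h2 := h1.comp_hasDerivAt 0 (MAXP_cur_deriv hab x 0)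
    have h3 : (fderiv ℝ (Dab a b f) (MAXP_cur a b x 0)) (rg a b (MAXP_cur a b x 0)) =
        Dab a b (Dab a b f) x := by
      rw [MAXP_cur_zero]
      rfl
    rw [h3] at h2
    exact h2
  · intro s
    show f (MAXP_cur a b x 0) ≤ f (MAXP_cur a b x s)
    rw [MAXP_cur_zero]
    exact hmin _ (by rw [MAXP_cur_norm hab, hx])

theorem MAXP_LB_nonneg {n : ℕ} {f : V n → ℝ} (hf : ContDiff ℝ 4 f) {x : V n} (hx : ‖x‖ = 1)
    (hmin : ∀ y : V n, ‖y‖ = 1 → f x ≤ f y) : 0 ≤ LB f x := by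
  unfold LB
  refine Finset.sum_nonneg fun a _ => Finset.sum_nonneg fun b hb => ?_
  exact MAXP_Dab_nonneg (ne_of_lt (Finset.mem_filter.1 hb).2) hf hx hmin

/-- MAXP: the minimum principle. -/
theorem p_MAXP : T_MAXP := by
  intro n hn G c hG hE h0 T hT x hx
  have key : ∀ e : ℝ, 0 < e → c ≤ G T x + e * T := by
    intro e he
    by_contra hlt
    push Not at hlt
    have hK : IsCompact (Icc (0 : ℝ) T ×ˢ Metric.sphere (0 : V n) 1) :=
      isCompact_Icc.prod (isCompact_sphere 0 1)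
    have hH : Continuous fun z : ℝ × V n => G z.1 z.2 + e * z.1 :=
      hG.continuous.add (by fun_prop)
    have hxK : (T, x) ∈ Icc (0 : ℝ) T ×ˢ Metric.sphere (0 : V n) 1 :=
      ⟨⟨hT, le_rfl⟩, by simpa using hx⟩
    obtain ⟨⟨t₀, x₀⟩, hmem, hmin⟩ := hK.exists_isMinOn ⟨(T, x), hxK⟩ hH.continuousOn
    obtain ⟨⟨ht0, ht1⟩, hx₀'⟩ := hmem
    have hx₀ : ‖x₀‖ = 1 := by simpa using hx₀'
    simp only at ht0 ht1
    have hm : G t₀ x₀ + e * t₀ ≤ G T x + e * T := hmin hxK
    have hlt' : G t₀ x₀ + e * t₀ < c := hm.trans_lt hlt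
    have ht0' : 0 < t₀ := by
      rcases ht0.eq_or_lt with h | h
      · exfalso
        rw [← h, mul_zero, add_zero] at hlt'
        exact absurd (h0 x₀ hx₀) (not_le.2 hlt')
      · exact h
    have hf : ContDiff ℝ 4 (G t₀) := by
      have h1 : ContDiff ℝ 4 fun y : V n => ((t₀, y) : ℝ × V n) :=
        contDiff_const.prodMk contDiff_id
      exact hG.comp h1
    have hLB : 0 ≤ LB (G t₀) x₀ := by
      refine MAXP_LB_nonneg hf hx₀ fun y hy => ?_
      have h1 : G t₀ x₀ + e * t₀ ≤ G t₀ y + e * t₀ :=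
        hmin (show (t₀, y) ∈ Icc (0 : ℝ) T ×ˢ Metric.sphere (0 : V n) 1 from
          ⟨⟨ht0, ht1⟩, by simpa using hy⟩)
      linarith
    have hd : HasDerivAt (fun s => G s x₀ + e * s) (LB (G t₀) x₀ + e) t₀ := by
      have h1 : HasDerivAt (fun s : ℝ => e * s) e t₀ := by
        simpa using (hasDerivAt_id t₀).const_mul e
      exact (hE t₀ ht0 x₀ hx₀).add h1
    have hloc : IsLocalMinOn (fun s => G s x₀ + e * s) (Icc 0 t₀) t₀ := by
      refine IsMinOn.localize ?_
      intro s hs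
      exact hmin (show (s, x₀) ∈ Icc (0 : ℝ) T ×ˢ Metric.sphere (0 : V n) 1 from
        ⟨⟨hs.1, hs.2.trans ht1⟩, hx₀'⟩)
    have hcone : (0 : ℝ) - t₀ ∈ posTangentConeAt (Icc 0 t₀) t₀ := by
      apply sub_mem_posTangentConeAt_of_segment_subset
      rw [segment_symm, segment_eq_Icc ht0]
    have h1 := hloc.hasFDerivWithinAt_nonneg hd.hasFDerivAt.hasFDerivWithinAt hcone
    simp only [zero_sub, map_neg, ContinuousLinearMap.toSpanSingleton_apply, smul_eq_mul] at h1
    nlinarith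
  by_contra hlt
  push Not at hlt
  have h1 := key ((c - G T x) / (2 * (T + 1))) (by
    have : 0 < c - G T x := by linarith
    positivity)
  have h2 : (c - G T x) / (2 * (T + 1)) * T ≤ (c - G T x) / 2 := by
    rw [div_mul_eq_mul_div, div_le_div_iff₀ (by positivity) (by norm_num)]
    nlinarith
  linarith

end Pool.Agent.SPH4
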