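import Pool.Agent.SPH4.Targets
import Pool.Agent.ExpMax.INV

set_option autoImplicit false

/-!
# SPH4, MONO: almost monotonicity
-/

noncomputable section

open MeasureTheory Set Filter
open scoped ENNReal RealInnerProductSpace Topology

namespace Pool.Agent.SPH4

open Pool.Agent.ExpMax

theorem MONO_prob (n m : ℕ) (hn : 1 ≤ n) : IsProbabilityMeasure (pm n m) := by
  have h1 : IsProbabilityMeasure (prb (V n)) := (tINV (V n) (by
    rw [finrank_euclideanSpace_fin]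
    exact hn)).1
  unfold pm
  infer_instance

theorem MONO_vec {n m : ℕ} : Continuous (fun ω : Fin m → Sp n => vec ω) :=
  continuous_pi fun i => continuous_subtype_val.comp (continuous_apply i)

theorem MONO_int {n m : ℕ} (hn : 1 ≤ n) (f : (Fin m → Sp n) → ℝ) (hf : Continuous f) :
    Integrable f (pm n m) := by
  have h1 := MONO_prob n m hn
  exact hf.integrable_of_hasCompactSupport (HasCompactSupport.of_compactSpace f)

theorem MONO_wt {n : ℕ} (ε : ℝ) : Continuous (wt (n := n) ε) := by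
  unfold wt
  fun_prop

theorem MONO_wt_pos {n : ℕ} (ε : ℝ) (s : V n) : 0 < wt ε s := Real.exp_pos _

theorem MONO_wt_le {n : ℕ} (ε : ℝ) (hε : 0 < ε) (s : V n) : wt ε s ≤ 1 := by
  unfold wt
  rw [Real.exp_le_one_iff, neg_nonpos]
  positivity

theorem MONO_W {n m : ℕ} (ε : ℝ) :
    Continuous (fun ω : Fin m → Sp n => wt ε (∑ i, vec ω i)) :=
  (MONO_wt ε).comp (continuous_finsetSum _ fun i _ =>
    continuous_subtype_val.comp (continuous_apply i))

theorem MONO_Z {n m : ℕ} (hn : 1 ≤ n) (ε : ℝ) :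
    0 < Ie (n := n) (m := m) ε (fun _ => 1) := by
  have h1 := MONO_prob n m hn
  unfold Ie
  simp only [one_mul]
  have h2 := MONO_int hn _ (MONO_W (n := n) (m := m) ε)
  refine (integral_pos_iff_support_of_nonneg (fun ω => (MONO_wt_pos ε _).le) h2).2 ?_
  have h3 : Function.support (fun ω : Fin m → Sp n => wt ε (∑ i, vec ω i)) = univ := by
    ext ω
    simp only [Function.mem_support, mem_univ, iff_true]
    exact (MONO_wt_pos ε _).ne'
  rw [h3, measure_univ]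
  exact one_pos

theorem MONO_gr {n : ℕ} (G : ℝ → V n → ℝ) (h : ContDiff ℝ 4 (fun z : ℝ × V n => G z.1 z.2)) :
    Continuous (fun z : ℝ × V n => gradient (G z.1) z.2) := by
  have h1 : ∀ z : ℝ × V n, fderiv ℝ (G z.1) z.2 =
      (fderiv ℝ (fun z : ℝ × V n => G z.1 z.2) z).comp (ContinuousLinearMap.inr ℝ ℝ (V n)) := by
    intro z
    have h2 : HasFDerivAt (fun x : V n => ((z.1, x) : ℝ × V n))
        (ContinuousLinearMap.inr ℝ ℝ (V n)) z.2 := hasFDerivAt_prodMk_right z.1 z.2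
    have h3 : HasFDerivAt (fun z : ℝ × V n => G z.1 z.2)
        (fderiv ℝ (fun z : ℝ × V n => G z.1 z.2) (z.1, z.2)) (z.1, z.2) :=
      ((h.differentiable (by norm_num)) _).hasFDerivAt
    exact (h3.comp z.2 h2).fderiv
  unfold gradient
  simp only [h1]
  refine (LinearIsometryEquiv.continuous _).comp ?_
  exact (h.continuous_fderiv (by norm_num)).clm_comp continuous_const

theorem MONO_xg {n : ℕ} (G : ℝ → V n → ℝ) (h : IsFlow G) :
    ContinuousOn (fun z : ℝ × V n => xg (G z.1) z.2) {z | 0 ≤ z.1 ∧ ‖z.2‖ = 1} := by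
  have h1 := MONO_gr G h.smooth
  have h2 := h.smooth.continuous
  have c1 : Continuous (fun z : ℝ × V n => 2 * G z.1 z.2) := continuous_const.mul h2
  have c2 : Continuous (fun z : ℝ × V n => gradient (G z.1) z.2 -
      ⟪gradient (G z.1) z.2, z.2⟫ • z.2) := by
    have c3 : Continuous (fun z : ℝ × V n => (⟪gradient (G z.1) z.2, z.2⟫ : ℝ)) :=
      Continuous.inner (𝕜 := ℝ) h1 continuous_snd
    exact h1.sub (c3.smul continuous_snd)
  unfold xg
  refine ContinuousOn.smul (c1.continuousOn.inv₀ ?_) c2.continuousOn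
  intro z hz
  have := h.pos z.1 hz.1 z.2 hz.2
  positivity

theorem MONO_tan {n : ℕ} (G : V n → ℝ) (w : V n) (hw : ‖w‖ = 1) : ⟪w, xg G w⟫ = 0 := by
  unfold xg
  rw [inner_smul_right, inner_sub_right, inner_smul_right, real_inner_self_eq_norm_sq, hw,
    real_inner_comm]
  ring

theorem MONO_Qf {n : ℕ} (κ : ℝ) (hκ : 0 < κ) :
    Continuous (fun z : (Fin 4 → V n) × (Fin 4 → V n) => Qf 1 κ z.1 z.2) := by
  unfold Qf Cm Bm skw
  have hne : ∀ x : V n, ‖x‖ ^ 2 + κ ≠ 0 := fun x => by positivity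
  fun_prop (disch := intros; apply hne)

theorem MONO_Qb {n : ℕ} (κ C : ℝ) (hκ : 0 < κ) : ∃ B : ℝ, 0 ≤ B ∧ ∀ ω x : Fin 4 → V n,
    (∀ i, ‖ω i‖ = 1) → (∀ i, ‖x i‖ ≤ C) → -B ≤ Qf 1 κ ω x := by
  have hK : IsCompact ((Set.pi univ fun _ : Fin 4 => Metric.sphere (0 : V n) 1) ×ˢ
      (Set.pi univ fun _ : Fin 4 => Metric.closedBall (0 : V n) C)) :=
    (isCompact_univ_pi fun _ => isCompact_sphere _ _).prod
      (isCompact_univ_pi fun _ => isCompact_closedBall _ _)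
  obtain ⟨B, hB⟩ := hK.exists_bound_of_continuousOn (MONO_Qf (n := n) κ hκ).continuousOn
  refine ⟨|B|, abs_nonneg _, fun ω x hω hx => ?_⟩
  have h1 := hB (ω, x) ⟨fun i _ => by simp [hω i], fun i _ => by simp [hx i]⟩
  rw [Real.norm_eq_abs] at h1
  have h2 := neg_abs_le (Qf 1 κ ω x)
  have h3 := le_abs_self B
  linarith

theorem MONO_mul {Ψ P Q B : ℝ} (h0 : 0 ≤ Ψ) (h1 : Ψ ≤ P) (h2 : -B ≤ Q) (h3 : 0 ≤ B) :
    -(P * B) ≤ Ψ * Q := by
  nlinarith [mul_le_mul_of_nonneg_left h2 h0, mul_le_mul_of_nonneg_right h1 h3]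

theorem MONO_frac {A δ T : ℝ} (hA : 0 ≤ A) (hδ : 0 < δ) (hT : 0 < T) :
    A * (δ / (3 * T * (A + 1))) ≤ δ / (3 * T) := by
  have h1 : A * (δ / (3 * T * (A + 1))) = (δ / (3 * T)) * (A / (A + 1)) := by
    field_simp
  rw [h1]
  refine mul_le_of_le_one_right (by positivity) ?_
  rw [div_le_one (by positivity)]
  linarith

/-- the uniform bounds -/
theorem MONO_bd {n : ℕ} (G : Fin 4 → ℝ → V n → ℝ) (hG : ∀ j, IsFlow (G j)) (T : ℝ) :
    ∃ C : ℝ, 0 ≤ C ∧ ∀ j, ∀ t ∈ Icc 0 T, ∀ x : V n, ‖x‖ = 1 →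
      √(G j t x) ≤ C ∧ ‖xg (G j t) x‖ ≤ C := by
  have hK : IsCompact (Icc 0 T ×ˢ Metric.sphere (0 : V n) 1) :=
    isCompact_Icc.prod (isCompact_sphere _ _)
  have h1 : ∀ j, ∃ C : ℝ, ∀ t ∈ Icc 0 T, ∀ x : V n, ‖x‖ = 1 →
      √(G j t x) ≤ C ∧ ‖xg (G j t) x‖ ≤ C := by
    intro j
    have hc : ContinuousOn (fun z : ℝ × V n => √(G j z.1 z.2))
        (Icc 0 T ×ˢ Metric.sphere (0 : V n) 1) :=
      ((hG j).smooth.continuous.sqrt).continuousOn
    have hx : ContinuousOn (fun z : ℝ × V n => xg (G j z.1) z.2)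
        (Icc 0 T ×ˢ Metric.sphere (0 : V n) 1) :=
      (MONO_xg (G j) (hG j)).mono fun z hz => ⟨hz.1.1, by simpa using hz.2⟩
    obtain ⟨C1, h1⟩ := hK.exists_bound_of_continuousOn hc
    obtain ⟨C2, h2⟩ := hK.exists_bound_of_continuousOn hx
    refine ⟨max C1 C2, fun t ht x hx => ⟨?_, ?_⟩⟩
    · have h3 := h1 (t, x) ⟨ht, by simpa using hx⟩
      rw [Real.norm_eq_abs] at h3
      exact (le_abs_self _).trans (h3.trans (le_max_left _ _))
    · exact (h2 (t, x) ⟨ht, by simpa using hx⟩).trans (le_max_right _ _)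
  choose C hC using h1
  refine ⟨∑ j, |C j|, Finset.sum_nonneg fun j _ => abs_nonneg _, fun j t ht x hx => ?_⟩
  have h2 : C j ≤ ∑ j, |C j| := (le_abs_self _).trans
    (Finset.single_le_sum (f := fun j => |C j|) (fun j _ => abs_nonneg _) (Finset.mem_univ j))
  exact ⟨(hC j t ht x hx).1.trans h2, (hC j t ht x hx).2.trans h2⟩

theorem MONO_lin {X : Type} [MeasurableSpace X] (μ : Measure X) (A W I : X → ℝ)
    (hA : Integrable A μ) (hW : Integrable W μ) (hI : Integrable I μ) (P S d q : ℝ) :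
    Integrable (fun x => -(P * ((5 * A x + d * W x) * S + q * I x))) μ ∧
    ∫ x, -(P * ((5 * A x + d * W x) * S + q * I x)) ∂μ =
      -(P * ((5 * ∫ x, A x ∂μ + d * ∫ x, W x ∂μ) * S + q * ∫ x, I x ∂μ)) := by
  have e : (fun x => -(P * ((5 * A x + d * W x) * S + q * I x))) =
      fun x => (-(P * 5 * S)) * A x + ((-(P * d * S)) * W x + (-(P * q)) * I x) := by
    ext x
    ring
  have h1 : Integrable (fun x => (-(P * 5 * S)) * A x) μ := hA.const_mul _
  have h2 : Integrable (fun x => (-(P * d * S)) * W x) μ := hW.const_mul _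
  have h3 : Integrable (fun x => (-(P * q)) * I x) μ := hI.const_mul _
  have h4 : Integrable (fun x => (-(P * d * S)) * W x + (-(P * q)) * I x) μ := h2.add h3
  rw [e]
  refine ⟨h1.add h4, ?_⟩
  rw [integral_add h1 h4, integral_add h2 h3, integral_const_mul, integral_const_mul,
    integral_const_mul]
  ring

theorem MONO_pt {a Ψ P Q S N δ' Cq : ℝ} {c : Prop} [Decidable c] (ha : 0 ≤ a) (hΨ0 : 0 ≤ Ψ)
    (hΨ1 : Ψ ≤ P) (hN : N ≤ S) (hS : 0 ≤ S) (hδ : 0 ≤ δ') (hq : 0 ≤ Cq)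
    (h1 : c → -((5 * a + δ') * N) ≤ Q) (h2 : -Cq ≤ Q) :
    -(P * ((5 * a + δ') * S + Cq * (if c then 0 else 1))) ≤ Ψ * Q := by
  have h4 : 0 ≤ (5 * a + δ') * S := by positivity
  refine MONO_mul hΨ0 hΨ1 ?_ ?_
  · split_ifs with hc
    · refine le_trans ?_ (h1 hc)
      rw [mul_zero, add_zero, neg_le_neg_iff]
      exact mul_le_mul_of_nonneg_left hN (by positivity)
    · linarith
  · split_ifs
    · linarith
    · linarith

/-- integration of the pointwise lower bound -/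
theorem MONO_lower {n : ℕ} (hn : 1 ≤ n) (ε κ η δ' S Cq P : ℝ) (hε : 0 < ε) (hκ : 0 < κ)
    (F : (Fin 4 → Sp n) → ℝ) (hF : Continuous F)
    (h : ∀ ω : Fin 4 → Sp n, -(P * ((5 * (∑ j, ∑ k ∈ Finset.univ.erase j,
      κ / (‖vec ω j + vec ω k‖ ^ 2 + κ)) + δ') * S +
      Cq * (if ‖∑ i, vec ω i‖ ≤ η then 0 else 1))) ≤ F ω) :
    -(P * ((5 * (∑ j, ∑ k ∈ Finset.univ.erase j,
      Ie ε (fun ω : Fin 4 → V n => κ / (‖ω j + ω k‖ ^ 2 + κ))) +
      δ' * Ie (n := n) (m := 4) ε (fun _ => 1)) * S +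
      Cq * Ie ε (fun ω : Fin 4 → V n => if ‖∑ i, ω i‖ ≤ η then 0 else 1))) ≤
      ∫ ω : Fin 4 → Sp n, F ω * wt ε (∑ i, vec ω i) ∂(pm n 4) := by
  have hp := MONO_prob n 4 hn
  have hW := MONO_W (n := n) (m := 4) ε
  have hcs : Continuous (fun ω : Fin 4 → Sp n => ∑ i, vec ω i) :=
    continuous_finsetSum _ fun i _ => continuous_subtype_val.comp (continuous_apply i)
  have ha : ∀ j k : Fin 4, Integrable (fun ω : Fin 4 → Sp n =>
      κ / (‖vec ω j + vec ω k‖ ^ 2 + κ) * wt ε (∑ i, vec ω i)) (pm n 4) := by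
    intro j k
    refine MONO_int hn _ (Continuous.mul (Continuous.div continuous_const ?_ ?_) hW)
    · have h1 : Continuous (fun ω : Fin 4 → Sp n => vec ω j + vec ω k) :=
        (continuous_subtype_val.comp (continuous_apply j)).add
          (continuous_subtype_val.comp (continuous_apply k))
      fun_prop
    · intro ω
      positivity
  have hi : Integrable (fun ω : Fin 4 → Sp n =>
      (if ‖∑ i, vec ω i‖ ≤ η then (0 : ℝ) else 1) * wt ε (∑ i, vec ω i)) (pm n 4) := by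
    refine (integrable_const (1 : ℝ)).mono' ?_ (Eventually.of_forall fun ω => ?_)
    · refine Measurable.aestronglyMeasurable (Measurable.mul (Measurable.ite ?_ measurable_const
        measurable_const) hW.measurable)
      exact measurableSet_le hcs.norm.measurable measurable_const
    · rw [norm_mul, Real.norm_of_nonneg (MONO_wt_pos ε _).le]
      have h1 := MONO_wt_le ε hε (∑ i, vec ω i)
      split_ifs
      · simp
      · simpa using h1
  have hw : Integrable (fun ω : Fin 4 → Sp n => wt ε (∑ i, vec ω i)) (pm n 4) :=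
    MONO_int hn _ hW
  have hsum : Integrable (fun ω : Fin 4 → Sp n => ∑ j, ∑ k ∈ Finset.univ.erase j,
      κ / (‖vec ω j + vec ω k‖ ^ 2 + κ) * wt ε (∑ i, vec ω i)) (pm n 4) :=
    integrable_finsetSum _ fun j _ => integrable_finsetSum _ fun k _ => ha j k
  have hR : Integrable (fun ω : Fin 4 → Sp n => F ω * wt ε (∑ i, vec ω i)) (pm n 4) :=
    MONO_int hn _ (hF.mul hW)
  obtain ⟨hL, hLe⟩ := MONO_lin (pm n 4) _ _ _ hsum hw hi P S δ' Cq
  have h1 := integral_mono hL hR (fun ω => by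
    have h2 := mul_le_mul_of_nonneg_right (h ω) (MONO_wt_pos ε (∑ i, vec ω i)).le
    refine le_trans (le_of_eq ?_) h2
    simp only [← Finset.sum_mul]
    ring)
  refine le_trans (le_of_eq ?_) h1
  rw [hLe, integral_finsetSum _ (fun j _ => integrable_finsetSum _ fun k _ => ha j k)]
  unfold Ie
  simp only [one_mul]
  congr 6
  refine Finset.sum_congr rfl fun j _ => ?_
  rw [integral_finsetSum _ (fun k _ => ha j k)]

theorem MONO_norm {n m : ℕ} (ω : Fin m → Sp n) (i : Fin m) : ‖vec ω i‖ = 1 := by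
  show ‖((ω i : Sp n) : V n)‖ = 1
  simp

theorem MONO_Fc {n : ℕ} (κ : ℝ) (hκ : 0 < κ) (G : Fin 4 → ℝ → V n → ℝ)
    (hG : ∀ j, IsFlow (G j)) (t : ℝ) (ht : 0 ≤ t) :
    Continuous (fun ω : Fin 4 → Sp n => (∏ j, √(G j t (vec ω j))) *
      Qf 1 κ (vec ω) (fun j => xg (G j t) (vec ω j))) := by
  have hxc : Continuous (fun ω : Fin 4 → Sp n => fun j => xg (G j t) (vec ω j)) := by
    refine continuous_pi fun j => ?_
    have h3 := (MONO_xg (G j) (hG j))
    refine h3.comp_continuous (f := fun ω : Fin 4 → Sp n => ((t, vec ω j) : ℝ × V n))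
      (continuous_const.prodMk (continuous_subtype_val.comp (continuous_apply j))) ?_
    intro ω
    exact ⟨ht, MONO_norm ω j⟩
  have h1 : Continuous (fun ω : Fin 4 → Sp n => ∏ j, √(G j t (vec ω j))) := by
    refine continuous_finsetProd _ fun j _ => ?_
    have h3 : Continuous (fun ω : Fin 4 → Sp n => G j t (vec ω j)) :=
      (hG j).smooth.continuous.comp
        (continuous_const.prodMk (continuous_subtype_val.comp (continuous_apply j)))
    exact h3.sqrt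
  have h2 : Continuous (fun ω : Fin 4 → Sp n =>
      ((vec ω, fun j => xg (G j t) (vec ω j)) : (Fin 4 → V n) × (Fin 4 → V n))) :=
    MONO_vec.prodMk hxc
  have h3 := (MONO_Qf (n := n) κ hκ).comp h2
  simp only [Function.comp_def] at h3
  exact h1.mul h3

attribute [local irreducible] Qf xg

theorem MONO_ptw {n : ℕ} (G : Fin 4 → ℝ → V n → ℝ) (T κ δ' η C Cq : ℝ)
    (hC : ∀ j, ∀ t ∈ Icc 0 T, ∀ x : V n, ‖x‖ = 1 →
      √(G j t x) ≤ C ∧ ‖xg (G j t) x‖ ≤ C) (hκ : 0 < κ) (hδ : 0 < δ') (hq : 0 ≤ Cq)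
    (hCq : ∀ ω x : Fin 4 → V n, (∀ i, ‖ω i‖ = 1) → (∀ i, ‖x i‖ ≤ C) → -Cq ≤ Qf 1 κ ω x)
    (hN : ∀ (ω x : Fin 4 → V n), (∀ i, ‖ω i‖ = 1) → ‖∑ i, ω i‖ ≤ η → (∀ i, ⟪ω i, x i⟫ = 0) →
      -((5 * (∑ j, ∑ k ∈ Finset.univ.erase j, κ / (‖ω j + ω k‖ ^ 2 + κ)) + δ') *
        ∑ i, ‖x i‖ ^ 2) ≤ Qf 1 κ ω x) (htan : ∀ j t (ω : Fin 4 → Sp n),
      ⟪vec ω j, xg (G j t) (vec ω j)⟫ = 0) (t : ℝ) (ht' : t ∈ Icc 0 T) (ω : Fin 4 → Sp n) :
    -(C ^ 4 * ((5 * (∑ j, ∑ k ∈ Finset.univ.erase j,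
        κ / (‖vec ω j + vec ω k‖ ^ 2 + κ)) + δ') * (4 * C ^ 2) +
        Cq * (if ‖∑ i, vec ω i‖ ≤ η then 0 else 1))) ≤ (∏ j, √(G j t (vec ω j))) *
        Qf 1 κ (vec ω) (fun j => xg (G j t) (vec ω j)) := by
  have ha : 0 ≤ ∑ j, ∑ k ∈ Finset.univ.erase j, κ / (‖vec ω j + vec ω k‖ ^ 2 + κ) :=
    Finset.sum_nonneg fun j _ => Finset.sum_nonneg fun k _ => by positivity
  have hx : ∀ i, ‖xg (G i t) (vec ω i)‖ ≤ C := fun i =>
    (hC i t ht' (vec ω i) (MONO_norm ω i)).2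
  have hxs : ∑ i, ‖xg (G i t) (vec ω i)‖ ^ 2 ≤ 4 * C ^ 2 := by
    calc ∑ i, ‖xg (G i t) (vec ω i)‖ ^ 2 ≤ ∑ _i : Fin 4, C ^ 2 :=
          Finset.sum_le_sum fun i _ => pow_le_pow_left₀ (norm_nonneg _) (hx i) 2
      _ = 4 * C ^ 2 := by simp
  have hΨ0 : 0 ≤ ∏ j, √(G j t (vec ω j)) := Finset.prod_nonneg fun j _ => Real.sqrt_nonneg _
  have hΨ1 : ∏ j, √(G j t (vec ω j)) ≤ C ^ 4 := by
    calc ∏ j, √(G j t (vec ω j)) ≤ ∏ _j : Fin 4, C :=
          Finset.prod_le_prod (fun j _ => Real.sqrt_nonneg _)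
            (fun j _ => (hC j t ht' (vec ω j) (MONO_norm ω j)).1)
      _ = C ^ 4 := by simp
  exact MONO_pt ha hΨ0 hΨ1 hxs (by positivity) hδ.le hq
    (fun hη' => hN (vec ω) (fun j => xg (G j t) (vec ω j)) (MONO_norm ω) hη'
      (fun i => htan i t ω)) (hCq (vec ω) (fun j => xg (G j t) (vec ω j)) (MONO_norm ω) hx)

/-- final arithmetic -/
theorem MONO_ar {P S Cq T δ δ' Z A I : ℝ} (hP : 0 ≤ P) (hS : 0 ≤ S) (hCq : 0 ≤ Cq) (hT : 0 < T)
    (hδ : 0 < δ) (hZ : 0 < Z) (hδ' : δ' = δ / (3 * T * (P * S + 1)))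
    (e1 : A ≤ 12 * (δ / (3 * T * (60 * P * S + 1)) * Z))
    (e2 : I ≤ δ / (3 * T * (P * Cq + 1)) * Z) :
    -(δ / T) * Z ≤ -(P * ((5 * A + δ' * Z) * S + Cq * I)) := by
  have f1 := MONO_frac (A := 60 * P * S) (by positivity) hδ hT
  have f2 := MONO_frac (A := P * S) (by positivity) hδ hT
  have f3 := MONO_frac (A := P * Cq) (by positivity) hδ hT
  rw [← hδ'] at f2
  have g1 : P * (5 * A * S) ≤ δ / (3 * T) * Z := by
    calc P * (5 * A * S) = (5 * P * S) * A := by ring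
      _ ≤ (5 * P * S) * (12 * (δ / (3 * T * (60 * P * S + 1)) * Z)) :=
          mul_le_mul_of_nonneg_left e1 (by positivity)
      _ = (60 * P * S * (δ / (3 * T * (60 * P * S + 1)))) * Z := by ring
      _ ≤ _ := mul_le_mul_of_nonneg_right f1 hZ.le
  have g2 : P * (δ' * Z * S) ≤ δ / (3 * T) * Z := by
    calc P * (δ' * Z * S) = (P * S * δ') * Z := by ring
      _ ≤ _ := mul_le_mul_of_nonneg_right f2 hZ.le
  have g3 : P * (Cq * I) ≤ δ / (3 * T) * Z := by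
    calc P * (Cq * I) = (P * Cq) * I := by ring
      _ ≤ (P * Cq) * (δ / (3 * T * (P * Cq + 1)) * Z) :=
          mul_le_mul_of_nonneg_left e2 (by positivity)
      _ = (P * Cq * (δ / (3 * T * (P * Cq + 1)))) * Z := by ring
      _ ≤ _ := mul_le_mul_of_nonneg_right f3 hZ.le
  have h7 : δ / T * Z = δ / (3 * T) * Z + δ / (3 * T) * Z + δ / (3 * T) * Z := by
    field_simp
    ring
  have h8 : -(δ / T) * Z = -(δ / T * Z) := by ring
  rw [h8, h7]
  linarith [g1, g2, g3]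

attribute [local irreducible] Ie

theorem p_MONO (hDER : T_DER) (hNEAR : T_NEAR) (hEST1 : T_EST1) (hEST2 : T_EST2) : T_MONO := by
  intro n hn G hG T δ hT hδ
  have hn1 : 1 ≤ n := by omega
  rcases hT.eq_or_lt with h0 | hT0
  · refine ⟨1, one_pos, fun ε _ _ => ?_⟩
    rw [← h0]
    linarith
  obtain ⟨C, hC0, hC⟩ := MONO_bd G hG T
  obtain ⟨P, hP⟩ : ∃ P, P = C ^ 4 := ⟨_, rfl⟩
  obtain ⟨S, hS⟩ : ∃ S, S = 4 * C ^ 2 := ⟨_, rfl⟩
  have hP0 : 0 ≤ P := by rw [hP]; positivity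
  have hS0 : 0 ≤ S := by rw [hS]; positivity
  obtain ⟨κ₀, hκ₀, h2⟩ := hEST2 n hn (δ / (3 * T * (60 * P * S + 1))) (by positivity)
  obtain ⟨κ, hκ⟩ : ∃ κ, κ = κ₀ / 2 := ⟨_, rfl⟩
  have hκ0 : 0 < κ := by rw [hκ]; positivity
  have hκ1 : κ < κ₀ := by rw [hκ]; linarith
  obtain ⟨Cq, hCq0, hCq⟩ := MONO_Qb (n := n) κ C hκ0
  obtain ⟨δ', hδ'⟩ : ∃ δ', δ' = δ / (3 * T * (P * S + 1)) := ⟨_, rfl⟩
  have hδ'0 : 0 < δ' := by rw [hδ']; positivity
  obtain ⟨η, hη, hN⟩ := hNEAR n κ δ' hκ0 hδ'0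
  obtain ⟨ε₀, hε₀, h1⟩ := hEST1 n hn1 η (δ / (3 * T * (P * Cq + 1))) hη (by positivity)
  refine ⟨min ε₀ 1, lt_min hε₀ one_pos, fun ε hε hε1 => ?_⟩
  have hεa : ε < ε₀ := hε1.trans_le (min_le_left _ _)
  have hεb : ε ≤ 1 := (hε1.trans_le (min_le_right _ _)).le
  obtain ⟨hcont, hder⟩ := hDER n 4 hn1 1 κ ε hκ0 hε G hG
  have hZ := MONO_Z (n := n) (m := 4) hn1 ε
  -- estimates of the expectations
  have e1 : ∑ j : Fin 4, ∑ k ∈ Finset.univ.erase j,
      Ie ε (fun ω : Fin 4 → V n => κ / (‖ω j + ω k‖ ^ 2 + κ)) ≤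
      12 * (δ / (3 * T * (60 * P * S + 1)) * Ie (n := n) (m := 4) ε (fun _ => 1)) := by
    have h5 : ∀ j : Fin 4, ∀ k ∈ Finset.univ.erase j,
        Ie ε (fun ω : Fin 4 → V n => κ / (‖ω j + ω k‖ ^ 2 + κ)) ≤
        δ / (3 * T * (60 * P * S + 1)) * Ie (n := n) (m := 4) ε (fun _ => 1) := by
      intro j k hk
      have h6 := h2 κ hκ0 hκ1 ε hε hεb j k (Finset.ne_of_mem_erase hk).symm
      unfold Ee at h6
      rwa [div_le_iff₀ hZ] at h6
    calc _ ≤ ∑ j : Fin 4, ∑ _k ∈ Finset.univ.erase j,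
          (δ / (3 * T * (60 * P * S + 1)) * Ie (n := n) (m := 4) ε (fun _ => 1)) :=
          Finset.sum_le_sum fun j _ => Finset.sum_le_sum fun k hk => h5 j k hk
      _ = _ := by
          simp only [Finset.sum_const, Finset.card_erase_of_mem (Finset.mem_univ _),
            Finset.card_univ, Fintype.card_fin, nsmul_eq_mul]
          push_cast
          ring
  have e2 : Ie ε (fun ω : Fin 4 → V n => if ‖∑ i, ω i‖ ≤ η then 0 else 1) ≤
      δ / (3 * T * (P * Cq + 1)) * Ie (n := n) (m := 4) ε (fun _ => 1) := by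
    have h6 := h1 ε hε hεa
    unfold Ee at h6
    rwa [div_le_iff₀ hZ] at h6
  have e3 := MONO_ar hP0 hS0 hCq0 hT0 hδ hZ hδ' e1 e2
  -- the lower bound for the derivative
  have hlow : ∀ t ∈ Ioo 0 T, -(δ / T) ≤
      Ie ε (fun ω : Fin 4 → V n => (∏ j, √(G j t (ω j))) *
        Qf 1 κ ω (fun j => xg (G j t) (ω j))) / Ie (n := n) (m := 4) ε (fun _ => 1) := by
    intro t ht
    have ht' : t ∈ Icc 0 T := ⟨ht.1.le, ht.2.le⟩
    have h3 := MONO_lower hn1 ε κ η δ' S Cq P hε hκ0 _ (MONO_Fc κ hκ0 G hG t ht'.1)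
      (fun ω => by
        rw [hP, hS]
        exact MONO_ptw G T κ δ' η C Cq hC hκ0 hδ'0 hCq0 hCq hN
          (fun j t ω => MONO_tan _ _ (MONO_norm ω j)) t ht' ω)
    have h4 : Ie ε (fun ω : Fin 4 → V n => (∏ j, √(G j t (ω j))) *
        Qf 1 κ ω (fun j => xg (G j t) (ω j))) = ∫ ω : Fin 4 → Sp n, (∏ j, √(G j t (vec ω j))) *
        Qf 1 κ (vec ω) (fun j => xg (G j t) (vec ω j)) * wt ε (∑ i, vec ω i) ∂(pm n 4) := by
      unfold Ie
      rfl
    rw [h4, le_div_iff₀ hZ]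
    exact e3.trans h3
  -- monotonicity
  have hmono : MonotoneOn (fun t => Ie ε (fun ω : Fin 4 → V n => ∏ j, √(G j t (ω j))) /
      Ie (n := n) (m := 4) ε (fun _ => 1) + δ / T * t) (Icc 0 T) := by
    have hd : ∀ t ∈ Ioo 0 T, HasDerivAt (fun t => Ie ε (fun ω : Fin 4 → V n =>
        ∏ j, √(G j t (ω j))) / Ie (n := n) (m := 4) ε (fun _ => 1) + δ / T * t)
        (Ie ε (fun ω : Fin 4 → V n => (∏ j, √(G j t (ω j))) *
          Qf 1 κ ω (fun j => xg (G j t) (ω j))) / Ie (n := n) (m := 4) ε (fun _ => 1) +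
          δ / T) t := by
      intro t ht
      have h3 := (hder t ht.1).div_const (Ie (n := n) (m := 4) ε (fun _ => 1))
      have h4 := (hasDerivAt_id t).const_mul (δ / T)
      rw [mul_one] at h4
      exact h3.add h4
    refine monotoneOn_of_deriv_nonneg (convex_Icc 0 T) ?_ ?_ ?_
    · refine ContinuousOn.add ((hcont.mono fun t ht => ht.1).div_const _) ?_
      fun_prop
    · rw [interior_Icc]
      exact fun t ht => (hd t ht).differentiableAt.differentiableWithinAt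
    · rw [interior_Icc]
      intro t ht
      rw [(hd t ht).deriv]
      linarith [hlow t ht]
  have h5 := hmono (left_mem_Icc.2 hT) (right_mem_Icc.2 hT) hT
  have h6 : δ / T * T = δ := by field_simp
  simp only [mul_zero, add_zero, h6] at h5
  exact h5

end Pool.Agent.SPH4
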