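import Pool.Agent.SPH4.Targets
import Pool.Agent.ExpMax.INV

set_option autoImplicit false

/-!
# The multilinear inequality for positive polynomials
-/

noncomputable section

open MeasureTheory Set Filter
open scoped ENNReal RealInnerProductSpace Topology

namespace Pool.Agent.SPH4

open Pool.Agent.ExpMax

/-- Continuity of a finite product of square roots. -/
theorem MULTI_cont (a : Fin 4 → ℝ) {δ : ℝ} (hδ : 0 < δ) :
    ∃ d : ℝ, 0 < d ∧ ∏ j, √(a j + d) ≤ ∏ j, √(a j) + δ := by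
  have h1 : Continuous (fun d : ℝ => ∏ j, √(a j + d)) := by fun_prop
  have h2 : Tendsto (fun d : ℝ => ∏ j, √(a j + d)) (𝓝[>] 0) (𝓝 (∏ j, √(a j))) := by
    have := (h1.tendsto 0).mono_left (nhdsWithin_le_nhds (s := Ioi 0))
    simpa using this
  have h3 : ∀ᶠ d : ℝ in 𝓝[>] 0, ∏ j, √(a j + d) < ∏ j, √(a j) + δ :=
    h2.eventually (gt_mem_nhds (by linarith))
  have h4 : ∀ᶠ d : ℝ in 𝓝[>] 0, 0 < d := self_mem_nhdsWithin
  obtain ⟨d, hd1, hd2⟩ := (h3.and h4).exists
  exact ⟨d, hd2, hd1.le⟩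

theorem MULTI_wtc {n : ℕ} (ε : ℝ) :
    Continuous (fun ω : Fin 4 → Sp n => wt ε (∑ i, vec ω i)) := by
  unfold wt vec
  fun_prop

theorem MULTI_wti {n : ℕ} {ε : ℝ} (hε : 0 < ε) [IsProbabilityMeasure (pm n 4)] :
    Integrable (fun ω : Fin 4 → Sp n => wt ε (∑ i, vec ω i)) (pm n 4) := by
  refine Integrable.mono' (integrable_const (1 : ℝ)) (MULTI_wtc ε).aestronglyMeasurable
    (Eventually.of_forall fun ω => ?_)
  unfold wt
  rw [Real.norm_eq_abs, abs_of_pos (Real.exp_pos _)]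
  apply Real.exp_le_one_iff.2
  have : 0 ≤ ‖∑ i, vec ω i‖ ^ 2 / (2 * ε) := by positivity
  linarith

theorem MULTI_pos {n : ℕ} {ε : ℝ} (hε : 0 < ε) [IsProbabilityMeasure (pm n 4)] :
    0 < Ie (n := n) (m := 4) ε (fun _ => 1) := by
  have h := MULTI_wti (n := n) hε
  unfold Ie
  simp only [one_mul]
  unfold wt at h ⊢
  exact integral_exp_pos h

/-- MULTI -/
theorem p_MULTI (hFLOW : T_FLOW) (hMONO : T_MONO) : T_MULTI := by
  intro n hn p hp δ hδ
  have hfr : 1 ≤ Module.finrank ℝ (V n) := by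
    simpa [V] using (by omega : 1 ≤ n)
  have hprob : IsProbabilityMeasure (prb (V n)) := (tINV (V n) hfr).1
  have hpm : IsProbabilityMeasure (pm n 4) := by unfold pm; infer_instance
  choose G hG hG0 hGT using fun j => hFLOW n (by omega) (p j) (hp j)
  set a : Fin 4 → ℝ := fun j =>
    ∫ ω : Sp n, MvPolynomial.eval (fun i => (ω : V n) i) (p j) ∂(prb (V n)) with ha
  obtain ⟨d, hd, hda⟩ := MULTI_cont a (half_pos hδ)
  choose T hT0 hT using fun j => hGT j d hd
  set T₀ : ℝ := ∑ j, T j with hT₀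
  have hTle : ∀ j, T j ≤ T₀ := fun j =>
    Finset.single_le_sum (fun i _ => hT0 i) (Finset.mem_univ j)
  have hT00 : 0 ≤ T₀ := Finset.sum_nonneg fun i _ => hT0 i
  obtain ⟨ε₀, hε₀, hmono⟩ := hMONO n hn G hG T₀ (δ / 2) hT00 (half_pos hδ)
  refine ⟨ε₀, hε₀, fun ε hε hεε => ?_⟩
  have h1 := hmono ε hε hεε
  have hpos := MULTI_pos (n := n) hε
  -- the left side
  have h2 : (fun ω : Fin 4 → V n => ∏ j, √(G j 0 (ω j))) =
      fun ω : Fin 4 → V n => ∏ j, √(MvPolynomial.eval (fun i => ω j i) (p j)) := by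
    funext ω
    exact Finset.prod_congr rfl fun j _ => by rw [hG0 j (ω j)]
  rw [h2] at h1
  refine h1.trans ?_
  have h3 : Ee ε (fun ω : Fin 4 → V n => ∏ j, √(G j T₀ (ω j))) ≤ ∏ j, √(a j + d) := by
    unfold Ee
    rw [div_le_iff₀ hpos]
    unfold Ie
    rw [← integral_const_mul]
    refine integral_mono_of_nonneg (Eventually.of_forall fun ω => ?_) ?_
      (Eventually.of_forall fun ω => ?_)
    · exact mul_nonneg (Finset.prod_nonneg fun j _ => Real.sqrt_nonneg _) (Real.exp_pos _).le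
    · simp only [one_mul]
      exact (MULTI_wti hε).const_mul _
    · simp only [one_mul]
      refine mul_le_mul_of_nonneg_right ?_ (Real.exp_pos _).le
      refine Finset.prod_le_prod (fun j _ => Real.sqrt_nonneg _) fun j _ => ?_
      refine Real.sqrt_le_sqrt ?_
      have hω : ‖vec ω j‖ = 1 := by simp [vec]
      have := (abs_le.1 (hT j T₀ (hTle j) (vec ω j) hω)).2
      linarith
  linarith

end Pool.Agent.SPH4
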