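import Pool.Agent.SPH4.Targets

set_option autoImplicit false

/-! Job NEAR: the quadratic form near the zero sum configurations, by compactness. -/

noncomputable section

open Set Filter
open scoped RealInnerProductSpace

namespace Pool.Agent.SPH4

theorem NEAR_skw {n : ℕ} (a : ℝ) (δ w x : V n) : skw (a • δ) w x = a • skw δ w x := by
  unfold skw
  rw [inner_smul_left, smul_sub, smul_smul, smul_smul, smul_smul]
  simp [mul_comm]

theorem NEAR_Bm {n : ℕ} (κ a : ℝ) (δ w x y : V n) :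
    Bm κ (a • δ) w x y = a • Bm κ δ w x y := by
  unfold Bm
  rw [NEAR_skw, NEAR_skw, inner_smul_right, smul_comm a]
  congr 1
  rw [smul_sub, smul_sub, smul_smul, smul_smul, smul_smul, smul_smul, smul_smul, mul_comm a,
    mul_comm a, mul_comm a]

theorem NEAR_Cm {n m : ℕ} (c κ a : ℝ) (i j : Fin m) (ω : Fin m → V n) (δ : V n) :
    Cm c κ i j ω (a • δ) = a • Cm c κ i j ω δ := by
  unfold Cm
  rw [NEAR_skw, smul_sub, smul_comm a c, Finset.smul_sum (r := a)]
  congr 2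
  exact Finset.sum_congr rfl fun k _ => NEAR_Bm _ _ _ _ _ _

theorem NEAR_Qf {n m : ℕ} (c κ a : ℝ) (ω x : Fin m → V n) :
    Qf c κ ω (a • x) = a ^ 2 * Qf c κ ω x := by
  unfold Qf
  rw [mul_sub, Finset.mul_sum, Finset.mul_sum]
  congr 1
  · refine Finset.sum_congr rfl fun i _ => ?_
    rw [Pi.smul_apply, norm_smul, mul_pow, Real.norm_eq_abs, sq_abs]
  · refine Finset.sum_congr rfl fun i _ => ?_
    rw [Finset.mul_sum]
    refine Finset.sum_congr rfl fun j _ => ?_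
    rw [Pi.smul_apply, Pi.smul_apply, NEAR_Cm, inner_smul_left, inner_smul_right]
    simp
    ring

theorem NEAR_cskw {n : ℕ} {X : Type} [TopologicalSpace X] {f g h : X → V n} (hf : Continuous f)
    (hg : Continuous g) (hh : Continuous h) : Continuous fun p => skw (f p) (g p) (h p) := by
  unfold skw
  fun_prop

theorem NEAR_cBm {n : ℕ} {κ : ℝ} (hκ : 0 < κ) {X : Type} [TopologicalSpace X]
    {f g h k : X → V n} (hf : Continuous f) (hg : Continuous g) (hh : Continuous h)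
    (hk : Continuous k) : Continuous fun p => Bm κ (f p) (g p) (h p) (k p) := by
  unfold Bm
  have h1 := NEAR_cskw hf hg hk
  have h2 := NEAR_cskw hf hg hh
  refine Continuous.fun_smul (Continuous.fun_inv₀ ((hh.norm.pow 2).add continuous_const)
    fun p => ?_) ?_
  · have : 0 ≤ ‖h p‖ ^ 2 := sq_nonneg _
    exact (by linarith : 0 < ‖h p‖ ^ 2 + κ).ne'
  · exact (((hh.norm.pow 2).fun_smul h1).fun_sub ((hh.inner h1).fun_smul hh)).fun_sub
      ((hh.inner hk).fun_smul h2)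

theorem NEAR_cQf {n m : ℕ} (c : ℝ) {κ : ℝ} (hκ : 0 < κ) :
    Continuous fun p : (Fin m → V n) × (Fin m → V n) => Qf c κ p.1 p.2 := by
  unfold Qf Cm
  have h1 : ∀ i : Fin m, Continuous fun p : (Fin m → V n) × (Fin m → V n) => p.1 i :=
    fun i => (continuous_apply i).comp continuous_fst
  have h2 : ∀ i : Fin m, Continuous fun p : (Fin m → V n) × (Fin m → V n) => p.2 i :=
    fun i => (continuous_apply i).comp continuous_snd
  refine Continuous.fun_sub (continuous_finsetSum _ fun i _ => (h2 i).norm.pow 2)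
    (continuous_finsetSum _ fun i _ => continuous_finsetSum _ fun j _ => (h2 j).inner ?_)
  refine (NEAR_cskw (h2 i) (h1 i) (h1 j)).fun_sub (Continuous.fun_const_smul
    (continuous_finsetSum _ fun k _ => ?_) _)
  exact NEAR_cBm hκ (h2 i) (h1 i) ((h1 j).add (h1 k)) (h1 j)

theorem p_NEAR (hQUAD : T_QUAD) : T_NEAR := by
  intro n κ δ hκ hδ
  have h1 : ∀ i : Fin 4, Continuous fun p : (Fin 4 → V n) × (Fin 4 → V n) => p.1 i :=
    fun i => (continuous_apply i).comp continuous_fst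
  have h2 : ∀ i : Fin 4, Continuous fun p : (Fin 4 → V n) × (Fin 4 → V n) => p.2 i :=
    fun i => (continuous_apply i).comp continuous_snd
  let q : (Fin 4 → V n) → ℝ := fun ω =>
    5 * (∑ j, ∑ k ∈ Finset.univ.erase j, κ / (‖ω j + ω k‖ ^ 2 + κ))
  have hq : Continuous fun p : (Fin 4 → V n) × (Fin 4 → V n) => q p.1 := by
    refine Continuous.mul continuous_const
      (continuous_finsetSum _ fun j _ => continuous_finsetSum _ fun k _ => ?_)
    refine Continuous.div continuous_const (by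
      have := (h1 j).add (h1 k)
      fun_prop) fun p => ?_
    have : 0 ≤ ‖p.1 j + p.1 k‖ ^ 2 := sq_nonneg _
    exact (by linarith : 0 < ‖p.1 j + p.1 k‖ ^ 2 + κ).ne'
  let F : (Fin 4 → V n) × (Fin 4 → V n) → ℝ := fun p =>
    Qf 1 κ p.1 p.2 + (q p.1 + δ) * ∑ i, ‖p.2 i‖ ^ 2
  have hs : Continuous fun p : (Fin 4 → V n) × (Fin 4 → V n) => ∑ i, ‖p.2 i‖ ^ 2 :=
    continuous_finsetSum _ fun i _ => (h2 i).norm.pow 2
  have hF : Continuous F := (NEAR_cQf 1 hκ).add ((hq.add continuous_const).mul hs)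
  let K : Set ((Fin 4 → V n) × (Fin 4 → V n)) :=
    {p | (∀ i, ‖p.1 i‖ = 1) ∧ (∀ i, ⟪p.1 i, p.2 i⟫ = 0) ∧ ∑ i, ‖p.2 i‖ ^ 2 = 1 ∧ F p ≤ 0}
  have hKc : IsClosed K := by
    have e : K = (⋂ i, {p | ‖p.1 i‖ = 1}) ∩ ((⋂ i, {p | ⟪p.1 i, p.2 i⟫ = 0}) ∩
        ({p | ∑ i, ‖p.2 i‖ ^ 2 = 1} ∩ {p | F p ≤ 0})) := by
      ext p
      simp [K]
    rw [e]
    refine IsClosed.inter (isClosed_iInter fun i => isClosed_eq (h1 i).norm continuous_const)
      (IsClosed.inter (isClosed_iInter fun i => isClosed_eq ((h1 i).inner (h2 i))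
        continuous_const) (IsClosed.inter (isClosed_eq hs continuous_const)
          (isClosed_le hF continuous_const)))
  have hKb : K ⊆ Metric.closedBall 0 1 := by
    intro p hp
    obtain ⟨a1, -, a3, -⟩ := hp
    rw [mem_closedBall_zero_iff, Prod.norm_def]
    refine max_le ?_ ?_
    · rw [pi_norm_le_iff_of_nonneg zero_le_one]
      exact fun i => (a1 i).le
    · rw [pi_norm_le_iff_of_nonneg zero_le_one]
      intro i
      have h3 : ‖p.2 i‖ ^ 2 ≤ 1 := by
        rw [← a3]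
        exact Finset.single_le_sum (f := fun i => ‖p.2 i‖ ^ 2) (fun j _ => sq_nonneg _)
          (Finset.mem_univ i)
      exact (sq_le_one_iff₀ (norm_nonneg _)).1 h3
  have hK : IsCompact K := (isCompact_closedBall _ _).of_isClosed_subset hKc hKb
  have hg : Continuous fun p : (Fin 4 → V n) × (Fin 4 → V n) => ‖∑ i, p.1 i‖ :=
    (continuous_finsetSum _ fun i _ => h1 i).norm
  -- the key step
  have key : ∃ η : ℝ, 0 < η ∧ ∀ p : (Fin 4 → V n) × (Fin 4 → V n), (∀ i, ‖p.1 i‖ = 1) →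
      (∀ i, ⟪p.1 i, p.2 i⟫ = 0) → ∑ i, ‖p.2 i‖ ^ 2 = 1 → ‖∑ i, p.1 i‖ ≤ η → 0 ≤ F p := by
    rcases K.eq_empty_or_nonempty with h0 | h0
    · refine ⟨1, one_pos, fun p a1 a2 a3 _ => ?_⟩
      by_contra h
      have : p ∈ K := ⟨a1, a2, a3, (not_le.1 h).le⟩
      rw [h0] at this
      exact this
    · obtain ⟨p0, hp0, hmin⟩ := hK.exists_isMinOn h0 hg.continuousOn
      have hpos : 0 < ‖∑ i, p0.1 i‖ := by
        rcases (norm_nonneg (∑ i, p0.1 i)).eq_or_lt' with h | h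
        · exfalso
          obtain ⟨a1, a2, a3, a4⟩ := hp0
          have h3 := hQUAD n κ hκ p0.1 p0.2 a1 (norm_eq_zero.1 h) a2
          have h4 : F p0 = Qf 1 κ p0.1 p0.2 + (q p0.1 + δ) * ∑ i, ‖p0.2 i‖ ^ 2 := rfl
          rw [a3] at h3 h4
          have h5 : q p0.1 = 5 * (∑ j, ∑ k ∈ Finset.univ.erase j,
            κ / (‖p0.1 j + p0.1 k‖ ^ 2 + κ)) := rfl
          rw [← h5] at h3
          linarith
        · exact h
      refine ⟨‖∑ i, p0.1 i‖ / 2, by positivity, fun p a1 a2 a3 a4 => ?_⟩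
      by_contra h
      have h3 : p ∈ K := ⟨a1, a2, a3, (not_le.1 h).le⟩
      have h4 : ‖∑ i, p0.1 i‖ ≤ ‖∑ i, p.1 i‖ := hmin h3
      linarith
  obtain ⟨η, hη, hkey⟩ := key
  refine ⟨η, hη, fun ω x a1 a2 a3 => ?_⟩
  rcases (Finset.sum_nonneg (s := Finset.univ) (f := fun i => ‖x i‖ ^ 2)
    fun i _ => sq_nonneg _).eq_or_lt' with h0 | h0
  · have hx : x = 0 := by
      funext i
      have := (Finset.sum_eq_zero_iff_of_nonneg fun i _ => sq_nonneg ‖x i‖).1 h0 i
        (Finset.mem_univ i)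
      exact norm_eq_zero.1 (pow_eq_zero_iff two_ne_zero |>.1 this)
    have h3 : Qf 1 κ ω x = 0 := by
      have := NEAR_Qf 1 κ 0 ω x
      rw [zero_smul] at this
      rw [hx, this]
      simp
    rw [h0, h3]
    simp
  · have hsq : (√(∑ i, ‖x i‖ ^ 2)) ^ 2 = ∑ i, ‖x i‖ ^ 2 := Real.sq_sqrt h0.le
    have hs0 : 0 < √(∑ i, ‖x i‖ ^ 2) := Real.sqrt_pos.2 h0
    have h3 := hkey (ω, (√(∑ i, ‖x i‖ ^ 2))⁻¹ • x) a1 (fun i => by
      simp only [Pi.smul_apply, inner_smul_right, a3 i, mul_zero]) (by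
      simp only [Pi.smul_apply, norm_smul, mul_pow]
      rw [← Finset.mul_sum, Real.norm_eq_abs, sq_abs, inv_pow, hsq, inv_mul_cancel₀ h0.ne']) a2
    have h4 : F (ω, (√(∑ i, ‖x i‖ ^ 2))⁻¹ • x) = (∑ i, ‖x i‖ ^ 2)⁻¹ *
        (Qf 1 κ ω x + (q ω + δ) * ∑ i, ‖x i‖ ^ 2) := by
      simp only [F]
      rw [NEAR_Qf]
      simp only [Pi.smul_apply, norm_smul, mul_pow]
      rw [← Finset.mul_sum, Real.norm_eq_abs, sq_abs, inv_pow, hsq]
      ring
    rw [h4] at h3
    have h5 := (mul_nonneg_iff_of_pos_left (inv_pos.2 h0)).1 h3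
    have h6 : q ω = 5 * (∑ j, ∑ k ∈ Finset.univ.erase j, κ / (‖ω j + ω k‖ ^ 2 + κ)) := rfl
    rw [← h6]
    linarith

end Pool.Agent.SPH4
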