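import Mathlib
import Pool.Agent.SPH4.Targets
import Pool.Agent.ExpMax.INV

set_option autoImplicit false

/-!
# PAIR: rotation of a pair about its sum
-/

noncomputable section

open MeasureTheory Set Filter
open scoped ENNReal RealInnerProductSpace Topology

namespace Pool.Agent.SPH4

open Pool.Agent.ExpMax

/-! ### Algebra of the matrix -/

/-- Entries of the matrix of `Bm`. -/
def PAIR_bb {n : ℕ} (κ : ℝ) (δ w x : V n) (a b : Fin n) : ℝ :=
  (‖x‖ ^ 2 + κ)⁻¹ * (‖x‖ ^ 2 * (δ a * w b - w a * δ b) + skw δ w x b * x a - x b * skw δ w x a)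

lemma PAIR_bb_skew {n : ℕ} (κ : ℝ) (δ w x : V n) (a b : Fin n) :
    PAIR_bb κ δ w x b a = -PAIR_bb κ δ w x a b := by
  unfold PAIR_bb
  ring

lemma PAIR_inner {n : ℕ} (x y : V n) : ⟪x, y⟫ = ∑ b, x b * y b := by
  rw [PiLp.inner_apply]
  refine Finset.sum_congr rfl fun b _ => ?_
  simp [mul_comm]

lemma PAIR_skw_apply {n : ℕ} (δ w x : V n) (a : Fin n) :
    skw δ w x a = ⟪w, x⟫ * δ a - ⟪δ, x⟫ * w a := by
  simp [skw]

lemma PAIR_skw_inner {n : ℕ} (δ w x y : V n) :
    ⟪x, skw δ w y⟫ = -⟪skw δ w x, y⟫ := by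
  unfold skw
  rw [inner_sub_right, inner_sub_left, real_inner_smul_right, real_inner_smul_right,
    real_inner_smul_left, real_inner_smul_left, real_inner_comm δ x, real_inner_comm w x]
  ring

lemma PAIR_sum {n : ℕ} (κ : ℝ) (δ w x y : V n) (a : Fin n) :
    ∑ b, PAIR_bb κ δ w x a b * y b = (‖x‖ ^ 2 + κ)⁻¹ *
      (‖x‖ ^ 2 * (δ a * ⟪w, y⟫ - w a * ⟪δ, y⟫) + ⟪skw δ w x, y⟫ * x a - ⟪x, y⟫ * skw δ w x a) := by
  have h : ∀ b, PAIR_bb κ δ w x a b * y b = (‖x‖ ^ 2 + κ)⁻¹ *
      (‖x‖ ^ 2 * (δ a * (w b * y b) - w a * (δ b * y b)) + (skw δ w x b * y b) * x a -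
        (x b * y b) * skw δ w x a) := by
    intro b
    unfold PAIR_bb
    ring
  rw [Finset.sum_congr rfl fun b _ => h b, ← Finset.mul_sum, Finset.sum_sub_distrib,
    Finset.sum_add_distrib, ← Finset.mul_sum, Finset.sum_sub_distrib, ← Finset.mul_sum,
    ← Finset.mul_sum, ← Finset.sum_mul, ← Finset.sum_mul, ← PAIR_inner, ← PAIR_inner,
    ← PAIR_inner, ← PAIR_inner]

lemma PAIR_kill {n : ℕ} (κ : ℝ) (δ w x : V n) (a : Fin n) :
    ∑ b, PAIR_bb κ δ w x a b * x b = 0 := by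
  rw [PAIR_sum]
  have h1 : ⟪skw δ w x, x⟫ = 0 := by
    have := PAIR_skw_inner δ w x x
    rw [real_inner_comm] at this
    linarith
  rw [h1, real_inner_self_eq_norm_sq, PAIR_skw_apply]
  ring

lemma PAIR_Bm_apply {n : ℕ} (κ : ℝ) (δ w x y : V n) (a : Fin n) :
    Bm κ δ w x y a = ∑ b, PAIR_bb κ δ w x a b * y b := by
  rw [PAIR_sum]
  have h1 : Bm κ δ w x y a = (‖x‖ ^ 2 + κ)⁻¹ * (‖x‖ ^ 2 * skw δ w y a -
      ⟪x, skw δ w y⟫ * x a - ⟪x, y⟫ * skw δ w x a) := by
    simp [Bm]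
  rw [h1, PAIR_skw_inner, PAIR_skw_apply δ w y]
  ring

lemma PAIR_rg_apply {n : ℕ} (a b c : Fin n) (y : V n) :
    rg a b y c = (if c = a then y b else 0) - (if c = b then y a else 0) := by
  simp only [rg, PiLp.sub_apply, PiLp.smul_apply, PiLp.single_apply, smul_eq_mul,
    mul_ite, mul_one, mul_zero]

lemma PAIR_Bm_rg {n : ℕ} (κ : ℝ) (δ w x y : V n) :
    (2 : ℝ) • Bm κ δ w x y = ∑ p : Fin n × Fin n, PAIR_bb κ δ w x p.1 p.2 • rg p.1 p.2 y := by
  ext c
  rw [PiLp.smul_apply, smul_eq_mul, PAIR_Bm_apply]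
  have h0 : (∑ p : Fin n × Fin n, PAIR_bb κ δ w x p.1 p.2 • rg p.1 p.2 y) c =
      ∑ p : Fin n × Fin n, PAIR_bb κ δ w x p.1 p.2 * rg p.1 p.2 y c := by
    simp
  rw [h0, Fintype.sum_prod_type]
  have h1 : ∀ a b, PAIR_bb κ δ w x a b * rg a b y c =
      (if c = a then PAIR_bb κ δ w x a b * y b else 0) -
        (if c = b then PAIR_bb κ δ w x a b * y a else 0) := by
    intro a b
    rw [PAIR_rg_apply]
    split_ifs <;> ring
  simp_rw [h1, Finset.sum_sub_distrib]
  have h2 : ∑ a, ∑ b, (if c = a then PAIR_bb κ δ w x a b * y b else 0) =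
      ∑ b, PAIR_bb κ δ w x c b * y b := by
    rw [Finset.sum_comm]
    refine Finset.sum_congr rfl fun b _ => ?_
    rw [Finset.sum_ite_eq]
    simp
  have h3 : ∑ a, ∑ b, (if c = b then PAIR_bb κ δ w x a b * y a else 0) =
      -∑ b, PAIR_bb κ δ w x c b * y b := by
    rw [← Finset.sum_neg_distrib]
    refine Finset.sum_congr rfl fun a _ => ?_
    rw [Finset.sum_ite_eq]
    simp only [Finset.mem_univ, if_true]
    rw [PAIR_bb_skew]
    ring
  rw [h2, h3]
  ring

lemma PAIR_rg_add {n : ℕ} (a b : Fin n) (x y : V n) : rg a b (x + y) = rg a b x + rg a b y := by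
  ext c
  simp only [PiLp.add_apply, PAIR_rg_apply]
  split_ifs <;> ring

/-- The elementary rotation generator as a continuous linear map. -/
def PAIR_rgL {n : ℕ} (a b : Fin n) : V n →L[ℝ] V n :=
  LinearMap.toContinuousLinearMap
    { toFun := rg a b
      map_add' := PAIR_rg_add a b
      map_smul' := by
        intro r x
        ext c
        simp only [PiLp.smul_apply, PAIR_rg_apply, smul_eq_mul, RingHom.id_apply]
        split_ifs <;> ring }

lemma PAIR_rgL_apply {n : ℕ} (a b : Fin n) (x : V n) : PAIR_rgL a b x = rg a b x := rfl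

lemma PAIR_rg_inner {n : ℕ} (a b : Fin n) (x : V n) : ⟪rg a b x, x⟫ = 0 := by
  unfold rg
  rw [inner_sub_left, real_inner_smul_left, real_inner_smul_left]
  simp only [EuclideanSpace.inner_single_left]
  simp
  ring

/-! ### The divergence vanishes -/

lemma PAIR_div {n : ℕ} (β : Fin n → Fin n → V n → ℝ) (x : V n)
    (hd : ∀ a b, DifferentiableAt ℝ (β a b) x)
    (hs : ∀ a b y, β b a y = -β a b y) (hk : ∀ a y, ∑ b, β a b y * y b = 0) :
    ∑ p : Fin n × Fin n, fderiv ℝ (β p.1 p.2) x (rg p.1 p.2 x) = 0 := by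
  have hr : ∀ a b : Fin n, fderiv ℝ (β a b) x (rg a b x) =
      x b * fderiv ℝ (β a b) x (EuclideanSpace.single a 1) -
        x a * fderiv ℝ (β a b) x (EuclideanSpace.single b 1) := by
    intro a b
    unfold rg
    rw [map_sub, map_smul, map_smul, smul_eq_mul, smul_eq_mul]
  have hsk : ∀ a b : Fin n, fderiv ℝ (β b a) x = -fderiv ℝ (β a b) x := by
    intro a b
    have : β b a = -β a b := by
      funext y
      exact hs a b y
    rw [this, fderiv_neg]
  rw [Fintype.sum_prod_type]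
  simp_rw [hr, Finset.sum_sub_distrib]
  have h1 : ∑ a, ∑ b, x a * fderiv ℝ (β a b) x (EuclideanSpace.single b 1) =
      -∑ a, ∑ b, x b * fderiv ℝ (β a b) x (EuclideanSpace.single a 1) := by
    rw [Finset.sum_comm, ← Finset.sum_neg_distrib]
    refine Finset.sum_congr rfl fun a _ => ?_
    rw [← Finset.sum_neg_distrib]
    refine Finset.sum_congr rfl fun b _ => ?_
    rw [hsk a b, neg_apply]
    ring
  have h2 : ∀ a, ∑ b, x b * fderiv ℝ (β a b) x (EuclideanSpace.single a 1) = 0 := by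
    intro a
    have hc : ∀ b : Fin n, HasFDerivAt (fun y : V n => y b) (EuclideanSpace.proj b : V n →L[ℝ] ℝ) x :=
      fun b => (EuclideanSpace.proj b : V n →L[ℝ] ℝ).hasFDerivAt
    have hF : HasFDerivAt (fun y : V n => ∑ b, β a b y * y b)
        (∑ b, (β a b x • (EuclideanSpace.proj b : V n →L[ℝ] ℝ) + x b • fderiv ℝ (β a b) x)) x := by
      have := HasFDerivAt.fun_sum (u := Finset.univ) (fun b _ => ((hd a b).hasFDerivAt.mul (hc b)))
      exact this
    have hz : (fun y : V n => ∑ b, β a b y * y b) = fun _ => 0 := by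
      funext y
      exact hk a y
    rw [hz] at hF
    have hu := hF.unique (hasFDerivAt_const (0 : ℝ) x)
    have hv := congrArg (fun L : V n →L[ℝ] ℝ => L (EuclideanSpace.single a 1)) hu
    simp only [sum_apply, add_apply, smul_apply, smul_eq_mul, zero_apply,
      Finset.sum_add_distrib] at hv
    have h3 : ∑ b, β a b x * (EuclideanSpace.proj b : V n →L[ℝ] ℝ) (EuclideanSpace.single a 1) =
        0 := by
      have h4 : ∀ b, β a b x * (EuclideanSpace.proj b : V n →L[ℝ] ℝ)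
          (EuclideanSpace.single a 1) = if b = a then β a b x else 0 := by
        intro b
        have h5 : (EuclideanSpace.proj b : V n →L[ℝ] ℝ) (EuclideanSpace.single a 1) =
            if b = a then 1 else 0 := by
          simp [PiLp.single_apply]
        rw [h5]
        split_ifs <;> simp
      rw [Finset.sum_congr rfl fun b _ => h4 b, Finset.sum_ite_eq']
      simp only [Finset.mem_univ, if_true]
      have := hs a a x
      linarith
    rw [h3, zero_add] at hv
    exact hv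
  rw [h1]
  simp only [h2, Finset.sum_const_zero]
  ring

/-! ### Smoothness -/

lemma PAIR_smooth {n : ℕ} {E : Type} [NormedAddCommGroup E] [NormedSpace ℝ E] {s : Set E}
    {κ : ℝ} (hκ : 0 < κ) {f1 f2 f3 : E → V n} {N : ℕ} (h1 : ContDiffOn ℝ N f1 s)
    (h2 : ContDiffOn ℝ N f2 s) (h3 : ContDiffOn ℝ N f3 s) (a b : Fin n) :
    ContDiffOn ℝ N (fun z => PAIR_bb κ (f1 z) (f2 z) (f3 z) a b) s := by
  have hc : ∀ (f : E → V n), ContDiffOn ℝ N f s → ∀ c, ContDiffOn ℝ N (fun z => f z c) s := by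
    intro f hf c
    exact (contDiffOn_euclidean.mp hf) c
  have hn : ContDiffOn ℝ N (fun z => ‖f3 z‖ ^ 2) s := h3.norm_sq ℝ
  have hi1 : ContDiffOn ℝ N (fun z => ⟪f2 z, f3 z⟫) s := h2.inner ℝ h3
  have hi2 : ContDiffOn ℝ N (fun z => ⟪f1 z, f3 z⟫) s := h1.inner ℝ h3
  have hsk : ∀ c, ContDiffOn ℝ N (fun z => skw (f1 z) (f2 z) (f3 z) c) s := by
    intro c
    simp_rw [PAIR_skw_apply]
    exact (hi1.mul (hc f1 h1 c)).sub (hi2.mul (hc f2 h2 c))
  have hinv : ContDiffOn ℝ N (fun z => (‖f3 z‖ ^ 2 + κ)⁻¹) s := by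
    refine (hn.add contDiffOn_const).inv fun z _ => ?_
    positivity
  unfold PAIR_bb
  refine hinv.mul (ContDiffOn.sub (ContDiffOn.add (hn.mul ?_) ?_) ?_)
  · exact ((hc f1 h1 a).mul (hc f2 h2 b)).sub ((hc f2 h2 a).mul (hc f1 h1 b))
  · exact (hsk b).mul (hc f3 h3 a)
  · exact (hc f3 h3 b).mul (hsk a)

/-! ### The product function -/

/-- The coefficient as a function on the product. -/
def PAIR_g {n m : ℕ} (κ : ℝ) (i j k : Fin m) (a : V n → V n) (p q : Fin n)
    (ω : Fin m → V n) : ℝ :=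
  PAIR_bb κ (a (ω i)) (ω i) (ω j + ω k) p q

lemma PAIR_g_smooth {n m : ℕ} {κ : ℝ} (hκ : 0 < κ) (i j k : Fin m) {a : V n → V n}
    {U : Set (V n)} (ha : ContDiffOn ℝ 1 a U) (p q : Fin n) :
    ContDiffOn ℝ 1 (PAIR_g κ i j k a p q) {ω : Fin m → V n | ω i ∈ U} := by
  have hpr : ∀ l : Fin m, ContDiff ℝ 1 (fun ω : Fin m → V n => ω l) := fun l =>
    contDiff_apply ℝ (V n) l
  have h1 : ContDiffOn ℝ 1 (fun ω : Fin m → V n => a (ω i)) {ω : Fin m → V n | ω i ∈ U} :=
    ha.comp (hpr i).contDiffOn (fun ω hω => hω)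
  have := PAIR_smooth (N := 1) hκ (f1 := fun ω : Fin m → V n => a (ω i))
    (f2 := fun ω => ω i) (f3 := fun ω => ω j + ω k) (s := {ω : Fin m → V n | ω i ∈ U})
    (by exact_mod_cast h1) (by exact_mod_cast (hpr i).contDiffOn)
    (by exact_mod_cast ((hpr j).add (hpr k)).contDiffOn) p q
  exact_mod_cast this

/-- The rotation field of the pair. -/
def PAIR_xi {n m : ℕ} (j k : Fin m) (p q : Fin n) (ω : Fin m → V n) : Fin m → V n :=
  fun l => if l = j ∨ l = k then rg p q (ω l) else 0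

lemma PAIR_g_deriv {n m : ℕ} {κ : ℝ} (hκ : 0 < κ) {i j k : Fin m} (hij : i ≠ j) (hik : i ≠ k)
    {a : V n → V n} {U : Set (V n)} (hU : IsOpen U) (ha : ContDiffOn ℝ 1 a U) (p q : Fin n)
    (ω : Fin m → V n) (hω : ω i ∈ U) :
    fderiv ℝ (PAIR_g κ i j k a p q) ω (PAIR_xi j k p q ω) =
      fderiv ℝ (fun x => PAIR_bb κ (a (ω i)) (ω i) x p q) (ω j + ω k)
        (rg p q (ω j + ω k)) := by
  have hopen : IsOpen {ω : Fin m → V n | ω i ∈ U} := hU.preimage (continuous_apply i)
  have hd1 : DifferentiableAt ℝ (PAIR_g κ i j k a p q) ω :=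
    ((PAIR_g_smooth hκ i j k ha p q).contDiffAt (hopen.mem_nhds hω)).differentiableAt
      (by norm_num)
  have hd2 : DifferentiableAt ℝ (fun x => PAIR_bb κ (a (ω i)) (ω i) x p q) (ω j + ω k) := by
    have := PAIR_smooth (N := 1) hκ (f1 := fun _ : V n => a (ω i)) (f2 := fun _ => ω i)
      (f3 := fun x => x) (s := univ) contDiffOn_const contDiffOn_const contDiffOn_id p q
    exact (this.contDiffAt Filter.univ_mem).differentiableAt (by norm_num)
  have h1 := hd1.hasFDerivAt.hasLineDerivAt (PAIR_xi j k p q ω)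
  have h2 := hd2.hasFDerivAt.hasLineDerivAt (rg p q (ω j + ω k))
  unfold HasLineDerivAt at h1 h2
  have h3 : (fun t : ℝ => PAIR_g κ i j k a p q (ω + t • PAIR_xi j k p q ω)) =
      fun t : ℝ => PAIR_bb κ (a (ω i)) (ω i) (ω j + ω k + t • rg p q (ω j + ω k)) p q := by
    funext t
    unfold PAIR_g
    have e1 : (ω + t • PAIR_xi j k p q ω) i = ω i := by
      simp only [Pi.add_apply, Pi.smul_apply, PAIR_xi]
      rw [if_neg (by tauto)]
      simp
    have e2 : (ω + t • PAIR_xi j k p q ω) j = ω j + t • rg p q (ω j) := by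
      simp only [Pi.add_apply, Pi.smul_apply, PAIR_xi]
      rw [if_pos (Or.inl trivial)]
    have e3 : (ω + t • PAIR_xi j k p q ω) k = ω k + t • rg p q (ω k) := by
      simp only [Pi.add_apply, Pi.smul_apply, PAIR_xi]
      rw [if_pos (Or.inr trivial)]
    rw [e1, e2, e3, PAIR_rg_add]
    congr 1
    rw [smul_add]
    abel
  rw [h3] at h1
  exact h1.unique h2

lemma PAIR_vec_continuous {n m : ℕ} : Continuous (vec : (Fin m → Sp n) → Fin m → V n) := by
  unfold vec
  exact continuous_pi fun l => continuous_subtype_val.comp (continuous_apply l)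

lemma PAIR_point {n m : ℕ} {κ : ℝ} (hκ : 0 < κ) {i j k : Fin m} (hij : i ≠ j) (hik : i ≠ k)
    {a : V n → V n} {U : Set (V n)} (hU : IsOpen U) (ha : ContDiffOn ℝ 1 a U)
    (h : (Fin m → V n) → ℝ) (ω : Fin m → V n) (hω : ω i ∈ U) (hh : DifferentiableAt ℝ h ω) :
    ∑ p : Fin n × Fin n,
      fderiv ℝ (fun ω => PAIR_g κ i j k a p.1 p.2 ω * h ω) ω (PAIR_xi j k p.1 p.2 ω) =
    2 * fderiv ℝ h ω (fun l => if l = j ∨ l = k then
      Bm κ (a (ω i)) (ω i) (ω j + ω k) (ω l) else 0) := by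
  have hopen : IsOpen {ω : Fin m → V n | ω i ∈ U} := hU.preimage (continuous_apply i)
  have hd1 : ∀ p q, DifferentiableAt ℝ (PAIR_g κ i j k a p q) ω := fun p q =>
    ((PAIR_g_smooth hκ i j k ha p q).contDiffAt (hopen.mem_nhds hω)).differentiableAt
      (by norm_num)
  have h1 : ∀ p : Fin n × Fin n,
      fderiv ℝ (fun ω => PAIR_g κ i j k a p.1 p.2 ω * h ω) ω (PAIR_xi j k p.1 p.2 ω) =
      PAIR_g κ i j k a p.1 p.2 ω * fderiv ℝ h ω (PAIR_xi j k p.1 p.2 ω) +
      h ω * fderiv ℝ (fun x => PAIR_bb κ (a (ω i)) (ω i) x p.1 p.2) (ω j + ω k)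
        (rg p.1 p.2 (ω j + ω k)) := by
    intro p
    rw [fderiv_fun_mul (hd1 p.1 p.2) hh, ← PAIR_g_deriv hκ hij hik hU ha p.1 p.2 ω hω]
    simp only [add_apply, smul_apply, smul_eq_mul]
  rw [Finset.sum_congr rfl fun p _ => h1 p, Finset.sum_add_distrib, ← Finset.mul_sum,
    PAIR_div (fun p q x => PAIR_bb κ (a (ω i)) (ω i) x p q) (ω j + ω k) ?_
      (fun p q y => PAIR_bb_skew _ _ _ _ _ _) (fun p y => PAIR_kill _ _ _ _ _), mul_zero,
    add_zero]
  · have h2 : ∑ p : Fin n × Fin n,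
        PAIR_g κ i j k a p.1 p.2 ω * fderiv ℝ h ω (PAIR_xi j k p.1 p.2 ω) =
        fderiv ℝ h ω (∑ p : Fin n × Fin n,
          PAIR_g κ i j k a p.1 p.2 ω • PAIR_xi j k p.1 p.2 ω) := by
      rw [map_sum]
      refine Finset.sum_congr rfl fun p _ => ?_
      rw [map_smul, smul_eq_mul]
    rw [h2, ← smul_eq_mul, ← map_smul]
    congr 1
    funext l
    rw [Finset.sum_apply]
    simp only [Pi.smul_apply, PAIR_xi]
    by_cases hl : l = j ∨ l = k
    · simp only [if_pos hl]
      rw [PAIR_Bm_rg]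
      rfl
    · simp only [if_neg hl, smul_zero, Finset.sum_const_zero]
  · intro p q
    have := PAIR_smooth (N := 1) hκ (f1 := fun _ : V n => a (ω i)) (f2 := fun _ => ω i)
      (f3 := fun x => x) (s := univ) contDiffOn_const contDiffOn_const contDiffOn_id p q
    exact (this.contDiffAt Filter.univ_mem).differentiableAt (by norm_num)

/-- PAIR -/
theorem p_PAIR (hROT : T_ROT) : T_PAIR := by
  intro n m hn κ hκ i j k hij hik hjk a ha h hh
  obtain ⟨U, hU, hUs, hUa⟩ := ha
  obtain ⟨W, hW, hWs, hWh⟩ := hh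
  have hprob : IsProbabilityMeasure (prb (V n)) :=
    (tINV (V n) (by rw [finrank_euclideanSpace_fin]; exact hn)).1
  have hfin : IsFiniteMeasure (pm n m) := by
    unfold pm
    infer_instance
  set W' : Set (Fin m → V n) := {ω | ω i ∈ U} ∩ W with hW'
  have hopen : IsOpen W' := (hU.preimage (continuous_apply i)).inter hW
  have hmem : ∀ ω : Fin m → Sp n, vec ω ∈ W' := fun ω =>
    ⟨hUs (ω i).2, hWs ω⟩
  have hsm : ∀ p : Fin n × Fin n,
      ContDiffOn ℝ 1 (fun ω => PAIR_g κ i j k a p.1 p.2 ω * h ω) W' := fun p =>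
    ((PAIR_g_smooth hκ i j k (by exact_mod_cast hUa) p.1 p.2).mono inter_subset_left).mul
      ((by exact_mod_cast hWh : ContDiffOn ℝ 1 h W).mono inter_subset_right)
  have hzero : ∀ p : Fin n × Fin n,
      ∫ ω : Fin m → Sp n, fderiv ℝ (fun ω => PAIR_g κ i j k a p.1 p.2 ω * h ω) (vec ω)
        (PAIR_xi j k p.1 p.2 (vec ω)) ∂(pm n m) = 0 := by
    intro p
    have h1 := hROT n m hn (PAIR_rgL p.1 p.2) (fun x => by
      rw [PAIR_rgL_apply]; exact PAIR_rg_inner _ _ _) ({j, k} : Finset (Fin m))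
      (fun ω => PAIR_g κ i j k a p.1 p.2 ω * h ω) ⟨W', hopen, hmem, by exact_mod_cast hsm p⟩
    rw [← h1]
    refine integral_congr_ae (Filter.Eventually.of_forall fun ω => ?_)
    simp only
    congr 1
    funext l
    simp only [PAIR_xi, Finset.mem_insert, Finset.mem_singleton, PAIR_rgL_apply]
    rfl
  have hint : ∀ p : Fin n × Fin n, Integrable (fun ω : Fin m → Sp n =>
      fderiv ℝ (fun ω => PAIR_g κ i j k a p.1 p.2 ω * h ω) (vec ω)
        (PAIR_xi j k p.1 p.2 (vec ω))) (pm n m) := by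
    intro p
    have hc1 : Continuous (fun ω : Fin m → Sp n =>
        fderiv ℝ (fun ω => PAIR_g κ i j k a p.1 p.2 ω * h ω) (vec ω)) := by
      have := (hsm p).continuousOn_fderiv_of_isOpen hopen (by norm_num)
      exact this.comp_continuous PAIR_vec_continuous hmem
    have hc2 : Continuous (fun ω : Fin m → Sp n => PAIR_xi j k p.1 p.2 (vec ω)) := by
      unfold PAIR_xi
      refine continuous_pi fun l => ?_
      by_cases hl : l = j ∨ l = k
      · simp only [if_pos hl]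
        exact (PAIR_rgL p.1 p.2).continuous.comp
          ((continuous_apply l).comp PAIR_vec_continuous)
      · simp only [if_neg hl]
        exact continuous_const
    exact (hc1.clm_apply hc2).integrable_of_hasCompactSupport
      (HasCompactSupport.of_compactSpace _)
  have hsum := integral_finsetSum (μ := pm n m) (Finset.univ : Finset (Fin n × Fin n))
    (fun p _ => hint p)
  simp only [hzero, Finset.sum_const_zero] at hsum
  have hpt : ∀ ω : Fin m → Sp n, ∑ p : Fin n × Fin n,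
      fderiv ℝ (fun ω => PAIR_g κ i j k a p.1 p.2 ω * h ω) (vec ω)
        (PAIR_xi j k p.1 p.2 (vec ω)) =
      2 * fderiv ℝ h (vec ω) (fun l => if l = j ∨ l = k then
        Bm κ (a (ω i)) (ω i) ((ω j : V n) + ω k) (ω l) else 0) := by
    intro ω
    exact PAIR_point hκ hij hik hU (by exact_mod_cast hUa) h (vec ω) (hUs (ω i).2)
      ((hWh.contDiffAt (hW.mem_nhds (hWs ω))).differentiableAt (by norm_num))
  simp only [hpt] at hsum
  rw [integral_const_mul] at hsum
  linarith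

end Pool.Agent.SPH4
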