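import Pool.Agent.SPH4.Targets

set_option autoImplicit false

/-!
# The quadratic form with cutoff
-/

noncomputable section

open MeasureTheory Set Filter
open scoped ENNReal RealInnerProductSpace Topology

namespace Pool.Agent.SPH4

theorem QUAD_skw {n : ℕ} (δ w y : V n) (hw : ‖w‖ = 1) (hd : ⟪w, δ⟫ = 0) :
    ‖skw δ w y‖ ≤ ‖δ‖ * ‖y‖ := by
  have hd' : ⟪δ, w⟫ = 0 := by rw [real_inner_comm]; exact hd
  have h1 : ‖skw δ w y‖ ^ 2 = ⟪w, y⟫ ^ 2 * ‖δ‖ ^ 2 + ⟪δ, y⟫ ^ 2 := by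
    unfold skw
    rw [norm_sub_sq_real, norm_smul, norm_smul, inner_smul_left, inner_smul_right, hd', hw]
    simp only [mul_pow, Real.norm_eq_abs, sq_abs]
    simp
  have h2 : ⟪δ, y⟫ ^ 2 ≤ ‖δ‖ ^ 2 * (‖y‖ ^ 2 - ⟪w, y⟫ ^ 2) := by
    have h3 : ⟪δ, y⟫ = ⟪δ, y - ⟪w, y⟫ • w⟫ := by
      rw [inner_sub_right, inner_smul_right, hd', mul_zero, sub_zero]
    have h4 : ‖y - ⟪w, y⟫ • w‖ ^ 2 = ‖y‖ ^ 2 - ⟪w, y⟫ ^ 2 := by
      rw [norm_sub_sq_real, norm_smul, inner_smul_right, real_inner_comm y w, hw]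
      simp only [mul_pow, Real.norm_eq_abs, sq_abs]
      ring
    rw [← h4, h3, ← mul_pow]
    apply sq_le_sq'
    · have := abs_real_inner_le_norm δ (y - ⟪w, y⟫ • w)
      exact neg_le_of_abs_le this
    · exact real_inner_le_norm _ _
  apply le_of_sq_le_sq _ (by positivity)
  rw [h1, mul_pow]
  nlinarith

theorem QUAD_inner_skw {n : ℕ} (δ w x : V n) : ⟪x, skw δ w x⟫ = 0 := by
  unfold skw
  rw [inner_sub_right, inner_smul_right, inner_smul_right, real_inner_comm x w,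
    real_inner_comm x δ]
  ring

theorem QUAD_skw_sub {n : ℕ} (δ w y z : V n) (c : ℝ) :
    skw δ w (y - c • z) = skw δ w y - c • skw δ w z := by
  unfold skw
  rw [inner_sub_right, inner_sub_right, inner_smul_right, inner_smul_right]
  module

theorem QUAD_Bm {n : ℕ} (κ : ℝ) (hκ : 0 ≤ κ) (δ w x y : V n) (hw : ‖w‖ = 1) (hd : ⟪w, δ⟫ = 0) :
    ‖Bm κ δ w x y‖ ≤ ‖δ‖ * ‖y‖ := by
  by_cases hx : x = 0
  · subst hx
    have : Bm κ δ w 0 y = 0 := by
      unfold Bm
      simp [skw]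
    rw [this, norm_zero]
    positivity
  · have hx0 : 0 < ‖x‖ ^ 2 := by positivity
    set y' : V n := y - (⟪x, y⟫ / ‖x‖ ^ 2) • x with hy'
    have h1 : ‖x‖ ^ 2 • skw δ w y - ⟪x, skw δ w y⟫ • x - ⟪x, y⟫ • skw δ w x =
        ‖x‖ ^ 2 • (skw δ w y' - (⟪x, skw δ w y'⟫ / ‖x‖ ^ 2) • x) := by
      rw [hy', QUAD_skw_sub, inner_sub_right, inner_smul_right, QUAD_inner_skw, mul_zero, sub_zero,
        smul_sub, smul_sub, smul_smul, smul_smul, mul_div_cancel₀ _ hx0.ne',
        mul_div_cancel₀ _ hx0.ne']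
      abel
    have h2 : ‖skw δ w y' - (⟪x, skw δ w y'⟫ / ‖x‖ ^ 2) • x‖ ≤ ‖skw δ w y'‖ := by
      apply le_of_sq_le_sq _ (norm_nonneg _)
      rw [norm_sub_sq_real, norm_smul, inner_smul_right, real_inner_comm x (skw δ w y')]
      simp only [mul_pow, Real.norm_eq_abs, sq_abs]
      have : (⟪x, skw δ w y'⟫ / ‖x‖ ^ 2) ^ 2 * ‖x‖ ^ 2 = ⟪x, skw δ w y'⟫ ^ 2 / ‖x‖ ^ 2 := by
        field_simp
      rw [this]
      have h3 : 0 ≤ ⟪x, skw δ w y'⟫ ^ 2 / ‖x‖ ^ 2 := by positivity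
      have h4 : ⟪x, skw δ w y'⟫ / ‖x‖ ^ 2 * ⟪x, skw δ w y'⟫ = ⟪x, skw δ w y'⟫ ^ 2 / ‖x‖ ^ 2 := by
        ring
      rw [h4]
      linarith
    have h5 : ‖y'‖ ≤ ‖y‖ := by
      apply le_of_sq_le_sq _ (norm_nonneg _)
      rw [hy', norm_sub_sq_real, norm_smul, inner_smul_right, real_inner_comm x y]
      simp only [mul_pow, Real.norm_eq_abs, sq_abs]
      have : (⟪x, y⟫ / ‖x‖ ^ 2) ^ 2 * ‖x‖ ^ 2 = ⟪x, y⟫ ^ 2 / ‖x‖ ^ 2 := by
        field_simp
      rw [this]
      have h3 : 0 ≤ ⟪x, y⟫ ^ 2 / ‖x‖ ^ 2 := by positivity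
      have h4 : ⟪x, y⟫ / ‖x‖ ^ 2 * ⟪x, y⟫ = ⟪x, y⟫ ^ 2 / ‖x‖ ^ 2 := by ring
      rw [h4]
      linarith
    have h6 := QUAD_skw δ w y' hw hd
    unfold Bm
    rw [h1, norm_smul, norm_smul, norm_inv, norm_pow, norm_norm, Real.norm_of_nonneg (by positivity),
      ← mul_assoc]
    have h7 : (‖x‖ ^ 2 + κ)⁻¹ * ‖x‖ ^ 2 ≤ 1 := by
      rw [inv_mul_le_iff₀ (by positivity)]
      linarith
    calc (‖x‖ ^ 2 + κ)⁻¹ * ‖x‖ ^ 2 * ‖skw δ w y' - (⟪x, skw δ w y'⟫ / ‖x‖ ^ 2) • x‖
        ≤ 1 * ‖skw δ w y' - (⟪x, skw δ w y'⟫ / ‖x‖ ^ 2) • x‖ := by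
          apply mul_le_mul_of_nonneg_right h7 (norm_nonneg _)
      _ ≤ ‖δ‖ * ‖y'‖ := by rw [one_mul]; exact h2.trans h6
      _ ≤ ‖δ‖ * ‖y‖ := by gcongr

theorem QUAD_Bm_sub {n : ℕ} (κ : ℝ) (hκ : 0 < κ) (δ w x y : V n) (hx : x ≠ 0) :
    Bm κ δ w x y - Bm 0 δ w x y = -(κ / (‖x‖ ^ 2 + κ)) • Bm 0 δ w x y := by
  have hx0 : 0 < ‖x‖ ^ 2 := by positivity
  unfold Bm
  rw [← sub_smul, smul_smul]
  congr 1
  field_simp
  ring

/-- QUAD. -/
theorem p_QUAD (hALG : T_ALG) : T_QUAD := by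
  intro n κ hκ ω x hω hs hx
  set S := ∑ i, ‖x i‖ ^ 2 with hS
  set q : Fin 4 → Fin 4 → ℝ := fun j k => κ / (‖ω j + ω k‖ ^ 2 + κ) with hq
  have hS0 : 0 ≤ S := Finset.sum_nonneg fun i _ => by positivity
  have hq0 : ∀ j k, 0 ≤ q j k := fun j k => by positivity
  have hxx : ∀ i j, ‖x i‖ * ‖x j‖ ≤ S := by
    intro i j
    have h1 : ‖x i‖ ^ 2 ≤ S :=
      Finset.single_le_sum (f := fun i => ‖x i‖ ^ 2) (fun i _ => by positivity) (Finset.mem_univ i)
    have h2 : ‖x j‖ ^ 2 ≤ S :=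
      Finset.single_le_sum (f := fun i => ‖x i‖ ^ 2) (fun i _ => by positivity) (Finset.mem_univ j)
    nlinarith [sq_nonneg (‖x i‖ - ‖x j‖)]
  have hQ0 : 0 ≤ ∑ j, ∑ k ∈ Finset.univ.erase j, q j k :=
    Finset.sum_nonneg fun j _ => Finset.sum_nonneg fun k _ => hq0 j k
  change -(5 * (∑ j, ∑ k ∈ Finset.univ.erase j, q j k) * S) ≤ _
  by_cases hanti : ∀ i j, i ≠ j → ω i + ω j ≠ 0
  · have h0 := hALG n ω x hω hs hanti hx
    have hdiff : Qf 1 κ ω x - Qf 1 0 ω x = ∑ i, ∑ j ∈ Finset.univ.erase i,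
        ∑ k ∈ Finset.univ.filter (fun k => k ≠ i ∧ k ≠ j),
          ⟪x j, Bm κ (x i) (ω i) (ω j + ω k) (ω j) - Bm 0 (x i) (ω i) (ω j + ω k) (ω j)⟫ := by
      unfold Qf Cm
      rw [sub_sub_sub_cancel_left, ← Finset.sum_sub_distrib]
      apply Finset.sum_congr rfl
      intro i _
      rw [← Finset.sum_sub_distrib]
      apply Finset.sum_congr rfl
      intro j _
      rw [← inner_sub_right, one_smul, one_smul, sub_sub_sub_cancel_left,
        ← Finset.sum_sub_distrib, inner_sum]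
    have hterm : ∀ i, ∀ j ∈ Finset.univ.erase i,
        ∀ k ∈ Finset.univ.filter (fun k => k ≠ i ∧ k ≠ j), -(q j k * S) ≤
          ⟪x j, Bm κ (x i) (ω i) (ω j + ω k) (ω j) - Bm 0 (x i) (ω i) (ω j + ω k) (ω j)⟫ := by
      intro i j hj k hk
      have hkj : j ≠ k := by
        rw [Finset.mem_filter] at hk
        exact (hk.2.2).symm
      rw [QUAD_Bm_sub κ hκ _ _ _ _ (hanti j k hkj), inner_smul_right, neg_mul, neg_le_neg_iff]
      apply mul_le_mul_of_nonneg_left _ (hq0 j k)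
      refine (real_inner_le_norm _ _).trans ?_
      have h1 := QUAD_Bm 0 le_rfl (x i) (ω i) (ω j + ω k) (ω j) (hω i) (hx i)
      rw [hω j, mul_one] at h1
      calc ‖x j‖ * ‖Bm 0 (x i) (ω i) (ω j + ω k) (ω j)‖ ≤ ‖x j‖ * ‖x i‖ := by gcongr
        _ ≤ S := hxx j i
    have hsum : -(4 * (∑ j, ∑ k ∈ Finset.univ.erase j, q j k) * S) ≤
        Qf 1 κ ω x - Qf 1 0 ω x := by
      rw [hdiff]
      have h1 : ∀ i : Fin 4, -((∑ j, ∑ k ∈ Finset.univ.erase j, q j k) * S) ≤
          ∑ j ∈ Finset.univ.erase i, ∑ k ∈ Finset.univ.filter (fun k => k ≠ i ∧ k ≠ j),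
          ⟪x j, Bm κ (x i) (ω i) (ω j + ω k) (ω j) - Bm 0 (x i) (ω i) (ω j + ω k) (ω j)⟫ := by
        intro i
        calc -((∑ j, ∑ k ∈ Finset.univ.erase j, q j k) * S)
            ≤ -((∑ j ∈ Finset.univ.erase i,
                ∑ k ∈ Finset.univ.filter (fun k => k ≠ i ∧ k ≠ j), q j k) * S) := by
              rw [neg_le_neg_iff]
              apply mul_le_mul_of_nonneg_right _ hS0
              calc ∑ j ∈ Finset.univ.erase i,
                    ∑ k ∈ Finset.univ.filter (fun k => k ≠ i ∧ k ≠ j), q j k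
                  ≤ ∑ j ∈ Finset.univ.erase i, ∑ k ∈ Finset.univ.erase j, q j k := by
                    apply Finset.sum_le_sum
                    intro j _
                    apply Finset.sum_le_sum_of_subset_of_nonneg
                    · intro k hk
                      rw [Finset.mem_filter] at hk
                      exact Finset.mem_erase.2 ⟨hk.2.2, Finset.mem_univ k⟩
                    · intro k _ _
                      exact hq0 j k
                _ ≤ ∑ j, ∑ k ∈ Finset.univ.erase j, q j k := by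
                    apply Finset.sum_le_sum_of_subset_of_nonneg (Finset.erase_subset _ _)
                    intro j _ _
                    exact Finset.sum_nonneg fun k _ => hq0 j k
          _ = ∑ j ∈ Finset.univ.erase i,
                ∑ k ∈ Finset.univ.filter (fun k => k ≠ i ∧ k ≠ j), -(q j k * S) := by
              rw [Finset.sum_mul, ← Finset.sum_neg_distrib]
              apply Finset.sum_congr rfl
              intro j _
              rw [Finset.sum_mul, ← Finset.sum_neg_distrib]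
          _ ≤ _ := by
              apply Finset.sum_le_sum
              intro j hj
              apply Finset.sum_le_sum
              intro k hk
              exact hterm i j hj k hk
      calc -(4 * (∑ j, ∑ k ∈ Finset.univ.erase j, q j k) * S)
          = ∑ i : Fin 4, -((∑ j, ∑ k ∈ Finset.univ.erase j, q j k) * S) := by
            rw [Finset.sum_const, Finset.card_univ, Fintype.card_fin]
            simp
            ring
        _ ≤ _ := Finset.sum_le_sum fun i _ => h1 i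
    have hQS : 0 ≤ (∑ j, ∑ k ∈ Finset.univ.erase j, q j k) * S := mul_nonneg hQ0 hS0
    nlinarith
  · push Not at hanti
    obtain ⟨a, b, hab, h0⟩ := hanti
    have hcard : ∀ i j : Fin 4, i ≠ j →
        (Finset.univ.filter (fun k => k ≠ i ∧ k ≠ j)).card = 2 := by decide
    have hCm : ∀ i j, i ≠ j → ‖Cm 1 κ i j ω (x i)‖ ≤ 3 * ‖x i‖ := by
      intro i j hij
      unfold Cm
      rw [one_smul]
      have h1 := QUAD_skw (x i) (ω i) (ω j) (hω i) (hx i)
      rw [hω j, mul_one] at h1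
      have h2 : ‖∑ k ∈ Finset.univ.filter (fun k => k ≠ i ∧ k ≠ j),
          Bm κ (x i) (ω i) (ω j + ω k) (ω j)‖ ≤ 2 * ‖x i‖ := by
        refine (norm_sum_le _ _).trans ?_
        calc ∑ k ∈ Finset.univ.filter (fun k => k ≠ i ∧ k ≠ j),
              ‖Bm κ (x i) (ω i) (ω j + ω k) (ω j)‖
            ≤ ∑ k ∈ Finset.univ.filter (fun k => k ≠ i ∧ k ≠ j), ‖x i‖ := by
              apply Finset.sum_le_sum
              intro k _
              have h3 := QUAD_Bm κ hκ.le (x i) (ω i) (ω j + ω k) (ω j) (hω i) (hx i)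
              rwa [hω j, mul_one] at h3
          _ = 2 * ‖x i‖ := by
              rw [Finset.sum_const, hcard i j hij]
              simp
      refine (norm_sub_le _ _).trans ?_
      linarith
    have hQf : -(8 * S) ≤ Qf 1 κ ω x := by
      unfold Qf
      have h1 : ∑ i, ∑ j ∈ Finset.univ.erase i, ⟪x j, Cm 1 κ i j ω (x i)⟫ ≤
          ∑ i, ∑ j ∈ Finset.univ.erase i, 3 * (‖x i‖ * ‖x j‖) := by
        apply Finset.sum_le_sum
        intro i _
        apply Finset.sum_le_sum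
        intro j hj
        refine (real_inner_le_norm _ _).trans ?_
        have h2 := hCm i j (Finset.ne_of_mem_erase hj).symm
        nlinarith [norm_nonneg (x j)]
      have h2 : ∑ i, ∑ j ∈ Finset.univ.erase i, 3 * (‖x i‖ * ‖x j‖) ≤ 9 * S := by
        have h3 : ∀ i, ∑ j ∈ Finset.univ.erase i, 3 * (‖x i‖ * ‖x j‖) =
            3 * (‖x i‖ * (∑ j, ‖x j‖)) - 3 * ‖x i‖ ^ 2 := by
          intro i
          rw [Finset.sum_erase_eq_sub (Finset.mem_univ i), ← Finset.mul_sum, ← Finset.mul_sum]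
          ring
        rw [Finset.sum_congr rfl fun i _ => h3 i, Finset.sum_sub_distrib, ← Finset.mul_sum,
          ← Finset.mul_sum, ← Finset.sum_mul]
        have h4 := sq_sum_le_card_mul_sum_sq (s := (Finset.univ : Finset (Fin 4)))
          (f := fun i => ‖x i‖)
        rw [Finset.card_univ, Fintype.card_fin] at h4
        push_cast at h4
        nlinarith
      linarith
    have hQ2 : 2 ≤ ∑ j, ∑ k ∈ Finset.univ.erase j, q j k := by
      have h1 : ∀ c d : Fin 4, c ≠ d → ω c + ω d = 0 → 1 ≤ ∑ k ∈ Finset.univ.erase c, q c k := by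
        intro c d hcd hz
        have h2 : q c d = 1 := by
          simp only [hq, hz, norm_zero]
          rw [zero_pow two_ne_zero, zero_add, div_self hκ.ne']
        rw [← h2]
        exact Finset.single_le_sum (fun k _ => hq0 c k)
          (Finset.mem_erase.2 ⟨hcd.symm, Finset.mem_univ d⟩)
      have h3 := h1 a b hab h0
      have h4 := h1 b a hab.symm (by rw [add_comm]; exact h0)
      have h5 : ∑ j ∈ ({a, b} : Finset (Fin 4)), ∑ k ∈ Finset.univ.erase j, q j k ≤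
          ∑ j, ∑ k ∈ Finset.univ.erase j, q j k := by
        apply Finset.sum_le_sum_of_subset_of_nonneg (Finset.subset_univ _)
        intro j _ _
        exact Finset.sum_nonneg fun k _ => hq0 j k
      rw [Finset.sum_pair hab] at h5
      linarith
    nlinarith

end Pool.Agent.SPH4
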