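import Pool.Agent.SPH4.Targets

set_option autoImplicit false

/-!
# SPEC: decomposition of polynomials in eigenfunctions of the spherical Laplace operator
-/

noncomputable section

open MeasureTheory Set Filter MvPolynomial
open scoped ENNReal RealInnerProductSpace Topology

namespace Pool.Agent.SPH4

/-- The function of a polynomial. -/
def SPEC_fn {n : ℕ} (p : MvPolynomial (Fin n) ℝ) : V n → ℝ := fun x => eval (fun i => x i) p

theorem SPEC_hasFDerivAt {n : ℕ} (p : MvPolynomial (Fin n) ℝ) (x : V n) :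
    HasFDerivAt (SPEC_fn p)
      (∑ a, SPEC_fn (pderiv a p) x • (EuclideanSpace.proj a : V n →L[ℝ] ℝ)) x := by
  induction p using MvPolynomial.induction_on with
  | C r =>
    have h : (SPEC_fn (C r) : V n → ℝ) = fun _ => r := by
      funext y
      simp [SPEC_fn]
    rw [h]
    have : (∑ a, SPEC_fn (pderiv a (C r)) x • (EuclideanSpace.proj a : V n →L[ℝ] ℝ)) = 0 := by
      simp [SPEC_fn]
    rw [this]
    exact hasFDerivAt_const r x
  | add p q hp hq =>
    have h : SPEC_fn (p + q) = fun y => SPEC_fn p y + SPEC_fn q y := by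
      funext y
      simp [SPEC_fn]
    rw [h]
    have := hp.add hq
    refine this.congr_fderiv ?_
    rw [← Finset.sum_add_distrib]
    refine Finset.sum_congr rfl fun a _ => ?_
    simp [SPEC_fn, add_smul]
  | mul_X p i hp =>
    have h : SPEC_fn (p * X i) =
        fun y => SPEC_fn p y * (EuclideanSpace.proj i : V n →L[ℝ] ℝ) y := by
      funext y
      simp [SPEC_fn]
    rw [h]
    have := hp.mul (EuclideanSpace.proj i : V n →L[ℝ] ℝ).hasFDerivAt
    refine this.congr_fderiv ?_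
    have hproj : ∀ (a : Fin n) (w : V n), (EuclideanSpace.proj a : V n →L[ℝ] ℝ) w = w.ofLp a :=
      fun _ _ => rfl
    ext v
    simp only [_root_.add_apply, _root_.smul_apply, _root_.sum_apply, smul_eq_mul, hproj,
      pderiv_mul, pderiv_X, SPEC_fn, map_add, map_mul]
    rw [Finset.mul_sum, add_comm]
    have e1 : ∀ a : Fin n, ((eval (fun i => x.ofLp i)) (pderiv a p) *
        (eval (fun i => x.ofLp i)) (X i : MvPolynomial (Fin n) ℝ)
        + (eval (fun i => x.ofLp i)) p * (eval (fun i => x.ofLp i))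
          (Pi.single (M := fun _ => MvPolynomial (Fin n) ℝ) a 1 i)) * v.ofLp a
        = x.ofLp i * ((eval (fun i => x.ofLp i)) (pderiv a p) * v.ofLp a) +
          (if i = a then (eval (fun i => x.ofLp i)) p * v.ofLp a else 0) := by
      intro a
      by_cases hai : i = a
      · subst hai
        simp
        ring
      · rw [Pi.single_eq_of_ne hai]
        simp [hai]
        ring
    rw [Finset.sum_congr rfl (fun a _ => e1 a), Finset.sum_add_distrib, Finset.sum_ite_eq,
      if_pos (Finset.mem_univ i), add_comm]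

theorem SPEC_fderiv {n : ℕ} (p : MvPolynomial (Fin n) ℝ) (x v : V n) :
    fderiv ℝ (SPEC_fn p) x v = ∑ a, SPEC_fn (pderiv a p) x * v a := by
  rw [(SPEC_hasFDerivAt p x).fderiv, _root_.sum_apply]
  rfl

/-- `x_b ∂_a` on polynomials. -/
def SPEC_T {n : ℕ} (a b : Fin n) : MvPolynomial (Fin n) ℝ →ₗ[ℝ] MvPolynomial (Fin n) ℝ :=
  LinearMap.mulLeft ℝ (X b) ∘ₗ (pderiv a).toLinearMap

theorem SPEC_T_apply {n : ℕ} (a b : Fin n) (p : MvPolynomial (Fin n) ℝ) :
    SPEC_T a b p = X b * pderiv a p := rfl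

/-- The derivative along a rotation. -/
def SPEC_D {n : ℕ} (a b : Fin n) : MvPolynomial (Fin n) ℝ →ₗ[ℝ] MvPolynomial (Fin n) ℝ :=
  SPEC_T a b - SPEC_T b a

/-- The Laplace operator of the spheres. -/
def SPEC_L {n : ℕ} : MvPolynomial (Fin n) ℝ →ₗ[ℝ] MvPolynomial (Fin n) ℝ :=
  ∑ a, ∑ b ∈ Finset.univ.filter (fun b => a < b), SPEC_D a b ∘ₗ SPEC_D a b

theorem SPEC_Dab {n : ℕ} (a b : Fin n) (p : MvPolynomial (Fin n) ℝ) :
    Dab a b (SPEC_fn p) = SPEC_fn (SPEC_D a b p) := by
  funext x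
  rw [Dab, SPEC_fderiv]
  have h : ∀ c : Fin n, SPEC_fn (pderiv c p) x * (rg a b x) c =
      (if c = a then SPEC_fn (pderiv c p) x * x b else 0) -
        (if c = b then SPEC_fn (pderiv c p) x * x a else 0) := by
    intro c
    rw [rg]
    simp only [PiLp.sub_apply, PiLp.smul_apply, PiLp.single_apply, smul_eq_mul]
    split_ifs <;> ring
  rw [Finset.sum_congr rfl fun c _ => h c, Finset.sum_sub_distrib, Finset.sum_ite_eq',
    Finset.sum_ite_eq', if_pos (Finset.mem_univ a), if_pos (Finset.mem_univ b)]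
  simp only [SPEC_D, LinearMap.sub_apply, SPEC_T_apply, SPEC_fn, map_sub, map_mul, eval_X]
  ring

theorem SPEC_LB {n : ℕ} (p : MvPolynomial (Fin n) ℝ) (x : V n) :
    LB (SPEC_fn p) x = SPEC_fn (SPEC_L p) x := by
  rw [LB, SPEC_L]
  simp only [SPEC_Dab, LinearMap.sum_apply, LinearMap.comp_apply]
  simp only [SPEC_fn, map_sum]

/-- The bilinear form in which monomials are orthogonal of square norm `α!`. -/
def SPEC_B (n : ℕ) : MvPolynomial (Fin n) ℝ →ₗ[ℝ] MvPolynomial (Fin n) ℝ →ₗ[ℝ] ℝ :=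
  (basisMonomials (Fin n) ℝ).constr ℝ fun α =>
    (∏ i, ((α i).factorial : ℝ)) • lcoeff ℝ α

theorem SPEC_B_monomial {n : ℕ} (α β : Fin n →₀ ℕ) :
    SPEC_B n (monomial α 1) (monomial β 1) =
      if α = β then ∏ i, ((α i).factorial : ℝ) else 0 := by
  have h := (basisMonomials (Fin n) ℝ).constr_basis ℝ (fun α =>
    (∏ i, ((α i).factorial : ℝ)) • (lcoeff ℝ α : MvPolynomial (Fin n) ℝ →ₗ[ℝ] ℝ)) α
  rw [coe_basisMonomials] at h
  rw [SPEC_B, h]
  simp [lcoeff_apply, coeff_monomial, eq_comm]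

theorem SPEC_B_symm {n : ℕ} (p q : MvPolynomial (Fin n) ℝ) :
    SPEC_B n p q = SPEC_B n q p := by
  have h : SPEC_B n = (SPEC_B n).flip := by
    refine (basisMonomials (Fin n) ℝ).ext fun α => (basisMonomials (Fin n) ℝ).ext fun β => ?_
    rw [LinearMap.flip_apply, coe_basisMonomials, SPEC_B_monomial, SPEC_B_monomial]
    by_cases hab : α = β
    · rw [hab]
    · rw [if_neg hab, if_neg (Ne.symm hab)]
  have h2 := congrArg (fun f => f p q) h
  exact h2

theorem SPEC_fac {n : ℕ} (γ : Fin n →₀ ℕ) (a : Fin n) :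
    ∏ i, ((((γ + Finsupp.single a 1 : Fin n →₀ ℕ)) i).factorial : ℝ) =
      (γ a + 1) * ∏ i, ((γ i).factorial : ℝ) := by
  have h : ∀ i, ((((γ + Finsupp.single a 1 : Fin n →₀ ℕ)) i).factorial : ℝ) =
      (if i = a then (γ a + 1 : ℝ) else 1) * ((γ i).factorial : ℝ) := by
    intro i
    rw [Finsupp.add_apply, Finsupp.single_apply]
    by_cases hia : a = i
    · subst hia
      rw [if_pos rfl, if_pos rfl, Nat.factorial_succ]
      push_cast
      ring
    · rw [if_neg hia, if_neg (Ne.symm hia), add_zero, one_mul]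
  rw [Finset.prod_congr rfl fun i _ => h i, Finset.prod_mul_distrib, Finset.prod_ite_eq',
    if_pos (Finset.mem_univ a)]

theorem SPEC_T_monomial {n : ℕ} (a b : Fin n) (α : Fin n →₀ ℕ) :
    SPEC_T a b (monomial α 1) =
      (α a : ℝ) • monomial (α - Finsupp.single a 1 + Finsupp.single b 1) 1 := by
  rw [SPEC_T_apply, pderiv_monomial, X, monomial_mul, smul_monomial, add_comm]
  simp

theorem SPEC_B_T {n : ℕ} (a b : Fin n) (p q : MvPolynomial (Fin n) ℝ) :
    SPEC_B n (SPEC_T a b p) q = SPEC_B n p (SPEC_T b a q) := by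
  have h : (SPEC_B n) ∘ₗ (SPEC_T a b) =
      (LinearMap.lcomp ℝ ℝ (SPEC_T b a)) ∘ₗ (SPEC_B n) := by
    refine (basisMonomials (Fin n) ℝ).ext fun α => (basisMonomials (Fin n) ℝ).ext fun β => ?_
    rw [LinearMap.comp_apply, LinearMap.comp_apply, LinearMap.lcomp_apply, coe_basisMonomials,
      SPEC_T_monomial, SPEC_T_monomial, map_smul, map_smul, LinearMap.smul_apply,
      SPEC_B_monomial, SPEC_B_monomial, smul_eq_mul, smul_eq_mul]
    by_cases ha : α a = 0
    · rw [ha, Nat.cast_zero, zero_mul, if_neg, mul_zero]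
      intro h0
      have h1 := congrArg (fun f => f a) h0
      simp only [Finsupp.add_apply, Finsupp.single_eq_same] at h1
      omega
    by_cases hb : β b = 0
    · rw [hb, Nat.cast_zero, zero_mul, if_neg, mul_zero]
      intro h0
      have h1 := congrArg (fun f => f b) h0
      simp only [Finsupp.add_apply, Finsupp.single_eq_same] at h1
      omega
    have hα : α = (α - Finsupp.single a 1) + Finsupp.single a 1 :=
      (tsub_add_cancel_of_le (Finsupp.single_le_iff.2 (Nat.one_le_iff_ne_zero.2 ha))).symm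
    have hβ : β = (β - Finsupp.single b 1) + Finsupp.single b 1 :=
      (tsub_add_cancel_of_le (Finsupp.single_le_iff.2 (Nat.one_le_iff_ne_zero.2 hb))).symm
    set γ := α - Finsupp.single a 1 with hγ
    set γ' := β - Finsupp.single b 1 with hγ'
    by_cases hg : γ = γ'
    · rw [if_pos (by rw [hβ, hg]), if_pos (by rw [hα, hg])]
      have e1 : ∏ i, ((((γ + Finsupp.single b 1 : Fin n →₀ ℕ)) i).factorial : ℝ) =
          (γ b + 1) * ∏ i, ((γ i).factorial : ℝ) := SPEC_fac γ b
      have e2 : ∏ i, ((α i).factorial : ℝ) = (γ a + 1) * ∏ i, ((γ i).factorial : ℝ) := by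
        rw [← SPEC_fac γ a, ← hα]
      rw [e1, e2]
      have e3 : (α a : ℝ) = γ a + 1 := by
        rw [hα]
        simp
      have e4 : (β b : ℝ) = γ b + 1 := by
        rw [hβ, ← hg]
        simp
      rw [e3, e4]
      ring
    · rw [if_neg, if_neg, mul_zero, mul_zero]
      · intro h0
        apply hg
        rw [hα] at h0
        exact add_right_cancel h0
      · intro h0
        apply hg
        rw [hβ] at h0
        exact add_right_cancel h0
  have h2 := congrArg (fun f => f p q) h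
  exact h2

theorem SPEC_B_apply {n : ℕ} (p q : MvPolynomial (Fin n) ℝ) :
    SPEC_B n p q = ∑ α ∈ p.support, coeff α p * ((∏ i, ((α i).factorial : ℝ)) * coeff α q) := by
  conv_lhs => rw [p.as_sum]
  rw [map_sum, LinearMap.sum_apply]
  refine Finset.sum_congr rfl fun α _ => ?_
  have h := (basisMonomials (Fin n) ℝ).constr_basis ℝ (fun α =>
    (∏ i, ((α i).factorial : ℝ)) • (lcoeff ℝ α : MvPolynomial (Fin n) ℝ →ₗ[ℝ] ℝ)) α
  rw [coe_basisMonomials] at h
  have h3 : (monomial α (coeff α p) : MvPolynomial (Fin n) ℝ) = coeff α p • monomial α 1 := by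
    rw [smul_monomial, smul_eq_mul, mul_one]
  rw [h3, map_smul, SPEC_B, h]
  simp [lcoeff_apply]

theorem SPEC_B_self {n : ℕ} (p : MvPolynomial (Fin n) ℝ) :
    SPEC_B n p p = ∑ α ∈ p.support, (∏ i, ((α i).factorial : ℝ)) * coeff α p ^ 2 := by
  rw [SPEC_B_apply]
  exact Finset.sum_congr rfl fun α _ => by ring

theorem SPEC_w_pos {n : ℕ} (α : Fin n →₀ ℕ) : 0 < ∏ i, ((α i).factorial : ℝ) :=
  Finset.prod_pos fun i _ => by exact_mod_cast Nat.factorial_pos _

theorem SPEC_B_nonneg {n : ℕ} (p : MvPolynomial (Fin n) ℝ) : 0 ≤ SPEC_B n p p := by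
  rw [SPEC_B_self]
  exact Finset.sum_nonneg fun α _ => mul_nonneg (SPEC_w_pos α).le (sq_nonneg _)

theorem SPEC_B_def {n : ℕ} (p : MvPolynomial (Fin n) ℝ) (h : SPEC_B n p p = 0) : p = 0 := by
  rw [SPEC_B_self, Finset.sum_eq_zero_iff_of_nonneg
    fun α _ => mul_nonneg (SPEC_w_pos α).le (sq_nonneg _)] at h
  ext α
  rw [coeff_zero]
  by_contra h0
  have h1 := h α (mem_support_iff.2 h0)
  rcases mul_eq_zero.1 h1 with h2 | h2
  · exact (SPEC_w_pos α).ne' h2
  · exact h0 (pow_eq_zero_iff two_ne_zero |>.1 h2)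

/-- The inner product. -/
@[instance_reducible]
def SPEC_core (n : ℕ) : InnerProductSpace.Core ℝ (MvPolynomial (Fin n) ℝ) where
  inner p q := SPEC_B n p q
  conj_inner_symm p q := by
    simp only [conj_trivial]
    exact SPEC_B_symm q p
  re_inner_nonneg p := SPEC_B_nonneg p
  add_left p q r := by
    change SPEC_B n (p + q) r = SPEC_B n p r + SPEC_B n q r
    rw [map_add, LinearMap.add_apply]
  smul_left p q r := by
    change SPEC_B n (r • p) q = r * SPEC_B n p q
    rw [map_smul, LinearMap.smul_apply, smul_eq_mul]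
  definite p h := SPEC_B_def p h

theorem SPEC_B_D {n : ℕ} (a b : Fin n) (p q : MvPolynomial (Fin n) ℝ) :
    SPEC_B n (SPEC_D a b p) q = -SPEC_B n p (SPEC_D a b q) := by
  rw [SPEC_D, LinearMap.sub_apply, LinearMap.sub_apply, map_sub, LinearMap.sub_apply, map_sub,
    SPEC_B_T, SPEC_B_T]
  ring

theorem SPEC_B_DD {n : ℕ} (a b : Fin n) (p q : MvPolynomial (Fin n) ℝ) :
    SPEC_B n (SPEC_D a b (SPEC_D a b p)) q = SPEC_B n p (SPEC_D a b (SPEC_D a b q)) := by
  rw [SPEC_B_D, SPEC_B_D, neg_neg]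

theorem SPEC_L_apply {n : ℕ} (p : MvPolynomial (Fin n) ℝ) :
    SPEC_L p = ∑ a, ∑ b ∈ Finset.univ.filter (fun b => a < b), SPEC_D a b (SPEC_D a b p) := by
  simp only [SPEC_L, LinearMap.sum_apply, LinearMap.comp_apply]

theorem SPEC_B_L {n : ℕ} (p q : MvPolynomial (Fin n) ℝ) :
    SPEC_B n (SPEC_L p) q = SPEC_B n p (SPEC_L q) := by
  rw [SPEC_L_apply, SPEC_L_apply, map_sum, map_sum, LinearMap.sum_apply]
  refine Finset.sum_congr rfl fun a _ => ?_
  rw [map_sum, map_sum, LinearMap.sum_apply]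
  exact Finset.sum_congr rfl fun b _ => SPEC_B_DD a b p q

theorem SPEC_B_L_self {n : ℕ} (p : MvPolynomial (Fin n) ℝ) :
    SPEC_B n (SPEC_L p) p = -∑ a, ∑ b ∈ Finset.univ.filter (fun b => a < b),
      SPEC_B n (SPEC_D a b p) (SPEC_D a b p) := by
  rw [SPEC_L_apply, map_sum, LinearMap.sum_apply, ← Finset.sum_neg_distrib]
  refine Finset.sum_congr rfl fun a _ => ?_
  rw [map_sum, LinearMap.sum_apply, ← Finset.sum_neg_distrib]
  exact Finset.sum_congr rfl fun b _ => SPEC_B_D a b _ p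

/-! ### Invariance of the polynomials of bounded degree -/

theorem SPEC_T_mem {n N : ℕ} (a b : Fin n) (p : MvPolynomial (Fin n) ℝ)
    (hp : p ∈ restrictTotalDegree (Fin n) ℝ N) :
    SPEC_T a b p ∈ restrictTotalDegree (Fin n) ℝ N := by
  rw [p.as_sum, map_sum]
  refine Submodule.sum_mem _ fun α hα => ?_
  have h3 : (monomial α (coeff α p) : MvPolynomial (Fin n) ℝ) = coeff α p • monomial α 1 := by
    rw [smul_monomial, smul_eq_mul, mul_one]
  rw [h3, map_smul, SPEC_T_monomial]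
  refine Submodule.smul_mem _ _ ?_
  by_cases ha : α a = 0
  · rw [ha, Nat.cast_zero, zero_smul]
    exact Submodule.zero_mem _
  · refine Submodule.smul_mem _ _ ?_
    rw [mem_restrictTotalDegree] at hp ⊢
    refine (totalDegree_monomial_le _ _).trans ?_
    have h1 := (le_totalDegree hα).trans hp
    have hα' : α = (α - Finsupp.single a 1) + Finsupp.single a 1 :=
      (tsub_add_cancel_of_le (Finsupp.single_le_iff.2 (Nat.one_le_iff_ne_zero.2 ha))).symm
    rw [hα'] at h1
    rw [Finsupp.sum_add_index' (fun _ => rfl) (fun _ _ _ => rfl),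
      Finsupp.sum_single_index rfl] at h1 ⊢
    exact h1

theorem SPEC_L_mem {n N : ℕ} (p : MvPolynomial (Fin n) ℝ)
    (hp : p ∈ restrictTotalDegree (Fin n) ℝ N) :
    SPEC_L p ∈ restrictTotalDegree (Fin n) ℝ N := by
  have hD : ∀ a b, ∀ q ∈ restrictTotalDegree (Fin n) ℝ N,
      SPEC_D a b q ∈ restrictTotalDegree (Fin n) ℝ N := fun a b q hq => by
    rw [SPEC_D, LinearMap.sub_apply]
    exact Submodule.sub_mem _ (SPEC_T_mem a b q hq) (SPEC_T_mem b a q hq)
  rw [SPEC_L_apply]
  exact Submodule.sum_mem _ fun a _ => Submodule.sum_mem _ fun b _ => hD a b _ (hD a b _ hp)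

theorem SPEC_spectral (n N : ℕ) (p : MvPolynomial (Fin n) ℝ)
    (hp : p ∈ restrictTotalDegree (Fin n) ℝ N) :
    ∃ (K : ℕ) (q : Fin K → MvPolynomial (Fin n) ℝ) (mu : Fin K → ℝ), p = ∑ k, q k ∧
      (∀ k, SPEC_L (q k) = mu k • q k) ∧ (∀ k, mu k ≤ 0) ∧
      (∀ k, mu k = 0 → ∀ a b, SPEC_D a b (q k) = 0) := by
  let _ : NormedAddCommGroup (MvPolynomial (Fin n) ℝ) :=
    (SPEC_core n).toNormedAddCommGroup
  let _ : InnerProductSpace ℝ (MvPolynomial (Fin n) ℝ) :=
    InnerProductSpace.ofCore (SPEC_core n).toCore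
  have hin : ∀ f g : MvPolynomial (Fin n) ℝ, ⟪f, g⟫ = SPEC_B n f g := fun _ _ => rfl
  set W := restrictTotalDegree (Fin n) ℝ N with hW
  set T : W →ₗ[ℝ] W := SPEC_L.restrict (fun q hq => SPEC_L_mem q hq) with hT
  have hTv : ∀ w : W, ((T w : W) : MvPolynomial (Fin n) ℝ) = SPEC_L (w : MvPolynomial (Fin n) ℝ) :=
    fun w => rfl
  have hsym : T.IsSymmetric := by
    intro v w
    rw [Submodule.coe_inner, Submodule.coe_inner, hTv, hTv, hin, hin]
    exact SPEC_B_L _ _
  set e := hsym.eigenvectorBasis (rfl : Module.finrank ℝ W = _) with he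
  set mu := hsym.eigenvalues (rfl : Module.finrank ℝ W = _) with hmu
  have hev : ∀ k, SPEC_L ((e k : W) : MvPolynomial (Fin n) ℝ) =
      mu k • ((e k : W) : MvPolynomial (Fin n) ℝ) := by
    intro k
    rw [← hTv, he, hsym.apply_eigenvectorBasis]
    rfl
  have hnorm : ∀ k, SPEC_B n ((e k : W) : MvPolynomial (Fin n) ℝ) (e k : W) = 1 := by
    intro k
    rw [← hin, ← Submodule.coe_inner, real_inner_self_eq_norm_sq, e.orthonormal.1 k, one_pow]
  have hmuk : ∀ k, mu k = -∑ a, ∑ b ∈ Finset.univ.filter (fun b => a < b),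
      SPEC_B n (SPEC_D a b ((e k : W) : MvPolynomial (Fin n) ℝ)) (SPEC_D a b (e k : W)) := by
    intro k
    rw [← SPEC_B_L_self, hev, map_smul, LinearMap.smul_apply, hnorm, smul_eq_mul, mul_one]
  refine ⟨Module.finrank ℝ W, fun k => ⟪e k, (⟨p, hp⟩ : W)⟫ • ((e k : W) : MvPolynomial (Fin n) ℝ),
    mu, ?_, ?_, ?_, ?_⟩
  · have h := e.sum_repr' (⟨p, hp⟩ : W)
    have h2 := congrArg (fun w : W => (w : MvPolynomial (Fin n) ℝ)) h
    simp only [Submodule.coe_sum, Submodule.coe_smul] at h2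
    exact h2.symm
  · intro k
    rw [map_smul, hev, smul_comm]
  · intro k
    rw [hmuk k]
    exact neg_nonpos.2 (Finset.sum_nonneg fun a _ => Finset.sum_nonneg fun b _ =>
      SPEC_B_nonneg _)
  · intro k hk a b
    rw [hmuk k, neg_eq_zero, Finset.sum_eq_zero_iff_of_nonneg
      (fun a _ => Finset.sum_nonneg fun b _ => SPEC_B_nonneg _)] at hk
    have h1 : ∀ a b : Fin n, a < b → SPEC_D a b ((e k : W) : MvPolynomial (Fin n) ℝ) = 0 := by
      intro a b hab
      have h2 := hk a (Finset.mem_univ a)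
      rw [Finset.sum_eq_zero_iff_of_nonneg (fun b _ => SPEC_B_nonneg _)] at h2
      exact SPEC_B_def _ (h2 b (Finset.mem_filter.2 ⟨Finset.mem_univ b, hab⟩))
    rw [map_smul]
    rcases lt_trichotomy a b with hab | hab | hab
    · rw [h1 a b hab, smul_zero]
    · subst hab
      rw [SPEC_D, sub_self, LinearMap.zero_apply, smul_zero]
    · have h3 := h1 b a hab
      rw [SPEC_D, LinearMap.sub_apply, sub_eq_zero] at h3
      rw [SPEC_D, LinearMap.sub_apply, h3, sub_self, smul_zero]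

/-! ### Functions killed by all rotations are constant on the sphere -/

theorem SPEC_tang {n : ℕ} (q : MvPolynomial (Fin n) ℝ) (h : ∀ a b, SPEC_D a b q = 0)
    (c v : V n) (hc : ‖c‖ = 1) (hcv : ⟪c, v⟫ = 0) : fderiv ℝ (SPEC_fn q) c v = 0 := by
  rw [SPEC_fderiv]
  have hg : ∀ a b : Fin n, c b * SPEC_fn (pderiv a q) c = c a * SPEC_fn (pderiv b q) c := by
    intro a b
    have h1 := congrArg (fun r => SPEC_fn r c) (h a b)
    simp only [SPEC_D, LinearMap.sub_apply, SPEC_T_apply, SPEC_fn, map_sub, map_mul, eval_X,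
      map_zero] at h1
    simp only [SPEC_fn]
    linarith
  have hc2 : ∑ b, c b * c b = 1 := by
    have h1 : ⟪c, c⟫ = 1 := by rw [real_inner_self_eq_norm_sq, hc, one_pow]
    rw [PiLp.inner_apply] at h1
    simpa [mul_comm, sq] using h1
  have hcv2 : ∑ a, c a * v a = 0 := by
    rw [PiLp.inner_apply] at hcv
    simpa [mul_comm] using hcv
  calc ∑ a, SPEC_fn (pderiv a q) c * v a
      = ∑ a, SPEC_fn (pderiv a q) c * v a * ∑ b, c b * c b := by
        refine Finset.sum_congr rfl fun a _ => ?_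
        rw [hc2, mul_one]
    _ = ∑ a, ∑ b, (c a * v a) * (SPEC_fn (pderiv b q) c * c b) := by
        refine Finset.sum_congr rfl fun a _ => ?_
        rw [Finset.mul_sum]
        refine Finset.sum_congr rfl fun b _ => ?_
        linear_combination (v a * c b) * hg a b
    _ = (∑ a, c a * v a) * ∑ b, SPEC_fn (pderiv b q) c * c b := by
        rw [Finset.sum_mul_sum]
    _ = 0 := by rw [hcv2, zero_mul]

theorem SPEC_circle {n : ℕ} (q : MvPolynomial (Fin n) ℝ) (h : ∀ a b, SPEC_D a b q = 0)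
    (x z : V n) (hx : ‖x‖ = 1) (hz : ‖z‖ = 1) (hxz : ⟪x, z⟫ = 0) (s : ℝ) :
    SPEC_fn q (Real.cos s • x + Real.sin s • z) = SPEC_fn q x := by
  set c : ℝ → V n := fun s => Real.cos s • x + Real.sin s • z with hc
  have hder : ∀ s, HasDerivAt c (-Real.sin s • x + Real.cos s • z) s := fun s =>
    ((Real.hasDerivAt_cos s).smul_const x).add ((Real.hasDerivAt_sin s).smul_const z)
  have hxx : ⟪x, x⟫ = 1 := by rw [real_inner_self_eq_norm_sq, hx, one_pow]
  have hzz : ⟪z, z⟫ = 1 := by rw [real_inner_self_eq_norm_sq, hz, one_pow]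
  have hzx : ⟪z, x⟫ = 0 := by rw [real_inner_comm, hxz]
  have hnc : ∀ s, ‖c s‖ = 1 := by
    intro s
    have h1 : ⟪c s, c s⟫ = 1 := by
      simp only [hc, inner_add_left, inner_add_right, real_inner_smul_left,
        real_inner_smul_right, hxx, hzz, hxz, hzx]
      have := Real.sin_sq_add_cos_sq s
      nlinarith
    rw [real_inner_self_eq_norm_sq] at h1
    nlinarith [norm_nonneg (c s)]
  have hcc : ∀ s, ⟪c s, -Real.sin s • x + Real.cos s • z⟫ = 0 := by
    intro s
    simp only [hc, inner_add_left, inner_add_right, real_inner_smul_left,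
      real_inner_smul_right, hxx, hzz, hxz, hzx]
    ring
  have hF : ∀ s, HasDerivAt (fun s => SPEC_fn q (c s)) 0 s := by
    intro s
    have h1 := (SPEC_hasFDerivAt q (c s)).comp_hasDerivAt s (hder s)
    rw [← (SPEC_hasFDerivAt q (c s)).fderiv, SPEC_tang q h _ _ (hnc s) (hcc s)] at h1
    exact h1
  have hconst := is_const_of_deriv_eq_zero (f := fun s => SPEC_fn q (c s))
    (fun s => (hF s).differentiableAt) (fun s => (hF s).deriv) s 0
  have h0 : c 0 = x := by simp [hc]
  simp only [h0] at hconst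
  exact hconst

theorem SPEC_perp {n : ℕ} (hn : 2 ≤ n) (x : V n) : ∃ z : V n, ‖z‖ = 1 ∧ ⟪x, z⟫ = 0 := by
  have key : ∃ w : V n, w ≠ 0 ∧ ⟪x, w⟫ = 0 := by
    set a : Fin n := ⟨0, by omega⟩ with ha
    set b : Fin n := ⟨1, by omega⟩ with hb
    have hab : a ≠ b := by
      intro h
      have := congrArg Fin.val h
      simp [ha, hb] at this
    by_cases hx : x a = 0
    · refine ⟨EuclideanSpace.single a 1, ?_, ?_⟩
      · intro h
        have h1 := congrArg (fun w : V n => w a) h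
        simp at h1
      · rw [EuclideanSpace.inner_single_right]
        simp [hx]
    · refine ⟨x b • EuclideanSpace.single a 1 - x a • EuclideanSpace.single b 1, ?_, ?_⟩
      · intro h
        have h1 := congrArg (fun w : V n => w b) h
        simp [hab.symm] at h1
        exact hx h1
      · rw [inner_sub_right, inner_smul_right, inner_smul_right,
          EuclideanSpace.inner_single_right, EuclideanSpace.inner_single_right]
        simp
        ring
  obtain ⟨w, hw, hxw⟩ := key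
  refine ⟨‖w‖⁻¹ • w, ?_, ?_⟩
  · rw [norm_smul, norm_inv, norm_norm, inv_mul_cancel₀ (norm_ne_zero_iff.2 hw)]
  · rw [inner_smul_right, hxw, mul_zero]

theorem SPEC_const {n : ℕ} (hn : 2 ≤ n) (q : MvPolynomial (Fin n) ℝ)
    (h : ∀ a b, SPEC_D a b q = 0) (x y : V n) (hx : ‖x‖ = 1) (hy : ‖y‖ = 1) :
    SPEC_fn q x = SPEC_fn q y := by
  set t : ℝ := ⟪x, y⟫ with ht
  have hxx : ⟪x, x⟫ = 1 := by rw [real_inner_self_eq_norm_sq, hx, one_pow]
  have hyy : ⟪y, y⟫ = 1 := by rw [real_inner_self_eq_norm_sq, hy, one_pow]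
  have hyx : ⟪y, x⟫ = t := by rw [real_inner_comm]
  set w : V n := y - t • x with hw
  have hww : ‖w‖ ^ 2 = 1 - t ^ 2 := by
    rw [← real_inner_self_eq_norm_sq, hw]
    simp only [inner_sub_left, inner_sub_right, real_inner_smul_left, real_inner_smul_right,
      hxx, hyy, hyx, ← ht]
    ring
  have hxw : ⟪x, w⟫ = 0 := by
    rw [hw, inner_sub_right, inner_smul_right, hxx, ← ht]
    simp
  have hyw : y = t • x + w := by rw [hw]; abel
  have ht1 : t ≤ 1 := by nlinarith [sq_nonneg ‖w‖]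
  have ht2 : -1 ≤ t := by nlinarith [sq_nonneg ‖w‖]
  -- a unit vector `z` with `w = ‖w‖ z`
  have hz : ∃ z : V n, ‖z‖ = 1 ∧ ⟪x, z⟫ = 0 ∧ w = ‖w‖ • z := by
    by_cases hw0 : w = 0
    · obtain ⟨z, hz1, hz2⟩ := SPEC_perp hn x
      exact ⟨z, hz1, hz2, by rw [hw0, norm_zero, zero_smul]⟩
    · refine ⟨‖w‖⁻¹ • w, ?_, ?_, ?_⟩
      · rw [norm_smul, norm_inv, norm_norm, inv_mul_cancel₀ (norm_ne_zero_iff.2 hw0)]
      · rw [inner_smul_right, hxw, mul_zero]
      · rw [smul_smul, mul_inv_cancel₀ (norm_ne_zero_iff.2 hw0), one_smul]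
  obtain ⟨z, hz1, hz2, hz3⟩ := hz
  have hs := SPEC_circle q h x z hx hz1 hz2 (Real.arccos t)
  rw [Real.cos_arccos ht2 ht1, Real.sin_arccos, ← hww, Real.sqrt_sq (norm_nonneg w),
    ← hz3, ← hyw] at hs
  exact hs.symm

/-- SPEC: decomposition of a polynomial in eigenfunctions. -/
theorem p_SPEC : T_SPEC := by
  intro n hn p
  obtain ⟨K, q, mu, h1, h2, h3, h4⟩ := SPEC_spectral n p.totalDegree p
    ((mem_restrictTotalDegree _ _ _).2 le_rfl)
  refine ⟨K, q, fun k => -mu k, fun k => neg_nonneg.2 (h3 k), ?_, ?_, ?_⟩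
  · intro x
    conv_lhs => rw [h1]
    rw [map_sum]
  · intro k x
    have h5 := SPEC_LB (q k) x
    rw [h2 k] at h5
    change LB (SPEC_fn (q k)) x = _
    rw [h5, neg_neg, SPEC_fn, smul_eval]
  · intro k hk x y hx hy
    exact SPEC_const hn (q k) (h4 k (neg_eq_zero.1 hk)) x y hx hy

end Pool.Agent.SPH4
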