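import Pool.Agent.SPH4.Targets

set_option autoImplicit false

/-!
# SQ: the equation for the square root
-/

noncomputable section

open MeasureTheory Set Filter
open scoped ENNReal RealInnerProductSpace Topology

namespace Pool.Agent.SPH4

theorem SQ_sum_symm {n : ℕ} (F : Fin n → Fin n → ℝ) (hs : ∀ a b, F a b = F b a)
    (h0 : ∀ a, F a a = 0) :
    ∑ a, ∑ b, F a b = 2 * ∑ a, ∑ b ∈ Finset.univ.filter (fun b => a < b), F a b := by
  have h1 : ∀ a b : Fin n, F a b = (if a < b then F a b else 0) + (if b < a then F a b else 0) := by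
    intro a b
    rcases lt_trichotomy a b with h | h | h
    · rw [if_pos h, if_neg (not_lt.2 h.le), add_zero]
    · subst h
      simp [h0]
    · rw [if_pos h, if_neg (not_lt.2 h.le), zero_add]
  have h2 : ∑ a, ∑ b, F a b = ∑ a, ∑ b, (if a < b then F a b else 0) +
      ∑ a, ∑ b, (if b < a then F a b else 0) := by
    rw [← Finset.sum_add_distrib]
    refine Finset.sum_congr rfl fun a _ => ?_
    rw [← Finset.sum_add_distrib]
    exact Finset.sum_congr rfl fun b _ => h1 a b
  have h3 : ∑ a, ∑ b, (if b < a then F a b else 0) =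
      ∑ a, ∑ b, (if a < b then F a b else 0) := by
    rw [Finset.sum_comm]
    refine Finset.sum_congr rfl fun a _ => Finset.sum_congr rfl fun b _ => ?_
    rw [hs b a]
  rw [h2, h3]
  simp only [Finset.sum_filter]
  ring

theorem SQ_lagrange {n : ℕ} (g w : V n) :
    ∑ a, ∑ b ∈ Finset.univ.filter (fun b => a < b), (w b * g a - w a * g b) ^ 2 =
      ‖g‖ ^ 2 * ‖w‖ ^ 2 - ⟪g, w⟫ ^ 2 := by
  have h1 := SQ_sum_symm (fun a b : Fin n => (w b * g a - w a * g b) ^ 2)
    (fun a b => by ring) (fun a => by ring)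
  have hg : ‖g‖ ^ 2 = ∑ i, g i ^ 2 := by
    rw [EuclideanSpace.norm_sq_eq]
    exact Finset.sum_congr rfl fun i _ => by rw [Real.norm_eq_abs, sq_abs]
  have hw : ‖w‖ ^ 2 = ∑ i, w i ^ 2 := by
    rw [EuclideanSpace.norm_sq_eq]
    exact Finset.sum_congr rfl fun i _ => by rw [Real.norm_eq_abs, sq_abs]
  have hgw : ⟪g, w⟫ = ∑ i, g i * w i := by
    rw [PiLp.inner_apply]
    refine Finset.sum_congr rfl fun i _ => ?_
    simp [mul_comm]
  have h2 : ∑ a, ∑ b, (w b * g a - w a * g b) ^ 2 =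
      2 * (‖g‖ ^ 2 * ‖w‖ ^ 2 - ⟪g, w⟫ ^ 2) := by
    have e1 : ∀ a b : Fin n, (w b * g a - w a * g b) ^ 2 =
        g a ^ 2 * w b ^ 2 + w a ^ 2 * g b ^ 2 - 2 * ((g a * w a) * (g b * w b)) := by
      intro a b
      ring
    simp only [e1, Finset.sum_sub_distrib, Finset.sum_add_distrib, ← Finset.mul_sum,
      ← Finset.sum_mul]
    rw [hg, hw, hgw]
    ring
  linarith

theorem SQ_grad_apply {n : ℕ} (f : V n → ℝ) (w : V n) (a : Fin n) :
    fderiv ℝ f w (EuclideanSpace.single a (1 : ℝ)) = gradient f w a := by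
  have h1 : fderiv ℝ f w (EuclideanSpace.single a (1 : ℝ)) =
      ⟪gradient f w, EuclideanSpace.single a (1 : ℝ)⟫ := by
    rw [gradient, InnerProductSpace.toDual_symm_apply]
  rw [h1, EuclideanSpace.inner_single_right]
  simp

theorem SQ_Dab {n : ℕ} (f : V n → ℝ) (w : V n) (a b : Fin n) :
    Dab a b f w = w b * gradient f w a - w a * gradient f w b := by
  unfold Dab rg
  rw [map_sub, map_smul, map_smul, SQ_grad_apply, SQ_grad_apply, smul_eq_mul, smul_eq_mul]

theorem SQ_rg_diff {n : ℕ} (a b : Fin n) (w : V n) : DifferentiableAt ℝ (rg (n := n) a b) w := by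
  unfold rg
  fun_prop

/-- product rule for `LB (f * f)` -/
theorem SQ_LB {n : ℕ} (f G : V n → ℝ) (w : V n) (hf : ContDiffAt ℝ 2 f w)
    (hG : ∀ᶠ x in 𝓝 w, G x = f x * f x) :
    LB G w = 2 * f w * LB f w + 2 * (‖gradient f w‖ ^ 2 * ‖w‖ ^ 2 - ⟪gradient f w, w⟫ ^ 2) := by
  have hd : ∀ᶠ x in 𝓝 w, DifferentiableAt ℝ f x := by
    filter_upwards [hf.eventually (by norm_num)] with x hx
    exact hx.differentiableAt (by norm_num)
  have hD : ∀ a b : Fin n, Dab a b G =ᶠ[𝓝 w] fun x => 2 * (f x * Dab a b f x) := by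
    intro a b
    filter_upwards [hG.eventually_nhds, hd] with x hx hdx
    have e : G =ᶠ[𝓝 x] fun y => f y * f y := hx
    unfold Dab
    rw [e.fderiv_eq, fderiv_fun_mul hdx hdx]
    simp only [add_apply, smul_apply, smul_eq_mul]
    ring
  have hfd : DifferentiableAt ℝ (fderiv ℝ f) w :=
    (hf.fderiv_right (m := 1) (by norm_num)).differentiableAt (by norm_num)
  have hDd : ∀ a b : Fin n, DifferentiableAt ℝ (Dab a b f) w := by
    intro a b
    unfold Dab
    exact hfd.clm_apply (SQ_rg_diff a b w)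
  have hfw : DifferentiableAt ℝ f w := hf.differentiableAt (by norm_num)
  have hDD : ∀ a b : Fin n, Dab a b (Dab a b G) w =
      2 * f w * Dab a b (Dab a b f) w + 2 * (Dab a b f w) ^ 2 := by
    intro a b
    have e1 : Dab a b (Dab a b G) w = fderiv ℝ (Dab a b G) w (rg a b w) := rfl
    have e2 : Dab a b (Dab a b f) w = fderiv ℝ (Dab a b f) w (rg a b w) := rfl
    have e3 : fderiv ℝ f w (rg a b w) = Dab a b f w := rfl
    have e4 : fderiv ℝ (fun x => 2 * (f x * Dab a b f x)) w =
        (2 : ℝ) • (f w • fderiv ℝ (Dab a b f) w + Dab a b f w • fderiv ℝ f w) :=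
      (((hfw.hasFDerivAt.mul (hDd a b).hasFDerivAt).const_mul 2)).fderiv
    rw [e1, (hD a b).fderiv_eq, e4, e2]
    simp only [add_apply, smul_apply, smul_eq_mul, e3]
    ring
  unfold LB
  simp only [hDD, Finset.sum_add_distrib, ← Finset.mul_sum]
  rw [← SQ_lagrange]
  simp only [SQ_Dab]

theorem p_SQ : T_SQ := by
  intro n hn G hG hpos
  have hGc : Continuous G := hG.continuous
  have hUo : IsOpen {x : V n | 0 < G x} := isOpen_lt continuous_const hGc
  have hsub : Metric.sphere (0 : V n) 1 ⊆ {x : V n | 0 < G x} := by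
    intro x hx
    rw [mem_sphere_zero_iff_norm] at hx
    exact hpos x hx
  refine ⟨⟨{x | 0 < G x}, hUo, hsub, ?_⟩, ?_⟩
  · refine ContDiffOn.sqrt ?_ (fun x hx => ne_of_gt hx)
    exact (hG.of_le (by norm_num)).contDiffOn
  · intro w hw
    have hGw : 0 < G w := hpos w hw
    have hs : 0 < √(G w) := Real.sqrt_pos.2 hGw
    have hsq : √(G w) * √(G w) = G w := Real.mul_self_sqrt hGw.le
    have hdG : DifferentiableAt ℝ G w := (hG.differentiable (by norm_num)) w
    have hgrad : gradient (fun x => √(G x)) w = (2 * √(G w))⁻¹ • gradient G w := by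
      unfold gradient
      rw [(hdG.hasFDerivAt.sqrt hGw.ne').fderiv, map_smul, one_div]
    refine ⟨hgrad, ?_⟩
    have hf2 : ContDiffAt ℝ 2 (fun x => √(G x)) w :=
      ContDiffAt.sqrt ((hG.of_le (by norm_num)).contDiffAt) hGw.ne'
    have hev : ∀ᶠ x in 𝓝 w, G x = √(G x) * √(G x) := by
      filter_upwards [hUo.mem_nhds hGw] with x hx
      exact (Real.mul_self_sqrt (le_of_lt hx)).symm
    have hLB := SQ_LB (fun x => √(G x)) G w hf2 hev
    have hnorm : ‖xg G w‖ ^ 2 = (√(G w))⁻¹ ^ 2 *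
        (‖gradient (fun x => √(G x)) w‖ ^ 2 * ‖w‖ ^ 2 -
          ⟪gradient (fun x => √(G x)) w, w⟫ ^ 2) := by
      have e1 : xg G w = (√(G w))⁻¹ • (gradient (fun x => √(G x)) w -
          ⟪gradient (fun x => √(G x)) w, w⟫ • w) := by
        unfold xg
        rw [hgrad, real_inner_smul_left, smul_sub, smul_sub, smul_smul, smul_smul, smul_smul]
        have e2 : (2 * G w)⁻¹ = (√(G w))⁻¹ * (2 * √(G w))⁻¹ := by
          rw [← mul_inv]
          congr 1
          rw [← hsq]
          rw [Real.sqrt_mul_self hs.le]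
          ring
        rw [e2]
        congr 2
        ring
      rw [e1, norm_smul, mul_pow, Real.norm_eq_abs, sq_abs]
      congr 1
      rw [norm_sub_sq_real, norm_smul, Real.norm_eq_abs, real_inner_smul_right, hw, mul_one,
        sq_abs]
      ring
    rw [hLB, hnorm]
    have hne : √(G w) ≠ 0 := hs.ne'
    field_simp

end Pool.Agent.SPH4
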