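import Pool.Agent.SPH4.Targets
import Pool.Agent.ExpMax.BASIC
import Pool.Agent.ExpMax.INV

set_option autoImplicit false

/-!
# The normalising constant
-/

noncomputable section

open MeasureTheory Set Filter
open scoped ENNReal RealInnerProductSpace Topology

namespace Pool.Agent.SPH4

open Pool.Agent.ExpMax

/-- The Gaussian weight as a Fourier integral. -/
lemma ZN_gauss {n : ℕ} {ε : ℝ} (hε : 0 < ε) (s : V n) :
    ∫ y : V n, Complex.exp (-((ε / 2 : ℝ) : ℂ) * (‖y‖ : ℂ) ^ 2 +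
        (-Complex.I) * ((⟪s, y⟫ : ℝ) : ℂ)) =
      (((2 * Real.pi / ε) ^ ((n : ℝ) / 2) * wt ε s : ℝ) : ℂ) := by
  have h := GaussianFourier.integral_cexp_neg_mul_sq_norm_add (V := V n)
    (b := ((ε / 2 : ℝ) : ℂ)) (by rw [Complex.ofReal_re]; positivity) (-Complex.I) s
  rw [h]
  have hfr : Module.finrank ℝ (V n) = n := by simp
  rw [hfr]
  have e1 : ((Real.pi : ℂ) / ((ε / 2 : ℝ) : ℂ)) = (((2 * Real.pi / ε : ℝ)) : ℂ) := by
    have : (ε : ℂ) ≠ 0 := by exact_mod_cast hε.ne'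
    push_cast
    field_simp
  have e2 : ((n : ℂ) / 2) = (((n : ℝ) / 2 : ℝ) : ℂ) := by push_cast; rfl
  have e3 : (-Complex.I) ^ 2 * (‖s‖ : ℂ) ^ 2 / (4 * ((ε / 2 : ℝ) : ℂ)) =
      ((-(‖s‖ ^ 2 / (2 * ε)) : ℝ) : ℂ) := by
    have : (ε : ℂ) ≠ 0 := by exact_mod_cast hε.ne'
    rw [neg_sq, Complex.I_sq]
    push_cast
    field_simp
    ring
  rw [e1, e2, e3, ← Complex.ofReal_exp, ← Complex.ofReal_cpow (by positivity), wt]
  push_cast
  rfl

/-- The integral of a product of characters. -/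
lemma ZN_prod {n m : ℕ} [IsProbabilityMeasure (prb (V n))] (y : V n) :
    ∫ ω : Fin m → Sp n, Complex.exp ((-Complex.I) * ((⟪∑ i, vec ω i, y⟫ : ℝ) : ℂ)) ∂(pm n m) =
      (ExpMax.Ext (F := V n) (fun _ => 1) y) ^ m := by
  have e : ∀ ω : Fin m → Sp n, Complex.exp ((-Complex.I) * ((⟪∑ i, vec ω i, y⟫ : ℝ) : ℂ)) =
      ∏ i, Complex.exp (-(Complex.I * ((⟪(ω i : V n), y⟫ : ℝ) : ℂ))) := by
    intro ω
    rw [← Complex.exp_sum, sum_inner]
    congr 1
    push_cast
    rw [Finset.mul_sum]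
    exact Finset.sum_congr rfl fun i _ => by rw [neg_mul]; rfl
  simp only [e]
  unfold pm
  rw [integral_fintype_prod_eq_pow
    (fun ω : Sp n => Complex.exp (-(Complex.I * ((⟪(ω : V n), y⟫ : ℝ) : ℂ))))]
  simp [ExpMax.Ext]

/-- ZN -/
theorem p_ZN : T_ZN := by
  intro n hn ε hε
  have hfin : 1 ≤ Module.finrank ℝ (V n) := by simpa using hn
  obtain ⟨hprob, -⟩ := tINV (V n) hfin
  obtain ⟨hext, hcont, -⟩ := tBASIC tINV (V n) hfin
  have := hprob
  have hpm : IsProbabilityMeasure (pm n 4) := by unfold pm; infer_instance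
  have hvec : Continuous fun ω : Fin 4 → Sp n => ∑ i, vec ω i := by
    refine continuous_finsetSum _ fun i _ => ?_
    exact continuous_subtype_val.comp (continuous_apply i)
  -- the double integral
  have hint : Integrable (Function.uncurry fun (ω : Fin 4 → Sp n) (y : V n) =>
      Complex.exp (-((ε / 2 : ℝ) : ℂ) * (‖y‖ : ℂ) ^ 2 +
        (-Complex.I) * ((⟪∑ i, vec ω i, y⟫ : ℝ) : ℂ))) ((pm n 4).prod volume) := by
    have hg : Integrable (fun y : V n => Complex.exp (-((ε / 2 : ℝ) : ℂ) * (‖y‖ : ℂ) ^ 2 +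
        0 * ((⟪(0 : V n), y⟫ : ℝ) : ℂ))) :=
      GaussianFourier.integrable_cexp_neg_mul_sq_norm_add (V := V n)
        (b := ((ε / 2 : ℝ) : ℂ)) (by rw [Complex.ofReal_re]; positivity) 0 0
    have hg2 : Integrable (fun z : (Fin 4 → Sp n) × V n =>
        (1 : ℝ) * ‖Complex.exp (-((ε / 2 : ℝ) : ℂ) * (‖z.2‖ : ℂ) ^ 2 +
        0 * ((⟪(0 : V n), z.2⟫ : ℝ) : ℂ))‖) ((pm n 4).prod volume) :=
      (integrable_const (1 : ℝ)).mul_prod hg.norm
    refine hg2.mono' ?_ (Eventually.of_forall fun z => ?_)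
    · refine Continuous.aestronglyMeasurable ?_
      unfold Function.uncurry
      have h1 : Continuous fun z : (Fin 4 → Sp n) × V n =>
          ((⟪∑ i, vec z.1 i, z.2⟫ : ℝ) : ℂ) :=
        Complex.continuous_ofReal.comp
          (Continuous.inner (hvec.comp continuous_fst) continuous_snd)
      have h2 : Continuous fun z : (Fin 4 → Sp n) × V n => ((‖z.2‖ : ℝ) : ℂ) :=
        Complex.continuous_ofReal.comp continuous_snd.norm
      exact Complex.continuous_exp.comp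
        ((continuous_const.mul (h2.pow 2)).add (continuous_const.mul h1))
    · rw [Function.uncurry, one_mul, Complex.norm_exp, Complex.norm_exp]
      refine le_of_eq ?_
      congr 1
      simp
  have key : ∫ ω : Fin 4 → Sp n, (∫ y : V n, Complex.exp (-((ε / 2 : ℝ) : ℂ) * (‖y‖ : ℂ) ^ 2 +
        (-Complex.I) * ((⟪∑ i, vec ω i, y⟫ : ℝ) : ℂ))) ∂(pm n 4) =
      ∫ y : V n, ((u0 y ^ 4 * Real.exp (-(ε * ‖y‖ ^ 2 / 2)) : ℝ) : ℂ) := by
    rw [integral_integral_swap hint]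
    refine integral_congr_ae (Eventually.of_forall fun y => ?_)
    simp only [Complex.exp_add]
    rw [integral_const_mul, ZN_prod, hext]
    have : -((ε / 2 : ℝ) : ℂ) * (‖y‖ : ℂ) ^ 2 = ((-(ε * ‖y‖ ^ 2 / 2) : ℝ) : ℂ) := by
      push_cast; ring
    rw [this, ← Complex.ofReal_exp]
    push_cast
    ring
  simp only [ZN_gauss hε] at key
  rw [integral_complex_ofReal, integral_complex_ofReal, Complex.ofReal_inj,
    integral_const_mul] at key
  have hI : Ie (n := n) (m := 4) ε (fun _ => 1) =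
      ∫ ω : Fin 4 → Sp n, wt ε (∑ i, vec ω i) ∂(pm n 4) := by
    unfold Ie
    simp
  rw [hI, ← key, ← mul_assoc, ← Real.mul_rpow (by positivity) (by positivity)]
  have : ε / (2 * Real.pi) * (2 * Real.pi / ε) = 1 := by
    have := Real.pi_pos
    field_simp
  rw [this, Real.one_rpow, one_mul]

end Pool.Agent.SPH4
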