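import Pool.Agent.SPH4.Targets
import Pool.Agent.SPH4.ZN
import Pool.Agent.SPH4.EST1

set_option autoImplicit false

/-!
# No concentration near antipodal pairs
-/

noncomputable section

open MeasureTheory Set Filter
open scoped ENNReal RealInnerProductSpace Topology

namespace Pool.Agent.SPH4

open Pool.Agent.ExpMax

lemma EST2_sum {A : Type} [AddCommMonoid A] (a : Fin 4 → A) (j k : Fin 4) (hjk : j ≠ k) :
    ∑ i, (if i = j ∨ i = k then a i else 0) = a j + a k := by
  have h : ∀ i, (if i = j ∨ i = k then a i else 0) =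
      (if i = j then a i else 0) + (if i = k then a i else 0) := by
    intro i
    by_cases h1 : i = j
    · have h2 : i ≠ k := fun h => hjk (h1.symm.trans h)
      simp [h1, hjk]
    · simp [h1]
  simp only [h, Finset.sum_add_distrib, Finset.sum_ite_eq', Finset.mem_univ, if_true]

lemma EST2_four (a b : ℂ) (j k : Fin 4) (hjk : j ≠ k) :
    ∏ i : Fin 4, (if i = j ∨ i = k then a else b) = a ^ 2 * b ^ 2 := by
  rw [Finset.prod_ite]
  simp only [Finset.prod_const]
  have h1 : (Finset.univ.filter fun i : Fin 4 => i = j ∨ i = k).card = 2 := by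
    revert j k; decide
  have h2 : (Finset.univ.filter fun i : Fin 4 => ¬(i = j ∨ i = k)).card = 2 := by
    revert j k; decide
  rw [h1, h2]

/-- The integral of a product of characters, two of them shifted. -/
lemma EST2_prod {n : ℕ} [IsProbabilityMeasure (prb (V n))]
    (hext : ∀ y : V n, ExpMax.Ext (F := V n) (fun _ => 1) y = ((u0 y : ℝ) : ℂ))
    (j k : Fin 4) (hjk : j ≠ k) (z y : V n) :
    ∫ ω : Fin 4 → Sp n, Complex.exp ((-Complex.I) * ((⟪vec ω j + vec ω k, z⟫ : ℝ) : ℂ) +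
      (-Complex.I) * ((⟪∑ i, vec ω i, y⟫ : ℝ) : ℂ)) ∂(pm n 4) =
      ((u0 (y + z) ^ 2 * u0 y ^ 2 : ℝ) : ℂ) := by
  have e : ∀ ω : Fin 4 → Sp n, Complex.exp ((-Complex.I) * ((⟪vec ω j + vec ω k, z⟫ : ℝ) : ℂ) +
      (-Complex.I) * ((⟪∑ i, vec ω i, y⟫ : ℝ) : ℂ)) =
      ∏ i, Complex.exp (-(Complex.I * ((⟪(ω i : V n),
        if i = j ∨ i = k then y + z else y⟫ : ℝ) : ℂ))) := by
    intro ω
    rw [← Complex.exp_sum]
    congr 1
    have h1 : (⟪vec ω j + vec ω k, z⟫ : ℝ) = ∑ i, (if i = j ∨ i = k then ⟪vec ω i, z⟫ else 0) := by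
      rw [EST2_sum _ j k hjk, inner_add_left]
    have h2 : ∀ i, (⟪(ω i : V n), if i = j ∨ i = k then y + z else y⟫ : ℝ) =
        ⟪vec ω i, y⟫ + (if i = j ∨ i = k then ⟪vec ω i, z⟫ else 0) := by
      intro i
      split_ifs with h
      · rw [inner_add_right]; rfl
      · rw [add_zero]; rfl
    simp only [h2]
    rw [h1, sum_inner]
    push_cast
    rw [Finset.mul_sum, Finset.mul_sum, ← Finset.sum_add_distrib]
    exact Finset.sum_congr rfl fun i _ => by ring
  simp only [e]
  unfold pm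
  rw [integral_fintype_prod_eq_prod (𝕜 := ℂ) (fun (i : Fin 4) (ω : Sp n) =>
    Complex.exp (-(Complex.I * ((⟪(ω : V n), if i = j ∨ i = k then y + z else y⟫ : ℝ) : ℂ))))]
  have h3 : ∀ i : Fin 4, ∫ ω : Sp n, Complex.exp (-(Complex.I * ((⟪(ω : V n),
      if i = j ∨ i = k then y + z else y⟫ : ℝ) : ℂ))) ∂(prb (V n)) =
      if i = j ∨ i = k then ((u0 (y + z) : ℝ) : ℂ) else ((u0 y : ℝ) : ℂ) := by
    intro i
    have h4 : ∀ v : V n, ∫ ω : Sp n, Complex.exp (-(Complex.I * ((⟪(ω : V n),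
        v⟫ : ℝ) : ℂ))) ∂(prb (V n)) = ((u0 v : ℝ) : ℂ) := by
      intro v
      rw [← hext v]
      simp [ExpMax.Ext]
    rw [h4]
    split_ifs <;> rfl
  simp only [h3]
  rw [EST2_four _ _ j k hjk]
  push_cast
  rfl

/-- The Fourier formula for the weight times a Gaussian in the sum of two points. -/
lemma EST2_fou {n : ℕ} (hn : 1 ≤ n) {ε θ : ℝ} (hε : 0 < ε) (hθ : 0 < θ) (j k : Fin 4)
    (hjk : j ≠ k) :
    Ie ε (fun ω : Fin 4 → V n => wt θ (ω j + ω k)) =
      ((θ / (2 * Real.pi)) ^ ((n : ℝ) / 2) * (ε / (2 * Real.pi)) ^ ((n : ℝ) / 2)) *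
      ∫ x : V n × V n, Real.exp (-(θ * ‖x.1‖ ^ 2 / 2)) * Real.exp (-(ε * ‖x.2‖ ^ 2 / 2)) *
        (u0 (x.2 + x.1) ^ 2 * u0 x.2 ^ 2) := by
  have hfin : 1 ≤ Module.finrank ℝ (V n) := by simpa using hn
  obtain ⟨hprob, -⟩ := tINV (V n) hfin
  obtain ⟨hext, hcont, -⟩ := tBASIC tINV (V n) hfin
  have := hprob
  have hpm : IsProbabilityMeasure (pm n 4) := by unfold pm; infer_instance
  have hvec : Continuous fun ω : Fin 4 → Sp n => ∑ i, vec ω i := by
    refine continuous_finsetSum _ fun i _ => ?_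
    exact continuous_subtype_val.comp (continuous_apply i)
  have hvj : ∀ i : Fin 4, Continuous fun ω : Fin 4 → Sp n => vec ω i := fun i =>
    continuous_subtype_val.comp (continuous_apply i)
  -- the triple integral
  have hint : Integrable (Function.uncurry fun (ω : Fin 4 → Sp n) (x : V n × V n) =>
      Complex.exp (-((θ / 2 : ℝ) : ℂ) * (‖x.1‖ : ℂ) ^ 2 +
        (-Complex.I) * ((⟪vec ω j + vec ω k, x.1⟫ : ℝ) : ℂ)) *
      Complex.exp (-((ε / 2 : ℝ) : ℂ) * (‖x.2‖ : ℂ) ^ 2 +
        (-Complex.I) * ((⟪∑ i, vec ω i, x.2⟫ : ℝ) : ℂ))) ((pm n 4).prod volume) := by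
    have hg : Integrable (fun x : V n × V n => Real.exp (-(θ * ‖x.1‖ ^ 2 / 2)) *
        Real.exp (-(ε * ‖x.2‖ ^ 2 / 2))) :=
      (EST1_gauss n hθ).mul_prod (EST1_gauss n hε)
    have hg2 : Integrable (fun z : (Fin 4 → Sp n) × (V n × V n) =>
        (1 : ℝ) * (Real.exp (-(θ * ‖z.2.1‖ ^ 2 / 2)) *
        Real.exp (-(ε * ‖z.2.2‖ ^ 2 / 2)))) ((pm n 4).prod volume) :=
      (integrable_const (1 : ℝ)).mul_prod hg
    refine hg2.mono' ?_ (Eventually.of_forall fun z => ?_)
    · refine Continuous.aestronglyMeasurable ?_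
      unfold Function.uncurry
      have h1 : Continuous fun z : (Fin 4 → Sp n) × (V n × V n) =>
          ((⟪∑ i, vec z.1 i, z.2.2⟫ : ℝ) : ℂ) :=
        Complex.continuous_ofReal.comp
          (Continuous.inner (hvec.comp continuous_fst) (continuous_snd.comp continuous_snd))
      have h1' : Continuous fun z : (Fin 4 → Sp n) × (V n × V n) =>
          ((⟪vec z.1 j + vec z.1 k, z.2.1⟫ : ℝ) : ℂ) :=
        Complex.continuous_ofReal.comp
          (Continuous.inner (((hvj j).add (hvj k)).comp continuous_fst)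
            (continuous_fst.comp continuous_snd))
      have h2 : Continuous fun z : (Fin 4 → Sp n) × (V n × V n) => ((‖z.2.2‖ : ℝ) : ℂ) :=
        Complex.continuous_ofReal.comp (continuous_snd.comp continuous_snd).norm
      have h2' : Continuous fun z : (Fin 4 → Sp n) × (V n × V n) => ((‖z.2.1‖ : ℝ) : ℂ) :=
        Complex.continuous_ofReal.comp (continuous_fst.comp continuous_snd).norm
      exact (Complex.continuous_exp.comp
        ((continuous_const.mul (h2'.pow 2)).add (continuous_const.mul h1'))).mul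
        (Complex.continuous_exp.comp
        ((continuous_const.mul (h2.pow 2)).add (continuous_const.mul h1)))
    · rw [Function.uncurry, one_mul, norm_mul, Complex.norm_exp, Complex.norm_exp]
      refine le_of_eq ?_
      congr 1
      · congr 1
        have : -((θ / 2 : ℝ) : ℂ) * (‖z.2.1‖ : ℂ) ^ 2 = ((-(θ * ‖z.2.1‖ ^ 2 / 2) : ℝ) : ℂ) := by
          push_cast; ring
        rw [this, Complex.add_re, Complex.ofReal_re]
        simp
      · congr 1
        have : -((ε / 2 : ℝ) : ℂ) * (‖z.2.2‖ : ℂ) ^ 2 = ((-(ε * ‖z.2.2‖ ^ 2 / 2) : ℝ) : ℂ) := by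
          push_cast; ring
        rw [this, Complex.add_re, Complex.ofReal_re]
        simp
  have key : ∫ ω : Fin 4 → Sp n, (∫ x : V n × V n,
      Complex.exp (-((θ / 2 : ℝ) : ℂ) * (‖x.1‖ : ℂ) ^ 2 +
        (-Complex.I) * ((⟪vec ω j + vec ω k, x.1⟫ : ℝ) : ℂ)) *
      Complex.exp (-((ε / 2 : ℝ) : ℂ) * (‖x.2‖ : ℂ) ^ 2 +
        (-Complex.I) * ((⟪∑ i, vec ω i, x.2⟫ : ℝ) : ℂ))) ∂(pm n 4) =
      ∫ x : V n × V n, ((Real.exp (-(θ * ‖x.1‖ ^ 2 / 2)) * Real.exp (-(ε * ‖x.2‖ ^ 2 / 2)) *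
        (u0 (x.2 + x.1) ^ 2 * u0 x.2 ^ 2) : ℝ) : ℂ) := by
    rw [integral_integral_swap hint]
    refine integral_congr_ae (Eventually.of_forall fun x => ?_)
    have h5 : ∀ ω : Fin 4 → Sp n,
        Complex.exp (-((θ / 2 : ℝ) : ℂ) * (‖x.1‖ : ℂ) ^ 2 +
        (-Complex.I) * ((⟪vec ω j + vec ω k, x.1⟫ : ℝ) : ℂ)) *
      Complex.exp (-((ε / 2 : ℝ) : ℂ) * (‖x.2‖ : ℂ) ^ 2 +
        (-Complex.I) * ((⟪∑ i, vec ω i, x.2⟫ : ℝ) : ℂ)) =
        ((Real.exp (-(θ * ‖x.1‖ ^ 2 / 2)) * Real.exp (-(ε * ‖x.2‖ ^ 2 / 2)) : ℝ) : ℂ) *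
        Complex.exp ((-Complex.I) * ((⟪vec ω j + vec ω k, x.1⟫ : ℝ) : ℂ) +
          (-Complex.I) * ((⟪∑ i, vec ω i, x.2⟫ : ℝ) : ℂ)) := by
      intro ω
      push_cast
      rw [← Complex.exp_add, ← Complex.exp_add, ← Complex.exp_add]
      congr 1
      ring
    simp only [h5]
    rw [integral_const_mul, EST2_prod hext j k hjk]
    push_cast
    ring
  have h6 : ∀ ω : Fin 4 → Sp n, (∫ x : V n × V n,
      Complex.exp (-((θ / 2 : ℝ) : ℂ) * (‖x.1‖ : ℂ) ^ 2 +
        (-Complex.I) * ((⟪vec ω j + vec ω k, x.1⟫ : ℝ) : ℂ)) *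
      Complex.exp (-((ε / 2 : ℝ) : ℂ) * (‖x.2‖ : ℂ) ^ 2 +
        (-Complex.I) * ((⟪∑ i, vec ω i, x.2⟫ : ℝ) : ℂ))) =
      (((2 * Real.pi / θ) ^ ((n : ℝ) / 2) * (2 * Real.pi / ε) ^ ((n : ℝ) / 2) *
        (wt θ (vec ω j + vec ω k) * wt ε (∑ i, vec ω i)) : ℝ) : ℂ) := by
    intro ω
    have h7 := integral_prod_mul (μ := (volume : Measure (V n))) (ν := (volume : Measure (V n)))
      (fun x : V n => Complex.exp (-((θ / 2 : ℝ) : ℂ) * (‖x‖ : ℂ) ^ 2 +
        (-Complex.I) * ((⟪vec ω j + vec ω k, x⟫ : ℝ) : ℂ)))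
      (fun x : V n => Complex.exp (-((ε / 2 : ℝ) : ℂ) * (‖x‖ : ℂ) ^ 2 +
        (-Complex.I) * ((⟪∑ i, vec ω i, x⟫ : ℝ) : ℂ)))
    rw [ZN_gauss hε, ZN_gauss hθ] at h7
    refine h7.trans ?_
    push_cast
    ring
  simp only [h6] at key
  rw [integral_complex_ofReal, integral_complex_ofReal, Complex.ofReal_inj,
    integral_const_mul] at key
  have hI : Ie ε (fun ω : Fin 4 → V n => wt θ (ω j + ω k)) =
      ∫ ω : Fin 4 → Sp n, wt θ (vec ω j + vec ω k) * wt ε (∑ i, vec ω i) ∂(pm n 4) := rfl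
  rw [hI, ← key]
  have hpi := Real.pi_pos
  have h8 : (θ / (2 * Real.pi)) ^ ((n : ℝ) / 2) * (2 * Real.pi / θ) ^ ((n : ℝ) / 2) = 1 := by
    rw [← Real.mul_rpow (by positivity) (by positivity)]
    have : θ / (2 * Real.pi) * (2 * Real.pi / θ) = 1 := by field_simp
    rw [this, Real.one_rpow]
  have h9 : (ε / (2 * Real.pi)) ^ ((n : ℝ) / 2) * (2 * Real.pi / ε) ^ ((n : ℝ) / 2) = 1 := by
    rw [← Real.mul_rpow (by positivity) (by positivity)]
    have : ε / (2 * Real.pi) * (2 * Real.pi / ε) = 1 := by field_simp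
    rw [this, Real.one_rpow]
  set A := ∫ ω : Fin 4 → Sp n, wt θ (vec ω j + vec ω k) * wt ε (∑ i, vec ω i) ∂(pm n 4)
  calc A = ((θ / (2 * Real.pi)) ^ ((n : ℝ) / 2) * (2 * Real.pi / θ) ^ ((n : ℝ) / 2)) *
        ((ε / (2 * Real.pi)) ^ ((n : ℝ) / 2) * (2 * Real.pi / ε) ^ ((n : ℝ) / 2)) * A := by
          rw [h8, h9]; ring
    _ = _ := by ring


lemma EST2_young {s : ℝ} (hs : 0 < s) (a b : ℝ) :
    a ^ 2 * b ^ 2 ≤ (s * a ^ 4 + s⁻¹ * b ^ 4) / 2 := by
  have h : 0 ≤ s⁻¹ * (s * a ^ 2 - b ^ 2) ^ 2 := by positivity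
  have e : s⁻¹ * (s * a ^ 2 - b ^ 2) ^ 2 =
      s * a ^ 4 - 2 * (a ^ 2 * b ^ 2) + s⁻¹ * b ^ 4 := by
    field_simp
    ring
  linarith

/-- The part of the mass outside a ball. -/
def EST2_t {n : ℕ} (R : ℝ) : V n → ℝ := {y : V n | R ≤ ‖y‖}.indicator fun y => u0 y ^ 4

lemma EST2_t_int {n : ℕ} (R : ℝ) (hB : Integrable (fun y : V n => u0 y ^ 4)) :
    Integrable (EST2_t (n := n) R) :=
  hB.indicator (measurableSet_le measurable_const measurable_norm)

lemma EST2_t_nonneg {n : ℕ} (R : ℝ) (y : V n) : 0 ≤ EST2_t R y := by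
  unfold EST2_t
  apply Set.indicator_nonneg
  intro y _
  positivity

lemma EST2_phi1 {n : ℕ} (hB : Integrable (fun y : V n => u0 y ^ 4)) {ε : ℝ} (hε : 0 < ε)
    (z : V n) :
    ∫ y : V n, Real.exp (-(ε * ‖y‖ ^ 2 / 2)) * (u0 (y + z) ^ 2 * u0 y ^ 2) ≤
      ∫ y : V n, u0 y ^ 4 := by
  have hBz : Integrable (fun y : V n => u0 (y + z) ^ 4) := hB.comp_add_right z
  have hz : ∫ y : V n, u0 (y + z) ^ 4 = ∫ y : V n, u0 y ^ 4 :=
    integral_add_right_eq_self (fun y : V n => u0 y ^ 4) z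
  calc _ ≤ ∫ y : V n, (u0 (y + z) ^ 4 + u0 y ^ 4) / 2 := by
        apply integral_mono_of_nonneg
        · refine Eventually.of_forall fun y => ?_
          simp only [Pi.zero_apply]
          positivity
        · exact (hBz.add hB).div_const 2
        · refine Eventually.of_forall fun y => ?_
          have h1 : Real.exp (-(ε * ‖y‖ ^ 2 / 2)) ≤ 1 := by
            rw [Real.exp_le_one_iff]
            have : 0 ≤ ε * ‖y‖ ^ 2 / 2 := by positivity
            linarith
          have h2 := EST2_young one_pos (u0 (y + z)) (u0 y)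
          have h3 : 0 ≤ u0 (y + z) ^ 2 * u0 y ^ 2 := by positivity
          have h4 : Real.exp (-(ε * ‖y‖ ^ 2 / 2)) * (u0 (y + z) ^ 2 * u0 y ^ 2) ≤
              u0 (y + z) ^ 2 * u0 y ^ 2 := mul_le_of_le_one_left h3 h1
          simp only [inv_one, one_mul] at h2
          exact h4.trans h2
    _ = _ := by
        rw [integral_div, integral_add hBz hB, hz]
        ring

lemma EST2_phi2 {n : ℕ} (hB : Integrable (fun y : V n => u0 y ^ 4)) {ε s R : ℝ} (hε : 0 < ε)
    (hs : 0 < s) (z : V n) (hz : 2 * R ≤ ‖z‖) :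
    ∫ y : V n, Real.exp (-(ε * ‖y‖ ^ 2 / 2)) * (u0 (y + z) ^ 2 * u0 y ^ 2) ≤
      s * (∫ y : V n, EST2_t R y) + s⁻¹ * ∫ y : V n, u0 y ^ 4 := by
  have hBz : Integrable (fun y : V n => u0 (y + z) ^ 4) := hB.comp_add_right z
  have hzi : ∫ y : V n, u0 (y + z) ^ 4 = ∫ y : V n, u0 y ^ 4 :=
    integral_add_right_eq_self (fun y : V n => u0 y ^ 4) z
  have ht := EST2_t_int R hB
  have htz : Integrable (fun y : V n => EST2_t R (y + z)) := ht.comp_add_right z
  have htzi : ∫ y : V n, EST2_t R (y + z) = ∫ y : V n, EST2_t R y :=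
    integral_add_right_eq_self (fun y : V n => EST2_t R y) z
  calc _ ≤ ∫ y : V n, ((s * EST2_t R y + s * EST2_t R (y + z)) +
        (s⁻¹ * u0 (y + z) ^ 4 + s⁻¹ * u0 y ^ 4)) / 2 := by
        apply integral_mono_of_nonneg
        · refine Eventually.of_forall fun y => ?_
          simp only [Pi.zero_apply]
          positivity
        · exact (((ht.const_mul s).add (htz.const_mul s)).add
            ((hBz.const_mul s⁻¹).add (hB.const_mul s⁻¹))).div_const 2
        · refine Eventually.of_forall fun y => ?_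
          have h1 : Real.exp (-(ε * ‖y‖ ^ 2 / 2)) ≤ 1 := by
            rw [Real.exp_le_one_iff]
            have : 0 ≤ ε * ‖y‖ ^ 2 / 2 := by positivity
            linarith
          have h3 : 0 ≤ u0 (y + z) ^ 2 * u0 y ^ 2 := by positivity
          have h4 : Real.exp (-(ε * ‖y‖ ^ 2 / 2)) * (u0 (y + z) ^ 2 * u0 y ^ 2) ≤
              u0 (y + z) ^ 2 * u0 y ^ 2 := mul_le_of_le_one_left h3 h1
          refine h4.trans ?_
          have n1 : 0 ≤ s * EST2_t R y := mul_nonneg hs.le (EST2_t_nonneg R y)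
          have n2 : 0 ≤ s * EST2_t R (y + z) := mul_nonneg hs.le (EST2_t_nonneg R (y + z))
          have n3 : 0 ≤ s⁻¹ * u0 (y + z) ^ 4 := by positivity
          have n4 : 0 ≤ s⁻¹ * u0 y ^ 4 := by positivity
          by_cases hy : R ≤ ‖y‖
          · have h5 : EST2_t R y = u0 y ^ 4 := by
              unfold EST2_t
              exact Set.indicator_of_mem (show y ∈ {y : V n | R ≤ ‖y‖} from hy) _
            have h6 := EST2_young hs (u0 y) (u0 (y + z))
            simp only [h5]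
            rw [h5] at n1
            nlinarith
          · have hyz : R ≤ ‖y + z‖ := by
              have h7 : ‖z‖ ≤ ‖y + z‖ + ‖y‖ := by
                have := norm_sub_le (y + z) y
                simpa using this
              push Not at hy
              linarith
            have h5 : EST2_t R (y + z) = u0 (y + z) ^ 4 := by
              unfold EST2_t
              exact Set.indicator_of_mem (show y + z ∈ {y : V n | R ≤ ‖y‖} from hyz) _
            have h6 := EST2_young hs (u0 (y + z)) (u0 y)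
            simp only [h5]
            rw [h5] at n2
            nlinarith
    _ = _ := by
        have i1 : Integrable (fun y : V n => s * EST2_t R y + s * EST2_t R (y + z)) :=
          (ht.const_mul s).add (htz.const_mul s)
        have i2 : Integrable (fun y : V n => s⁻¹ * u0 (y + z) ^ 4 + s⁻¹ * u0 y ^ 4) :=
          (hBz.const_mul s⁻¹).add (hB.const_mul s⁻¹)
        rw [integral_div, integral_add i1 i2,
          integral_add (ht.const_mul s) (htz.const_mul s),
          integral_add (hBz.const_mul s⁻¹) (hB.const_mul s⁻¹),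
          integral_const_mul, integral_const_mul, integral_const_mul, integral_const_mul,
          hzi, htzi]
        ring

/-- The bound of the double integral. -/
lemma EST2_dbl {n : ℕ} (hn : 1 ≤ n) (hB : Integrable (fun y : V n => u0 y ^ 4)) {ε θ s R : ℝ}
    (hε : 0 < ε) (hθ : 0 < θ) (hs : 0 < s) :
    ∫ x : V n × V n, Real.exp (-(θ * ‖x.1‖ ^ 2 / 2)) * Real.exp (-(ε * ‖x.2‖ ^ 2 / 2)) *
        (u0 (x.2 + x.1) ^ 2 * u0 x.2 ^ 2) ≤
      (volume : Measure (V n)).real (Metric.ball 0 (2 * R)) * (∫ y : V n, u0 y ^ 4) +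
      (s * (∫ y : V n, EST2_t R y) + s⁻¹ * ∫ y : V n, u0 y ^ 4) *
        (2 * Real.pi / θ) ^ ((n : ℝ) / 2) := by
  have hfin : 1 ≤ Module.finrank ℝ (V n) := by simpa using hn
  obtain ⟨-, hu0c, -, hu0le, -, -, -⟩ := tBASIC tINV (V n) hfin
  have hI0 : 0 ≤ ∫ y : V n, u0 y ^ 4 := integral_nonneg fun y => by positivity
  have hτ0 : 0 ≤ ∫ y : V n, EST2_t R y := integral_nonneg fun y => EST2_t_nonneg R y
  have hg : Integrable (fun x : V n × V n => Real.exp (-(θ * ‖x.1‖ ^ 2 / 2)) *
      Real.exp (-(ε * ‖x.2‖ ^ 2 / 2))) :=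
    (EST1_gauss n hθ).mul_prod (EST1_gauss n hε)
  have hint : Integrable (fun x : V n × V n => Real.exp (-(θ * ‖x.1‖ ^ 2 / 2)) *
      Real.exp (-(ε * ‖x.2‖ ^ 2 / 2)) * (u0 (x.2 + x.1) ^ 2 * u0 x.2 ^ 2)) := by
    refine hg.mono' ?_ (Eventually.of_forall fun x => ?_)
    · refine Continuous.aestronglyMeasurable ?_
      fun_prop
    · have h1 : |u0 (x.2 + x.1)| ^ 2 ≤ 1 := pow_le_one₀ (abs_nonneg _) (hu0le _)
      have h2 : |u0 x.2| ^ 2 ≤ 1 := pow_le_one₀ (abs_nonneg _) (hu0le _)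
      rw [norm_mul, norm_mul, norm_mul, norm_pow, norm_pow, Real.norm_eq_abs, Real.norm_eq_abs,
        Real.norm_eq_abs, Real.norm_eq_abs, abs_of_pos (Real.exp_pos _),
        abs_of_pos (Real.exp_pos _)]
      have h3 : |u0 (x.2 + x.1)| ^ 2 * |u0 x.2| ^ 2 ≤ 1 := by
        have := mul_le_mul h1 h2 (by positivity) one_pos.le
        simpa using this
      exact mul_le_of_le_one_right (by positivity) h3
  have h1 : ∫ x : V n × V n, Real.exp (-(θ * ‖x.1‖ ^ 2 / 2)) * Real.exp (-(ε * ‖x.2‖ ^ 2 / 2)) *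
        (u0 (x.2 + x.1) ^ 2 * u0 x.2 ^ 2) =
      ∫ z : V n, Real.exp (-(θ * ‖z‖ ^ 2 / 2)) *
        ∫ y : V n, Real.exp (-(ε * ‖y‖ ^ 2 / 2)) * (u0 (y + z) ^ 2 * u0 y ^ 2) := by
    have h2 := integral_prod _ hint
    refine h2.trans ?_
    refine integral_congr_ae (Eventually.of_forall fun z => ?_)
    simp only [mul_assoc]
    rw [integral_const_mul]
  rw [h1]
  have hball : Integrable ((Metric.ball (0 : V n) (2 * R)).indicator
      fun _ : V n => ∫ y : V n, u0 y ^ 4) := by
    refine (integrable_indicator_iff Metric.isOpen_ball.measurableSet).2 ?_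
    exact integrableOn_const Metric.isBounded_ball.measure_lt_top.ne
  calc _ ≤ ∫ z : V n, ((Metric.ball (0 : V n) (2 * R)).indicator
        (fun _ : V n => ∫ y : V n, u0 y ^ 4) z +
        (s * (∫ y : V n, EST2_t R y) + s⁻¹ * ∫ y : V n, u0 y ^ 4) *
          Real.exp (-(θ * ‖z‖ ^ 2 / 2))) := by
        apply integral_mono_of_nonneg
        · refine Eventually.of_forall fun z => ?_
          simp only [Pi.zero_apply]
          apply mul_nonneg (Real.exp_pos _).le
          apply integral_nonneg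
          intro y
          simp only [Pi.zero_apply]
          positivity
        · exact hball.add ((EST1_gauss n hθ).const_mul _)
        · refine Eventually.of_forall fun z => ?_
          have he1 : Real.exp (-(θ * ‖z‖ ^ 2 / 2)) ≤ 1 := by
            rw [Real.exp_le_one_iff]
            have : 0 ≤ θ * ‖z‖ ^ 2 / 2 := by positivity
            linarith
          have he0 := Real.exp_pos (-(θ * ‖z‖ ^ 2 / 2))
          have hK : 0 ≤ s * (∫ y : V n, EST2_t R y) + s⁻¹ * ∫ y : V n, u0 y ^ 4 := by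
            positivity
          simp only
          by_cases hz : z ∈ Metric.ball (0 : V n) (2 * R)
          · rw [Set.indicator_of_mem hz]
            have h3 := EST2_phi1 hB hε z
            have h4 : Real.exp (-(θ * ‖z‖ ^ 2 / 2)) *
                ∫ y : V n, Real.exp (-(ε * ‖y‖ ^ 2 / 2)) * (u0 (y + z) ^ 2 * u0 y ^ 2) ≤
                1 * ∫ y : V n, u0 y ^ 4 :=
              mul_le_mul he1 h3 (integral_nonneg fun y => by
                simp only [Pi.zero_apply]; positivity) one_pos.le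
            have h5 := mul_nonneg hK he0.le
            linarith
          · rw [Set.indicator_of_notMem hz]
            have hz' : 2 * R ≤ ‖z‖ := by
              simpa using hz
            have h3 := EST2_phi2 hB hε hs z hz'
            have h4 := mul_le_mul_of_nonneg_left h3 he0.le
            linarith
    _ = _ := by
        rw [integral_add hball ((EST1_gauss n hθ).const_mul _), integral_const_mul,
          integral_indicator Metric.isOpen_ball.measurableSet, setIntegral_const]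
        have h6 := GaussianFourier.integral_rexp_neg_mul_sq_norm (V := V n)
          (b := θ / 2) (by positivity)
        have h7 : ∫ z : V n, Real.exp (-(θ * ‖z‖ ^ 2 / 2)) =
            (2 * Real.pi / θ) ^ ((n : ℝ) / 2) := by
          have h8 : ∀ z : V n, Real.exp (-(θ * ‖z‖ ^ 2 / 2)) = Real.exp (-(θ / 2) * ‖z‖ ^ 2) := by
            intro z
            congr 1
            ring
          simp only [h8]
          rw [h6]
          have : Module.finrank ℝ (V n) = n := by simp
          rw [this]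
          congr 1
          field_simp
        rw [h7, smul_eq_mul]

lemma EST2_tail {n : ℕ} (hB : Integrable (fun y : V n => u0 y ^ 4)) {τ : ℝ} (hτ : 0 < τ) :
    ∃ R : ℝ, ∫ y : V n, EST2_t R y < τ := by
  have h := tendsto_integral_of_dominated_convergence (μ := (volume : Measure (V n)))
    (F := fun (R : ℕ) (y : V n) => EST2_t (R : ℝ) y) (f := fun _ => (0 : ℝ))
    (fun y : V n => u0 y ^ 4) (fun R => (EST2_t_int (R : ℝ) hB).aestronglyMeasurable) hB
    (fun R => Eventually.of_forall fun y => by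
      rw [Real.norm_of_nonneg (EST2_t_nonneg _ y)]
      unfold EST2_t
      apply Set.indicator_le_self'
      intro x _
      positivity)
    (Eventually.of_forall fun y => by
      refine tendsto_const_nhds.congr' ?_
      obtain ⟨N, hN⟩ := exists_nat_gt ‖y‖
      filter_upwards [eventually_ge_atTop N] with R hR
      have h1 : ¬ ((R : ℝ) ≤ ‖y‖) := by
        have : (N : ℝ) ≤ R := by exact_mod_cast hR
        push Not
        linarith
      unfold EST2_t
      rw [Set.indicator_of_notMem (show y ∉ {y : V n | (R : ℝ) ≤ ‖y‖} from h1)])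
  simp only [integral_zero] at h
  obtain ⟨N, hN⟩ := (h.eventually (gt_mem_nhds hτ)).exists
  exact ⟨N, hN⟩

/-- EST2 -/
theorem p_EST2 (hZN : T_ZN) (hBESS : T_BESS) : T_EST2 := by
  intro n hn3 δ hδ
  have hn : 1 ≤ n := by omega
  have hB := hBESS n hn3
  have hfr : 1 ≤ Module.finrank ℝ (V n) := by simpa [V] using hn
  have hprob : IsProbabilityMeasure (prb (V n)) := (tINV (V n) hfr).1
  have hpm : IsProbabilityMeasure (pm n 4) := by unfold pm; infer_instance
  obtain ⟨-, hu0c, -, hu0le, hu0ge, -, -⟩ := tBASIC tINV (V n) hfr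
  have hint : ∀ b : ℝ, 0 < b →
      Integrable (fun y : V n => u0 y ^ 4 * Real.exp (-(b * ‖y‖ ^ 2 / 2))) := by
    intro b hb
    refine (EST1_gauss n hb).mono' ?_ (Eventually.of_forall fun y => ?_)
    · exact (by fun_prop : Continuous fun y : V n =>
        u0 y ^ 4 * Real.exp (-(b * ‖y‖ ^ 2 / 2))).aestronglyMeasurable
    · rw [norm_mul, norm_pow, Real.norm_eq_abs, Real.norm_eq_abs, abs_of_pos (Real.exp_pos _)]
      have h1 : |u0 y| ^ 4 ≤ 1 := pow_le_one₀ (abs_nonneg _) (hu0le y)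
      exact mul_le_of_le_one_left (Real.exp_pos _).le h1
  set c1 : ℝ := ∫ y : V n, u0 y ^ 4 * Real.exp (-(1 * ‖y‖ ^ 2 / 2)) with hc1def
  have hc1 : 0 < c1 := by
    have hcont : Continuous fun y : V n => u0 y ^ 4 * Real.exp (-(1 * ‖y‖ ^ 2 / 2)) := by
      fun_prop
    rw [hc1def, integral_pos_iff_support_of_nonneg _ (hint 1 one_pos)]
    · apply IsOpen.measure_pos _ hcont.isOpen_support
      refine ⟨0, ?_⟩
      have h2 : (1 : ℝ) ≤ u0 (0 : V n) := by simpa using hu0ge 0
      have h3 : 0 < u0 (0 : V n) ^ 4 := by positivity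
      exact (mul_pos h3 (Real.exp_pos _)).ne'
    · intro y
      have h2 : 0 ≤ u0 y ^ 4 := by positivity
      exact mul_nonneg h2 (Real.exp_pos _).le
  set I4 : ℝ := ∫ y : V n, u0 y ^ 4 with hI4
  have hI0 : 0 ≤ I4 := integral_nonneg fun y => by positivity
  -- the choice of the parameters
  set δ' : ℝ := δ * c1 / 12 with hδ'
  have hδ'p : 0 < δ' := by positivity
  set s : ℝ := I4 / δ' + 1 with hsdef
  have hs : 0 < s := by positivity
  have hsI : s⁻¹ * I4 ≤ δ' := by
    rw [inv_mul_le_iff₀ hs, hsdef]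
    have : (I4 / δ' + 1) * δ' = I4 + δ' := by field_simp
    rw [this]
    linarith
  obtain ⟨R, hR⟩ := EST2_tail hB (τ := δ' / s) (by positivity)
  have hsR : s * (∫ y : V n, EST2_t R y) ≤ δ' := by
    rw [lt_div_iff₀ hs] at hR
    linarith
  set K : ℝ := (volume : Measure (V n)).real (Metric.ball 0 (2 * R)) * I4 with hKdef
  have hθex : ∃ θ : ℝ, 0 < θ ∧ (θ / (2 * Real.pi)) ^ ((n : ℝ) / 2) * K < δ' := by
    have hc : Continuous fun θ : ℝ => (θ / (2 * Real.pi)) ^ ((n : ℝ) / 2) * K := by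
      refine Continuous.mul ?_ continuous_const
      exact (continuous_id.div_const _).rpow_const fun x => Or.inr (by positivity)
    have h0 : (fun θ : ℝ => (θ / (2 * Real.pi)) ^ ((n : ℝ) / 2) * K) 0 = 0 := by
      simp only [zero_div]
      rw [Real.zero_rpow, zero_mul]
      have : (0 : ℝ) < n := by exact_mod_cast hn
      positivity
    have hlt : (fun θ : ℝ => (θ / (2 * Real.pi)) ^ ((n : ℝ) / 2) * K) 0 < δ' := by
      rw [h0]; exact hδ'p
    have h1 := (hc.tendsto 0).eventually (gt_mem_nhds hlt)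
    obtain ⟨r, hr, hball⟩ := Metric.eventually_nhds_iff.1 h1
    refine ⟨r / 2, by positivity, ?_⟩
    apply hball
    rw [Real.dist_eq, sub_zero, abs_of_pos (by positivity)]
    linarith
  obtain ⟨θ, hθ, hθK⟩ := hθex
  refine ⟨θ * δ / 2, by positivity, ?_⟩
  intro κ hκ hκ₀ ε hε hε1 j k hjk
  have hpi := Real.pi_pos
  have hcε : 0 < (ε / (2 * Real.pi)) ^ ((n : ℝ) / 2) := Real.rpow_pos_of_pos (by positivity) _
  -- the main term
  have hmain : Ie ε (fun ω : Fin 4 → V n => wt θ (ω j + ω k)) ≤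
      (ε / (2 * Real.pi)) ^ ((n : ℝ) / 2) * (3 * δ') := by
    rw [EST2_fou hn hε hθ j k hjk]
    have h1 := EST2_dbl (R := R) hn hB hε hθ hs
    have hcθ : 0 < (θ / (2 * Real.pi)) ^ ((n : ℝ) / 2) := Real.rpow_pos_of_pos (by positivity) _
    have h8 : (θ / (2 * Real.pi)) ^ ((n : ℝ) / 2) * (2 * Real.pi / θ) ^ ((n : ℝ) / 2) = 1 := by
      rw [← Real.mul_rpow (by positivity) (by positivity)]
      have : θ / (2 * Real.pi) * (2 * Real.pi / θ) = 1 := by field_simp
      rw [this, Real.one_rpow]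
    have h2 := mul_le_mul_of_nonneg_left h1 hcθ.le
    have h3 : (θ / (2 * Real.pi)) ^ ((n : ℝ) / 2) * (K +
        (s * (∫ y : V n, EST2_t R y) + s⁻¹ * I4) * (2 * Real.pi / θ) ^ ((n : ℝ) / 2)) =
        (θ / (2 * Real.pi)) ^ ((n : ℝ) / 2) * K +
        (s * (∫ y : V n, EST2_t R y) + s⁻¹ * I4) *
        ((θ / (2 * Real.pi)) ^ ((n : ℝ) / 2) * (2 * Real.pi / θ) ^ ((n : ℝ) / 2)) := by ring
    rw [h3, h8] at h2
    rw [mul_comm ((θ / (2 * Real.pi)) ^ ((n : ℝ) / 2)) ((ε / (2 * Real.pi)) ^ ((n : ℝ) / 2)),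
      mul_assoc]
    apply mul_le_mul_of_nonneg_left _ hcε.le
    linarith
  -- denominator
  have hden : (ε / (2 * Real.pi)) ^ ((n : ℝ) / 2) * c1 ≤ Ie (n := n) (m := 4) ε (fun _ => 1) := by
    rw [hZN n hn ε hε]
    apply mul_le_mul_of_nonneg_left _ hcε.le
    apply integral_mono (hint 1 one_pos) (hint ε hε)
    intro y
    have h2 : 0 ≤ u0 y ^ 4 := by positivity
    apply mul_le_mul_of_nonneg_left _ h2
    apply Real.exp_le_exp.2
    have h3 : 0 ≤ ‖y‖ ^ 2 := by positivity
    nlinarith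
  have hdpos : 0 < (ε / (2 * Real.pi)) ^ ((n : ℝ) / 2) * c1 := mul_pos hcε hc1
  have hIpos : 0 < Ie (n := n) (m := 4) ε (fun _ => 1) := lt_of_lt_of_le hdpos hden
  -- integrability
  have hvj : ∀ i : Fin 4, Continuous fun ω : Fin 4 → Sp n => vec ω i := fun i =>
    continuous_subtype_val.comp (continuous_apply i)
  have hwt : ∀ (b : ℝ), Continuous fun x : V n => wt b x := by
    intro b
    unfold wt
    fun_prop
  have hwc : Continuous fun ω : Fin 4 → Sp n => wt ε (∑ i, vec ω i) :=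
    (hwt ε).comp (continuous_finsetSum _ fun i _ => hvj i)
  have hci : ∀ g : (Fin 4 → Sp n) → ℝ, Continuous g →
      Integrable (fun ω => g ω * wt ε (∑ i, vec ω i)) (pm n 4) := by
    intro g hg
    exact (hg.mul hwc).integrable_of_hasCompactSupport (HasCompactSupport.of_compactSpace _)
  -- the numerator
  have hnum : Ie ε (fun ω : Fin 4 → V n => κ / (‖ω j + ω k‖ ^ 2 + κ)) ≤
      2 * Ie ε (fun ω : Fin 4 → V n => wt θ (ω j + ω k)) +
        κ / θ * Ie (n := n) (m := 4) ε (fun _ => 1) := by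
    unfold Ie
    rw [← integral_const_mul, ← integral_const_mul, ← integral_add]
    · apply integral_mono
      · refine hci (fun ω => κ / (‖vec ω j + vec ω k‖ ^ 2 + κ)) ?_
        refine continuous_const.div ((((hvj j).add (hvj k)).norm.pow 2).add continuous_const) ?_
        intro ω
        positivity
      · exact ((hci (fun ω => wt θ (vec ω j + vec ω k))
          ((hwt θ).comp ((hvj j).add (hvj k)))).const_mul 2).add
          ((hci (fun _ => 1) continuous_const).const_mul _)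
      · intro ω
        have hw0 : 0 ≤ wt ε (∑ i, vec ω i) := (Real.exp_pos _).le
        have h1 : κ / (‖vec ω j + vec ω k‖ ^ 2 + κ) ≤
            2 * wt θ (vec ω j + vec ω k) + κ / θ := by
          set x := vec ω j + vec ω k
          have hwθ : 0 ≤ wt θ x := (Real.exp_pos _).le
          by_cases hx : ‖x‖ ^ 2 ≤ θ
          · have h2 : κ / (‖x‖ ^ 2 + κ) ≤ 1 := by
              rw [div_le_one (by positivity)]
              have : 0 ≤ ‖x‖ ^ 2 := by positivity
              linarith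
            have h3 : 1 / 2 ≤ wt θ x := by
              unfold wt
              have h4 := Real.add_one_le_exp (-(‖x‖ ^ 2 / (2 * θ)))
              have h5 : ‖x‖ ^ 2 / (2 * θ) ≤ 1 / 2 := by
                rw [div_le_div_iff₀ (by positivity) (by positivity)]
                linarith
              linarith
            have h4 : 0 ≤ κ / θ := by positivity
            linarith
          · push Not at hx
            have h2 : κ / (‖x‖ ^ 2 + κ) ≤ κ / θ := by
              apply div_le_div_of_nonneg_left hκ.le hθ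
              linarith
            linarith
        have h2 := mul_le_mul_of_nonneg_right h1 hw0
        simp only
        linarith
    · exact (hci (fun ω => wt θ (vec ω j + vec ω k))
          ((hwt θ).comp ((hvj j).add (hvj k)))).const_mul 2
    · exact (hci (fun _ => 1) continuous_const).const_mul _
  unfold Ee
  rw [div_le_iff₀ hIpos]
  refine hnum.trans ?_
  have h1 : κ / θ ≤ δ / 2 := by
    rw [div_le_iff₀ hθ]
    linarith
  have h2 : κ / θ * Ie (n := n) (m := 4) ε (fun _ => 1) ≤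
      δ / 2 * Ie (n := n) (m := 4) ε (fun _ => 1) := mul_le_mul_of_nonneg_right h1 hIpos.le
  have h3 : 2 * ((ε / (2 * Real.pi)) ^ ((n : ℝ) / 2) * (3 * δ')) =
      δ / 2 * ((ε / (2 * Real.pi)) ^ ((n : ℝ) / 2) * c1) := by
    rw [hδ']
    ring
  have h4 := mul_le_mul_of_nonneg_left hden (by positivity : 0 ≤ δ / 2)
  linarith

end Pool.Agent.SPH4
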