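import Pool.Agent.SPH4.Targets
import Pool.Agent.ExpMax.INV

set_option autoImplicit false

/-!
# ROT: infinitesimal rotation invariance of the product measure
-/

noncomputable section

open MeasureTheory Set Filter
open scoped ENNReal RealInnerProductSpace Topology

namespace Pool.Agent.SPH4

open Pool.Agent.ExpMax

/-- The one parameter group. -/
def ROT_E {n : ℕ} (A : V n →L[ℝ] V n) (s : ℝ) : V n →L[ℝ] V n := NormedSpace.exp (s • A)

lemma ROT_E_zero {n : ℕ} (A : V n →L[ℝ] V n) : ROT_E A 0 = 1 := by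
  unfold ROT_E
  have h : (0 : ℝ) • A = 0 := by
    ext x
    simp
  rw [h, NormedSpace.exp_zero]

lemma ROT_E_deriv {n : ℕ} (A : V n →L[ℝ] V n) (s : ℝ) (x : V n) :
    HasDerivAt (fun s => ROT_E A s x) (A (ROT_E A s x)) s := by
  have h1 : HasDerivAt (fun u : ℝ => NormedSpace.exp (u • A)) (A * NormedSpace.exp (s • A)) s :=
    hasDerivAt_exp_smul_const' A s
  have h2 := h1.clm_apply (hasDerivAt_const s x)
  simpa [ROT_E] using h2

lemma ROT_E_norm {n : ℕ} (A : V n →L[ℝ] V n) (hA : ∀ x, ⟪A x, x⟫ = 0) (s : ℝ) (x : V n) :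
    ‖ROT_E A s x‖ = ‖x‖ := by
  have h1 : ∀ s : ℝ, HasDerivAt (fun s => ⟪ROT_E A s x, ROT_E A s x⟫) 0 s := by
    intro s
    have h2 := (ROT_E_deriv A s x).inner ℝ (ROT_E_deriv A s x)
    have h3 : ⟪ROT_E A s x, A (ROT_E A s x)⟫ + ⟪A (ROT_E A s x), ROT_E A s x⟫ = 0 := by
      rw [real_inner_comm, hA, add_zero]
    rwa [h3] at h2
  have h4 : ⟪ROT_E A s x, ROT_E A s x⟫ = ⟪ROT_E A 0 x, ROT_E A 0 x⟫ :=
    is_const_of_deriv_eq_zero (fun s => (h1 s).differentiableAt) (fun s => (h1 s).deriv) s 0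
  rw [ROT_E_zero, real_inner_self_eq_norm_sq, real_inner_self_eq_norm_sq] at h4
  have h5 : ‖ROT_E A s x‖ ^ 2 = ‖x‖ ^ 2 := by simpa using h4
  exact (sq_eq_sq₀ (norm_nonneg _) (norm_nonneg _)).1 h5

/-- The same as an isometry. -/
def ROT_R {n : ℕ} (A : V n →L[ℝ] V n) (hA : ∀ x, ⟪A x, x⟫ = 0) (s : ℝ) : V n ≃ₗᵢ[ℝ] V n :=
  LinearIsometry.toLinearIsometryEquiv
    (⟨(ROT_E A s).toLinearMap, ROT_E_norm A hA s⟩ : V n →ₗᵢ[ℝ] V n) rfl

lemma ROT_R_apply {n : ℕ} (A : V n →L[ℝ] V n) (hA : ∀ x, ⟪A x, x⟫ = 0) (s : ℝ) (x : V n) :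
    ROT_R A hA s x = ROT_E A s x := rfl

/-- Rotation of the coordinates in `I`. -/
def ROT_T {n m : ℕ} (A : V n →L[ℝ] V n) (hA : ∀ x, ⟪A x, x⟫ = 0) (I : Finset (Fin m)) (s : ℝ)
    (ω : Fin m → Sp n) : Fin m → Sp n :=
  fun j => if j ∈ I then rot (ROT_R A hA s) (ω j) else ω j

lemma ROT_T_zero {n m : ℕ} (A : V n →L[ℝ] V n) (hA : ∀ x, ⟪A x, x⟫ = 0) (I : Finset (Fin m))
    (ω : Fin m → Sp n) : ROT_T A hA I 0 ω = ω := by
  funext j
  unfold ROT_T
  split_ifs with hj
  · apply Subtype.ext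
    show ROT_R A hA 0 (ω j : V n) = ω j
    rw [ROT_R_apply, ROT_E_zero]
    rfl
  · rfl

lemma ROT_fin {n : ℕ} (hn : 1 ≤ n) : 1 ≤ Module.finrank ℝ (V n) := by
  rw [finrank_euclideanSpace, Fintype.card_fin]
  exact hn

lemma ROT_mp {n m : ℕ} (hn : 1 ≤ n) (A : V n →L[ℝ] V n) (hA : ∀ x, ⟪A x, x⟫ = 0)
    (I : Finset (Fin m)) (s : ℝ) :
    MeasurePreserving (ROT_T A hA I s) (pm n m) (pm n m) := by
  have := (tINV (V n) (ROT_fin hn)).1
  have h1 : ∀ j : Fin m, MeasurePreserving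
      (fun w : Sp n => if j ∈ I then rot (ROT_R A hA s) w else w) (prb (V n)) (prb (V n)) := by
    intro j
    by_cases hj : j ∈ I
    · simp only [if_pos hj]
      exact (tINV (V n) (ROT_fin hn)).2 _
    · simp only [if_neg hj]
      exact MeasurePreserving.id _
  exact measurePreserving_pi (fun _ : Fin m => prb (V n)) (fun _ : Fin m => prb (V n)) h1

lemma ROT_vec_cont {n m : ℕ} : Continuous (vec : (Fin m → Sp n) → Fin m → V n) := by
  unfold vec
  fun_prop

/-- The derivative. -/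
def ROT_D {n m : ℕ} (A : V n →L[ℝ] V n) (I : Finset (Fin m)) (h : (Fin m → V n) → ℝ)
    (ω : Fin m → Sp n) : ℝ :=
  fderiv ℝ h (vec ω) (fun j => if j ∈ I then A (ω j) else 0)

lemma ROT_D_cont {n m : ℕ} (A : V n →L[ℝ] V n) (I : Finset (Fin m)) (h : (Fin m → V n) → ℝ)
    (hh : CNm 1 h) : Continuous (ROT_D A I h) := by
  obtain ⟨U, hU, hUv, hc⟩ := hh
  have h1 : ContinuousOn (fun x => fderiv ℝ h x) U := hc.continuousOn_fderiv_of_isOpen hU le_rfl
  have h2 : Continuous (fun ω : Fin m → Sp n => fderiv ℝ h (vec ω)) :=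
    h1.comp_continuous ROT_vec_cont hUv
  have h3 : Continuous (fun ω : Fin m → Sp n => (fun j => if j ∈ I then A (ω j) else 0 :
      Fin m → V n)) := by
    refine continuous_pi fun j => ?_
    by_cases hj : j ∈ I
    · simp only [if_pos hj]
      fun_prop
    · simp only [if_neg hj]
      exact continuous_const
  exact h2.clm_apply h3

lemma ROT_h_cont {n m : ℕ} (h : (Fin m → V n) → ℝ) (hh : CNm 1 h) :
    Continuous (fun ω : Fin m → Sp n => h (vec ω)) := by
  obtain ⟨U, hU, hUv, hc⟩ := hh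
  exact hc.continuousOn.comp_continuous ROT_vec_cont hUv

lemma ROT_T_cont {n m : ℕ} (A : V n →L[ℝ] V n) (hA : ∀ x, ⟪A x, x⟫ = 0)
    (I : Finset (Fin m)) (s : ℝ) : Continuous (ROT_T A hA I s : (Fin m → Sp n) → Fin m → Sp n) := by
  refine continuous_pi fun j => ?_
  unfold ROT_T
  by_cases hj : j ∈ I
  · simp only [if_pos hj]
    unfold rot
    exact Continuous.subtype_mk ((ROT_R A hA s).continuous.comp
      (continuous_subtype_val.comp (continuous_apply j))) _
  · simp only [if_neg hj]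
    exact continuous_apply j

lemma ROT_hasDeriv {n m : ℕ} (A : V n →L[ℝ] V n) (hA : ∀ x, ⟪A x, x⟫ = 0)
    (I : Finset (Fin m)) (h : (Fin m → V n) → ℝ) (hh : CNm 1 h) (ω : Fin m → Sp n) (s : ℝ) :
    HasDerivAt (fun s => h (vec (ROT_T A hA I s ω))) (ROT_D A I h (ROT_T A hA I s ω)) s := by
  obtain ⟨U, hU, hUv, hc⟩ := hh
  have h1 : HasFDerivAt h (fderiv ℝ h (vec (ROT_T A hA I s ω))) (vec (ROT_T A hA I s ω)) :=
    ((hc.differentiableOn one_ne_zero).differentiableAt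
      (hU.mem_nhds (hUv (ROT_T A hA I s ω)))).hasFDerivAt
  have h2 : HasDerivAt (fun s => vec (ROT_T A hA I s ω))
      (fun j => if j ∈ I then A (ROT_T A hA I s ω j) else 0) s := by
    rw [hasDerivAt_pi]
    intro j
    by_cases hj : j ∈ I
    · have h3 : (fun s => vec (ROT_T A hA I s ω) j) = fun s => ROT_E A s (ω j) := by
        funext s
        simp only [vec, ROT_T, if_pos hj]
        rfl
      have h4 : ((ROT_T A hA I s ω j : Sp n) : V n) = ROT_E A s (ω j) := by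
        simp only [ROT_T, if_pos hj]
        rfl
      rw [h3, if_pos hj, h4]
      exact ROT_E_deriv A s _
    · have h3 : (fun s => vec (ROT_T A hA I s ω) j) = fun s => (ω j : V n) := by
        funext s
        simp only [vec, ROT_T, if_neg hj]
      rw [h3, if_neg hj]
      exact hasDerivAt_const _ _
  exact h1.comp_hasDerivAt s h2

theorem p_ROT : T_ROT := by
  intro n m hn A hA I h hh
  have := (tINV (V n) (ROT_fin hn)).1
  have : IsProbabilityMeasure (pm n m) := by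
    unfold pm
    infer_instance
  have hDc := ROT_D_cont A I h hh
  have hhc := ROT_h_cont h hh
  obtain ⟨C, hC⟩ : ∃ C, ∀ ω : Fin m → Sp n, ‖ROT_D A I h ω‖ ≤ C := by
    obtain ⟨C, hC⟩ := (isCompact_range hDc).isBounded.exists_norm_le
    exact ⟨C, fun ω => hC _ (mem_range_self ω)⟩
  obtain ⟨C', hC'⟩ : ∃ C, ∀ ω : Fin m → Sp n, ‖h (vec ω)‖ ≤ C := by
    obtain ⟨C, hC⟩ := (isCompact_range hhc).isBounded.exists_norm_le
    exact ⟨C, fun ω => hC _ (mem_range_self ω)⟩
  have hmeas : ∀ s, AEStronglyMeasurable (fun ω => h (vec (ROT_T A hA I s ω))) (pm n m) :=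
    fun s => (hhc.comp (ROT_T_cont A hA I s)).aestronglyMeasurable
  have h1 := hasDerivAt_integral_of_dominated_loc_of_deriv_le (μ := pm n m)
    (F := fun s ω => h (vec (ROT_T A hA I s ω)))
    (F' := fun s ω => ROT_D A I h (ROT_T A hA I s ω)) (x₀ := (0 : ℝ)) (bound := fun _ => C)
    (s := univ) univ_mem (Eventually.of_forall hmeas)
    (Integrable.mono' (integrable_const C') (hmeas 0) (Eventually.of_forall fun ω => hC' _))
    (hDc.comp (ROT_T_cont A hA I 0)).aestronglyMeasurable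
    (Eventually.of_forall fun ω s _ => hC _) (integrable_const C)
    (Eventually.of_forall fun ω s _ => ROT_hasDeriv A hA I h hh ω s)
  have h2 : (fun s : ℝ => ∫ ω, h (vec (ROT_T A hA I s ω)) ∂(pm n m)) =
      fun _ => ∫ ω, h (vec ω) ∂(pm n m) := by
    funext s
    have h3 := ROT_mp (m := m) hn A hA I s
    have h4 : ∫ ω, h (vec ω) ∂(Measure.map (ROT_T A hA I s) (pm n m)) =
        ∫ ω, h (vec (ROT_T A hA I s ω)) ∂(pm n m) :=
      integral_map h3.measurable.aemeasurable hhc.aestronglyMeasurable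
    rw [← h4, h3.map_eq]
  have h5 := h1.2
  rw [h2] at h5
  have h6 := h5.unique (hasDerivAt_const (0 : ℝ) _)
  simp only [ROT_T_zero] at h6
  exact h6

end Pool.Agent.SPH4
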